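import Pool.Agent.H478.ON.Stm2

/-! BLO: the autocorrelation of the gaps in blocks. -/

namespace Pool.Agent.H478.ON.BLO

open Filter Topology MeasureTheory

theorem card_le (K : ℤ) (hK : 0 ≤ K) :
    ((Finset.Icc (-K) K).card : ℝ) = 2 * K + 1 := by
  rw [Int.card_Icc]
  have h1 : ((K + 1 - -K).toNat : ℤ) = 2 * K + 1 := by
    rw [Int.toNat_of_nonneg (by omega)]
    ring
  exact_mod_cast h1

/-- the sum of the square roots -/
theorem S1_le {A r : ℝ} (hA : 1 ≤ A) (hr : 1 ≤ r) {K : ℤ} (h0 : 0 ≤ K) (hK : (K : ℝ) ≤ 2 * A * r + 2) :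
    ∑ k ∈ Finset.Icc (-(K + 1)) (K + 1), Real.sqrt (1 + |(k : ℝ)|) ≤
      11 * A * r * Real.sqrt (6 * A * r) := by
  have hAr : 1 ≤ A * r := one_le_mul_of_one_le_of_one_le hA hr
  have h1 : ∀ k ∈ Finset.Icc (-(K + 1)) (K + 1), Real.sqrt (1 + |(k : ℝ)|) ≤
      Real.sqrt (6 * A * r) := by
    intro k hk
    rw [Finset.mem_Icc] at hk
    refine Real.sqrt_le_sqrt ?_
    have h2 : |k| ≤ K + 1 := abs_le.2 hk
    have h3 : |(k : ℝ)| ≤ (K : ℝ) + 1 := by exact_mod_cast h2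
    nlinarith
  refine (Finset.sum_le_card_nsmul _ _ _ h1).trans ?_
  rw [nsmul_eq_mul, card_le (K + 1) (by omega)]
  refine mul_le_mul_of_nonneg_right ?_ (Real.sqrt_nonneg _)
  push_cast
  nlinarith

theorem card_le_S1 (s : Finset ℤ) : (s.card : ℝ) ≤ ∑ k ∈ s, Real.sqrt (1 + |(k : ℝ)|) := by
  have h1 : ∀ k ∈ s, (1 : ℝ) ≤ Real.sqrt (1 + |(k : ℝ)|) := by
    intro k _
    rw [Real.one_le_sqrt]
    have := abs_nonneg (k : ℝ)
    linarith
  have h2 := Finset.card_nsmul_le_sum s _ 1 h1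
  rw [nsmul_eq_mul, mul_one] at h2
  exact h2

theorem sq_le_cube (d : ℝ) : d ^ 2 ≤ 1 + |d| ^ 3 := by
  rw [← sq_abs]
  have h := abs_nonneg d
  rcases le_total |d| 1 with h1 | h1
  · have h2 : |d| ^ 2 ≤ 1 := pow_le_one₀ h h1
    have h3 : 0 ≤ |d| ^ 3 := pow_nonneg h 3
    linarith
  · have h2 : |d| ^ 2 ≤ |d| ^ 3 := pow_le_pow_right₀ h1 (by norm_num)
    linarith

theorem rpow_id {r : ℝ} (hr : 1 ≤ r) (c A : ℝ) (hA : 1 ≤ A) :
    1 / r ^ 2 * (c * (11 * A * r * Real.sqrt (6 * A * r))) =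
      c * (11 * A) * Real.sqrt (6 * A) / Real.sqrt r := by
  have hr0 : 0 < r := by linarith
  have h1 : Real.sqrt (6 * A * r) = Real.sqrt (6 * A) * Real.sqrt r :=
    Real.sqrt_mul (by linarith) r
  have h2 : Real.sqrt r * Real.sqrt r = r := Real.mul_self_sqrt hr0.le
  have h3 : 0 < Real.sqrt r := Real.sqrt_pos.2 hr0
  rw [h1, eq_div_iff h3.ne']
  have h4 : 1 / r ^ 2 * (c * (11 * A * r * (Real.sqrt (6 * A) * Real.sqrt r))) * Real.sqrt r =
      c * (11 * A) * Real.sqrt (6 * A) * (r * (Real.sqrt r * Real.sqrt r) / r ^ 2) := by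
    ring
  have h5 : r * r / r ^ 2 = 1 := by
    rw [← pow_two]
    exact div_self (by positivity)
  rw [h4, h2, h5, mul_one]

theorem t_BLO (h1 : S_TAY) (h2 : S_EM) (h3 : S_DET) (h4 : S_ELM) (h5 : S_ZM) (h6 : S_ZX)
    (h7 : S_ZF) (h8 : S_ZA) : S_BLO := by
  intro o Z hZ hG hD hC hP f hf hfc hfe A hA hfA ε hε
  obtain ⟨F, hF0, hF1, hF2, hF3, hF4⟩ := h1 f (hf.of_le (by norm_num)) hfc
  obtain ⟨CE, hCE0, hCE⟩ := h2 f hf hfc
  obtain ⟨hE1, -, -⟩ := h4 o Z hZ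
  obtain ⟨CM, hCM0, hCM⟩ := h5 o Z hZ hG hD
  obtain ⟨e1, he1d⟩ : ∃ e1 : ℝ, e1 = ε / 8 := ⟨_, rfl⟩
  have he1 : 0 < e1 := by rw [he1d]; positivity
  have hX := h6 o Z hZ hD hC A hA (e1 / (F + 1)) (by positivity)
  have hPC := hP f hf hfc hfe e1 he1
  have hr1 : ∀ᶠ r : ℝ in atTop, CE / r ≤ e1 :=
    (tendsto_id.const_div_atTop CE).eventually (eventually_le_nhds he1)
  have hr2 : ∀ᶠ r : ℝ in atTop, F * (1 + CM) * (11 * A) * Real.sqrt (6 * A) / Real.sqrt r ≤ e1 :=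
    (Real.tendsto_sqrt_atTop.const_div_atTop _).eventually (eventually_le_nhds he1)
  filter_upwards [hX, hPC, hr1, hr2, eventually_ge_atTop 1] with r r1 r2 r3 r4 r5
  intro K hK
  have hr0 : 0 < r := by linarith
  have hAr : 1 ≤ A * r := one_le_mul_of_one_le_of_one_le hA r5
  obtain ⟨K1, hK1a, hK1b, hK1c⟩ : ∃ K1 : ℤ, 2 * A * r + 1 ≤ K1 ∧ (K1 : ℝ) ≤ 2 * A * r + 2 ∧
      K1 ≤ K := by
    refine ⟨⌈2 * A * r⌉ + 1, ?_, ?_, ?_⟩
    · push_cast
      have := Int.le_ceil (2 * A * r)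
      linarith
    · push_cast
      have := Int.ceil_lt_add_one (2 * A * r)
      linarith
    · have h9 : ⌈2 * A * r⌉ ≤ K - 1 := by
        rw [Int.ceil_le]
        push_cast
        linarith
      omega
  have hK1p : 0 ≤ K1 := by
    have : (0 : ℝ) ≤ K1 := by nlinarith
    exact_mod_cast this
  -- vanishing
  have hvan : ∀ k : ℤ, K1 < |k| → f (k / r) = 0 := by
    intro k hk
    refine hfA _ ?_
    rw [abs_div, abs_of_pos hr0, le_div_iff₀ hr0]
    have h9 : (K1 : ℝ) < |(k : ℝ)| := by exact_mod_cast hk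
    nlinarith
  have hACK : ∀ T, ACb o Z f r K T = ACb o Z f r K1 T := by
    intro T
    unfold ACb
    refine Finset.sum_congr rfl fun n _ => (Finset.sum_subset ?_ ?_).symm
    · intro k hk
      rw [Finset.mem_Icc] at hk ⊢
      omega
    · intro k _ hk
      have h9 : K1 < |k| := by
        by_contra hcon
        exact hk (Finset.mem_Icc.2 (abs_le.1 (not_lt.1 hcon)))
      rw [hvan k h9, mul_zero, mul_zero]
  -- constants
  obtain ⟨N, hN⟩ : ∃ N : ℝ, N = 2 * (K1 : ℝ) + 3 := ⟨_, rfl⟩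
  have hK1r : (0 : ℝ) ≤ K1 := by exact_mod_cast hK1p
  have hN1 : 1 ≤ N := by rw [hN]; linarith
  have hN0 : 0 < N := by linarith
  obtain ⟨e3, he3d⟩ : ∃ e3 : ℝ, e3 = e1 / (4 * r * (F + 1) * N) := ⟨_, rfl⟩
  have he3 : 0 < e3 := by rw [he3d]; positivity
  have hNe3 : 4 * r * (F + 1) * (N * e3) = e1 := by
    rw [he3d]
    field_simp
  have hNe3p : 0 < N * e3 := by positivity
  have hT1 : ∀ᶠ T : ℝ in atTop, ∀ k ∈ Finset.Icc (-(K1 + 1)) (K1 + 1),
      ∑ n ∈ Bk Z T, |dd (xt o) (lb Z T) k n| ^ 3 ≤ CM * Real.sqrt (1 + |(k : ℝ)|) * Mb Z T :=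
    (eventually_all_finset _).2 fun k _ => hCM k
  have hT2 := (eventually_all_finset (Finset.Icc (-(K1 + 1)) (K1 + 1))).2
    fun k _ => h7 o Z hZ k e3 he3
  have hT3 := (eventually_all_finset (Finset.Icc (-K1) K1)).2
    fun k _ => h8 o Z hZ hG k e3 he3
  filter_upwards [r1 K1 hK1a, r2, hT1, hT2, hT3, hE1] with T t1 t2 t3 t4 t5 t6
  obtain ⟨m1, m2, -, -⟩ := t6
  obtain ⟨K0, hK0, hK0'⟩ := (t2.and (eventually_ge_atTop K1)).exists
  rw [hACK]
  obtain ⟨M, hM⟩ : ∃ M : ℝ, M = Mb Z T := ⟨_, rfl⟩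
  rw [← hM] at t3 t4 t5 m1 hK0 ⊢
  have t1' := t1 K0
  rw [← hM] at t1'
  have hM0 : 0 < M := by linarith
  have hMd : M = ((Z (2 * T) : ℤ) : ℝ) - ((Z T : ℤ) : ℝ) := by
    rw [hM]
    unfold Mb
    push_cast
    ring
  have hlt : (Z T : ℤ) < (Z (2 * T) : ℤ) := by
    have h9 : ((Z T : ℤ) : ℝ) < ((Z (2 * T) : ℤ) : ℝ) := by linarith
    exact_mod_cast h9
  have hcard : ((Bk Z T).card : ℝ) = M := by
    unfold Bk
    rw [Int.card_Ioc]
    have h9 : (((Z (2 * T) : ℤ) - (Z T : ℤ)).toNat : ℤ) = (Z (2 * T) : ℤ) - (Z T : ℤ) :=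
      Int.toNat_of_nonneg (by omega)
    rw [hMd]
    exact_mod_cast h9
  obtain ⟨AC', hAC'⟩ : ∃ AC' : ℝ, AC' = ∑ n ∈ Finset.Ioc (Z T : ℤ) (Z (2 * T) : ℤ),
    ∑ k ∈ Finset.Icc (-K1) K1, dd (xt o) (lb Z T) 1 n * dd (xt o) (lb Z T) 1 (n + k) *
      (r * f (k / r)) := ⟨_, rfl⟩
  have hdet := h3 f F A r hF0 hA r5 hfA hF1 hF2 hF4 K1 K0 hK1a hK0' (xt o) (lb Z T) m2
    (Z T : ℤ) (Z (2 * T) : ℤ) hlt M _ AC' _ _ _ _ _ _ hMd rfl hAC' rfl rfl rfl rfl rfl rfl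
  -- the bounds
  obtain ⟨S1, hS1⟩ : ∃ S1 : ℝ, S1 = ∑ k ∈ Finset.Icc (-(K1 + 1)) (K1 + 1),
    Real.sqrt (1 + |(k : ℝ)|) := ⟨_, rfl⟩
  have hS1b : S1 ≤ 11 * A * r * Real.sqrt (6 * A * r) := by
    rw [hS1]
    exact S1_le hA r5 hK1p hK1b
  have hS10 : 0 ≤ S1 := by
    rw [hS1]
    exact Finset.sum_nonneg fun _ _ => Real.sqrt_nonneg _
  have hmain : F / r ^ 2 * ((1 + CM) * S1) ≤ e1 := by
    have h9 : F / r ^ 2 * ((1 + CM) * S1) ≤
        1 / r ^ 2 * (F * (1 + CM) * (11 * A * r * Real.sqrt (6 * A * r))) := by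
      have h10 : F / r ^ 2 * ((1 + CM) * S1) = 1 / r ^ 2 * (F * (1 + CM) * S1) := by ring
      rw [h10]
      exact mul_le_mul_of_nonneg_left (mul_le_mul_of_nonneg_left hS1b (by positivity))
        (by positivity)
    rw [rpow_id r5 _ A hA] at h9
    exact h9.trans r4
  have b1 : r * |∑ k ∈ Finset.Icc (-K1) K1, f (k / r) - r * ∫ x, f x| ≤ e1 := by
    have h9 := hCE r r5 K1 hvan
    have h10 := mul_le_mul_of_nonneg_left h9 hr0.le
    have h11 : r * (CE / r ^ 2) = CE / r := by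
      field_simp
    rw [h11] at h10
    exact h10.trans r3
  have b2 : F * ∑ k ∈ Finset.Icc (-K1) K1,
      |∑ n ∈ Finset.Ioc (Z T : ℤ) (Z (2 * T) : ℤ), dd (xt o) (lb Z T) k n| ≤ e1 * M := by
    have h9 : ∑ k ∈ Finset.Icc (-K1) K1,
        |∑ n ∈ Finset.Ioc (Z T : ℤ) (Z (2 * T) : ℤ), dd (xt o) (lb Z T) k n| ≤ N * e3 * M := by
      refine (Finset.sum_le_card_nsmul _ _ (e3 * M) fun k hk => ?_).trans ?_
      · rw [Finset.mem_Icc] at hk
        exact (t4 k (Finset.mem_Icc.2 ⟨by omega, by omega⟩)).1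
      · rw [nsmul_eq_mul, card_le K1 hK1p, mul_assoc]
        refine mul_le_mul_of_nonneg_right ?_ (by positivity)
        rw [hN]
        linarith
    refine (mul_le_mul_of_nonneg_left h9 hF0).trans ?_
    have h10 : F * (N * e3) ≤ e1 := by
      rw [← hNe3]
      refine mul_le_mul_of_nonneg_right ?_ hNe3p.le
      nlinarith
    nlinarith
  have b3 : F / r ^ 2 * ∑ k ∈ Finset.Icc (-(K1 + 1)) (K1 + 1),
      ∑ n ∈ Finset.Ioc (Z T : ℤ) (Z (2 * T) : ℤ), |dd (xt o) (lb Z T) k n| ^ 3 ≤ e1 * M := by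
    have h9 : ∑ k ∈ Finset.Icc (-(K1 + 1)) (K1 + 1),
      ∑ n ∈ Finset.Ioc (Z T : ℤ) (Z (2 * T) : ℤ), |dd (xt o) (lb Z T) k n| ^ 3 ≤
        (1 + CM) * S1 * M := by
      refine (Finset.sum_le_sum fun k hk => t3 k hk).trans ?_
      have h10 : ∑ k ∈ Finset.Icc (-(K1 + 1)) (K1 + 1), CM * Real.sqrt (1 + |(k : ℝ)|) * M =
          CM * S1 * M := by
        rw [hS1, Finset.mul_sum, Finset.sum_mul]
      rw [h10]
      nlinarith [mul_nonneg hS10 hM0.le]
    have h11 := mul_le_mul_of_nonneg_left h9 (show 0 ≤ F / r ^ 2 by positivity)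
    have h12 := mul_le_mul_of_nonneg_right hmain hM0.le
    calc _ ≤ F / r ^ 2 * ((1 + CM) * S1 * M) := h11
      _ = F / r ^ 2 * ((1 + CM) * S1) * M := by ring
      _ ≤ e1 * M := h12
  have b5 : F / r ^ 2 * ∑ k ∈ Finset.Icc (-(K1 + 1)) (K1 + 1),
      ∑ n ∈ Finset.Ioc (Z T : ℤ) (Z (2 * T) : ℤ), dd (xt o) (lb Z T) k n ^ 2 ≤ e1 * M := by
    have h9 : ∑ k ∈ Finset.Icc (-(K1 + 1)) (K1 + 1),
      ∑ n ∈ Finset.Ioc (Z T : ℤ) (Z (2 * T) : ℤ), dd (xt o) (lb Z T) k n ^ 2 ≤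
        (1 + CM) * S1 * M := by
      have h10 : ∀ k ∈ Finset.Icc (-(K1 + 1)) (K1 + 1),
          ∑ n ∈ Finset.Ioc (Z T : ℤ) (Z (2 * T) : ℤ), dd (xt o) (lb Z T) k n ^ 2 ≤
            M + CM * Real.sqrt (1 + |(k : ℝ)|) * M := by
        intro k hk
        refine (Finset.sum_le_sum fun n _ => sq_le_cube _).trans ?_
        rw [Finset.sum_add_distrib]
        refine add_le_add ?_ (t3 k hk)
        rw [Finset.sum_const, nsmul_eq_mul, mul_one]
        exact le_of_eq hcard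
      refine (Finset.sum_le_sum h10).trans ?_
      rw [Finset.sum_add_distrib, Finset.sum_const, nsmul_eq_mul]
      have h11 : ∑ k ∈ Finset.Icc (-(K1 + 1)) (K1 + 1), CM * Real.sqrt (1 + |(k : ℝ)|) * M =
          CM * S1 * M := by
        rw [hS1, Finset.mul_sum, Finset.sum_mul]
      rw [h11]
      have h12 : ((Finset.Icc (-(K1 + 1)) (K1 + 1)).card : ℝ) ≤ S1 := by
        rw [hS1]
        exact card_le_S1 _
      have h13 := mul_le_mul_of_nonneg_right h12 hM0.le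
      linarith
    have h11 := mul_le_mul_of_nonneg_left h9 (show 0 ≤ F / r ^ 2 by positivity)
    have h12 := mul_le_mul_of_nonneg_right hmain hM0.le
    calc _ ≤ F / r ^ 2 * ((1 + CM) * S1 * M) := h11
      _ = F / r ^ 2 * ((1 + CM) * S1) * M := by ring
      _ ≤ e1 * M := h12
  have b4 : r * F * ∑ n ∈ Finset.Ioc (Z T : ℤ) (Z (2 * T) : ℤ), ∑ k ∈ Finset.Icc (-K0) K0,
      (if K1 < |k| ∧ |lb Z T * (xt o (n + k) - xt o n)| < A * r then (1 : ℝ) else 0) ≤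
        e1 * M := by
    have h9 := mul_le_mul_of_nonneg_left t1' hF0
    have h10 : F * (e1 / (F + 1) * M) ≤ e1 * M := by
      have h11 : F * (e1 / (F + 1)) ≤ e1 := by
        have h12 : F * (e1 / (F + 1)) = e1 * (F / (F + 1)) := by ring
        rw [h12]
        have h13 : F / (F + 1) ≤ 1 := by
          rw [div_le_one (by linarith)]
          linarith
        nlinarith
      nlinarith
    refine le_trans (le_of_eq ?_) (h9.trans h10)
    unfold Bk
    ring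
  have b6 : r * F * ∑ k ∈ Finset.Icc (-K1) K1,
      (dd (xt o) (lb Z T) (k - 1) ((Z (2 * T) : ℤ) + 1) ^ 2 +
        dd (xt o) (lb Z T) (k - 1) ((Z T : ℤ) + 1) ^ 2 +
        dd (xt o) (lb Z T) k ((Z (2 * T) : ℤ) + 1) ^ 2 +
        dd (xt o) (lb Z T) k ((Z T : ℤ) + 1) ^ 2) ≤ e1 * M := by
    have h9 : ∑ k ∈ Finset.Icc (-K1) K1,
      (dd (xt o) (lb Z T) (k - 1) ((Z (2 * T) : ℤ) + 1) ^ 2 +
        dd (xt o) (lb Z T) (k - 1) ((Z T : ℤ) + 1) ^ 2 +
        dd (xt o) (lb Z T) k ((Z (2 * T) : ℤ) + 1) ^ 2 +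
        dd (xt o) (lb Z T) k ((Z T : ℤ) + 1) ^ 2) ≤ N * (4 * (e3 * M)) := by
      refine (Finset.sum_le_card_nsmul _ _ (4 * (e3 * M)) fun k hk => ?_).trans ?_
      · rw [Finset.mem_Icc] at hk
        have g1 := t4 k (Finset.mem_Icc.2 ⟨by omega, by omega⟩)
        have g2 := t4 (k - 1) (Finset.mem_Icc.2 ⟨by omega, by omega⟩)
        linarith [g1.2.1, g1.2.2, g2.2.1, g2.2.2]
      · rw [nsmul_eq_mul, card_le K1 hK1p]
        refine mul_le_mul_of_nonneg_right ?_ (by positivity)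
        rw [hN]
        linarith
    refine (mul_le_mul_of_nonneg_left h9 (by positivity)).trans ?_
    have h10 : r * F * (N * (4 * (e3 * M))) = 4 * r * F * (N * e3) * M := by ring
    rw [h10]
    refine mul_le_mul_of_nonneg_right ?_ hM0.le
    rw [← hNe3]
    refine mul_le_mul_of_nonneg_right ?_ hNe3p.le
    nlinarith
  -- comparison with the normalised gaps
  have b7 : |ACb o Z f r K1 T - AC'| ≤ e1 * M := by
    rw [hAC']
    unfold ACb Bk
    rw [← Finset.sum_sub_distrib]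
    simp_rw [← Finset.sum_sub_distrib]
    rw [Finset.sum_comm]
    refine (Finset.abs_sum_le_sum_abs _ _).trans ?_
    have h9 : ∀ k ∈ Finset.Icc (-K1) K1, |∑ n ∈ Finset.Ioc (Z T : ℤ) (Z (2 * T) : ℤ),
        ((dl o n.toNat - 1) * (dl o (n + k).toNat - 1) * (r * f (k / r)) -
          dd (xt o) (lb Z T) 1 n * dd (xt o) (lb Z T) 1 (n + k) * (r * f (k / r)))| ≤
          r * F * (e3 * M) := by
      intro k hk
      refine (Finset.abs_sum_le_sum_abs _ _).trans ?_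
      have h10 : ∀ n ∈ Finset.Ioc (Z T : ℤ) (Z (2 * T) : ℤ),
          |(dl o n.toNat - 1) * (dl o (n + k).toNat - 1) * (r * f (k / r)) -
          dd (xt o) (lb Z T) 1 n * dd (xt o) (lb Z T) 1 (n + k) * (r * f (k / r))| ≤
          r * F * |dd (xt o) (lb Z T) 1 n * dd (xt o) (lb Z T) 1 (n + k) -
            (dl o n.toNat - 1) * (dl o (n + k).toNat - 1)| := by
        intro n _
        rw [← sub_mul, abs_mul, abs_sub_comm, mul_comm]
        refine mul_le_mul_of_nonneg_right ?_ (abs_nonneg _)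
        rw [abs_mul, abs_of_pos hr0]
        exact mul_le_mul_of_nonneg_left (hF1 _) hr0.le
      refine (Finset.sum_le_sum h10).trans ?_
      rw [← Finset.mul_sum]
      exact mul_le_mul_of_nonneg_left (t5 k hk) (by positivity)
    refine (Finset.sum_le_sum h9).trans ?_
    rw [Finset.sum_const, nsmul_eq_mul, card_le K1 hK1p]
    have h11 : (2 * (K1 : ℝ) + 1) * (r * F * (e3 * M)) ≤ N * (r * F * (e3 * M)) := by
      refine mul_le_mul_of_nonneg_right ?_ (by positivity)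
      rw [hN]
      linarith
    refine h11.trans ?_
    have h12 : N * (r * F * (e3 * M)) = r * F * (N * e3) * M := by ring
    rw [h12]
    refine mul_le_mul_of_nonneg_right ?_ hM0.le
    rw [← hNe3]
    refine mul_le_mul_of_nonneg_right ?_ hNe3p.le
    nlinarith
  -- conclusion
  have hsum := add_le_add b1 (show (_ : ℝ) / M ≤ (5 * (e1 * M)) / M from
    div_le_div_of_nonneg_right (show _ ≤ 5 * (e1 * M) from by
      have := add_le_add (add_le_add (add_le_add (add_le_add b2 b3) b4) b5) b6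
      refine this.trans (le_of_eq ?_)
      ring) hM0.le)
  have hdet2 := hdet.trans hsum
  have h20 : 5 * (e1 * M) / M = 5 * e1 := by
    field_simp
  rw [h20] at hdet2
  have h21 : |AC' / M - kap f| ≤ 7 * e1 := by
    have h22 := abs_sub_le (AC' / M) (r * ((∑ n ∈ Bk Z T, ∑ k ∈ Finset.Icc (-K0) K0,
      f (lb Z T * (xt o (n + k) - xt o n) / r)) / M - r * ∫ x, f x)) (kap f)
    refine h22.trans ?_
    refine (add_le_add hdet2 hK0).trans (le_of_eq ?_)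
    ring
  have h23 : |AC' - kap f * M| ≤ 7 * e1 * M := by
    have h24 : AC' - kap f * M = (AC' / M - kap f) * M := by
      field_simp
    rw [h24, abs_mul, abs_of_pos hM0]
    exact mul_le_mul_of_nonneg_right h21 hM0.le
  have h25 := abs_sub_le (ACb o Z f r K1 T) AC' (kap f * M)
  refine h25.trans ((add_le_add b7 h23).trans (le_of_eq ?_))
  rw [he1d]
  ring

end Pool.Agent.H478.ON.BLO
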