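import Pool.Agent.H478.ON.Stm

/-! The constant of a function supported away from `0` (helper344, for the project ON). -/

set_option autoImplicit false

namespace Pool.Agent.H478.ON.COV

open Filter Topology MeasureTheory

/-- the sine transform -/
noncomputable def st (f : ℝ → ℝ) (ξ : ℝ) : ℝ := ∫ x : ℝ, f x * Real.sin (ξ * x)

/-- smooth functions with compact support -/
def Nice (k : ℕ) (h : ℝ → ℝ) : Prop := ContDiff ℝ ((k : ℕ) : WithTop ℕ∞) h ∧ HasCompactSupport h

theorem Nice.cont {k : ℕ} {h : ℝ → ℝ} (H : Nice k h) : Continuous h := H.1.continuous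

theorem Nice.mono {k l : ℕ} {h : ℝ → ℝ} (H : Nice k h) (hl : l ≤ k) : Nice l h :=
  ⟨H.1.of_le (by exact_mod_cast hl), H.2⟩

theorem Nice.deriv {k : ℕ} {h : ℝ → ℝ} (H : Nice (k + 1) h) : Nice k (deriv h) := by
  refine ⟨?_, H.2.deriv⟩
  have h1 := H.1
  rw [Nat.cast_add, Nat.cast_one, contDiff_succ_iff_deriv] at h1
  exact h1.2.2

theorem Nice.hasDerivAt {k : ℕ} {h : ℝ → ℝ} (H : Nice (k + 1) h) (x : ℝ) :
    HasDerivAt h (_root_.deriv h x) x := by
  have h1 := H.1
  rw [Nat.cast_add, Nat.cast_one, contDiff_succ_iff_deriv] at h1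
  exact (h1.1 x).hasDerivAt

theorem int_of {h : ℝ → ℝ} (hc : Continuous h) (hs : HasCompactSupport h) {u : ℝ → ℝ}
    (hu : Continuous u) : Integrable (fun x => h x * u x) :=
  (hc.mul hu).integrable_of_hasCompactSupport (hs.mul_right)

theorem ct_le {h : ℝ → ℝ} (hc : Continuous h) (hs : HasCompactSupport h) (ξ : ℝ) :
    |ct h ξ| ≤ ∫ x, |h x| := by
  unfold ct
  have hi : Integrable h := hc.integrable_of_hasCompactSupport hs
  rw [← Real.norm_eq_abs]
  refine norm_integral_le_of_norm_le hi.norm ?_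
  filter_upwards with x
  rw [norm_mul]
  calc ‖h x‖ * ‖Real.cos (ξ * x)‖ ≤ ‖h x‖ * 1 :=
        mul_le_mul_of_nonneg_left (Real.abs_cos_le_one _) (norm_nonneg _)
    _ = ‖h x‖ := mul_one _

theorem st_le {h : ℝ → ℝ} (hc : Continuous h) (hs : HasCompactSupport h) (ξ : ℝ) :
    |st h ξ| ≤ ∫ x, |h x| := by
  unfold st
  have hi : Integrable h := hc.integrable_of_hasCompactSupport hs
  rw [← Real.norm_eq_abs]
  refine norm_integral_le_of_norm_le hi.norm ?_
  filter_upwards with x
  rw [norm_mul]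
  calc ‖h x‖ * ‖Real.sin (ξ * x)‖ ≤ ‖h x‖ * 1 :=
        mul_le_mul_of_nonneg_left (Real.abs_sin_le_one _) (norm_nonneg _)
    _ = ‖h x‖ := mul_one _

/-- derivative of the cosine transform -/
theorem ct_deriv {h : ℝ → ℝ} (hc : Continuous h) (hs : HasCompactSupport h) (ξ : ℝ) :
    HasDerivAt (ct h) (-(st (fun x => x * h x) ξ)) ξ := by
  have hx : Continuous fun x : ℝ => x * h x := continuous_id.mul hc
  have hxs : HasCompactSupport fun x : ℝ => x * h x := hs.mul_left
  have h1 := hasDerivAt_integral_of_dominated_loc_of_deriv_le (μ := volume) (s := Set.univ)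
    (x₀ := ξ) (F := fun ξ x => h x * Real.cos (ξ * x))
    (F' := fun ξ x => -(x * h x * Real.sin (ξ * x))) (bound := fun x => |x * h x|)
    Filter.univ_mem
    (Filter.Eventually.of_forall fun ξ' =>
      (int_of hc hs (Real.continuous_cos.comp (continuous_const.mul continuous_id))).1)
    (int_of hc hs (Real.continuous_cos.comp (continuous_const.mul continuous_id)))
    (int_of hx hxs (Real.continuous_sin.comp (continuous_const.mul continuous_id))).neg.1
    (Filter.Eventually.of_forall fun x ξ' _ => by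
      rw [norm_neg, norm_mul]
      calc ‖x * h x‖ * ‖Real.sin (ξ' * x)‖ ≤ ‖x * h x‖ * 1 :=
            mul_le_mul_of_nonneg_left (Real.abs_sin_le_one _) (norm_nonneg _)
        _ = |x * h x| := mul_one _)
    (hx.integrable_of_hasCompactSupport hxs).norm
    (Filter.Eventually.of_forall fun x ξ' _ => by
      have h2 : HasDerivAt (fun ξ' : ℝ => ξ' * x) (1 * x) ξ' := (hasDerivAt_id ξ').mul_const x
      have h3 := (h2.cos).const_mul (h x)
      have e : h x * (-Real.sin (ξ' * x) * (1 * x)) = -(x * h x * Real.sin (ξ' * x)) := by ring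
      rw [e] at h3
      exact h3)
  have h4 := h1.2
  rw [integral_neg] at h4
  exact h4

/-- derivative of the sine transform -/
theorem st_deriv {h : ℝ → ℝ} (hc : Continuous h) (hs : HasCompactSupport h) (ξ : ℝ) :
    HasDerivAt (st h) (ct (fun x => x * h x) ξ) ξ := by
  have hx : Continuous fun x : ℝ => x * h x := continuous_id.mul hc
  have hxs : HasCompactSupport fun x : ℝ => x * h x := hs.mul_left
  have h1 := hasDerivAt_integral_of_dominated_loc_of_deriv_le (μ := volume) (s := Set.univ)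
    (x₀ := ξ) (F := fun ξ x => h x * Real.sin (ξ * x))
    (F' := fun ξ x => (x * h x * Real.cos (ξ * x))) (bound := fun x => |x * h x|)
    Filter.univ_mem
    (Filter.Eventually.of_forall fun ξ' =>
      (int_of hc hs (Real.continuous_sin.comp (continuous_const.mul continuous_id))).1)
    (int_of hc hs (Real.continuous_sin.comp (continuous_const.mul continuous_id)))
    (int_of hx hxs (Real.continuous_cos.comp (continuous_const.mul continuous_id))).1
    (Filter.Eventually.of_forall fun x ξ' _ => by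
      rw [norm_mul]
      calc ‖x * h x‖ * ‖Real.cos (ξ' * x)‖ ≤ ‖x * h x‖ * 1 :=
            mul_le_mul_of_nonneg_left (Real.abs_cos_le_one _) (norm_nonneg _)
        _ = |x * h x| := mul_one _)
    (hx.integrable_of_hasCompactSupport hxs).norm
    (Filter.Eventually.of_forall fun x ξ' _ => by
      have h2 : HasDerivAt (fun ξ' : ℝ => ξ' * x) (1 * x) ξ' := (hasDerivAt_id ξ').mul_const x
      have h3 := (h2.sin).const_mul (h x)
      have e : h x * (Real.cos (ξ' * x) * (1 * x)) = x * h x * Real.cos (ξ' * x) := by ring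
      rw [e] at h3
      exact h3)
  exact h1.2

/-- integration by parts -/
theorem st_ibp {h : ℝ → ℝ} {k : ℕ} (H : Nice (k + 1) h) (ξ : ℝ) :
    ξ * st h ξ = ct (deriv h) ξ := by
  have hcos : Continuous fun x : ℝ => Real.cos (ξ * x) :=
    Real.continuous_cos.comp (continuous_const.mul continuous_id)
  have hsin : Continuous fun x : ℝ => Real.sin (ξ * x) :=
    Real.continuous_sin.comp (continuous_const.mul continuous_id)
  have h1 := integral_mul_deriv_eq_deriv_mul_of_integrable (u := h)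
    (v := fun x => -Real.cos (ξ * x)) (u' := deriv h) (v' := fun x => ξ * Real.sin (ξ * x))
    (fun x _ => H.hasDerivAt x)
    (fun x _ => by
      have h2 : HasDerivAt (fun x : ℝ => ξ * x) (ξ * 1) x := (hasDerivAt_id x).const_mul ξ
      have h3 := (h2.cos).neg
      have e : -(-Real.sin (ξ * x) * (ξ * 1)) = ξ * Real.sin (ξ * x) := by ring
      rw [e] at h3
      exact h3)
    (int_of H.cont H.2 (continuous_const.mul hsin))
    (int_of H.deriv.cont H.deriv.2 hcos.neg)
    (int_of H.cont H.2 hcos.neg)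
  unfold st ct
  rw [← integral_const_mul]
  have e1 : (fun x => ξ * (h x * Real.sin (ξ * x))) = fun x => h x * (ξ * Real.sin (ξ * x)) := by
    funext x
    ring
  rw [e1, h1, ← integral_neg]
  refine integral_congr_ae (Filter.Eventually.of_forall fun x => ?_)
  show -(deriv h x * -Real.cos (ξ * x)) = deriv h x * Real.cos (ξ * x)
  ring

theorem ct_ibp {h : ℝ → ℝ} {k : ℕ} (H : Nice (k + 1) h) (ξ : ℝ) :
    ξ * ct h ξ = -st (deriv h) ξ := by
  have hcos : Continuous fun x : ℝ => Real.cos (ξ * x) :=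
    Real.continuous_cos.comp (continuous_const.mul continuous_id)
  have hsin : Continuous fun x : ℝ => Real.sin (ξ * x) :=
    Real.continuous_sin.comp (continuous_const.mul continuous_id)
  have h1 := integral_mul_deriv_eq_deriv_mul_of_integrable (u := h)
    (v := fun x => Real.sin (ξ * x)) (u' := deriv h) (v' := fun x => ξ * Real.cos (ξ * x))
    (fun x _ => H.hasDerivAt x)
    (fun x _ => by
      have h2 : HasDerivAt (fun x : ℝ => ξ * x) (ξ * 1) x := (hasDerivAt_id x).const_mul ξ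
      have h3 := (h2.sin)
      have e : Real.cos (ξ * x) * (ξ * 1) = ξ * Real.cos (ξ * x) := by ring
      rw [e] at h3
      exact h3)
    (int_of H.cont H.2 (continuous_const.mul hcos))
    (int_of H.deriv.cont H.deriv.2 hsin)
    (int_of H.cont H.2 hsin)
  unfold st ct
  rw [← integral_const_mul]
  have e1 : (fun x => ξ * (h x * Real.cos (ξ * x))) = fun x => h x * (ξ * Real.cos (ξ * x)) := by
    funext x
    ring
  rw [e1, h1]

/-- the main computation -/
theorem main_int {g : ℝ → ℝ} (hg : Nice 6 g) (hk : Nice 6 (fun x => x * g x))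
    (hF : Nice 6 (fun x => x * (x * g x))) :
    ∫ ξ in Set.Ioi (0 : ℝ), ξ * ct (fun x => x * (x * g x)) ξ = -∫ x, g x := by
  obtain ⟨kk, hkk⟩ : ∃ kk : ℝ → ℝ, kk = fun x => x * g x := ⟨_, rfl⟩
  obtain ⟨F, hFF⟩ : ∃ F : ℝ → ℝ, F = fun x => x * (x * g x) := ⟨_, rfl⟩
  rw [← hkk] at hk
  rw [← hFF] at hF ⊢
  have hd1 : ∀ ξ, HasDerivAt (ct g) (-(st kk ξ)) ξ := by
    intro ξ
    rw [hkk]
    exact ct_deriv hg.cont hg.2 ξ
  have hd2 : ∀ ξ, HasDerivAt (st kk) (ct F ξ) ξ := by
    intro ξ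
    have h1 := st_deriv hk.cont hk.2 ξ
    have e : (fun x => x * kk x) = F := by rw [hkk, hFF]
    rw [e] at h1
    exact h1
  have hd3 : ∀ ξ, HasDerivAt (fun ξ => ct g ξ + ξ * st kk ξ) (ξ * ct F ξ) ξ := by
    intro ξ
    have h1 := (hd1 ξ).add ((hasDerivAt_id ξ).mul (hd2 ξ))
    have e : -(st kk ξ) + (1 * st kk ξ + id ξ * ct F ξ) = ξ * ct F ξ := by
      show -(st kk ξ) + (1 * st kk ξ + ξ * ct F ξ) = ξ * ct F ξ
      ring
    rw [e] at h1
    exact h1
  -- decay
  obtain ⟨C, hC⟩ : ∃ C : ℝ, ∀ ξ, |ξ * (ct g ξ + ξ * st kk ξ)| ≤ C := by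
    refine ⟨(∫ x, |deriv g x|) + ∫ x, |deriv (deriv kk) x|, fun ξ => ?_⟩
    have e : ξ * (ct g ξ + ξ * st kk ξ) = -st (deriv g) ξ + -st (deriv (deriv kk)) ξ := by
      rw [st_ibp (k := 5) hk, mul_add, ct_ibp (k := 5) hg, ct_ibp (k := 4) (Nice.deriv (k := 5) hk)]
    rw [e]
    refine (abs_add_le _ _).trans ?_
    rw [abs_neg, abs_neg]
    exact add_le_add (st_le (Nice.deriv (k := 5) hg).cont (Nice.deriv (k := 5) hg).2 ξ)
      (st_le (Nice.deriv (k := 4) (Nice.deriv (k := 5) hk)).cont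
        (Nice.deriv (k := 4) (Nice.deriv (k := 5) hk)).2 ξ)
  have hlim : Tendsto (fun ξ => ct g ξ + ξ * st kk ξ) atTop (𝓝 0) := by
    have h1 : Tendsto (fun ξ : ℝ => C * ξ⁻¹) atTop (𝓝 (C * 0)) :=
      tendsto_inv_atTop_zero.const_mul C
    rw [mul_zero] at h1
    refine squeeze_zero_norm' ?_ h1
    filter_upwards [eventually_gt_atTop (0 : ℝ)] with ξ hξ
    rw [Real.norm_eq_abs, ← div_eq_mul_inv, le_div_iff₀ hξ]
    have h2 := hC ξ
    rw [abs_mul, abs_of_pos hξ] at h2
    linarith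
  -- integrability
  have hctc : Continuous (ct F) := continuous_iff_continuousAt.2 fun ξ =>
    (ct_deriv hF.cont hF.2 ξ).continuousAt
  have hint : Integrable (fun ξ => ξ * ct F ξ) := by
    have hF1 := Nice.deriv (k := 5) hF
    have hF2 := Nice.deriv (k := 4) hF1
    have hF3 := Nice.deriv (k := 3) hF2
    have hb : ∀ ξ : ℝ, ‖ξ * ct F ξ‖ ≤ ((∫ x, |deriv F x|) +
        ∫ x, |deriv (deriv (deriv F)) x|) * (1 + ξ ^ 2)⁻¹ := by
      intro ξ
      rw [← div_eq_mul_inv, le_div_iff₀ (by positivity)]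
      have e1 : ξ * ct F ξ = -st (deriv F) ξ := ct_ibp (k := 5) hF ξ
      have e2 : ξ ^ 2 * (ξ * ct F ξ) = st (deriv (deriv (deriv F))) ξ := by
        have h1 : ξ ^ 2 * (ξ * ct F ξ) = -(ξ * (ξ * st (deriv F) ξ)) := by
          rw [e1]
          ring
        rw [h1, st_ibp (k := 4) hF1, ct_ibp (k := 3) hF2, neg_neg]
      have h2 : ‖ξ * ct F ξ‖ * (1 + ξ ^ 2) = |ξ * ct F ξ| + |ξ ^ 2 * (ξ * ct F ξ)| := by
        rw [Real.norm_eq_abs, abs_mul (ξ ^ 2), abs_of_nonneg (sq_nonneg ξ)]
        ring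
      rw [h2, e2, e1, abs_neg]
      exact add_le_add (st_le hF1.cont hF1.2 ξ) (st_le hF3.cont hF3.2 ξ)
    exact (integrable_inv_one_add_sq.const_mul _).mono'
      (continuous_id.mul hctc).aestronglyMeasurable (Filter.Eventually.of_forall hb)
  have h1 := integral_Ioi_of_hasDerivAt_of_tendsto' (a := (0 : ℝ)) (fun ξ _ => hd3 ξ)
    hint.integrableOn hlim
  rw [h1, zero_mul, add_zero, zero_sub]
  unfold ct
  simp only [zero_mul, Real.cos_zero, mul_one]

theorem t_COV : S_COV := by
  intro f hf hfs ⟨δ, hδ, hfδ⟩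
  obtain ⟨B, hB⟩ := hfs.isCompact.isBounded.exists_norm_le
  have hfB : ∀ x, B < |x| → f x = 0 := by
    intro x hx
    by_contra h
    have h1 := hB x (subset_tsupport f h)
    rw [Real.norm_eq_abs] at h1
    linarith
  have hsupp : ∀ u : ℝ → ℝ, HasCompactSupport (fun x => f |x| * u x) := by
    intro u
    refine HasCompactSupport.intro (isCompact_Icc (a := -B) (b := B)) fun x hx => ?_
    have h1 : B < |x| := by
      by_contra h
      exact hx (abs_le.1 (not_lt.1 h))
    show f |x| * u x = 0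
    rw [hfB |x| (by rw [abs_abs]; exact h1), zero_mul]
  have hsm : ∀ u : ℝ → ℝ, (∀ x, x ≠ 0 → ContDiffAt ℝ 6 u x) →
      ContDiff ℝ 6 (fun x => f |x| * u x) := by
    intro u hu
    rw [contDiff_iff_contDiffAt]
    intro x
    by_cases hx : x = 0
    · have h1 : (fun x => f |x| * u x) =ᶠ[𝓝 x] fun _ => 0 := by
        rw [hx]
        filter_upwards [Metric.ball_mem_nhds (0 : ℝ) hδ] with y hy
        rw [Metric.mem_ball, dist_zero_right, Real.norm_eq_abs] at hy
        rw [hfδ _ hy.le, zero_mul]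
      exact contDiffAt_const.congr_of_eventuallyEq h1
    · exact (hf.contDiffAt.comp x (contDiffAt_abs hx)).mul (hu x hx)
  have hN : ∀ u : ℝ → ℝ, (∀ x, x ≠ 0 → ContDiffAt ℝ 6 u x) → Nice 6 (fun x => f |x| * u x) :=
    fun u hu => ⟨hsm u hu, hsupp u⟩
  have hN1 := hN (fun _ => 1) (fun x _ => contDiffAt_const)
  have e1 : (fun x : ℝ => f |x| * 1) = fun x => f |x| := by
    funext x
    rw [mul_one]
  rw [e1] at hN1
  have hNg := hN (fun x => (x ^ 2)⁻¹) (fun x hx =>
    (contDiffAt_id.pow 2).inv (pow_ne_zero 2 hx))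
  have hNk := hN (fun x => x⁻¹) (fun x hx => contDiffAt_id.inv hx)
  obtain ⟨g, hg⟩ : ∃ g : ℝ → ℝ, g = fun x => f |x| * (x ^ 2)⁻¹ := ⟨_, rfl⟩
  have hf0 : f 0 = 0 := hfδ 0 hδ.le
  have ek : (fun x : ℝ => f |x| * x⁻¹) = fun x => x * g x := by
    funext x
    rw [hg]
    by_cases hx : x = 0
    · rw [hx, abs_zero, hf0]
      simp
    · show f |x| * x⁻¹ = x * (f |x| * (x ^ 2)⁻¹)
      field_simp
  have eF : (fun x : ℝ => f |x|) = fun x => x * (x * g x) := by
    funext x
    rw [hg]
    by_cases hx : x = 0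
    · rw [hx, abs_zero, hf0]
      simp
    · show f |x| = x * (x * (f |x| * (x ^ 2)⁻¹))
      field_simp
  refine ⟨hN1.1, hN1.2, ?_⟩
  rw [← hg] at hNg
  rw [ek] at hNk
  rw [eF] at hN1
  have h1 := main_int hNg hNk hN1
  unfold kap
  rw [eF, h1]
  have h2 : ∫ x, g x = 2 * ∫ x in Set.Ioi (0 : ℝ), f x / x ^ 2 := by
    rw [← integral_comp_abs (f := fun x => f x / x ^ 2)]
    refine integral_congr_ae (Filter.Eventually.of_forall fun x => ?_)
    show g x = f |x| / |x| ^ 2
    rw [hg, sq_abs, div_eq_mul_inv]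
  rw [h2]
  field_simp

end Pool.Agent.H478.ON.COV
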