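import Pool.Agent.H478.ON.Stm

/-! DET: the deterministic identity between the autocorrelation of the gaps and the pair sum of a
block of points (helper122 for helper478). -/

set_option autoImplicit false

namespace Pool.Agent.H478.ON.DET

open Pool.Agent.H478.ON MeasureTheory

theorem tele (g : ℤ → ℝ) (a b : ℤ) (h : a ≤ b) :
    ∑ n ∈ Finset.Ioc a b, g (n + 1) = ∑ n ∈ Finset.Ioc a b, g n + g (b + 1) - g (a + 1) := by
  induction b, h using Int.le_induction with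
  | base => simp
  | succ b hab ih =>
    have e : Finset.Ioc a (b + 1) = insert (b + 1) (Finset.Ioc a b) := by
      ext n
      simp only [Finset.mem_Ioc, Finset.mem_insert]
      omega
    have hn : b + 1 ∉ Finset.Ioc a b := by simp
    rw [e, Finset.sum_insert hn, Finset.sum_insert hn, ih]
    ring

theorem Icc_Ioc (K : ℤ) : Finset.Icc (-K) K = Finset.Ioc (-K - 1) K := by
  ext n
  simp only [Finset.mem_Icc, Finset.mem_Ioc]
  omega

theorem shift (h : ℤ → ℝ) (K : ℤ) (hK : 0 ≤ K) (h1 : h (K + 1) = 0) (h2 : h (-K) = 0) :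
    ∑ k ∈ Finset.Icc (-K) K, h (k + 1) = ∑ k ∈ Finset.Icc (-K) K, h k := by
  rw [Icc_Ioc, tele h (-K - 1) K (by omega), h1, show -K - 1 + 1 = -K by ring, h2]
  ring

theorem sq_id (x : ℤ → ℝ) (lam : ℝ) (k n : ℤ) :
    2 * (dd x lam 1 n * dd x lam 1 (n + k)) = dd x lam (k + 1) n ^ 2 +
      dd x lam (k - 1) (n + 1) ^ 2 - dd x lam k (n + 1) ^ 2 - dd x lam k n ^ 2 := by
  unfold dd
  rw [show n + (k + 1) = n + k + 1 by ring, show n + 1 + (k - 1) = n + k by ring,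
    show n + 1 + k = n + k + 1 by ring]
  push_cast
  ring

/-- the boundary terms -/
noncomputable def bk (x : ℤ → ℝ) (lam : ℝ) (M0 M1 k : ℤ) : ℝ :=
  (dd x lam (k - 1) (M1 + 1) ^ 2 - dd x lam (k - 1) (M0 + 1) ^ 2) -
    (dd x lam k (M1 + 1) ^ 2 - dd x lam k (M0 + 1) ^ 2)

/-- the variances -/
noncomputable def V (x : ℤ → ℝ) (lam : ℝ) (M0 M1 k : ℤ) : ℝ :=
  ∑ n ∈ Finset.Ioc M0 M1, dd x lam k n ^ 2

theorem V_nonneg (x : ℤ → ℝ) (lam : ℝ) (M0 M1 k : ℤ) : 0 ≤ V x lam M0 M1 k :=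
  Finset.sum_nonneg fun _ _ => sq_nonneg _

theorem sum_n (x : ℤ → ℝ) (lam : ℝ) (M0 M1 : ℤ) (h : M0 ≤ M1) (k : ℤ) :
    2 * ∑ n ∈ Finset.Ioc M0 M1, dd x lam 1 n * dd x lam 1 (n + k) =
      V x lam M0 M1 (k + 1) + V x lam M0 M1 (k - 1) - 2 * V x lam M0 M1 k + bk x lam M0 M1 k := by
  rw [Finset.mul_sum, Finset.sum_congr rfl fun n _ => sq_id x lam k n, Finset.sum_sub_distrib,
    Finset.sum_sub_distrib, Finset.sum_add_distrib,
    tele (fun n => dd x lam (k - 1) n ^ 2) M0 M1 h, tele (fun n => dd x lam k n ^ 2) M0 M1 h]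
  unfold V bk
  ring

theorem bk_le (x : ℤ → ℝ) (lam : ℝ) (M0 M1 k : ℤ) : |bk x lam M0 M1 k| ≤
    dd x lam (k - 1) (M1 + 1) ^ 2 + dd x lam (k - 1) (M0 + 1) ^ 2 +
    dd x lam k (M1 + 1) ^ 2 + dd x lam k (M0 + 1) ^ 2 := by
  unfold bk
  have h1 := sq_nonneg (dd x lam (k - 1) (M1 + 1))
  have h2 := sq_nonneg (dd x lam (k - 1) (M0 + 1))
  have h3 := sq_nonneg (dd x lam k (M1 + 1))
  have h4 := sq_nonneg (dd x lam k (M0 + 1))
  rw [abs_le]
  constructor <;> linarith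

/-- the first part: the autocorrelation and the variances -/
theorem part1 {f : ℝ → ℝ} {F r : ℝ} {K : ℤ} (hr : 0 < r) (hK : 0 ≤ K)
    (hq : ∀ k : ℤ, K ≤ |k| → f (k / r) = 0) (hfF : ∀ a, |f a| ≤ F)
    (hT : ∀ a h : ℝ, |f (a + h) - f a - deriv f a * h - deriv (deriv f) a * h ^ 2 / 2| ≤
      F * |h| ^ 3) (x : ℤ → ℝ) (lam : ℝ) (M0 M1 : ℤ) (hM : M0 ≤ M1) :
    |2 * (∑ n ∈ Finset.Ioc M0 M1, ∑ k ∈ Finset.Icc (-K) K,
      dd x lam 1 n * dd x lam 1 (n + k) * (r * f (k / r))) -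
      ∑ k ∈ Finset.Icc (-K) K, V x lam M0 M1 k * (deriv (deriv f) (k / r) / r)| ≤
      2 * F / r ^ 2 * ∑ k ∈ Finset.Icc (-K) K, V x lam M0 M1 k +
        r * F * ∑ k ∈ Finset.Icc (-K) K, |bk x lam M0 M1 k| := by
  obtain ⟨q, hqd⟩ : ∃ q : ℤ → ℝ, ∀ k, q k = r * f (k / r) := ⟨_, fun _ => rfl⟩
  have hq0 : ∀ k : ℤ, K ≤ |k| → q k = 0 := by
    intro k hk
    rw [hqd, hq k hk, mul_zero]
  have e1 : 2 * (∑ n ∈ Finset.Ioc M0 M1, ∑ k ∈ Finset.Icc (-K) K,
      dd x lam 1 n * dd x lam 1 (n + k) * (r * f (k / r))) =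
      ∑ k ∈ Finset.Icc (-K) K, q k * (V x lam M0 M1 (k + 1) + V x lam M0 M1 (k - 1) -
        2 * V x lam M0 M1 k + bk x lam M0 M1 k) := by
    rw [Finset.sum_comm, Finset.mul_sum]
    refine Finset.sum_congr rfl fun k _ => ?_
    rw [← sum_n x lam M0 M1 hM k, ← Finset.sum_mul, hqd]
    ring
  have s1 : ∑ k ∈ Finset.Icc (-K) K, q k * V x lam M0 M1 (k + 1) =
      ∑ k ∈ Finset.Icc (-K) K, q (k - 1) * V x lam M0 M1 k := by
    rw [← shift (fun k => q (k - 1) * V x lam M0 M1 k) K hK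
      (by
        show q (K + 1 - 1) * _ = 0
        rw [hq0 _ (by rw [add_sub_cancel_right]; exact le_abs_self K), zero_mul])
      (by
        show q (-K - 1) * _ = 0
        rw [hq0 _ (by
          rw [abs_of_nonpos (by omega)]
          omega), zero_mul])]
    refine Finset.sum_congr rfl fun k _ => ?_
    show _ = q (k + 1 - 1) * _
    rw [add_sub_cancel_right]
  have s2 : ∑ k ∈ Finset.Icc (-K) K, q k * V x lam M0 M1 (k - 1) =
      ∑ k ∈ Finset.Icc (-K) K, q (k + 1) * V x lam M0 M1 k := by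
    rw [← shift (fun k => q k * V x lam M0 M1 (k - 1)) K hK
      (by
        show q (K + 1) * _ = 0
        rw [hq0 _ (by
          rw [abs_of_nonneg (by omega)]
          omega), zero_mul])
      (by
        show q (-K) * _ = 0
        rw [hq0 _ (by rw [abs_neg]; exact le_abs_self K), zero_mul])]
    refine Finset.sum_congr rfl fun k _ => ?_
    show q (k + 1) * V x lam M0 M1 (k + 1 - 1) = _
    rw [add_sub_cancel_right]
  have e2 : ∑ k ∈ Finset.Icc (-K) K, q k * (V x lam M0 M1 (k + 1) + V x lam M0 M1 (k - 1) -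
        2 * V x lam M0 M1 k + bk x lam M0 M1 k) =
      ∑ k ∈ Finset.Icc (-K) K, V x lam M0 M1 k * (q (k + 1) + q (k - 1) - 2 * q k) +
        ∑ k ∈ Finset.Icc (-K) K, q k * bk x lam M0 M1 k := by
    have c1 : ∑ k ∈ Finset.Icc (-K) K, q k * (V x lam M0 M1 (k + 1) + V x lam M0 M1 (k - 1) -
        2 * V x lam M0 M1 k + bk x lam M0 M1 k) =
        ∑ k ∈ Finset.Icc (-K) K, q k * V x lam M0 M1 (k + 1) +
        ∑ k ∈ Finset.Icc (-K) K, q k * V x lam M0 M1 (k - 1) -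
        2 * ∑ k ∈ Finset.Icc (-K) K, q k * V x lam M0 M1 k +
        ∑ k ∈ Finset.Icc (-K) K, q k * bk x lam M0 M1 k := by
      rw [Finset.mul_sum, ← Finset.sum_add_distrib, ← Finset.sum_sub_distrib,
        ← Finset.sum_add_distrib]
      exact Finset.sum_congr rfl fun k _ => by ring
    have c2 : ∑ k ∈ Finset.Icc (-K) K, V x lam M0 M1 k * (q (k + 1) + q (k - 1) - 2 * q k) =
        ∑ k ∈ Finset.Icc (-K) K, q (k - 1) * V x lam M0 M1 k +
        ∑ k ∈ Finset.Icc (-K) K, q (k + 1) * V x lam M0 M1 k -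
        2 * ∑ k ∈ Finset.Icc (-K) K, q k * V x lam M0 M1 k := by
      rw [Finset.mul_sum, ← Finset.sum_add_distrib, ← Finset.sum_sub_distrib]
      exact Finset.sum_congr rfl fun k _ => by ring
    rw [c1, c2, s1, s2]
  rw [e1, e2]
  have e3 : ∑ k ∈ Finset.Icc (-K) K, V x lam M0 M1 k * (q (k + 1) + q (k - 1) - 2 * q k) +
        ∑ k ∈ Finset.Icc (-K) K, q k * bk x lam M0 M1 k -
      ∑ k ∈ Finset.Icc (-K) K, V x lam M0 M1 k * (deriv (deriv f) (k / r) / r) =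
      ∑ k ∈ Finset.Icc (-K) K, V x lam M0 M1 k * (q (k + 1) + q (k - 1) - 2 * q k -
        deriv (deriv f) (k / r) / r) + ∑ k ∈ Finset.Icc (-K) K, q k * bk x lam M0 M1 k := by
    have c3 : ∑ k ∈ Finset.Icc (-K) K, V x lam M0 M1 k * (q (k + 1) + q (k - 1) - 2 * q k -
        deriv (deriv f) (k / r) / r) =
        ∑ k ∈ Finset.Icc (-K) K, V x lam M0 M1 k * (q (k + 1) + q (k - 1) - 2 * q k) -
        ∑ k ∈ Finset.Icc (-K) K, V x lam M0 M1 k * (deriv (deriv f) (k / r) / r) := by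
      rw [← Finset.sum_sub_distrib]
      exact Finset.sum_congr rfl fun k _ => by ring
    rw [c3]
    ring
  rw [e3]
  refine (abs_add_le _ _).trans (add_le_add ?_ ?_)
  · refine (Finset.abs_sum_le_sum_abs _ _).trans ?_
    rw [Finset.mul_sum]
    refine Finset.sum_le_sum fun k _ => ?_
    rw [abs_mul, abs_of_nonneg (V_nonneg x lam M0 M1 k), mul_comm]
    refine mul_le_mul_of_nonneg_right ?_ (V_nonneg x lam M0 M1 k)
    have t1 := hT (k / r) (1 / r)
    have t2 := hT (k / r) (-(1 / r))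
    have hr1 : |1 / r| = 1 / r := abs_of_pos (by positivity)
    rw [hr1] at t1
    rw [abs_neg, hr1] at t2
    have g1 : ((k + 1 : ℤ) : ℝ) / r = k / r + 1 / r := by push_cast; ring
    have g2 : ((k - 1 : ℤ) : ℝ) / r = k / r + -(1 / r) := by push_cast; ring
    have g3 : q (k + 1) + q (k - 1) - 2 * q k - deriv (deriv f) (k / r) / r =
        r * ((f (k / r + 1 / r) - f (k / r) - deriv f (k / r) * (1 / r) -
          deriv (deriv f) (k / r) * (1 / r) ^ 2 / 2) +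
        (f (k / r + -(1 / r)) - f (k / r) - deriv f (k / r) * -(1 / r) -
          deriv (deriv f) (k / r) * (-(1 / r)) ^ 2 / 2)) := by
      rw [hqd, hqd, hqd, g1, g2]
      field_simp
      ring
    rw [g3, abs_mul, abs_of_pos hr]
    have g4 := abs_add_le (f (k / r + 1 / r) - f (k / r) - deriv f (k / r) * (1 / r) -
          deriv (deriv f) (k / r) * (1 / r) ^ 2 / 2)
        (f (k / r + -(1 / r)) - f (k / r) - deriv f (k / r) * -(1 / r) -
          deriv (deriv f) (k / r) * (-(1 / r)) ^ 2 / 2)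
    calc _ ≤ r * (F * (1 / r) ^ 3 + F * (1 / r) ^ 3) :=
          mul_le_mul_of_nonneg_left (g4.trans (add_le_add t1 t2)) hr.le
      _ = 2 * F / r ^ 2 := by
          field_simp
          ring
  · refine (Finset.abs_sum_le_sum_abs _ _).trans ?_
    rw [Finset.mul_sum]
    refine Finset.sum_le_sum fun k _ => ?_
    rw [abs_mul, hqd, abs_mul, abs_of_pos hr]
    exact mul_le_mul_of_nonneg_right (mul_le_mul_of_nonneg_left (hfF _) hr.le) (abs_nonneg _)

/-- the second part: the pair sum and the variances -/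
theorem part2 {f : ℝ → ℝ} {F A r : ℝ} {K K0 : ℤ} (hF : 0 ≤ F) (hr : 0 < r) (hKK : K ≤ K0)
    (hf0 : ∀ y, A ≤ |y| → f y = 0) (hfF : ∀ a, |f a| ≤ F) (hf1 : ∀ a, |deriv f a| ≤ F)
    (hT : ∀ a h : ℝ, |f (a + h) - f a - deriv f a * h - deriv (deriv f) a * h ^ 2 / 2| ≤
      F * |h| ^ 3) (x : ℤ → ℝ) (lam : ℝ) (M0 M1 : ℤ) (hM : M0 ≤ M1) :
    |r * (∑ n ∈ Finset.Ioc M0 M1, ∑ k ∈ Finset.Icc (-K0) K0,
        f (lam * (x (n + k) - x n) / r)) -
      r * (((M1 : ℝ) - M0) * ∑ k ∈ Finset.Icc (-K) K, f (k / r)) -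
      1 / 2 * ∑ k ∈ Finset.Icc (-K) K, V x lam M0 M1 k * (deriv (deriv f) (k / r) / r)| ≤
      F * (∑ k ∈ Finset.Icc (-K) K, |∑ n ∈ Finset.Ioc M0 M1, dd x lam k n|) +
      F / r ^ 2 * (∑ k ∈ Finset.Icc (-K) K, ∑ n ∈ Finset.Ioc M0 M1, |dd x lam k n| ^ 3) +
      r * F * (∑ n ∈ Finset.Ioc M0 M1, ∑ k ∈ Finset.Icc (-K0) K0,
        (if K < |k| ∧ |lam * (x (n + k) - x n)| < A * r then (1 : ℝ) else 0)) := by
  have hsub : Finset.Icc (-K) K ⊆ Finset.Icc (-K0) K0 :=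
    Finset.Icc_subset_Icc (by omega) hKK
  have hval : ∀ k n : ℤ, lam * (x (n + k) - x n) / r = k / r + dd x lam k n / r := by
    intro k n
    unfold dd
    ring
  -- the terms with large `k`
  obtain ⟨E1, hE1⟩ : ∃ E1 : ℝ, E1 = ∑ n ∈ Finset.Ioc M0 M1,
    ∑ k ∈ Finset.Icc (-K0) K0 \ Finset.Icc (-K) K, f (lam * (x (n + k) - x n) / r) := ⟨_, rfl⟩
  have b1 : |E1| ≤ F * (∑ n ∈ Finset.Ioc M0 M1, ∑ k ∈ Finset.Icc (-K0) K0,
        (if K < |k| ∧ |lam * (x (n + k) - x n)| < A * r then (1 : ℝ) else 0)) := by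
    rw [hE1, Finset.mul_sum]
    refine (Finset.abs_sum_le_sum_abs _ _).trans (Finset.sum_le_sum fun n _ => ?_)
    rw [Finset.mul_sum]
    refine (Finset.abs_sum_le_sum_abs _ _).trans ?_
    refine le_trans (Finset.sum_le_sum fun k hk => ?_)
      (Finset.sum_le_sum_of_subset_of_nonneg Finset.sdiff_subset fun k _ _ => by
        split_ifs <;> simp [hF])
    rw [Finset.mem_sdiff, Finset.mem_Icc, Finset.mem_Icc] at hk
    have hk1 : K < |k| := by
      by_contra hcon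
      exact hk.2 (abs_le.1 (not_lt.1 hcon))
    by_cases h : |lam * (x (n + k) - x n)| < A * r
    · rw [if_pos ⟨hk1, h⟩, mul_one]
      exact hfF _
    · rw [if_neg (fun hh => h hh.2), mul_zero, hf0 _ (by
        rw [abs_div, abs_of_pos hr, le_div_iff₀ hr]
        exact not_lt.1 h), abs_zero]
  -- the remainders
  obtain ⟨E2, hE2⟩ : ∃ E2 : ℝ, E2 = ∑ k ∈ Finset.Icc (-K) K, ∑ n ∈ Finset.Ioc M0 M1,
    (f (k / r + dd x lam k n / r) - f (k / r) - deriv f (k / r) * (dd x lam k n / r) -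
      deriv (deriv f) (k / r) * (dd x lam k n / r) ^ 2 / 2) := ⟨_, rfl⟩
  have b2 : |E2| ≤ F / r ^ 3 * (∑ k ∈ Finset.Icc (-K) K, ∑ n ∈ Finset.Ioc M0 M1,
      |dd x lam k n| ^ 3) := by
    rw [hE2, Finset.mul_sum]
    refine (Finset.abs_sum_le_sum_abs _ _).trans (Finset.sum_le_sum fun k _ => ?_)
    rw [Finset.mul_sum]
    refine (Finset.abs_sum_le_sum_abs _ _).trans (Finset.sum_le_sum fun n _ => ?_)
    refine (hT _ _).trans (le_of_eq ?_)
    rw [abs_div, abs_of_pos hr, div_pow]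
    ring
  -- the linear terms
  obtain ⟨E3, hE3⟩ : ∃ E3 : ℝ, E3 = ∑ k ∈ Finset.Icc (-K) K,
    deriv f (k / r) / r * ∑ n ∈ Finset.Ioc M0 M1, dd x lam k n := ⟨_, rfl⟩
  have b3 : |E3| ≤ F / r * (∑ k ∈ Finset.Icc (-K) K, |∑ n ∈ Finset.Ioc M0 M1, dd x lam k n|) := by
    rw [hE3, Finset.mul_sum]
    refine (Finset.abs_sum_le_sum_abs _ _).trans (Finset.sum_le_sum fun k _ => ?_)
    rw [abs_mul, abs_div, abs_of_pos hr]
    exact mul_le_mul_of_nonneg_right (div_le_div_of_nonneg_right (hf1 _) hr.le) (abs_nonneg _)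
  have hcard : ((Finset.Ioc M0 M1).card : ℝ) = (M1 : ℝ) - M0 := by
    have h1 : (((M1 - M0).toNat : ℕ) : ℤ) = M1 - M0 := Int.toNat_of_nonneg (by omega)
    have h2 : (((M1 - M0).toNat : ℕ) : ℝ) = ((((M1 - M0).toNat : ℕ) : ℤ) : ℝ) :=
      (Int.cast_natCast _).symm
    rw [Int.card_Ioc, h2, h1, Int.cast_sub]
  have hsplit : ∑ n ∈ Finset.Ioc M0 M1, ∑ k ∈ Finset.Icc (-K0) K0,
      f (lam * (x (n + k) - x n) / r) = E1 + E2 +
      ((M1 : ℝ) - M0) * ∑ k ∈ Finset.Icc (-K) K, f (k / r) + E3 +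
      1 / (2 * r) * ∑ k ∈ Finset.Icc (-K) K, V x lam M0 M1 k * (deriv (deriv f) (k / r) / r) := by
    have c1 : ∑ n ∈ Finset.Ioc M0 M1, ∑ k ∈ Finset.Icc (-K0) K0,
        f (lam * (x (n + k) - x n) / r) = E1 + ∑ k ∈ Finset.Icc (-K) K,
          ∑ n ∈ Finset.Ioc M0 M1, f (k / r + dd x lam k n / r) := by
      rw [hE1, Finset.sum_comm (s := Finset.Icc (-K) K), ← Finset.sum_add_distrib]
      refine Finset.sum_congr rfl fun n _ => ?_
      rw [← Finset.sum_sdiff hsub]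
      congr 1
      exact Finset.sum_congr rfl fun k _ => by rw [hval]
    have c2 : ∑ k ∈ Finset.Icc (-K) K, ∑ n ∈ Finset.Ioc M0 M1, f (k / r + dd x lam k n / r) =
        E2 + ((M1 : ℝ) - M0) * ∑ k ∈ Finset.Icc (-K) K, f (k / r) + E3 +
        1 / (2 * r) * ∑ k ∈ Finset.Icc (-K) K,
          V x lam M0 M1 k * (deriv (deriv f) (k / r) / r) := by
      rw [hE2, hE3, Finset.mul_sum, Finset.mul_sum, ← Finset.sum_add_distrib,
        ← Finset.sum_add_distrib, ← Finset.sum_add_distrib]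
      refine Finset.sum_congr rfl fun k _ => ?_
      have d1 : ((M1 : ℝ) - M0) * f (k / r) = ∑ _n ∈ Finset.Ioc M0 M1, f (k / r) := by
        rw [Finset.sum_const, nsmul_eq_mul, hcard]
      have d2 : 1 / (2 * r) * (V x lam M0 M1 k * (deriv (deriv f) (k / r) / r)) =
          ∑ n ∈ Finset.Ioc M0 M1, deriv (deriv f) (k / r) * (dd x lam k n / r) ^ 2 / 2 := by
        unfold V
        rw [Finset.sum_mul, Finset.mul_sum]
        refine Finset.sum_congr rfl fun n _ => ?_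
        field_simp
      rw [d1, d2, Finset.mul_sum, ← Finset.sum_add_distrib, ← Finset.sum_add_distrib,
        ← Finset.sum_add_distrib]
      refine Finset.sum_congr rfl fun n _ => ?_
      ring
    rw [c1, c2]
    ring
  rw [hsplit]
  have e4 : r * (E1 + E2 + ((M1 : ℝ) - M0) * ∑ k ∈ Finset.Icc (-K) K, f (k / r) + E3 +
      1 / (2 * r) * ∑ k ∈ Finset.Icc (-K) K, V x lam M0 M1 k * (deriv (deriv f) (k / r) / r)) -
      r * (((M1 : ℝ) - M0) * ∑ k ∈ Finset.Icc (-K) K, f (k / r)) -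
      1 / 2 * ∑ k ∈ Finset.Icc (-K) K, V x lam M0 M1 k * (deriv (deriv f) (k / r) / r) =
      r * (E3 + E2 + E1) := by
    have : r * (1 / (2 * r)) = 1 / 2 := by field_simp
    linear_combination (∑ k ∈ Finset.Icc (-K) K,
      V x lam M0 M1 k * (deriv (deriv f) (k / r) / r)) * this
  rw [e4, abs_mul, abs_of_pos hr]
  have e5 : |E3 + E2 + E1| ≤ |E3| + |E2| + |E1| := abs_add_three _ _ _
  calc r * |E3 + E2 + E1| ≤ r * (F / r * (∑ k ∈ Finset.Icc (-K) K,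
        |∑ n ∈ Finset.Ioc M0 M1, dd x lam k n|) +
      F / r ^ 3 * (∑ k ∈ Finset.Icc (-K) K, ∑ n ∈ Finset.Ioc M0 M1, |dd x lam k n| ^ 3) +
      F * (∑ n ∈ Finset.Ioc M0 M1, ∑ k ∈ Finset.Icc (-K0) K0,
        (if K < |k| ∧ |lam * (x (n + k) - x n)| < A * r then (1 : ℝ) else 0))) :=
        mul_le_mul_of_nonneg_left (e5.trans (add_le_add (add_le_add b3 b2) b1)) hr.le
    _ = _ := by
        field_simp

theorem t_DET : S_DET := by
  intro f F A r hF hA hr hf0 hfF hf1 hT K K0 hK hK0 x lam hlam M0 M1 hM01 M PS AC m2 m3 ex fo bd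
    eu hM hPS hAC hm2 hm3 hex hfo hbd heu
  have hr0 : 0 < r := by linarith
  have hAr : 0 < A * r := by positivity
  have hK0' : 0 ≤ K := by
    have : (0 : ℝ) ≤ K := by linarith
    exact_mod_cast this
  have hMpos : 0 < M := by
    rw [hM]
    have : (M0 : ℝ) < M1 := by exact_mod_cast hM01
    linarith
  have hq : ∀ k : ℤ, K ≤ |k| → f (k / r) = 0 := by
    intro k hk
    apply hf0
    rw [abs_div, abs_of_pos hr0, le_div_iff₀ hr0]
    have h1 : (K : ℝ) ≤ |(k : ℝ)| := by exact_mod_cast hk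
    linarith
  have p1 := part1 hr0 hK0' hq hfF hT x lam M0 M1 hM01.le
  have p2 := part2 (A := A) hF hr0 hK0 hf0 hfF hf1 hT x lam M0 M1 hM01.le
  rw [← hAC] at p1
  rw [← hPS, ← hfo, ← hex, ← hM] at p2
  -- the enlarged sums
  have hsub : Finset.Icc (-K) K ⊆ Finset.Icc (-(K + 1)) (K + 1) :=
    Finset.Icc_subset_Icc (by omega) (by omega)
  have q2 : ∑ k ∈ Finset.Icc (-K) K, V x lam M0 M1 k ≤ m2 := by
    rw [hm2]
    exact Finset.sum_le_sum_of_subset_of_nonneg hsub fun k _ _ => V_nonneg x lam M0 M1 k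
  have q3 : ∑ k ∈ Finset.Icc (-K) K, ∑ n ∈ Finset.Ioc M0 M1, |dd x lam k n| ^ 3 ≤ m3 := by
    rw [hm3]
    exact Finset.sum_le_sum_of_subset_of_nonneg hsub fun k _ _ =>
      Finset.sum_nonneg fun n _ => pow_nonneg (abs_nonneg _) 3
  have qb : ∑ k ∈ Finset.Icc (-K) K, |bk x lam M0 M1 k| ≤ bd := by
    rw [hbd]
    exact Finset.sum_le_sum fun k _ => bk_le x lam M0 M1 k
  have hb0 : 0 ≤ bd := (Finset.sum_nonneg fun k _ => abs_nonneg _).trans qb
  obtain ⟨S2, hS2⟩ : ∃ S2 : ℝ, S2 = ∑ k ∈ Finset.Icc (-K) K,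
    V x lam M0 M1 k * (deriv (deriv f) (k / r) / r) := ⟨_, rfl⟩
  rw [← hS2] at p1 p2
  obtain ⟨Sf, hSf⟩ : ∃ Sf : ℝ, Sf = ∑ k ∈ Finset.Icc (-K) K, f (k / r) := ⟨_, rfl⟩
  rw [← hSf] at p2 heu
  have r1 : |2 * AC - S2| ≤ 2 * F / r ^ 2 * m2 + r * F * bd := by
    refine p1.trans (add_le_add ?_ ?_)
    · exact mul_le_mul_of_nonneg_left q2 (by positivity)
    · exact mul_le_mul_of_nonneg_left qb (by positivity)
  have r2 : |r * PS - r * (M * Sf) - 1 / 2 * S2| ≤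
      F * fo + F / r ^ 2 * m3 + r * F * ex := by
    refine p2.trans ?_
    have := mul_le_mul_of_nonneg_left q3 (by positivity : 0 ≤ F / r ^ 2)
    linarith
  have hid : AC / M - r * (PS / M - r * ∫ x, f x) =
      (1 / 2 * (2 * AC - S2) - (r * PS - r * (M * Sf) - 1 / 2 * S2) -
        r * M * (Sf - r * ∫ x, f x)) / M := by
    field_simp
    ring
  rw [hid, abs_div, abs_of_pos hMpos, div_le_iff₀ hMpos]
  have t1 : |1 / 2 * (2 * AC - S2)| ≤ F / r ^ 2 * m2 + r * F * bd := by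
    rw [abs_mul, abs_of_pos (by norm_num : (0 : ℝ) < 1 / 2)]
    have h1 : 0 ≤ r * F * bd := by positivity
    have h2 : 2 * F / r ^ 2 * m2 = 2 * (F / r ^ 2 * m2) := by ring
    linarith
  have t3 : |r * M * (Sf - r * ∫ x, f x)| = r * M * eu := by
    rw [abs_mul, abs_of_pos (by positivity), heu]
  have t4 : |1 / 2 * (2 * AC - S2) - (r * PS - r * (M * Sf) - 1 / 2 * S2) -
        r * M * (Sf - r * ∫ x, f x)| ≤ |1 / 2 * (2 * AC - S2)| +
        |r * PS - r * (M * Sf) - 1 / 2 * S2| + |r * M * (Sf - r * ∫ x, f x)| :=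
    (abs_sub _ _).trans (add_le_add (abs_sub _ _) le_rfl)
  have t5 : (r * eu + (F * fo + F / r ^ 2 * m3 + r * F * ex + F / r ^ 2 * m2 + r * F * bd) / M) * M
      = r * M * eu + (F * fo + F / r ^ 2 * m3 + r * F * ex + F / r ^ 2 * m2 + r * F * bd) := by
    field_simp
  rw [t5]
  rw [t3] at t4
  linarith

end Pool.Agent.H478.ON.DET
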