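import Pool.Agent.H478.ON.Stm

/-! Project ON (helper478), statement DIAG: from all slowly growing scales to fixed scales
(helper399). -/

set_option autoImplicit false

namespace Pool.Agent.H478.ON.DIAG

open Filter Topology

theorem t_DIAG : S_DIAG := by
  classical
  intro P κ hP ε hε
  by_contra hcon
  have hfr : ∃ᶠ r : ℝ in atTop, ∃ᶠ T : ℝ in atTop, ε < |P r T - κ| := by
    intro h
    apply hcon
    filter_upwards [h] with r hr
    rw [not_frequently] at hr
    filter_upwards [hr] with T hT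
    exact not_lt.1 hT
  -- the sequences
  have hseq : ∀ j : ℕ, ∃ r T : ℝ, (j : ℝ) + 1 ≤ r ∧ Real.exp (((j : ℝ) + 1) * r) ≤ T ∧
      ε < |P r T - κ| := by
    intro j
    obtain ⟨r, hr1, hr2⟩ := frequently_atTop.1 hfr ((j : ℝ) + 1)
    obtain ⟨T, hT1, hT2⟩ := frequently_atTop.1 hr2 (Real.exp (((j : ℝ) + 1) * r))
    exact ⟨r, T, hr1, hT1, hT2⟩
  choose r T hr hT hd using hseq
  have hTj : ∀ j : ℕ, (j : ℝ) ≤ T j := by
    intro j
    have h0 : (0 : ℝ) ≤ j := Nat.cast_nonneg j
    have h1 := Real.add_one_le_exp (((j : ℝ) + 1) * r j)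
    have h2 := hT j
    have h3 := hr j
    nlinarith
  have hTt : Tendsto T atTop atTop := tendsto_atTop_mono hTj tendsto_natCast_atTop_atTop
  -- the scale
  obtain ⟨g, hg1, hg2⟩ : ∃ g : ℝ → ℝ, (∀ t, (∃ j, T j = t) → ∃ j, T j = t ∧ g t = r j) ∧
      ∀ t, (¬ ∃ j, T j = t) → g t = √(Real.log t) := by
    refine ⟨fun t => if h : ∃ j, T j = t then r h.choose else √(Real.log t), fun t h => ?_,
      fun t h => ?_⟩
    · exact ⟨h.choose, h.choose_spec, dif_pos h⟩
    · exact dif_neg h
  have hfin : ∀ J : ℕ, ∀ᶠ t : ℝ in atTop, ∀ j ∈ Finset.range (J + 1), T j < t := fun J =>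
    (Finset.eventually_all _).2 fun j _ => eventually_gt_atTop (T j)
  have hsq : Tendsto (fun t : ℝ => √(Real.log t)) atTop atTop :=
    Real.tendsto_sqrt_atTop.comp Real.tendsto_log_atTop
  have ht1 : Tendsto g atTop atTop := by
    rw [tendsto_atTop]
    intro C
    filter_upwards [hfin ⌈C⌉₊, hsq.eventually_ge_atTop C] with t h1 h2
    by_cases h : ∃ j, T j = t
    · obtain ⟨j, hj1, hj2⟩ := hg1 t h
      rw [hj2]
      have h3 : ⌈C⌉₊ < j := by
        by_contra h4
        have h5 := h1 j (Finset.mem_range.2 (by omega))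
        rw [hj1] at h5
        exact lt_irrefl _ h5
      have h6 : (⌈C⌉₊ : ℝ) < j := by exact_mod_cast h3
      linarith [Nat.le_ceil C, hr j]
    · rw [hg2 t h]
      exact h2
  have ht2 : Tendsto (fun t => g t / Real.log t) atTop (𝓝 0) := by
    rw [Metric.tendsto_nhds]
    intro δ hδ
    obtain ⟨J, hJ⟩ := exists_nat_gt (1 / δ)
    have hsd : Tendsto (fun t : ℝ => √(Real.log t) / Real.log t) atTop (𝓝 0) := by
      have h1 := hsq.inv_tendsto_atTop
      refine h1.congr fun t => ?_
      rw [Real.sqrt_div_self]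
      rfl
    filter_upwards [hfin J, Metric.tendsto_nhds.1 hsd δ hδ] with t h1 h2
    by_cases h : ∃ j, T j = t
    · obtain ⟨j, hj1, hj2⟩ := hg1 t h
      have h3 : J < j := by
        by_contra h4
        have h5 := h1 j (Finset.mem_range.2 (by omega))
        rw [hj1] at h5
        exact lt_irrefl _ h5
      have h6 : (J : ℝ) < j := by exact_mod_cast h3
      have hj0 : (0 : ℝ) ≤ j := Nat.cast_nonneg j
      have hr0 : 0 < r j := by linarith [hr j]
      have h7 : ((j : ℝ) + 1) * r j ≤ Real.log t := by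
        have h8 := hT j
        rw [hj1] at h8
        have h9 := Real.log_le_log (Real.exp_pos _) h8
        rwa [Real.log_exp] at h9
      have h8 : 0 < ((j : ℝ) + 1) * r j := by positivity
      have h9 : 0 < Real.log t := h8.trans_le h7
      rw [hj2, Real.dist_eq, sub_zero, abs_of_pos (div_pos hr0 h9), div_lt_iff₀ h9]
      have h10 : 1 < δ * ((j : ℝ) + 1) := by
        rw [div_lt_iff₀ hδ] at hJ
        nlinarith
      calc r j = 1 * r j := (one_mul _).symm
        _ < δ * ((j : ℝ) + 1) * r j := mul_lt_mul_of_pos_right h10 hr0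
        _ = δ * (((j : ℝ) + 1) * r j) := mul_assoc _ _ _
        _ ≤ δ * Real.log t := mul_le_mul_of_nonneg_left h7 hδ.le
    · rw [hg2 t h]
      exact h2
  have hlim := (hP g ht1 ht2).comp hTt
  have hev := (Metric.tendsto_nhds.1 hlim ε hε).exists
  obtain ⟨i, hi⟩ := hev
  obtain ⟨j, hj1, hj2⟩ := hg1 (T i) ⟨i, rfl⟩
  have h1 := hd j
  rw [hj1] at h1
  rw [Function.comp_apply, Real.dist_eq, hj2] at hi
  exact lt_irrefl _ (h1.trans hi)

end Pool.Agent.H478.ON.DIAG
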