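import Pool.Agent.H478.ON.Stm2

/-! Proof of `S_ELM` (elementary consequences of the counting function). -/

namespace Pool.Agent.H478.ON.ELM

open Filter Topology

/-- `(log (c T) + a) / log T → 1` -/
theorem log_ratio {c : ℝ} (hc : 0 < c) (a : ℝ) :
    Tendsto (fun T : ℝ => (Real.log (c * T) + a) / Real.log T) atTop (𝓝 1) := by
  have h1 : Tendsto (fun T : ℝ => (Real.log c + a) / Real.log T) atTop (𝓝 0) :=
    tendsto_const_nhds.div_atTop Real.tendsto_log_atTop
  have h2 : Tendsto (fun T : ℝ => (Real.log c + a) / Real.log T + 1) atTop (𝓝 (0 + 1)) :=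
    h1.add tendsto_const_nhds
  rw [zero_add] at h2
  refine h2.congr' ?_
  filter_upwards [eventually_gt_atTop 1] with T hT
  have hL : 0 < Real.log T := Real.log_pos hT
  rw [Real.log_mul hc.ne' (by linarith)]
  field_simp
  ring

theorem zlim2 {Z : ℝ → ℕ}
    (h : Tendsto (fun T : ℝ => (Z T : ℝ) / (T * Real.log T / (2 * Real.pi))) atTop (𝓝 1)) :
    Tendsto (fun T : ℝ => (Z (2 * T) : ℝ) / (T * Real.log T / (2 * Real.pi))) atTop (𝓝 2) := by
  have h1 : Tendsto (fun T : ℝ => 2 * T) atTop atTop := tendsto_id.const_mul_atTop (by norm_num)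
  have h2 := (h.comp h1).mul ((log_ratio (c := 2) (by norm_num) 0).const_mul 2)
  rw [show (1 : ℝ) * (2 * 1) = 2 by norm_num] at h2
  refine h2.congr' ?_
  filter_upwards [eventually_gt_atTop 1] with T hT
  have hT0 : T ≠ 0 := by linarith
  have hL : Real.log T ≠ 0 := (Real.log_pos hT).ne'
  have hL2 : Real.log (2 * T) ≠ 0 := (Real.log_pos (by linarith)).ne'
  have hpi : Real.pi ≠ 0 := Real.pi_ne_zero
  simp only [Function.comp, add_zero]
  field_simp

theorem lblim {Z : ℝ → ℕ}
    (h : Tendsto (fun T : ℝ => (Z T : ℝ) / (T * Real.log T / (2 * Real.pi))) atTop (𝓝 1)) :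
    Tendsto (fun T => lb Z T / (Real.log T / (2 * Real.pi))) atTop (𝓝 1) := by
  have h2 := (zlim2 h).sub h
  rw [show (2 : ℝ) - 1 = 1 by norm_num] at h2
  refine h2.congr' ?_
  filter_upwards [eventually_gt_atTop 1] with T hT
  have hT0 : T ≠ 0 := by linarith
  have hL : Real.log T ≠ 0 := (Real.log_pos hT).ne'
  have hpi : Real.pi ≠ 0 := Real.pi_ne_zero
  unfold lb Mb
  field_simp

/-- a ratio tending to `1` gives two inequalities -/
theorem near {f g : ℝ → ℝ} (h : Tendsto (fun T => f T / g T) atTop (𝓝 1))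
    (hg : ∀ᶠ T : ℝ in atTop, 0 < g T) {ε : ℝ} (hε : 0 < ε) :
    ∀ᶠ T : ℝ in atTop, (1 - ε) * g T ≤ f T ∧ f T ≤ (1 + ε) * g T := by
  have h1 := h.eventually (Metric.ball_mem_nhds (1 : ℝ) hε)
  filter_upwards [h1, hg] with T h2 h3
  replace h2 : |f T / g T - 1| < ε := h2
  rw [abs_lt] at h2
  obtain ⟨h4, h5⟩ := h2
  constructor
  · have : (1 - ε) ≤ f T / g T := by linarith
    rwa [le_div_iff₀ h3] at this
  · have : f T / g T ≤ 1 + ε := by linarith
    rwa [div_le_iff₀ h3] at this

theorem gpos : ∀ᶠ T : ℝ in atTop, 0 < Real.log T / (2 * Real.pi) := by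
  filter_upwards [eventually_gt_atTop 1] with T hT
  exact div_pos (Real.log_pos hT) (by positivity)

theorem part1 {Z : ℝ → ℕ}
    (h : Tendsto (fun T : ℝ => (Z T : ℝ) / (T * Real.log T / (2 * Real.pi))) atTop (𝓝 1)) :
    ∀ᶠ T : ℝ in atTop, 1 ≤ Mb Z T ∧ 0 < lb Z T ∧ (Z (2 * T) : ℝ) ≤ 3 * Mb Z T ∧
      lb Z T ≤ Real.log T := by
  have h2 : Tendsto (fun T : ℝ => ((Z (2 * T) : ℝ) / 2) / (T * Real.log T / (2 * Real.pi))) atTop
      (𝓝 1) := by
    have := (zlim2 h).div_const 2
    rw [show (2 : ℝ) / 2 = 1 by norm_num] at this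
    refine this.congr fun T => ?_
    ring
  have hg2 : ∀ᶠ T : ℝ in atTop, 0 < T * Real.log T / (2 * Real.pi) := by
    filter_upwards [eventually_gt_atTop 1] with T hT
    have := Real.log_pos hT
    have : 0 < T := by linarith
    positivity
  filter_upwards [near (lblim h) gpos (ε := 1 / 10) (by norm_num),
    near h2 hg2 (ε := 1 / 10) (by norm_num), gpos, hg2, eventually_gt_atTop (Real.exp 1),
    eventually_ge_atTop (4 * Real.pi)] with T hl hz g1 g2 hT hT4
  have hT1 : 1 < T := lt_trans (by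
    have := Real.add_one_lt_exp (x := 1) (by norm_num)
    linarith) hT
  have hT0 : 0 < T := by linarith
  have hlog : 1 ≤ Real.log T := by
    rw [Real.le_log_iff_exp_le hT0]
    exact hT.le
  have hpi : 3 < Real.pi := Real.pi_gt_three
  have hMb : Mb Z T = lb Z T * T := by
    unfold lb
    field_simp
  have hlb : 0 < lb Z T := by
    have : 0 < (1 - 1 / 10) * (Real.log T / (2 * Real.pi)) := by positivity
    linarith [hl.1]
  have e1 : T * Real.log T / (2 * Real.pi) = (Real.log T / (2 * Real.pi)) * T := by ring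
  have hMb2 : (9 / 10) * (T * Real.log T / (2 * Real.pi)) ≤ Mb Z T := by
    rw [hMb, e1]
    have := mul_le_mul_of_nonneg_right hl.1 hT0.le
    linarith
  refine ⟨?_, hlb, ?_, ?_⟩
  · have h3 : (2 : ℝ) ≤ T * Real.log T / (2 * Real.pi) := by
      rw [le_div_iff₀ (by positivity)]
      nlinarith
    linarith
  · linarith [hz.2]
  · have h3 : Real.log T / (2 * Real.pi) ≤ Real.log T / 6 := by
      apply div_le_div_of_nonneg_left (by linarith) (by norm_num) (by linarith)
    linarith [hl.2]

/-- the next points are not far -/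
theorem steps {o : ℕ → ℝ} {C : ℝ} (hC : ∀ n : ℕ, 1 ≤ n → o (n + 1) - o n ≤ C) {n : ℕ} (hn : 1 ≤ n)
    (i : ℕ) : o (n + i) ≤ o n + i * C := by
  induction i with
  | zero => simp
  | succ i ih =>
    have := hC (n + i) (by omega)
    rw [← add_assoc]
    push_cast
    linarith

theorem tele (o : ℕ → ℝ) (j m : ℕ) :
    Sk o j m = (o (m + j) * Real.log (o (m + j)) - o m * Real.log (o m)) / (2 * Real.pi) := by
  unfold Sk
  induction j with
  | zero => simp
  | succ j ih =>
    rw [Finset.sum_range_succ, ih]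
    unfold dl
    rw [← add_assoc]
    ring

theorem conv_lower {a b : ℝ} (ha : 0 < a) (hab : a ≤ b) :
    (Real.log a + 1) * (b - a) ≤ b * Real.log b - a * Real.log a := by
  have hb : 0 < b := by linarith
  have h1 := Real.one_sub_inv_le_log_of_pos (x := b / a) (by positivity)
  rw [Real.log_div hb.ne' ha.ne', inv_div] at h1
  have h2 := mul_le_mul_of_nonneg_left h1 hb.le
  have h3 : b * (1 - a / b) = b - a := by field_simp
  rw [h3] at h2
  nlinarith

theorem conv_upper {a b : ℝ} (ha : 0 < a) (hab : a ≤ b) :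
    b * Real.log b - a * Real.log a ≤ (Real.log b + 1) * (b - a) := by
  have hb : 0 < b := by linarith
  have h1 := Real.log_le_sub_one_of_pos (x := b / a) (by positivity)
  rw [Real.log_div hb.ne' ha.ne'] at h1
  have h2 := mul_le_mul_of_nonneg_left h1 ha.le
  have h3 : a * (b / a - 1) = b - a := by field_simp
  rw [h3] at h2
  nlinarith

theorem t_ELM : S_ELM := by
  intro o Z hZ
  refine ⟨part1 hZ.lim, lblim hZ.lim, fun k η hη => ?_⟩
  obtain ⟨C, hC0, hC⟩ := hZ.gapb
  -- the counting function tends to infinity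
  have hZinf : ∀ᶠ T : ℝ in atTop, (k : ℝ) + 2 ≤ Z T := by
    have hg2 : ∀ᶠ T : ℝ in atTop, 0 < T * Real.log T / (2 * Real.pi) := by
      filter_upwards [eventually_gt_atTop 1] with T hT
      have := Real.log_pos hT
      have : 0 < T := by linarith
      positivity
    filter_upwards [near hZ.lim hg2 (ε := 1 / 2) (by norm_num), eventually_gt_atTop (Real.exp 1),
      eventually_ge_atTop (4 * Real.pi * ((k : ℝ) + 2))] with T h1 h2 h3
    have hT0 : 0 < T := lt_trans (Real.exp_pos 1) h2
    have hlog : 1 ≤ Real.log T := by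
      rw [Real.le_log_iff_exp_le hT0]
      exact h2.le
    have hpi : 0 < Real.pi := Real.pi_pos
    have h4 : 2 * ((k : ℝ) + 2) ≤ T * Real.log T / (2 * Real.pi) := by
      rw [le_div_iff₀ (by positivity)]
      nlinarith
    linarith [h1.1]
  -- the logarithms
  set ε : ℝ := min (1 / 2) (η / 4) with hεd
  have hε : 0 < ε := lt_min (by norm_num) (by positivity)
  have hε1 : ε ≤ 1 / 2 := min_le_left _ _
  have hε2 : ε ≤ η / 4 := min_le_right _ _
  have hlogpos : ∀ᶠ T : ℝ in atTop, 0 < Real.log T := by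
    filter_upwards [eventually_gt_atTop 1] with T hT
    exact Real.log_pos hT
  have hZinf2 : ∀ᶠ T : ℝ in atTop, (k : ℝ) + 2 ≤ Z (2 * T) :=
    (tendsto_id.const_mul_atTop (by norm_num : (0 : ℝ) < 2)).eventually hZinf
  filter_upwards [hZinf, hZinf2, near (lblim hZ.lim) gpos hε,
    near (log_ratio (c := 1 / 2) (by norm_num) 1) hlogpos hε,
    near (log_ratio (c := 3) (by norm_num) 1) hlogpos hε, gpos, hlogpos,
    eventually_ge_atTop (2 * (2 * (k : ℝ) + 2) * C + 2), eventually_ge_atTop (2 : ℝ)] with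
    T z1 z2 hl hlo hhi g1 hlog hTC hT2
  have z1' : k + 2 ≤ Z T := by exact_mod_cast z1
  have z2' : k + 2 ≤ Z (2 * T) := by exact_mod_cast z2
  intro m hm1 hm2
  have hm1' : Z T ≤ m + k := by omega
  have hm2' : m ≤ Z (2 * T) + k := by omega
  have hm : 1 ≤ m := by omega
  have hkC : 0 ≤ (k : ℝ) * C := by positivity
  -- lower bound
  have hlow : ∀ n : ℕ, 1 ≤ n → Z T ≤ n + k → T / 2 ≤ o n := by
    intro n hn hnk
    have h1 : T < o (Z T + 1) := by
      by_contra hcon
      push Not at hcon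
      have := (hZ.iff (Z T + 1) (by omega) T).1 hcon
      omega
    rcases le_or_gt (Z T + 1) n with h2 | h2
    · have := hZ.mono (Z T + 1) n (by omega) h2
      linarith
    · obtain ⟨i, hi⟩ : ∃ i, Z T + 1 = n + i := ⟨Z T + 1 - n, by omega⟩
      have h3 := steps hC hn i
      rw [← hi] at h3
      have h4 : (i : ℝ) ≤ k + 1 := by
        have : i ≤ k + 1 := by omega
        exact_mod_cast this
      have h5 : (i : ℝ) * C ≤ (k + 1) * C := mul_le_mul_of_nonneg_right h4 hC0
      nlinarith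
  have hhigh : ∀ n : ℕ, 1 ≤ n → n ≤ Z (2 * T) + 2 * k → o n ≤ 3 * T := by
    intro n hn hnk
    rcases le_or_gt n (Z (2 * T)) with h2 | h2
    · have := (hZ.iff n hn (2 * T)).2 h2
      linarith
    · obtain ⟨i, hi⟩ : ∃ i, n = Z (2 * T) + i := ⟨n - Z (2 * T), by omega⟩
      have h3 := steps hC (n := Z (2 * T)) (by omega) i
      rw [← hi] at h3
      have h4 : (i : ℝ) ≤ 2 * k := by
        have : i ≤ 2 * k := by omega
        exact_mod_cast this
      have h5 : (i : ℝ) * C ≤ (2 * k) * C := mul_le_mul_of_nonneg_right h4 hC0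
      have h6 := (hZ.iff (Z (2 * T)) (by omega) (2 * T)).2 le_rfl
      nlinarith
  refine ⟨hm, hlow m hm hm1', hhigh m hm (by omega), fun j hj => ?_⟩
  have ha := hlow m hm hm1'
  have hab : o m ≤ o (m + j) := hZ.mono m (m + j) hm (by omega)
  have hb : o (m + j) ≤ 3 * T := hhigh (m + j) (by omega) (by omega)
  have ha0 : 0 < o m := by linarith
  have hd : 0 ≤ o (m + j) - o m := by linarith
  have c1 := conv_lower ha0 hab
  have c2 := conv_upper ha0 hab
  have l1 : Real.log (1 / 2 * T) ≤ Real.log (o m) :=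
    Real.log_le_log (by linarith) (by linarith)
  have l2 : Real.log (o (m + j)) ≤ Real.log (3 * T) :=
    Real.log_le_log (by linarith) hb
  have hpi : 0 < Real.pi := Real.pi_pos
  have htel := tele o j m
  set d := o (m + j) - o m with hdd
  set W := o (m + j) * Real.log (o (m + j)) - o m * Real.log (o m) with hW
  have w1 : (1 - ε) * Real.log T * d ≤ W := by
    refine le_trans (mul_le_mul_of_nonneg_right ?_ hd) c1
    linarith [hlo.1]
  have w2 : W ≤ (1 + ε) * Real.log T * d := by
    refine le_trans c2 (mul_le_mul_of_nonneg_right ?_ hd)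
    linarith [hhi.2]
  have s1 : (1 - ε) * (Real.log T / (2 * Real.pi)) * d ≤ Sk o j m := by
    rw [htel, le_div_iff₀ (by positivity)]
    calc (1 - ε) * (Real.log T / (2 * Real.pi)) * d * (2 * Real.pi)
        = (1 - ε) * Real.log T * d := by field_simp
      _ ≤ W := w1
  have s2 : Sk o j m ≤ (1 + ε) * (Real.log T / (2 * Real.pi)) * d := by
    rw [htel, div_le_iff₀ (by positivity)]
    calc W ≤ (1 + ε) * Real.log T * d := w2
      _ = (1 + ε) * (Real.log T / (2 * Real.pi)) * d * (2 * Real.pi) := by field_simp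
  have t1 := mul_le_mul_of_nonneg_right hl.1 hd
  have t2 := mul_le_mul_of_nonneg_right hl.2 hd
  set G := Real.log T / (2 * Real.pi) * d with hG
  have hG0 : 0 ≤ G := by positivity
  have s1' : (1 - ε) * G ≤ Sk o j m := by rw [hG]; linarith
  have s2' : Sk o j m ≤ (1 + ε) * G := by rw [hG]; linarith
  have t1' : (1 - ε) * G ≤ lb Z T * d := by rw [hG]; linarith
  have t2' : lb Z T * d ≤ (1 + ε) * G := by rw [hG]; linarith
  have hS0 : 0 ≤ Sk o j m := le_trans (by apply mul_nonneg <;> linarith) s1'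
  refine ⟨hS0, ?_⟩
  have hε1G := mul_le_mul_of_nonneg_right hε1 hG0
  have hGS : G ≤ 2 * Sk o j m := by linarith
  have hfin : 2 * ε * G ≤ η * Sk o j m := by
    have h1 := mul_le_mul_of_nonneg_right hε2 hG0
    have h2 := mul_le_mul_of_nonneg_left hGS (by positivity : 0 ≤ η / 4)
    linarith
  rw [abs_le]
  constructor <;> linarith

end Pool.Agent.H478.ON.ELM
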