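import Pool.Agent.H478.ON.Stm

/-! Riemann sums of smooth functions with compact support. -/

namespace Pool.Agent.H478.ON.EM

open Filter Topology MeasureTheory Asymptotics
open scoped FourierTransform Real

theorem cs_deriv {g : ℝ → ℂ} (hs : HasCompactSupport g) (n : ℕ) :
    HasCompactSupport (iteratedDeriv n g) := by
  induction n with
  | zero => simpa using hs
  | succ n ih =>
    rw [iteratedDeriv_succ]
    exact ih.deriv

theorem int_deriv {g : ℝ → ℂ} (hg : ContDiff ℝ 3 g) (hs : HasCompactSupport g) (n : ℕ)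
    (hn : n ≤ 3) : Integrable (iteratedDeriv n g) :=
  (hg.continuous_iteratedDeriv n (by exact_mod_cast hn)).integrable_of_hasCompactSupport
    (cs_deriv hs n)

theorem fbound {g : ℝ → ℂ} (hg : ContDiff ℝ 3 g) (hs : HasCompactSupport g) (v : ℝ) :
    (2 * π * |v|) ^ 3 * ‖𝓕 g v‖ ≤ ∫ x, ‖iteratedDeriv 3 g x‖ := by
  have h1 := congrFun (Real.fourier_iteratedDeriv (N := 3) (n := 3) (f := g) (by exact_mod_cast hg)
    (fun n hn => int_deriv hg hs n (by exact_mod_cast hn)) (by norm_num)) v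
  have h2 : ‖𝓕 (iteratedDeriv 3 g) v‖ ≤ ∫ x, ‖iteratedDeriv 3 g x‖ := by
    rw [Real.fourier_eq]
    refine (norm_integral_le_integral_norm _).trans (le_of_eq ?_)
    simp
  rw [h1] at h2
  refine le_trans (le_of_eq ?_) h2
  rw [norm_smul, norm_pow]
  congr 2
  simp [abs_of_pos Real.pi_pos]

theorem rpow_neg3 (x : ℝ) : |x| ^ (-(3:ℝ)) = (|x| ^ 3)⁻¹ := by
  rw [Real.rpow_neg (abs_nonneg x)]
  norm_cast

theorem fdecay {g : ℝ → ℂ} (hg : ContDiff ℝ 3 g) (hs : HasCompactSupport g) {v : ℝ} (hv : v ≠ 0) :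
    ‖𝓕 g v‖ ≤ (∫ x, ‖iteratedDeriv 3 g x‖) * |v| ^ (-(3:ℝ)) := by
  have h0 : 0 < |v| ^ 3 := by positivity
  rw [rpow_neg3, ← div_eq_mul_inv, le_div_iff₀ h0, mul_comm]
  refine le_trans ?_ (fbound hg hs v)
  refine mul_le_mul_of_nonneg_right ?_ (norm_nonneg _)
  rw [mul_pow]
  refine le_mul_of_one_le_left h0.le (one_le_pow₀ ?_)
  have := Real.pi_gt_three
  linarith

theorem poisson {g : ℝ → ℂ} (hg : ContDiff ℝ 3 g) (hs : HasCompactSupport g) :
    ∑' n : ℤ, g n = ∑' n : ℤ, 𝓕 g n := by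
  have h1 : g =O[cocompact ℝ] (fun x => |x| ^ (-(3:ℝ))) := by
    have h2 : g =ᶠ[cocompact ℝ] 0 := by
      rw [← Filter.coclosedCompact_eq_cocompact]
      exact hasCompactSupport_iff_eventuallyEq.1 hs
    exact h2.trans_isBigO (isBigO_zero _ _)
  have h3 : (𝓕 g) =O[cocompact ℝ] (fun x => |x| ^ (-(3:ℝ))) := by
    refine IsBigO.of_bound (∫ x, ‖iteratedDeriv 3 g x‖) ?_
    have h4 : {(0:ℝ)}ᶜ ∈ cocompact ℝ := isCompact_singleton.compl_mem_cocompact
    filter_upwards [h4] with v hv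
    rw [Real.norm_eq_abs, abs_of_nonneg (Real.rpow_nonneg (abs_nonneg v) _)]
    exact fdecay hg hs hv
  have h := Real.tsum_eq_tsum_fourier_of_rpow_decay hg.continuous (b := 3) (by norm_num) h1 h3 0
  simp only [zero_add, QuotientAddGroup.mk_zero, fourier_eval_zero, mul_one] at h
  exact h

theorem t_EM : S_EM := by
  intro f hf hs
  have hgc : ContDiff ℝ 3 (fun x => (f x : ℂ)) :=
    Complex.ofRealCLM.contDiff.comp (hf.of_le (by norm_num))
  have hgs : HasCompactSupport (fun x => (f x : ℂ)) :=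
    hs.comp_left (g := fun t : ℝ => (t : ℂ)) Complex.ofReal_zero
  obtain ⟨M, hM⟩ : ∃ M : ℝ, M = ∫ x, ‖iteratedDeriv 3 (fun x => (f x : ℂ)) x‖ := ⟨_, rfl⟩
  have hM0 : 0 ≤ M := by
    rw [hM]
    exact integral_nonneg fun x => norm_nonneg _
  have hsum : Summable fun n : ℤ => |(n : ℝ)| ^ (-(3:ℝ)) :=
    Real.summable_abs_int_rpow (by norm_num)
  have hS0 : 0 ≤ ∑' n : ℤ, |(n : ℝ)| ^ (-(3:ℝ)) :=
    tsum_nonneg fun n => Real.rpow_nonneg (abs_nonneg _) _
  refine ⟨M * ∑' n : ℤ, |(n : ℝ)| ^ (-(3:ℝ)), by positivity, fun r hr K hK => ?_⟩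
  have hr0 : 0 < r := by linarith
  obtain ⟨g, hg⟩ : ∃ g : ℝ → ℂ, g = fun x => (f (r⁻¹ * x) : ℂ) := ⟨_, rfl⟩
  have hgd : ContDiff ℝ 3 g := by
    rw [hg]
    exact hgc.comp (contDiff_const.mul contDiff_id)
  have hgk : HasCompactSupport g := by
    rw [hg]
    exact hgs.comp_homeomorph (Homeomorph.mulLeft₀ r⁻¹ (inv_ne_zero hr0.ne'))
  -- the third derivative
  have hint : ∫ x, ‖iteratedDeriv 3 g x‖ = M / r ^ 2 := by
    have h1 : iteratedDeriv 3 g = fun x => (r⁻¹) ^ 3 • iteratedDeriv 3 (fun x => (f x : ℂ)) (r⁻¹ * x) := by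
      rw [hg]
      exact iteratedDeriv_comp_const_smul (f := fun x => (f x : ℂ)) hgc r⁻¹
    rw [h1]
    have h2 : ∀ x : ℝ, ‖(r⁻¹) ^ 3 • iteratedDeriv 3 (fun x => (f x : ℂ)) (r⁻¹ * x)‖ =
        (r⁻¹) ^ 3 * ‖iteratedDeriv 3 (fun x => (f x : ℂ)) (r⁻¹ * x)‖ := by
      intro x
      rw [norm_smul, Real.norm_eq_abs, abs_of_pos (by positivity)]
    simp_rw [h2]
    rw [integral_const_mul]
    have h3 := Measure.integral_comp_inv_mul_left
      (fun y : ℝ => ‖iteratedDeriv 3 (fun x => (f x : ℂ)) y‖) r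
    rw [h3, abs_of_pos hr0, smul_eq_mul, ← hM]
    field_simp
  -- the zero frequency
  have h0 : 𝓕 g (0 : ℝ) = ((r * ∫ x, f x : ℝ) : ℂ) := by
    rw [Real.fourier_eq]
    simp only [inner_zero_right, neg_zero, AddChar.map_zero_eq_one, one_smul]
    rw [hg]
    have h3 := Measure.integral_comp_inv_mul_left (fun y : ℝ => (f y : ℂ)) r
    rw [h3, abs_of_pos hr0, integral_complex_ofReal, Complex.real_smul]
    push_cast
    ring
  -- the sum
  have h1 : ∑' n : ℤ, g n = ((∑ k ∈ Finset.Icc (-K) K, f (k / r) : ℝ) : ℂ) := by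
    rw [tsum_eq_sum (s := Finset.Icc (-K) K)]
    · push_cast
      refine Finset.sum_congr rfl fun k _ => ?_
      rw [hg]
      simp only [div_eq_inv_mul]
    · intro k hk
      rw [Finset.mem_Icc] at hk
      have h2 : K < |k| := by
        rw [lt_abs]
        by_contra h3
        apply hk
        rw [not_or] at h3
        omega
      have h3 := hK k h2
      rw [hg]
      simp only [div_eq_inv_mul] at h3 ⊢
      rw [h3, Complex.ofReal_zero]
  have hb : ∀ n : ℤ, n ≠ 0 → ‖𝓕 g n‖ ≤ M / r ^ 2 * |(n : ℝ)| ^ (-(3:ℝ)) := by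
    intro n hn
    have := fdecay hgd hgk (v := n) (by exact_mod_cast hn)
    rwa [hint] at this
  have hF : Summable fun n : ℤ => if n = 0 then 0 else 𝓕 g n := by
    refine Summable.of_norm_bounded (hsum.mul_left (M / r ^ 2)) fun n => ?_
    split_ifs with h
    · rw [norm_zero]
      have := Real.rpow_nonneg (abs_nonneg (n : ℝ)) (-(3:ℝ))
      positivity
    · exact hb n h
  have hF' : Summable fun n : ℤ => 𝓕 g n := by
    have h2 : (fun n : ℤ => 𝓕 g n) = fun n : ℤ => (if n = 0 then 0 else 𝓕 g n) +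
        (if n = 0 then 𝓕 g (0:ℝ) else 0) := by
      funext n
      split_ifs with h
      · rw [h]
        simp
      · simp
    rw [h2]
    refine hF.add ?_
    exact summable_of_ne_finset_zero (s := {0}) fun n hn => if_neg (by simpa using hn)
  have h2 : ∑' n : ℤ, 𝓕 g n = 𝓕 g (0 : ℝ) + ∑' n : ℤ, (if n = 0 then 0 else 𝓕 g n) := by
    have := hF'.tsum_eq_add_tsum_ite (0 : ℤ)
    rw [this, Int.cast_zero]
  have h3 := poisson hgd hgk
  rw [h1, h2, h0] at h3
  have h4 : ((∑ k ∈ Finset.Icc (-K) K, f (k / r) - r * ∫ x, f x : ℝ) : ℂ) =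
      ∑' n : ℤ, (if n = 0 then 0 else 𝓕 g n) := by
    rw [Complex.ofReal_sub, h3]
    ring
  have h5 : |∑ k ∈ Finset.Icc (-K) K, f (k / r) - r * ∫ x, f x| =
      ‖∑' n : ℤ, (if n = 0 then 0 else 𝓕 g n)‖ := by
    rw [← h4, Complex.norm_real, Real.norm_eq_abs]
  rw [h5]
  calc ‖∑' n : ℤ, (if n = 0 then 0 else 𝓕 g n)‖
      ≤ ∑' n : ℤ, M / r ^ 2 * |(n : ℝ)| ^ (-(3:ℝ)) := by
        refine tsum_of_norm_bounded (hsum.mul_left (M / r ^ 2)).hasSum fun n => ?_
        split_ifs with h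
        · rw [norm_zero]
          have := Real.rpow_nonneg (abs_nonneg (n : ℝ)) (-(3:ℝ))
          positivity
        · exact hb n h
    _ = M * (∑' n : ℤ, |(n : ℝ)| ^ (-(3:ℝ))) / r ^ 2 := by
        rw [tsum_mul_left]
        ring

end Pool.Agent.H478.ON.EM
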