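import Pool.Agent.H478.ON.Stm2

/-! GLO: from blocks to all indices (helper345). -/

set_option autoImplicit false

namespace Pool.Agent.H478.ON.GLO

open Filter Topology MeasureTheory

section loc

variable (a : ℕ → ℝ) (q : ℤ → ℝ) (K : ℕ)

/-- the local sum -/
noncomputable def G (n : ℕ) : ℝ :=
  ∑ k ∈ Finset.Icc (-(K : ℤ)) K, a n * a ((n : ℤ) + k).toNat * q k

/-- the local sum of the absolute values -/
noncomputable def H (n : ℕ) : ℝ :=
  ∑ k ∈ Finset.Icc (-(K : ℤ)) K, |a n * a ((n : ℤ) + k).toNat * q k|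

theorem abs_G_le (n : ℕ) : |G a q K n| ≤ H a q K n := Finset.abs_sum_le_sum_abs _ _

theorem H_nonneg (n : ℕ) : 0 ≤ H a q K n := Finset.sum_nonneg fun _ _ => abs_nonneg _

open Classical in
theorem inner_eq (hq : ∀ k : ℤ, (K : ℤ) < |k| → q k = 0) (N n : ℕ) :
    ∑ m ∈ Finset.Icc 1 N, a n * a m * q ((m : ℤ) - n) =
      ∑ k ∈ (Finset.Icc (-(K : ℤ)) K).filter (fun k => 1 ≤ (n : ℤ) + k ∧ (n : ℤ) + k ≤ N),
        a n * a ((n : ℤ) + k).toNat * q k := by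
  refine Finset.sum_bij_ne_zero (fun m _ _ => (m : ℤ) - n) ?_ ?_ ?_ ?_
  · intro m hm hne
    rw [Finset.mem_Icc] at hm
    rw [Finset.mem_filter, Finset.mem_Icc]
    have h1 : |(m : ℤ) - n| ≤ K := by
      by_contra h
      exact hne (by rw [hq _ (not_le.1 h), mul_zero])
    have h2 := abs_le.1 h1
    refine ⟨h2, ?_, ?_⟩ <;> omega
  · intro m _ _ m' _ _ h
    have : (m : ℤ) = m' := by linarith
    exact_mod_cast this
  · intro k hk hne
    rw [Finset.mem_filter, Finset.mem_Icc] at hk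
    have e : (((n : ℤ) + k).toNat : ℤ) - n = k := by
      rw [Int.toNat_of_nonneg (by omega)]
      ring
    refine ⟨((n : ℤ) + k).toNat, ?_, ?_, e⟩
    · rw [Finset.mem_Icc]
      omega
    · rw [e]
      exact hne
  · intro m _ _
    have e : (n : ℤ) + ((m : ℤ) - n) = m := by ring
    rw [e, Int.toNat_natCast]

theorem inner_diff (hq : ∀ k : ℤ, (K : ℤ) < |k| → q k = 0) (N n : ℕ) :
    |∑ m ∈ Finset.Icc 1 N, a n * a m * q ((m : ℤ) - n) - G a q K n| ≤ H a q K n := by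
  classical
  rw [inner_eq a q K hq N n, abs_sub_comm]
  unfold G H
  rw [← Finset.sum_filter_add_sum_filter_not (Finset.Icc (-(K : ℤ)) K)
    (fun k => 1 ≤ (n : ℤ) + k ∧ (n : ℤ) + k ≤ N) (fun k => a n * a ((n : ℤ) + k).toNat * q k),
    add_sub_cancel_left]
  refine (Finset.abs_sum_le_sum_abs _ _).trans ?_
  exact Finset.sum_le_sum_of_subset_of_nonneg (Finset.filter_subset _ _)
    fun _ _ _ => abs_nonneg _

theorem inner_same (hq : ∀ k : ℤ, (K : ℤ) < |k| → q k = 0) (N n : ℕ) (h1 : K < n)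
    (h2 : n + K ≤ N) : ∑ m ∈ Finset.Icc 1 N, a n * a m * q ((m : ℤ) - n) = G a q K n := by
  classical
  rw [inner_eq a q K hq N n]
  unfold G
  rw [Finset.filter_true_of_mem]
  intro k hk
  rw [Finset.mem_Icc] at hk
  constructor <;> omega

theorem Icc_one (N : ℕ) : Finset.Icc 1 N = Finset.Ioc 0 N := by
  ext x
  rw [Finset.mem_Icc, Finset.mem_Ioc]
  omega

theorem glob (hq : ∀ k : ℤ, (K : ℤ) < |k| → q k = 0) (N : ℕ) (hN : 2 * K ≤ N) :
    |∑ n ∈ Finset.Icc 1 N, ∑ m ∈ Finset.Icc 1 N, a n * a m * q ((m : ℤ) - n) -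
      ∑ n ∈ Finset.Ioc 0 N, G a q K n| ≤
    ∑ n ∈ Finset.Ioc 0 K, H a q K n + ∑ n ∈ Finset.Ioc (N - K) N, H a q K n := by
  rw [Icc_one, ← Icc_one, Icc_one N, ← Finset.sum_sub_distrib, ← Icc_one]
  rw [Icc_one N]
  obtain ⟨D, hD⟩ : ∃ D : ℕ → ℝ, ∀ n, D n =
      ∑ m ∈ Finset.Icc 1 N, a n * a m * q ((m : ℤ) - n) - G a q K n := ⟨_, fun _ => rfl⟩
  have hD1 : ∀ n, |D n| ≤ H a q K n := fun n => by
    rw [hD]
    exact inner_diff a q K hq N n
  have hD2 : ∀ n ∈ Finset.Ioc K (N - K), |D n| = 0 := fun n hn => by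
    rw [Finset.mem_Ioc] at hn
    rw [hD, inner_same a q K hq N n hn.1 (by omega), sub_self, abs_zero]
  have e : ∀ n ∈ Finset.Ioc 0 N, ∑ m ∈ Finset.Ioc 0 N, a n * a m * q ((m : ℤ) - n) - G a q K n =
      D n := fun n _ => by rw [hD, Icc_one]
  rw [Finset.sum_congr rfl e]
  refine (Finset.abs_sum_le_sum_abs _ _).trans ?_
  rw [← Finset.sum_Ioc_consecutive _ (Nat.zero_le K) (by omega : K ≤ N),
    ← Finset.sum_Ioc_consecutive _ (by omega : K ≤ N - K) (Nat.sub_le N K),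
    Finset.sum_eq_zero hD2, zero_add]
  exact add_le_add (Finset.sum_le_sum fun n _ => hD1 n) (Finset.sum_le_sum fun n _ => hD1 n)

end loc

theorem sq_le (x L : ℝ) (hL : 0 < L) : x ^ 2 ≤ L + x ^ 6 / L ^ 2 := by
  have h6 : 0 ≤ x ^ 6 := by positivity
  rcases le_or_gt (x ^ 2) L with h | h
  · have : 0 ≤ x ^ 6 / L ^ 2 := by positivity
    linarith
  · have : x ^ 2 ≤ x ^ 6 / L ^ 2 := by
      rw [le_div_iff₀ (by positivity)]
      have h1 : L ^ 2 ≤ (x ^ 2) ^ 2 := pow_le_pow_left₀ hL.le h.le 2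
      calc x ^ 2 * L ^ 2 ≤ x ^ 2 * (x ^ 2) ^ 2 := by gcongr
        _ = x ^ 6 := by ring
    linarith

theorem prod_le (x y q Q L : ℝ) (hL : 0 < L) (hq : |q| ≤ Q) :
    |x * y * q| ≤ Q * (L + (x ^ 6 + y ^ 6) / (2 * L ^ 2)) := by
  have h1 : |x * y| ≤ (x ^ 2 + y ^ 2) / 2 := by
    rw [abs_le]
    constructor <;> nlinarith [sq_nonneg (x + y), sq_nonneg (x - y)]
  have h2 := sq_le x L hL
  have h3 := sq_le y L hL
  have h4 : |x * y| ≤ L + (x ^ 6 + y ^ 6) / (2 * L ^ 2) := by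
    have e : (x ^ 6 + y ^ 6) / (2 * L ^ 2) = (x ^ 6 / L ^ 2 + y ^ 6 / L ^ 2) / 2 := by
      field_simp
    rw [e]
    linarith
  rw [abs_mul, mul_comm]
  exact mul_le_mul hq h4 (abs_nonneg _) ((abs_nonneg q).trans hq)

theorem shift_sum (g : ℕ → ℝ) (hg : ∀ n, 0 ≤ g n) (M N K : ℕ) (k : ℤ)
    (hk : k ∈ Finset.Icc (-(K : ℤ)) K) (hM : K ≤ M) :
    ∑ n ∈ Finset.Ioc M N, g ((n : ℤ) + k).toNat ≤ ∑ m ∈ Finset.Icc 1 (N + K), g m := by
  classical
  rw [Finset.mem_Icc] at hk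
  have h1 : ∑ m ∈ (Finset.Ioc M N).image (fun n : ℕ => ((n : ℤ) + k).toNat), g m =
      ∑ n ∈ Finset.Ioc M N, g ((n : ℤ) + k).toNat := by
    refine Finset.sum_image ?_
    intro x hx y hy hxy
    have hx' := Finset.mem_Ioc.1 hx
    have hy' := Finset.mem_Ioc.1 hy
    simp only at hxy
    omega
  rw [← h1]
  refine Finset.sum_le_sum_of_subset_of_nonneg ?_ fun m _ _ => hg m
  intro m hm
  obtain ⟨n, hn, rfl⟩ := Finset.mem_image.1 hm
  have hn' := Finset.mem_Ioc.1 hn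
  rw [Finset.mem_Icc]
  omega

theorem tail (a : ℕ → ℝ) (q : ℤ → ℝ) (K : ℕ) (Q C : ℝ) (hQ : ∀ k, |q k| ≤ Q)
    (hC : ∀ N : ℕ, ∑ n ∈ Finset.Icc 1 N, a n ^ 6 ≤ C * (N + 1)) (η : ℝ) (hη : 0 < η) :
    ∃ δ : ℝ, 0 < δ ∧ ∀ N M : ℕ, K + 1 ≤ N → K ≤ M → M ≤ N → (N : ℝ) - M ≤ δ * N →
      ∑ n ∈ Finset.Ioc M N, H a q K n ≤ η * N := by
  have hQ0 : 0 ≤ Q := (abs_nonneg _).trans (hQ 0)
  have hC0 : 0 ≤ C := by
    have := hC 0
    simp at this
    exact this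
  obtain ⟨W, hW⟩ : ∃ W : ℝ, W = (2 * K + 1) * Q := ⟨_, rfl⟩
  have hW0 : 0 ≤ W := by rw [hW]; positivity
  obtain ⟨L, hL⟩ : ∃ L : ℝ, L = 1 + 4 * W * C / η := ⟨_, rfl⟩
  have hL1 : 1 ≤ L := by
    rw [hL]
    have : 0 ≤ 4 * W * C / η := by positivity
    linarith
  have hL0 : 0 < L := by linarith
  refine ⟨η / (2 * (W * L + 1)), by positivity, fun N M hN hKM hMN hd => ?_⟩
  have hN0 : (0 : ℝ) ≤ N := Nat.cast_nonneg _
  have hNM : (0 : ℝ) ≤ (N : ℝ) - M := by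
    have : (M : ℝ) ≤ N := by exact_mod_cast hMN
    linarith
  have h6 : ∀ n, 0 ≤ a n ^ 6 := fun n => by positivity
  have hbig : ∑ n ∈ Finset.Icc 1 (N + K), a n ^ 6 ≤ C * (2 * N) := by
    refine (hC (N + K)).trans ?_
    refine mul_le_mul_of_nonneg_left ?_ hC0
    have : (K : ℝ) + 1 ≤ N := by exact_mod_cast hN
    push_cast
    linarith
  have h1 : ∑ n ∈ Finset.Ioc M N, H a q K n ≤
      ∑ n ∈ Finset.Ioc M N, ∑ k ∈ Finset.Icc (-(K : ℤ)) K,
        Q * (L + (a n ^ 6 + a ((n : ℤ) + k).toNat ^ 6) / (2 * L ^ 2)) := by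
    unfold H
    refine Finset.sum_le_sum fun n _ => Finset.sum_le_sum fun k _ => ?_
    exact prod_le _ _ _ _ _ hL0 (hQ k)
  have h2 : ∀ k ∈ Finset.Icc (-(K : ℤ)) K, ∑ n ∈ Finset.Ioc M N,
      Q * (L + (a n ^ 6 + a ((n : ℤ) + k).toNat ^ 6) / (2 * L ^ 2)) ≤
      Q * (L * ((N : ℝ) - M) + C * (2 * N) / L ^ 2) := by
    intro k hk
    rw [← Finset.mul_sum, Finset.sum_add_distrib, Finset.sum_const, Nat.card_Ioc, nsmul_eq_mul,
      ← Finset.sum_div, Finset.sum_add_distrib, Nat.cast_sub hMN]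
    refine mul_le_mul_of_nonneg_left ?_ hQ0
    have h3 : ∑ n ∈ Finset.Ioc M N, a n ^ 6 ≤ C * (2 * N) := by
      refine le_trans ?_ hbig
      refine Finset.sum_le_sum_of_subset_of_nonneg ?_ fun m _ _ => h6 m
      intro m hm
      have hm' := Finset.mem_Ioc.1 hm
      rw [Finset.mem_Icc]
      omega
    have h4 := (shift_sum (fun n => a n ^ 6) h6 M N K k hk hKM).trans hbig
    have h5 : (∑ n ∈ Finset.Ioc M N, a n ^ 6 +
        ∑ n ∈ Finset.Ioc M N, a ((n : ℤ) + k).toNat ^ 6) / (2 * L ^ 2) ≤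
        (C * (2 * N) + C * (2 * N)) / (2 * L ^ 2) := by
      gcongr
    have e : (C * (2 * (N : ℝ)) + C * (2 * N)) / (2 * L ^ 2) = C * (2 * N) / L ^ 2 := by
      field_simp
      ring
    rw [e] at h5
    linarith
  have h3 : ∑ n ∈ Finset.Ioc M N, H a q K n ≤ W * (L * ((N : ℝ) - M) + C * (2 * N) / L ^ 2) := by
    refine h1.trans ?_
    rw [Finset.sum_comm]
    refine (Finset.sum_le_sum h2).trans (le_of_eq ?_)
    rw [Finset.sum_const, Int.card_Icc, nsmul_eq_mul, hW]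
    have e : ((((K : ℤ) + 1 - -(K : ℤ)).toNat : ℕ) : ℝ) = 2 * K + 1 := by
      have : ((K : ℤ) + 1 - -(K : ℤ)).toNat = 2 * K + 1 := by omega
      rw [this]
      push_cast
      ring
    rw [e]
    ring
  refine h3.trans ?_
  have h4 : W * (L * ((N : ℝ) - M)) ≤ η / 2 * N := by
    have h5 : (N : ℝ) - M ≤ η / (2 * (W * L + 1)) * N := hd
    calc W * (L * ((N : ℝ) - M)) = (W * L) * ((N : ℝ) - M) := by ring
      _ ≤ (W * L + 1) * (η / (2 * (W * L + 1)) * N) := by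
          refine mul_le_mul (by linarith) h5 hNM (by positivity)
      _ = η / 2 * N := by field_simp
  have h5 : W * (C * (2 * N) / L ^ 2) ≤ η / 2 * N := by
    have h6 : 4 * W * C / η ≤ L ^ 2 := by
      have : 4 * W * C / η ≤ L := by rw [hL]; linarith
      nlinarith
    rw [div_le_iff₀ hη] at h6
    have e : W * (C * (2 * (N : ℝ)) / L ^ 2) = (2 * W * C * N) / L ^ 2 := by ring
    rw [e, div_le_iff₀ (by positivity)]
    nlinarith
  linarith

theorem pow6 {x : ℝ} (hx : 0 ≤ x) : (x - 1) ^ 6 ≤ x ^ 6 + 1 := by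
  have h6 : 0 ≤ x ^ 6 := by positivity
  have e : (x - 1) ^ 6 = |x - 1| ^ 6 := by
    rw [Even.pow_abs]
    decide
  rcases le_or_gt x 1 with h | h
  · have h1 : |x - 1| ≤ 1 := by
      rw [abs_le]
      constructor <;> linarith
    have h2 : |x - 1| ^ 6 ≤ 1 := pow_le_one₀ (abs_nonneg _) h1
    linarith
  · have h1 : |x - 1| ≤ x := by
      rw [abs_le]
      constructor <;> linarith
    have h2 : |x - 1| ^ 6 ≤ x ^ 6 := pow_le_pow_left₀ (abs_nonneg _) h1 6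
    linarith

theorem sixth (h2 : S_GM6) (o : ℕ → ℝ) (Z : ℝ → ℕ) (hz : Zr o Z) (hG : Gap o) :
    ∃ C : ℝ, ∀ N : ℕ, ∑ n ∈ Finset.Icc 1 N, (dl o n - 1) ^ 6 ≤ C * (N + 1) := by
  obtain ⟨C, hC0, hC⟩ := h2 o Z hz hG
  refine ⟨C + 1, fun N => ?_⟩
  have h1 := (hC 1 N).2
  have h0 := (hC 1 N).1
  have hS : ∀ n, Sk o 1 n = dl o n := fun n => by
    unfold Sk
    rw [Finset.sum_range_one, add_zero]
  simp only [hS, Nat.cast_one, one_pow, mul_one] at h1
  have h3 : ∑ n ∈ Finset.Icc 1 N, (dl o n - 1) ^ 6 ≤ ∑ n ∈ Finset.Icc 1 N, (dl o n ^ 6 + 1) :=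
    Finset.sum_le_sum fun n hn => pow6 (h0 n (Finset.mem_Icc.1 hn).1)
  rw [Finset.sum_add_distrib, Finset.sum_const, Nat.card_Icc, nsmul_eq_mul, mul_one] at h3
  have h4 : ((N + 1 - 1 : ℕ) : ℝ) = N := by simp
  rw [h4] at h3
  linarith

theorem Z_mono {o : ℕ → ℝ} {Z : ℝ → ℕ} (hz : Zr o Z) {s t : ℝ} (h : s ≤ t) : Z s ≤ Z t := by
  rcases Nat.eq_zero_or_pos (Z s) with h0 | h0
  · rw [h0]
    exact Nat.zero_le _
  · exact (hz.iff _ h0 t).1 (((hz.iff _ h0 s).2 le_rfl).trans h)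

theorem ACb_eq (o : ℕ → ℝ) (Z : ℝ → ℕ) (f : ℝ → ℝ) (r : ℝ) (K : ℕ) (T : ℝ) :
    ACb o Z f r K T = ∑ n ∈ Finset.Ioc (Z T) (Z (2 * T)),
      G (fun n => dl o n - 1) (fun k => r * f (k / r)) K n := by
  unfold ACb Bk G
  symm
  refine Finset.sum_bij (fun n _ => (n : ℤ)) ?_ ?_ ?_ ?_
  · intro n hn
    rw [Finset.mem_Ioc] at hn ⊢
    omega
  · intro n _ m _ h
    exact_mod_cast h
  · intro n hn
    rw [Finset.mem_Ioc] at hn
    refine ⟨n.toNat, ?_, ?_⟩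
    · rw [Finset.mem_Ioc]
      omega
    · exact Int.toNat_of_nonneg (by omega)
  · intro n _
    rw [Int.toNat_natCast]

theorem halving (b : ℕ → ℝ) (Z : ℝ → ℕ) (hZ : ∀ s t, s ≤ t → Z s ≤ Z t) (ε T0 : ℝ) (hε : 0 ≤ ε)
    (hT0 : 0 < T0) (hb : ∀ T, T0 ≤ T → |∑ n ∈ Finset.Ioc (Z T) (Z (2 * T)), b n| ≤
      ε * ((Z (2 * T) : ℝ) - Z T)) :
    ∃ C : ℝ, ∀ y, T0 ≤ y → |∑ n ∈ Finset.Ioc 0 (Z y), b n| ≤ C + ε * Z y := by
  refine ⟨∑ n ∈ Finset.Ioc 0 (Z (2 * T0)), |b n|, ?_⟩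
  have base : ∀ y, y ≤ 2 * T0 → |∑ n ∈ Finset.Ioc 0 (Z y), b n| ≤
      ∑ n ∈ Finset.Ioc 0 (Z (2 * T0)), |b n| + ε * Z y := by
    intro y hy
    have h1 : |∑ n ∈ Finset.Ioc 0 (Z y), b n| ≤ ∑ n ∈ Finset.Ioc 0 (Z (2 * T0)), |b n| := by
      refine (Finset.abs_sum_le_sum_abs _ _).trans ?_
      refine Finset.sum_le_sum_of_subset_of_nonneg ?_ fun _ _ _ => abs_nonneg _
      exact Finset.Ioc_subset_Ioc_right (hZ _ _ hy)
    have h2 : 0 ≤ ε * (Z y : ℝ) := by positivity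
    linarith
  have main : ∀ j : ℕ, ∀ y, T0 ≤ y → y ≤ T0 * 2 ^ (j + 1) →
      |∑ n ∈ Finset.Ioc 0 (Z y), b n| ≤
        ∑ n ∈ Finset.Ioc 0 (Z (2 * T0)), |b n| + ε * Z y := by
    intro j
    induction j with
    | zero =>
      intro y _ hy
      refine base y (hy.trans (le_of_eq ?_))
      ring
    | succ j ih =>
      intro y hy1 hy2
      rcases le_or_gt y (2 * T0) with h | h
      · exact base y h
      · have h3 : y / 2 ≤ T0 * 2 ^ (j + 1) := by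
          rw [div_le_iff₀ two_pos]
          refine hy2.trans (le_of_eq ?_)
          ring
        have h4 := ih (y / 2) (by linarith) h3
        have h5 := hb (y / 2) (by linarith)
        rw [show 2 * (y / 2) = y by ring] at h5
        have h6 : Z (y / 2) ≤ Z y := hZ _ _ (by linarith)
        rw [← Finset.sum_Ioc_consecutive _ (Nat.zero_le (Z (y / 2))) h6]
        have h7 := abs_add_le (∑ n ∈ Finset.Ioc 0 (Z (y / 2)), b n)
          (∑ n ∈ Finset.Ioc (Z (y / 2)) (Z y), b n)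
        linarith
  intro y hy
  obtain ⟨j, hj⟩ : ∃ j : ℕ, y / T0 < 2 ^ j := pow_unbounded_of_one_lt _ one_lt_two
  rw [div_lt_iff₀ hT0] at hj
  refine main j y hy (hj.le.trans ?_)
  rw [pow_succ]
  have : 0 < (2 : ℝ) ^ j * T0 := by positivity
  nlinarith

theorem ratio {o : ℕ → ℝ} {Z : ℝ → ℕ} (hz : Zr o Z) (c : ℝ) (hc : 0 < c) :
    Tendsto (fun t : ℝ => (Z (c * t) : ℝ) / (Z t : ℝ)) atTop (𝓝 c) := by
  have hct : Tendsto (fun t : ℝ => c * t) atTop atTop := tendsto_id.const_mul_atTop hc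
  have h1 := hz.lim
  have h2 := h1.comp hct
  have h3 : Tendsto (fun t : ℝ => c * (1 + Real.log c / Real.log t)) atTop (𝓝 (c * (1 + 0))) := by
    refine Tendsto.const_mul _ (Tendsto.const_add _ ?_)
    exact Tendsto.const_div_atTop Real.tendsto_log_atTop _
  rw [add_zero, mul_one] at h3
  have h4 := (h2.mul h3).mul (h1.inv₀ one_ne_zero)
  rw [one_mul, inv_one, mul_one] at h4
  refine h4.congr' ?_
  filter_upwards [eventually_gt_atTop 1, eventually_gt_atTop (1 / c)] with t ht1 ht2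
  have ht0 : 0 < t := by linarith
  have hlog : 0 < Real.log t := Real.log_pos ht1
  have hc1 : 1 < c * t := by
    rw [div_lt_iff₀ hc] at ht2
    linarith
  have hlogc : 0 < Real.log (c * t) := Real.log_pos hc1
  have hpi := Real.pi_pos
  have e1 : c * (1 + Real.log c / Real.log t) =
      (c * t * Real.log (c * t) / (2 * Real.pi)) / (t * Real.log t / (2 * Real.pi)) := by
    rw [Real.log_mul hc.ne' ht0.ne']
    field_simp
    ring
  rw [Function.comp_apply, e1, inv_div, div_mul_div_cancel₀, div_mul_div_cancel₀]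
  · positivity
  · have : 0 < c * t * Real.log (c * t) / (2 * Real.pi) := by positivity
    exact this.ne'

theorem o_tendsto {o : ℕ → ℝ} {Z : ℝ → ℕ} (hz : Zr o Z) : Tendsto o atTop atTop := by
  rw [tendsto_atTop]
  intro b
  filter_upwards [eventually_gt_atTop (Z b)] with n hn
  by_contra h
  have h1 : o n ≤ b := (not_le.1 h).le
  have h2 := (hz.iff n (by omega) b).1 h1
  omega

theorem t_GLO (_h1 : S_ELM) (h2 : S_GM6) : S_GLO := by
  intro o Z hz hG f hf A hA hfA r hr ε κ hε K hK hT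
  have hr0 : 0 < r := by linarith
  have hAr : 1 ≤ A * r := by nlinarith
  have hK0 : (0 : ℤ) ≤ K := by
    have : (0 : ℝ) ≤ K := by nlinarith
    exact_mod_cast this
  obtain ⟨K, rfl⟩ := Int.eq_ofNat_of_zero_le hK0
  -- the weights
  obtain ⟨Q, hQ⟩ : ∃ Q : ℝ, ∀ k : ℤ, |r * f (k / r)| ≤ Q := by
    obtain ⟨B, hB⟩ := (isCompact_Icc (a := -A) (b := A)).exists_bound_of_continuousOn
      hf.continuousOn
    have hB0 : 0 ≤ B := (norm_nonneg _).trans (hB 0 ⟨by linarith, by linarith⟩)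
    refine ⟨r * B, fun k => ?_⟩
    rw [abs_mul, abs_of_pos hr0]
    refine mul_le_mul_of_nonneg_left ?_ hr0.le
    rcases le_or_gt A |(k : ℝ) / r| with h | h
    · rw [hfA _ h, abs_zero]
      exact hB0
    · exact hB _ (abs_le.1 h.le)
  have hq : ∀ k : ℤ, (K : ℤ) < |k| → r * f (k / r) = 0 := by
    intro k hk
    rw [hfA, mul_zero]
    rw [abs_div, abs_of_pos hr0, le_div_iff₀ hr0]
    have h1 : (K : ℝ) < |(k : ℝ)| := by exact_mod_cast hk
    have h2 : 2 * A * r + 1 ≤ (K : ℝ) := by exact_mod_cast hK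
    nlinarith
  obtain ⟨C6, hC6⟩ := sixth h2 o Z hz hG
  obtain ⟨a, ha⟩ : ∃ a : ℕ → ℝ, a = fun n => dl o n - 1 := ⟨_, rfl⟩
  obtain ⟨q, hqd⟩ : ∃ q : ℤ → ℝ, q = fun k : ℤ => r * f (k / r) := ⟨_, rfl⟩
  have hQ' : ∀ k, |q k| ≤ Q := fun k => by rw [hqd]; exact hQ k
  have hq' : ∀ k : ℤ, (K : ℤ) < |k| → q k = 0 := fun k hk => by rw [hqd]; exact hq k hk
  have hC6' : ∀ N : ℕ, ∑ n ∈ Finset.Icc 1 N, a n ^ 6 ≤ C6 * (N + 1) := fun N => by
    rw [ha]
    exact hC6 N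
  obtain ⟨δ₁, hδ₁, htail⟩ := tail a q K Q C6 hQ' hC6' (ε / 8) (by positivity)
  -- the blocks
  have hblock : ∀ T : ℝ, ACb o Z f r ((K : ℕ) : ℤ) T =
      ∑ n ∈ Finset.Ioc (Z T) (Z (2 * T)), G a q K n := fun T => by
    rw [ACb_eq, ha, hqd]
  obtain ⟨T1, hT1⟩ := eventually_atTop.1 hT
  obtain ⟨T0, hT0⟩ : ∃ T0 : ℝ, T0 = max T1 1 := ⟨_, rfl⟩
  have hT01 : T1 ≤ T0 := by rw [hT0]; exact le_max_left _ _
  have hT00 : 0 < T0 := by
    have : 1 ≤ T0 := by rw [hT0]; exact le_max_right _ _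
    linarith
  obtain ⟨C, hC⟩ := halving (fun n => G a q K n - κ) Z (fun s t h => Z_mono hz h) ε T0 hε.le
    hT00 (by
      intro T hTT
      have h3 := hT1 T (hT01.trans hTT)
      rw [hblock] at h3
      have hm : Z T ≤ Z (2 * T) := Z_mono hz (by linarith)
      rw [Finset.sum_sub_distrib, Finset.sum_const, Nat.card_Ioc, nsmul_eq_mul,
        Nat.cast_sub hm]
      unfold Mb at h3
      rw [mul_comm _ κ]
      exact h3)
  -- the choice of the parameters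
  obtain ⟨δ, hδ⟩ : ∃ δ : ℝ, δ = min δ₁ (ε / (8 * (|κ| + 1))) := ⟨_, rfl⟩
  have hκ0 : 0 ≤ |κ| := abs_nonneg κ
  have hδ0 : 0 < δ := by
    rw [hδ]
    exact lt_min hδ₁ (by positivity)
  have hδa : δ ≤ δ₁ := by rw [hδ]; exact min_le_left _ _
  have hδb : |κ| * δ ≤ ε / 8 := by
    have h3 : δ ≤ ε / (8 * (|κ| + 1)) := by rw [hδ]; exact min_le_right _ _
    rw [le_div_iff₀ (by positivity)] at h3
    nlinarith
  obtain ⟨ι, hι⟩ : ∃ ι : ℝ, ι = min (δ / 2) (1 / 4) := ⟨_, rfl⟩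
  have hι0 : 0 < ι := by
    rw [hι]
    exact lt_min (by positivity) (by norm_num)
  have hιa : 2 * ι ≤ δ := by
    have : ι ≤ δ / 2 := by rw [hι]; exact min_le_left _ _
    linarith
  have hιb : ι ≤ 1 / 4 := by rw [hι]; exact min_le_right _ _
  have hc0 : 0 < 1 - ι := by linarith
  have hev1 : ∀ᶠ t : ℝ in atTop, 1 - 2 * ι < (Z ((1 - ι) * t) : ℝ) / (Z t : ℝ) :=
    (ratio hz (1 - ι) hc0).eventually (lt_mem_nhds (by linarith))
  have hoT := o_tendsto hz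
  obtain ⟨C1, hC1⟩ : ∃ C1 : ℝ, C1 = ∑ n ∈ Finset.Ioc 0 K, H a q K n := ⟨_, rfl⟩
  filter_upwards [hoT.eventually hev1, hoT.eventually (eventually_ge_atTop (T0 / (1 - ι))),
    eventually_ge_atTop (2 * K + 1),
    tendsto_natCast_atTop_atTop.eventually (eventually_ge_atTop ((K : ℝ) / δ₁)),
    tendsto_natCast_atTop_atTop.eventually (eventually_ge_atTop ((C + C1) / (ε / 8)))]
    with N hN1 hN2 hN3 hN4 hN5
  have hN0 : 0 < N := by omega
  have hN0' : (0 : ℝ) < N := by exact_mod_cast hN0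
  have ho1 : 1 ≤ o N := hz.one.trans (hz.mono 1 N le_rfl hN0)
  obtain ⟨y, hy⟩ : ∃ y : ℝ, y = (1 - ι) * o N := ⟨_, rfl⟩
  rw [← hy] at hN1
  have hyT : T0 ≤ y := by
    rw [div_le_iff₀ hc0] at hN2
    rw [hy]
    linarith
  have hZN : N ≤ Z (o N) := (hz.iff N hN0 _).1 le_rfl
  have hMN : Z y < N := by
    by_contra h
    have h3 := (hz.iff N hN0 y).2 (not_lt.1 h)
    rw [hy] at h3
    nlinarith
  have hZN' : (N : ℝ) ≤ Z (o N) := by exact_mod_cast hZN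
  have hM1 : (1 - 2 * ι) * N ≤ Z y := by
    rw [lt_div_iff₀ (by linarith)] at hN1
    have : (1 - 2 * ι) * (N : ℝ) ≤ (1 - 2 * ι) * Z (o N) :=
      mul_le_mul_of_nonneg_left hZN' (by linarith)
    linarith
  have hMN' : (Z y : ℝ) ≤ N := by exact_mod_cast hMN.le
  have hdiff : (N : ℝ) - Z y ≤ δ * N := by nlinarith
  have hKM : K ≤ Z y := by
    have h3 : (K : ℝ) ≤ Z y := by
      have h4 : 2 * (K : ℝ) + 1 ≤ N := by exact_mod_cast hN3
      nlinarith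
    exact_mod_cast h3
  have hKN : (K : ℝ) ≤ δ₁ * N := by
    rw [div_le_iff₀ hδ₁] at hN4
    linarith
  have hCN : C + C1 ≤ ε / 8 * N := by
    rw [div_le_iff₀ (by positivity)] at hN5
    linarith
  -- the sum of the local sums
  have hb := hC y hyT
  have ht1 := htail N (Z y) (by omega) hKM hMN.le (hdiff.trans (by gcongr))
  have hbN : |∑ n ∈ Finset.Ioc 0 N, (G a q K n - κ)| ≤ C + ε * N + ε / 8 * N + ε / 8 * N := by
    rw [← Finset.sum_Ioc_consecutive _ (Nat.zero_le (Z y)) hMN.le]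
    refine (abs_add_le _ _).trans ?_
    have h3 : |∑ n ∈ Finset.Ioc (Z y) N, (G a q K n - κ)| ≤ ε / 8 * N + ε / 8 * N := by
      refine (Finset.abs_sum_le_sum_abs _ _).trans ?_
      have h4 : ∑ n ∈ Finset.Ioc (Z y) N, |G a q K n - κ| ≤
          ∑ n ∈ Finset.Ioc (Z y) N, (H a q K n + |κ|) := by
        refine Finset.sum_le_sum fun n _ => ?_
        have h5 := abs_sub (G a q K n) κ
        have h6 := abs_G_le a q K n
        linarith
      refine h4.trans ?_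
      rw [Finset.sum_add_distrib, Finset.sum_const, Nat.card_Ioc, nsmul_eq_mul,
        Nat.cast_sub hMN.le]
      have h7 : ((N : ℝ) - Z y) * |κ| ≤ ε / 8 * N := by
        calc ((N : ℝ) - Z y) * |κ| ≤ δ * N * |κ| := by gcongr
          _ = |κ| * δ * N := by ring
          _ ≤ ε / 8 * N := by gcongr
      linarith
    have h8 : ε * (Z y : ℝ) ≤ ε * N := by gcongr
    linarith
  have ht2 := htail N (N - K) (by omega) (by omega) (Nat.sub_le N K) (by
    rw [Nat.cast_sub (by omega : K ≤ N)]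
    linarith)
  have hg := glob a q K hq' N (by omega)
  rw [← hC1] at hg
  obtain ⟨S, hS⟩ : ∃ S : ℝ, S = ∑ n ∈ Finset.Icc 1 N, ∑ m ∈ Finset.Icc 1 N,
    a n * a m * q ((m : ℤ) - n) := ⟨_, rfl⟩
  rw [← hS] at hg
  have hAC : AC (fun n => dl o n - 1) f r N = 1 / (N : ℝ) * S := by
    unfold AC
    rw [hS, ha, hqd]
    refine congrArg _ (Finset.sum_congr rfl fun n _ => Finset.sum_congr rfl fun m _ => ?_)
    push_cast
    ring
  have hfin : |S - κ * N| ≤ 2 * ε * N := by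
    have e : S - κ * N = (S - ∑ n ∈ Finset.Ioc 0 N, G a q K n) +
        ∑ n ∈ Finset.Ioc 0 N, (G a q K n - κ) := by
      rw [Finset.sum_sub_distrib, Finset.sum_const, Nat.card_Ioc, nsmul_eq_mul, Nat.sub_zero]
      ring
    rw [e]
    refine (abs_add_le _ _).trans ?_
    have : 0 < ε * (N : ℝ) := by positivity
    linarith
  rw [hAC]
  have e : 1 / (N : ℝ) * S - κ = (S - κ * N) / N := by
    field_simp
  rw [e, abs_div, abs_of_pos hN0', div_le_iff₀ hN0']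
  exact hfin

end Pool.Agent.H478.ON.GLO
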