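import Pool.Agent.H478.ON.Stm2

/-! Sixth moments of sums of gaps (project ON of helper478, by helper806). -/

set_option autoImplicit false

namespace Pool.Agent.H478.ON.GM6

open Filter Topology MeasureTheory Pool.Agent.H478.ON Finset

lemma dl_nonneg {o : ℕ → ℝ} {Z : ℝ → ℕ} (h : Zr o Z) (n : ℕ) (hn : 1 ≤ n) : 0 ≤ dl o n := by
  have h1 : 1 ≤ o n := h.one.trans (h.mono 1 n le_rfl hn)
  have h2 : o n ≤ o (n + 1) := h.mono n (n + 1) hn (Nat.le_succ n)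
  have h3 : o n * Real.log (o n) ≤ o (n + 1) * Real.log (o (n + 1)) :=
    mul_le_mul h2 (Real.log_le_log (by linarith) h2) (Real.log_nonneg h1) (by linarith)
  unfold dl
  exact div_nonneg (by linarith) (by positivity)

open Classical in
lemma layer (Y x : ℝ) (hY : 0 < Y) (hx : 0 ≤ x) (J : ℕ) (h : x < Y * 2 ^ J) :
    x ^ 6 ≤ Y ^ 6 + ∑ j ∈ range J, if Y * 2 ^ j ≤ x then (Y * 2 ^ (j + 1)) ^ 6 else 0 := by
  induction J with
  | zero =>
    rw [pow_zero, mul_one] at h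
    rw [range_zero, sum_empty, add_zero]
    exact pow_le_pow_left₀ hx h.le 6
  | succ J ih =>
    rw [sum_range_succ]
    by_cases h1 : Y * 2 ^ J ≤ x
    · rw [if_pos h1]
      have h2 : 0 ≤ ∑ j ∈ range J, if Y * 2 ^ j ≤ x then (Y * 2 ^ (j + 1)) ^ 6 else 0 := by
        refine sum_nonneg fun j _ => ?_
        split_ifs <;> positivity
      have h3 : x ^ 6 ≤ (Y * 2 ^ (J + 1)) ^ 6 := pow_le_pow_left₀ hx h.le 6
      have h4 : 0 ≤ Y ^ 6 := by positivity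
      linarith
    · rw [if_neg h1, add_zero]
      exact ih (not_le.1 h1)

lemma term_le {c Y : ℝ} (hc : 0 < c) (hY : 1 < Y) (j : ℕ) :
    (Y * 2 ^ (j + 1)) ^ 6 * Real.exp (-c * (Y * 2 ^ j) * Real.log (Y * 2 ^ j)) ≤
      (2 * Y) ^ 6 * (5040 / (c * Y * Real.log Y) ^ 7) * (1 / 2) ^ j := by
  have hl : 0 < Real.log Y := Real.log_pos hY
  have hY0 : 0 < Y := by linarith
  obtain ⟨u, hu⟩ : ∃ u, u = c * Y * Real.log Y := ⟨_, rfl⟩
  have hu0 : 0 < u := by rw [hu]; positivity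
  have h2j : (1 : ℝ) ≤ 2 ^ j := one_le_pow₀ (by norm_num)
  have h1 : Real.exp (-c * (Y * 2 ^ j) * Real.log (Y * 2 ^ j)) ≤ Real.exp (-(u * 2 ^ j)) := by
    apply Real.exp_le_exp.2
    have h2 : Real.log Y ≤ Real.log (Y * 2 ^ j) :=
      Real.log_le_log hY0 (le_mul_of_one_le_right hY0.le h2j)
    have h3 : c * (Y * 2 ^ j) * Real.log Y ≤ c * (Y * 2 ^ j) * Real.log (Y * 2 ^ j) :=
      mul_le_mul_of_nonneg_left h2 (by positivity)
    have h4 : c * (Y * 2 ^ j) * Real.log Y = u * 2 ^ j := by rw [hu]; ring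
    nlinarith
  have h5 : Real.exp (-(u * 2 ^ j)) ≤ 5040 / (u * 2 ^ j) ^ 7 := by
    have h6 := Real.pow_div_factorial_le_exp (u * 2 ^ j) (by positivity) 7
    have h7 : ((Nat.factorial 7 : ℕ) : ℝ) = 5040 := by norm_num [Nat.factorial]
    rw [h7] at h6
    have h8 : 0 < (u * 2 ^ j) ^ 7 := by positivity
    rw [Real.exp_neg, inv_le_comm₀ (Real.exp_pos _) (by positivity), inv_div]
    exact h6
  calc (Y * 2 ^ (j + 1)) ^ 6 * Real.exp (-c * (Y * 2 ^ j) * Real.log (Y * 2 ^ j))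
      ≤ (Y * 2 ^ (j + 1)) ^ 6 * (5040 / (u * 2 ^ j) ^ 7) :=
        mul_le_mul_of_nonneg_left (h1.trans h5) (by positivity)
    _ = (2 * Y) ^ 6 * (5040 / u ^ 7) * (1 / 2) ^ j := by
        rw [one_div, inv_pow]
        have : (2 : ℝ) ^ j ≠ 0 := by positivity
        field_simp
        ring
    _ = (2 * Y) ^ 6 * (5040 / (c * Y * Real.log Y) ^ 7) * (1 / 2) ^ j := by rw [hu]

/-- sixth moments of the gaps -/
lemma six {o : ℕ → ℝ} {Z : ℝ → ℕ} (h : Zr o Z) (hG : Gap o) : ∃ C : ℝ, 0 ≤ C ∧ ∀ N : ℕ,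
    ∑ n ∈ Icc 1 N, dl o n ^ 6 ≤ C * N := by
  classical
  obtain ⟨c, Y, hc, hY, hg⟩ := hG
  have hY0 : 0 < Y := by linarith
  have hl : 0 < Real.log Y := Real.log_pos hY
  obtain ⟨D, hD⟩ : ∃ D, D = (2 * Y) ^ 6 * (5040 / (c * Y * Real.log Y) ^ 7) := ⟨_, rfl⟩
  have hD0 : 0 ≤ D := by rw [hD]; positivity
  refine ⟨Y ^ 6 + D * 2, by positivity, fun N => ?_⟩
  rcases Nat.eq_zero_or_pos N with hN | hN
  · rw [hN]
    simp
  obtain ⟨J, hJ⟩ : ∃ J : ℕ, ∀ n ∈ Icc 1 N, dl o n < Y * 2 ^ J := by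
    have h1 : ∀ n : ℕ, ∃ J : ℕ, dl o n < Y * 2 ^ J := by
      intro n
      obtain ⟨J, hJ⟩ := pow_unbounded_of_one_lt (dl o n) (one_lt_two : (1 : ℝ) < 2)
      refine ⟨J, hJ.trans_le ?_⟩
      exact le_mul_of_one_le_left (by positivity) hY.le
    choose f hf using h1
    refine ⟨(Icc 1 N).sup f, fun n hn => (hf n).trans_le ?_⟩
    exact mul_le_mul_of_nonneg_left (pow_le_pow_right₀ (by norm_num) (le_sup hn)) hY0.le
  have hgeo : ∑ j ∈ range J, (1 / 2 : ℝ) ^ j ≤ 2 := by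
    have h1 := geom_sum_eq (show (1 / 2 : ℝ) ≠ 1 by norm_num) J
    rw [h1]
    have h2 : (0 : ℝ) ≤ (1 / 2) ^ J := by positivity
    rw [div_le_iff_of_neg (by norm_num)]
    linarith
  calc ∑ n ∈ Icc 1 N, dl o n ^ 6
      ≤ ∑ n ∈ Icc 1 N, (Y ^ 6 + ∑ j ∈ range J,
          if Y * 2 ^ j ≤ dl o n then (Y * 2 ^ (j + 1)) ^ 6 else 0) :=
        sum_le_sum fun n hn => layer Y (dl o n) hY0
          (dl_nonneg h n (mem_Icc.1 hn).1) J (hJ n hn)
    _ = N * Y ^ 6 + ∑ j ∈ range J, ∑ n ∈ Icc 1 N,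
          (if Y * 2 ^ j ≤ dl o n then (Y * 2 ^ (j + 1)) ^ 6 else 0) := by
        rw [sum_add_distrib, sum_const, Nat.card_Icc, Nat.add_sub_cancel, nsmul_eq_mul, sum_comm]
    _ ≤ N * Y ^ 6 + ∑ j ∈ range J, N * (D * (1 / 2) ^ j) := by
        gcongr with j hj
        have h2j : (1 : ℝ) ≤ 2 ^ j := one_le_pow₀ (by norm_num)
        have h1 := hg N hN (Y * 2 ^ j) (le_mul_of_one_le_right hY0.le h2j)
        have h2 : {n : ℕ | 1 ≤ n ∧ n ≤ N ∧ Y * 2 ^ j ≤ dl o n} =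
            (((Icc 1 N).filter fun n => Y * 2 ^ j ≤ dl o n : Finset ℕ) : Set ℕ) := by
          ext n
          rw [mem_coe, mem_filter, mem_Icc]
          exact ⟨fun hx => ⟨⟨hx.1, hx.2.1⟩, hx.2.2⟩, fun hx => ⟨hx.1.1, hx.1.2, hx.2⟩⟩
        rw [h2, Set.ncard_coe_finset] at h1
        rw [← sum_filter, sum_const, nsmul_eq_mul]
        calc (((Icc 1 N).filter fun n => Y * 2 ^ j ≤ dl o n).card : ℝ) * (Y * 2 ^ (j + 1)) ^ 6
            ≤ N * Real.exp (-c * (Y * 2 ^ j) * Real.log (Y * 2 ^ j)) *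
                (Y * 2 ^ (j + 1)) ^ 6 := mul_le_mul_of_nonneg_right h1 (by positivity)
          _ = N * ((Y * 2 ^ (j + 1)) ^ 6 *
                Real.exp (-c * (Y * 2 ^ j) * Real.log (Y * 2 ^ j))) := by ring
          _ ≤ N * (D * (1 / 2) ^ j) := by
                rw [hD]
                exact mul_le_mul_of_nonneg_left (term_le hc hY j) (by positivity)
    _ ≤ (Y ^ 6 + D * 2) * N := by
        rw [← mul_sum, ← mul_sum]
        have h3 : (N : ℝ) * (D * ∑ j ∈ range J, (1 / 2 : ℝ) ^ j) ≤ N * (D * 2) :=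
          mul_le_mul_of_nonneg_left (mul_le_mul_of_nonneg_left hgeo hD0) (by positivity)
        linarith

theorem t_GM6 : S_GM6 := by
  intro o Z h hG
  obtain ⟨C, hC, hN⟩ := six h hG
  refine ⟨C, hC, fun k N => ⟨dl_nonneg h, ?_⟩⟩
  rcases Nat.eq_zero_or_pos k with hk | hk
  · rw [hk]
    simp [Sk]
  have hk0 : (0 : ℝ) < k := by exact_mod_cast hk
  have h1 : ∀ n ∈ Icc 1 N, Sk o k n ^ 6 ≤ (k : ℝ) ^ 5 * ∑ i ∈ range k, dl o (n + i) ^ 6 := by
    intro n hn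
    have hn1 := (mem_Icc.1 hn).1
    have h2 := pow_sum_le_card_mul_sum_pow (s := range k) (f := fun i => dl o (n + i))
      (fun i _ => dl_nonneg h (n + i) (by omega)) 5
    rw [card_range] at h2
    exact h2
  have h3 : ∀ i ∈ range k, ∑ n ∈ Icc 1 N, dl o (n + i) ^ 6 ≤ C * ((N : ℝ) + k) := by
    intro i hi
    have hi1 := mem_range.1 hi
    have h4 : ∑ n ∈ Icc 1 N, dl o (n + i) ^ 6 =
        ∑ m ∈ (Icc 1 N).map (addRightEmbedding i), dl o m ^ 6 := by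
      rw [sum_map]
      rfl
    have h5 : (Icc 1 N).map (addRightEmbedding i) ⊆ Icc 1 (N + k) := by
      intro m hm
      rw [Finset.mem_map] at hm
      obtain ⟨n, hn, rfl⟩ := hm
      rw [mem_Icc] at hn ⊢
      show 1 ≤ n + i ∧ n + i ≤ N + k
      omega
    rw [h4]
    refine (sum_le_sum_of_subset_of_nonneg h5 fun m _ _ => by positivity).trans ?_
    have h6 := hN (N + k)
    rw [Nat.cast_add] at h6
    exact h6
  calc ∑ n ∈ Icc 1 N, Sk o k n ^ 6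
      ≤ ∑ n ∈ Icc 1 N, (k : ℝ) ^ 5 * ∑ i ∈ range k, dl o (n + i) ^ 6 := sum_le_sum h1
    _ = (k : ℝ) ^ 5 * ∑ i ∈ range k, ∑ n ∈ Icc 1 N, dl o (n + i) ^ 6 := by
        rw [← mul_sum, sum_comm]
    _ ≤ (k : ℝ) ^ 5 * ∑ _i ∈ range k, C * ((N : ℝ) + k) :=
        mul_le_mul_of_nonneg_left (sum_le_sum h3) (by positivity)
    _ = C * (k : ℝ) ^ 6 * (N + k) := by
        rw [sum_const, card_range, nsmul_eq_mul]
        ring

end Pool.Agent.H478.ON.GM6
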