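import Pool.Agent.H478.ON.Stm

/-!
# MAJ: majorants and minorants (project of helper478; helper696)
-/

set_option autoImplicit false
set_option linter.unusedSectionVars false

open Filter Topology MeasureTheory

namespace Pool.Agent.H478.ON.MAJ

/-! ### The transform of `w` -/

theorem ct_cont {w : ℝ → ℝ} (hw : Continuous w) (hc : HasCompactSupport w) :
    Continuous (ct w) := by
  have hi : Integrable w := hw.integrable_of_hasCompactSupport hc
  refine continuous_of_dominated (F := fun ξ x => w x * Real.cos (ξ * x))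
    (bound := fun x => |w x|) ?_ ?_ hi.abs ?_
  · intro ξ
    have h : Continuous fun x => w x * Real.cos (ξ * x) := by fun_prop
    exact h.aestronglyMeasurable
  · intro ξ
    refine ae_of_all _ fun x => ?_
    rw [norm_mul, Real.norm_eq_abs, Real.norm_eq_abs]
    exact mul_le_of_le_one_right (abs_nonneg _) (Real.abs_cos_le_one _)
  · refine ae_of_all _ fun x => ?_
    fun_prop

theorem ct_even (w : ℝ → ℝ) (ξ : ℝ) : ct w (-ξ) = ct w ξ := by
  unfold ct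
  congr 1
  funext x
  rw [neg_mul, Real.cos_neg]

theorem W_int {W : ℝ → ℝ} {C : ℝ} (hc : Continuous W) (h0 : ∀ ξ, 0 ≤ W ξ)
    (h1 : ∀ ξ, W ξ ≤ C / (1 + ξ ^ 2) ^ 4) :
    Integrable W ∧ Integrable fun ξ => |ξ| * W ξ := by
  have hC : 0 ≤ C := by
    have := (h0 0).trans (h1 0)
    simpa using this
  have hint : Integrable fun ξ : ℝ => C * (1 + ξ ^ 2)⁻¹ := integrable_inv_one_add_sq.const_mul C
  have key : ∀ ξ : ℝ, (1 : ℝ) ≤ 1 + ξ ^ 2 := fun ξ => by nlinarith [sq_nonneg ξ]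
  have key2 : ∀ ξ : ℝ, |ξ| ≤ 1 + ξ ^ 2 := fun ξ => by
    rw [← sq_abs ξ]
    nlinarith [sq_nonneg (|ξ| - 1), abs_nonneg ξ]
  constructor
  · refine hint.mono' hc.aestronglyMeasurable (ae_of_all _ fun ξ => ?_)
    rw [Real.norm_eq_abs, abs_of_nonneg (h0 ξ)]
    refine (h1 ξ).trans ?_
    rw [div_eq_mul_inv]
    have := key ξ
    apply mul_le_mul_of_nonneg_left _ hC
    exact inv_anti₀ (by linarith) (le_self_pow₀ this (by norm_num))
  · refine hint.mono' (continuous_abs.mul hc).aestronglyMeasurable (ae_of_all _ fun ξ => ?_)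
    rw [Real.norm_eq_abs, abs_mul, abs_abs, abs_of_nonneg (h0 ξ)]
    obtain ⟨u, hu⟩ : ∃ u : ℝ, u = 1 + ξ ^ 2 := ⟨_, rfl⟩
    have h2 := h1 ξ
    have h3 := key ξ
    have h4 := key2 ξ
    rw [← hu] at h2 h3 h4 ⊢
    have hu0 : 0 < u := by linarith
    calc |ξ| * W ξ ≤ u * (C / u ^ 4) := by
          have := h0 ξ
          gcongr
      _ = C * (u ^ 3)⁻¹ := by field_simp
      _ ≤ C * u⁻¹ := by
          apply mul_le_mul_of_nonneg_left _ hC
          exact inv_anti₀ hu0 (le_self_pow₀ h3 (by norm_num))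

/-! ### The moving average of a density -/

section dens

variable {V : ℝ → ℝ} {a : ℝ}

/-- the integral of `V` over a translate of the interval -/
noncomputable def J (V : ℝ → ℝ) (a ξ : ℝ) : ℝ := ∫ η in Set.Ioc (-a) a, V (ξ - η)

theorem J_nonneg (h0 : ∀ s, 0 ≤ V s) (ξ : ℝ) : 0 ≤ J V a ξ :=
  setIntegral_nonneg measurableSet_Ioc fun _ _ => h0 _

theorem J_le (h0 : ∀ s, 0 ≤ V s) (hi : Integrable V) (ξ : ℝ) : J V a ξ ≤ ∫ s, V s := by
  calc J V a ξ ≤ ∫ η, V (ξ - η) :=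
        setIntegral_le_integral (hi.comp_sub_left ξ) (ae_of_all _ fun _ => h0 _)
    _ = ∫ s, V s := integral_sub_left_eq_self V volume ξ

theorem J_ge (h0 : ∀ s, 0 ≤ V s) (hi : Integrable V) (hi1 : Integrable fun s => |s| * V s)
    {δ : ℝ} (hδ : 0 < δ) {ξ : ℝ} (hξ : |ξ| ≤ a - δ) :
    (∫ s, V s) - (1 / δ) * (∫ s, |s| * V s) ≤ J V a ξ := by
  have h1 : ∫ η, (Set.Ioc (-a) a).indicator (fun η => V (ξ - η)) η = J V a ξ :=
    integral_indicator measurableSet_Ioc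
  have h2 : ∫ η, (V (ξ - η) - (1 / δ) * (|ξ - η| * V (ξ - η))) =
      (∫ s, V s) - (1 / δ) * (∫ s, |s| * V s) := by
    rw [integral_sub (hi.comp_sub_left ξ) ((hi1.comp_sub_left ξ).const_mul _),
      integral_const_mul, integral_sub_left_eq_self V volume ξ,
      integral_sub_left_eq_self (fun s => |s| * V s) volume ξ]
  rw [← h1, ← h2]
  refine integral_mono ((hi.comp_sub_left ξ).sub ((hi1.comp_sub_left ξ).const_mul _))
    ((hi.comp_sub_left ξ).indicator measurableSet_Ioc) fun η => ?_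
  by_cases hη : η ∈ Set.Ioc (-a) a
  · rw [Set.indicator_of_mem hη]
    have h3 : 0 ≤ (1 / δ) * (|ξ - η| * V (ξ - η)) := by
      have := h0 (ξ - η)
      positivity
    simp only
    linarith
  · rw [Set.indicator_of_notMem hη]
    have h3 : δ ≤ |ξ - η| := by
      have h4 : a ≤ |η| := by
        by_contra hc
        push Not at hc
        exact hη ⟨(abs_lt.1 hc).1, (abs_lt.1 hc).2.le⟩
      have h5 : |η| ≤ |ξ| + |ξ - η| := by
        calc |η| = |ξ - (ξ - η)| := by rw [sub_sub_cancel]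
          _ ≤ |ξ| + |ξ - η| := abs_sub _ _
      linarith
    have h6 : 1 ≤ (1 / δ) * |ξ - η| := by
      rw [one_div, inv_mul_eq_div, le_div_iff₀ hδ, one_mul]
      exact h3
    have h7 := mul_le_mul_of_nonneg_right h6 (h0 (ξ - η))
    simp only
    rw [← mul_assoc]
    linarith

theorem conv_int {ν : Measure ℝ} [SFinite ν] {f g : ℝ → ℝ} (hf : Integrable f ν)
    (hg : Integrable g) : Integrable (fun p : ℝ × ℝ => f p.2 * g (p.1 - p.2)) (volume.prod ν) :=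
  hf.convolution_integrand (ContinuousLinearMap.mul ℝ ℝ) hg

theorem conv_eq {ν : Measure ℝ} [SFinite ν] {f g : ℝ → ℝ} (hf : Integrable f ν)
    (hg : Integrable g) :
    ∫ ξ, ∫ η, f η * g (ξ - η) ∂ν = (∫ η, f η ∂ν) * ∫ s, g s := by
  rw [integral_integral_swap (f := fun ξ η => f η * g (ξ - η)) (conv_int hf hg)]
  have h : ∀ η, ∫ ξ, f η * g (ξ - η) = f η * ∫ s, g s := fun η => by
    rw [integral_const_mul, integral_sub_right_eq_self (fun x => g x)]
  simp_rw [h]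
  rw [integral_mul_const]

theorem int_abs (ha : 0 ≤ a) : ∫ η in Set.Ioc (-a) a, |η| = a ^ 2 := by
  rw [← intervalIntegral.integral_of_le (by linarith)]
  have h1 : IntervalIntegrable (fun x : ℝ => |x|) volume (-a) 0 :=
    continuous_abs.intervalIntegrable _ _
  have h2 : IntervalIntegrable (fun x : ℝ => |x|) volume 0 a :=
    continuous_abs.intervalIntegrable _ _
  rw [← intervalIntegral.integral_add_adjacent_intervals h1 h2]
  have e1 : ∫ x in (-a)..0, |x| = ∫ x in (-a)..0, -x := by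
    apply intervalIntegral.integral_congr
    intro x hx
    rw [Set.uIcc_of_le (by linarith)] at hx
    exact abs_of_nonpos hx.2
  have e2 : ∫ x in (0 : ℝ)..a, |x| = ∫ x in (0 : ℝ)..a, x := by
    apply intervalIntegral.integral_congr
    intro x hx
    rw [Set.uIcc_of_le ha] at hx
    exact abs_of_nonneg hx.1
  rw [e1, e2, intervalIntegral.integral_neg, integral_id, integral_id]
  ring

theorem J_mom (hV : Continuous V) (h0 : ∀ s, 0 ≤ V s) (hi : Integrable V)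
    (hi1 : Integrable fun s => |s| * V s) (ha : 0 ≤ a) :
    Integrable (fun ξ => |ξ| * J V a ξ) ∧
      a ^ 2 * (∫ s, V s) - 2 * a * (∫ s, |s| * V s) ≤ ∫ ξ, |ξ| * J V a ξ ∧
      ∫ ξ, |ξ| * J V a ξ ≤ a ^ 2 * (∫ s, V s) + 2 * a * (∫ s, |s| * V s) := by
  obtain ⟨ν, hν⟩ : ∃ ν : Measure ℝ, ν = volume.restrict (Set.Ioc (-a) a) := ⟨_, rfl⟩
  have hfin : IsFiniteMeasure ν := by
    rw [hν]
    infer_instance
  have hone : Integrable (fun _ : ℝ => (1 : ℝ)) ν := integrable_const 1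
  have habs : Integrable (fun η : ℝ => |η|) ν := by
    rw [hν]
    exact continuous_abs.integrableOn_Ioc
  -- the three double integrals
  have p0 : Integrable fun ξ => ∫ η, (1 : ℝ) * V (ξ - η) ∂ν := (conv_int hone hi).integral_prod_left
  have p1 : Integrable fun ξ => ∫ η, (1 : ℝ) * (|ξ - η| * V (ξ - η)) ∂ν :=
    (conv_int hone hi1).integral_prod_left
  have p2 : Integrable fun ξ => ∫ η, |η| * V (ξ - η) ∂ν := (conv_int habs hi).integral_prod_left
  have q1 : ∫ ξ, ∫ η, (1 : ℝ) * (|ξ - η| * V (ξ - η)) ∂ν = 2 * a * ∫ s, |s| * V s := by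
    rw [conv_eq hone hi1, hν, setIntegral_const, smul_eq_mul, mul_one, Real.volume_real_Ioc]
    rw [max_eq_left (by linarith)]
    ring
  have q2 : ∫ ξ, ∫ η, |η| * V (ξ - η) ∂ν = a ^ 2 * ∫ s, V s := by
    rw [conv_eq habs hi, hν, int_abs ha]
  -- pointwise inequalities
  have c0 : ∀ ξ, Integrable (fun η => |ξ| * V (ξ - η)) ν := fun ξ => by
    rw [hν]
    exact (show Continuous fun η => |ξ| * V (ξ - η) by fun_prop).integrableOn_Ioc
  have c1 : ∀ ξ, Integrable (fun η => (1 : ℝ) * (|ξ - η| * V (ξ - η))) ν := fun ξ => by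
    rw [hν]
    exact (show Continuous fun η => (1 : ℝ) * (|ξ - η| * V (ξ - η)) by fun_prop).integrableOn_Ioc
  have c2 : ∀ ξ, Integrable (fun η => |η| * V (ξ - η)) ν := fun ξ => by
    rw [hν]
    exact (show Continuous fun η => |η| * V (ξ - η) by fun_prop).integrableOn_Ioc
  have eJ : ∀ ξ, |ξ| * J V a ξ = ∫ η, |ξ| * V (ξ - η) ∂ν := fun ξ => by
    rw [hν, integral_const_mul]
    rfl
  have up : ∀ ξ, |ξ| * J V a ξ ≤
      (∫ η, |η| * V (ξ - η) ∂ν) + ∫ η, (1 : ℝ) * (|ξ - η| * V (ξ - η)) ∂ν := fun ξ => by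
    rw [eJ, ← integral_add (c2 ξ) (c1 ξ)]
    refine integral_mono (c0 ξ) ((c2 ξ).add (c1 ξ)) fun η => ?_
    have h1 : |ξ| ≤ |η| + |ξ - η| := by
      calc |ξ| = |η + (ξ - η)| := by rw [add_sub_cancel]
        _ ≤ _ := abs_add_le _ _
    have h2 := mul_le_mul_of_nonneg_right h1 (h0 (ξ - η))
    simp only [one_mul]
    linarith
  have lo : ∀ ξ, (∫ η, |η| * V (ξ - η) ∂ν) - (∫ η, (1 : ℝ) * (|ξ - η| * V (ξ - η)) ∂ν) ≤
      |ξ| * J V a ξ := fun ξ => by
    rw [eJ, ← integral_sub (c2 ξ) (c1 ξ)]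
    refine integral_mono ((c2 ξ).sub (c1 ξ)) (c0 ξ) fun η => ?_
    have h1 : |η| ≤ |ξ| + |ξ - η| := by
      calc |η| = |ξ - (ξ - η)| := by rw [sub_sub_cancel]
        _ ≤ |ξ| + |ξ - η| := abs_sub _ _
    have h2 := mul_le_mul_of_nonneg_right h1 (h0 (ξ - η))
    simp only [one_mul]
    linarith
  have hJm : AEStronglyMeasurable (fun ξ => |ξ| * J V a ξ) volume := by
    refine continuous_abs.aestronglyMeasurable.mul ?_
    have h1 := p0.aestronglyMeasurable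
    simp only [one_mul] at h1
    rw [hν] at h1
    exact h1
  have hJi : Integrable (fun ξ => |ξ| * J V a ξ) := by
    refine (p2.add p1).mono' hJm (ae_of_all _ fun ξ => ?_)
    rw [Real.norm_eq_abs, abs_of_nonneg (mul_nonneg (abs_nonneg _) (J_nonneg h0 ξ))]
    exact up ξ
  refine ⟨hJi, ?_, ?_⟩
  · rw [← q1, ← q2, ← integral_sub p2 p1]
    exact integral_mono (p2.sub p1) hJi lo
  · rw [← q1, ← q2, ← integral_add p2 p1]
    exact integral_mono hJi (p2.add p1) up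

end dens

/-! ### The functions -/

/-- the function with the transform `k J` -/
noncomputable def Fn (w : ℝ → ℝ) (a Δ k : ℝ) (x : ℝ) : ℝ :=
  k * (∫ η in Set.Ioc (-a) a, Real.cos (η * x)) * w (Δ⁻¹ * x)

theorem g_smooth (a : ℝ) :
    ContDiff ℝ 6 (fun x : ℝ => ∫ η in Set.Ioc (-a) a, Real.cos (η * x)) := by
  obtain ⟨h, hh⟩ : ∃ h : ℝ → ℂ, h = (Set.Ioc (-a) a).indicator (fun _ => (1 : ℂ)) := ⟨_, rfl⟩
  have hi : ∀ n : ℕ, Integrable (fun v : ℝ => ‖v‖ ^ n * ‖h v‖) := by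
    intro n
    have e : (fun v : ℝ => ‖v‖ ^ n * ‖h v‖) = (Set.Ioc (-a) a).indicator (fun v => ‖v‖ ^ n) := by
      funext v
      rw [hh]
      by_cases hv : v ∈ Set.Ioc (-a) a
      · rw [Set.indicator_of_mem hv, Set.indicator_of_mem hv, norm_one, mul_one]
      · rw [Set.indicator_of_notMem hv, Set.indicator_of_notMem hv, norm_zero, mul_zero]
    rw [e, integrable_indicator_iff measurableSet_Ioc]
    exact (continuous_norm.pow n).integrableOn_Ioc
  have h1 : ContDiff ℝ 6 (FourierTransform.fourier h) := by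
    have := Real.contDiff_fourier (f := h) (N := 6) (fun n _ => hi n)
    exact_mod_cast this
  have h2 : ContDiff ℝ 6 (fun x : ℝ => (FourierTransform.fourier h (x / (2 * Real.pi))).re) :=
    Complex.reCLM.contDiff.comp (h1.comp (contDiff_id.div_const _))
  have heq : (fun x : ℝ => ∫ η in Set.Ioc (-a) a, Real.cos (η * x)) =
      fun x : ℝ => (FourierTransform.fourier h (x / (2 * Real.pi))).re := by
    funext x
    rw [Real.fourier_real_eq_integral_exp_smul]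
    have e2 : (fun v : ℝ => Complex.exp (↑(-2 * Real.pi * v * (x / (2 * Real.pi))) * Complex.I) • h v) =
        (Set.Ioc (-a) a).indicator (fun v : ℝ => Complex.exp (((-(v * x) : ℝ) : ℂ) * Complex.I)) := by
      funext v
      rw [hh]
      have e3 : -2 * Real.pi * v * (x / (2 * Real.pi)) = -(v * x) := by
        field_simp
      rw [e3]
      by_cases hv : v ∈ Set.Ioc (-a) a
      · rw [Set.indicator_of_mem hv, Set.indicator_of_mem hv, smul_eq_mul, mul_one]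
      · rw [Set.indicator_of_notMem hv, Set.indicator_of_notMem hv, smul_zero]
    rw [e2, integral_indicator measurableSet_Ioc]
    have hI : Integrable (fun v : ℝ => Complex.exp (((-(v * x) : ℝ) : ℂ) * Complex.I))
        (volume.restrict (Set.Ioc (-a) a)) :=
      (show Continuous fun v : ℝ => Complex.exp (((-(v * x) : ℝ) : ℂ) * Complex.I) by
        fun_prop).integrableOn_Ioc
    have e4 := Complex.reCLM.integral_comp_comm hI
    simp only [Complex.reCLM_apply] at e4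
    rw [← e4]
    congr 1
    funext v
    rw [Complex.exp_ofReal_mul_I_re, Real.cos_neg]
  rw [heq]
  exact h2

section fn

variable {w : ℝ → ℝ} {a Δ k : ℝ}

theorem Fn_smooth (hw : ContDiff ℝ 6 w) : ContDiff ℝ 6 (Fn w a Δ k) :=
  (contDiff_const.mul (g_smooth a)).mul (hw.comp (contDiff_const.mul contDiff_id))

theorem Fn_supp (hc : HasCompactSupport w) (hΔ : 0 < Δ) : HasCompactSupport (Fn w a Δ k) := by
  have h1 : HasCompactSupport fun x : ℝ => w (Δ⁻¹ • x) := hc.comp_smul (inv_ne_zero hΔ.ne')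
  exact h1.mul_left

theorem Fn_even (he : ∀ x, w (-x) = w x) (x : ℝ) : Fn w a Δ k (-x) = Fn w a Δ k x := by
  unfold Fn
  rw [mul_neg Δ⁻¹ x, he]
  simp only [mul_neg, Real.cos_neg]

theorem sc (hΔ : 0 < Δ) (ζ : ℝ) : ∫ x, w (Δ⁻¹ * x) * Real.cos (ζ * x) = Δ * ct w (Δ * ζ) := by
  have h := Measure.integral_comp_mul_left (fun u : ℝ => w u * Real.cos (Δ * ζ * u)) Δ⁻¹
  rw [inv_inv, abs_of_pos hΔ, smul_eq_mul] at h
  unfold ct
  rw [← h]
  congr 1
  funext x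
  congr 2
  field_simp

theorem ct_Fn (hw : Continuous w) (hc : HasCompactSupport w) (hΔ : 0 < Δ) (ha : 0 ≤ a) (ξ : ℝ) :
    ct (Fn w a Δ k) ξ = k * J (fun s => Δ * ct w (Δ * s)) a ξ := by
  have hcw := ct_cont hw hc
  obtain ⟨ν, hν⟩ : ∃ ν : Measure ℝ, ν = volume.restrict (Set.Ioc (-a) a) := ⟨_, rfl⟩
  have hfin : IsFiniteMeasure ν := by
    rw [hν]
    infer_instance
  have hi : Integrable (fun x => w (Δ⁻¹ * x)) :=
    (hw.integrable_of_hasCompactSupport hc).comp_mul_left' (inv_ne_zero hΔ.ne')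
  have hjc : Continuous fun p : ℝ × ℝ =>
      Real.cos (p.2 * p.1) * (w (Δ⁻¹ * p.1) * Real.cos (ξ * p.1)) := by fun_prop
  have hj : Integrable (fun p : ℝ × ℝ =>
      Real.cos (p.2 * p.1) * (w (Δ⁻¹ * p.1) * Real.cos (ξ * p.1))) (volume.prod ν) := by
    have h1 : Integrable (fun p : ℝ × ℝ => |w (Δ⁻¹ * p.1)| * (1 : ℝ)) (volume.prod ν) :=
      hi.abs.mul_prod (integrable_const (1 : ℝ))
    refine h1.mono' hjc.aestronglyMeasurable (ae_of_all _ fun p => ?_)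
    rw [norm_mul, norm_mul, Real.norm_eq_abs, Real.norm_eq_abs, Real.norm_eq_abs, mul_one]
    have b1 := Real.abs_cos_le_one (p.2 * p.1)
    have b2 := Real.abs_cos_le_one (ξ * p.1)
    calc |Real.cos (p.2 * p.1)| * (|w (Δ⁻¹ * p.1)| * |Real.cos (ξ * p.1)|)
        ≤ 1 * (|w (Δ⁻¹ * p.1)| * 1) := by gcongr
      _ = _ := by ring
  have e1 : ct (Fn w a Δ k) ξ =
      k * ∫ x, ∫ η, Real.cos (η * x) * (w (Δ⁻¹ * x) * Real.cos (ξ * x)) ∂ν := by
    unfold ct Fn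
    rw [← integral_const_mul, ← hν]
    congr 1
    funext x
    rw [integral_mul_const]
    ring
  rw [e1, integral_integral_swap
    (f := fun x η => Real.cos (η * x) * (w (Δ⁻¹ * x) * Real.cos (ξ * x))) hj]
  congr 1
  have e2 : ∀ η, ∫ x, Real.cos (η * x) * (w (Δ⁻¹ * x) * Real.cos (ξ * x)) =
      (1 / 2) * (Δ * ct w (Δ * (ξ - η))) + (1 / 2) * (Δ * ct w (Δ * (ξ + η))) := by
    intro η
    rw [← sc hΔ, ← sc hΔ, ← integral_const_mul, ← integral_const_mul, ← integral_add]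
    · congr 1
      funext x
      rw [sub_mul, add_mul, Real.cos_sub, Real.cos_add]
      ring
    · refine Integrable.const_mul ?_ _
      refine hi.abs.mono' (show Continuous fun x => w (Δ⁻¹ * x) * Real.cos ((ξ - η) * x) by
        fun_prop).aestronglyMeasurable (ae_of_all _ fun x => ?_)
      rw [norm_mul, Real.norm_eq_abs, Real.norm_eq_abs]
      exact mul_le_of_le_one_right (abs_nonneg _) (Real.abs_cos_le_one _)
    · refine Integrable.const_mul ?_ _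
      refine hi.abs.mono' (show Continuous fun x => w (Δ⁻¹ * x) * Real.cos ((ξ + η) * x) by
        fun_prop).aestronglyMeasurable (ae_of_all _ fun x => ?_)
      rw [norm_mul, Real.norm_eq_abs, Real.norm_eq_abs]
      exact mul_le_of_le_one_right (abs_nonneg _) (Real.abs_cos_le_one _)
  simp_rw [e2]
  unfold J
  rw [hν, ← intervalIntegral.integral_of_le (by linarith),
    ← intervalIntegral.integral_of_le (by linarith)]
  have c1 : Continuous fun η => Δ * ct w (Δ * (ξ - η)) := by fun_prop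
  have c2 : Continuous fun η => Δ * ct w (Δ * (ξ + η)) := by fun_prop
  have e4 : ∀ F G : ℝ → ℝ, Continuous F → Continuous G →
      ∫ η in (-a)..a, ((1 / 2) * F η + (1 / 2) * G η) =
        (1 / 2) * (∫ η in (-a)..a, F η) + (1 / 2) * ∫ η in (-a)..a, G η := by
    intro F G hF hG
    rw [intervalIntegral.integral_add ((hF.const_mul _).intervalIntegrable _ _)
      ((hG.const_mul _).intervalIntegrable _ _), intervalIntegral.integral_const_mul,
      intervalIntegral.integral_const_mul]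
  have e3 : ∫ η in (-a)..a, Δ * ct w (Δ * (ξ + η)) = ∫ η in (-a)..a, Δ * ct w (Δ * (ξ - η)) := by
    have h := intervalIntegral.integral_comp_neg (a := -a) (b := a)
      (fun η => Δ * ct w (Δ * (ξ - η)))
    rw [neg_neg] at h
    rw [← h]
    simp only [sub_neg_eq_add]
  rw [e4 _ _ c1 c2, e3]
  ring

end fn

/-! ### The constants -/

theorem ct_abs (f : ℝ → ℝ) (x : ℝ) : ct f |x| = ct f x := by
  rcases abs_choice x with h | h
  · rw [h]
  · rw [h, ct_even]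

theorem kap_eq (f : ℝ → ℝ) : kap f = 1 / (4 * Real.pi ^ 2) * ∫ ξ, |ξ| * ct f ξ := by
  have h := integral_comp_abs (f := fun ξ => ξ * ct f ξ)
  simp only [ct_abs] at h
  unfold kap
  rw [h]
  have := Real.pi_pos
  field_simp
  ring

/-- the estimates for the functions `Fn` -/
theorem est {w : ℝ → ℝ} (hw : Continuous w) (hc : HasCompactSupport w) (h0 : ∀ ξ, 0 ≤ ct w ξ)
    (hi : Integrable (ct w)) (hi1 : Integrable fun ξ => |ξ| * ct w ξ) {a Δ k I m : ℝ}
    (hI : I = ∫ s, ct w s) (hm : m = ∫ s, |s| * ct w s) (ha : 0 ≤ a) (hΔ : 0 < Δ) (hk : 0 ≤ k) :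
    (∀ ξ, 0 ≤ ct (Fn w a Δ k) ξ) ∧ (∀ ξ, ct (Fn w a Δ k) ξ ≤ k * I) ∧
    (∀ δ ξ, 0 < δ → |ξ| ≤ a - δ → k * (I - 1 / δ * (m / Δ)) ≤ ct (Fn w a Δ k) ξ) ∧
    k / (4 * Real.pi ^ 2) * (a ^ 2 * I - 2 * a * (m / Δ)) ≤ kap (Fn w a Δ k) ∧
    kap (Fn w a Δ k) ≤ k / (4 * Real.pi ^ 2) * (a ^ 2 * I + 2 * a * (m / Δ)) := by
  have hcw := ct_cont hw hc
  obtain ⟨V, hV⟩ : ∃ V : ℝ → ℝ, V = fun s => Δ * ct w (Δ * s) := ⟨_, rfl⟩
  have hVc : Continuous V := by rw [hV]; fun_prop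
  have hV0 : ∀ s, 0 ≤ V s := fun s => by
    rw [hV]
    exact mul_nonneg hΔ.le (h0 _)
  have hVi : Integrable V := by
    rw [hV]
    exact (hi.comp_mul_left' hΔ.ne').const_mul Δ
  have hab : (fun s => |s| * V s) = fun s => (fun t => |t| * ct w t) (Δ * s) := by
    funext s
    rw [hV]
    simp only
    rw [abs_mul, abs_of_pos hΔ]
    ring
  have hVi1 : Integrable fun s => |s| * V s := by
    rw [hab]
    exact hi1.comp_mul_left' hΔ.ne'
  have hVI : ∫ s, V s = I := by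
    rw [hV, integral_const_mul, Measure.integral_comp_mul_left (fun t => ct w t) Δ, hI,
      abs_of_pos (inv_pos.2 hΔ), smul_eq_mul, ← mul_assoc, mul_inv_cancel₀ hΔ.ne', one_mul]
  have hVm : ∫ s, |s| * V s = m / Δ := by
    rw [hab, Measure.integral_comp_mul_left (fun t => |t| * ct w t) Δ, hm,
      abs_of_pos (inv_pos.2 hΔ), smul_eq_mul, div_eq_inv_mul]
  have hct : ∀ ξ, ct (Fn w a Δ k) ξ = k * J V a ξ := fun ξ => by
    rw [hV]
    exact ct_Fn hw hc hΔ ha ξ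
  obtain ⟨-, l1, l2⟩ := J_mom hVc hV0 hVi hVi1 ha
  rw [hVI, hVm] at l1 l2
  have hkap : kap (Fn w a Δ k) = k / (4 * Real.pi ^ 2) * ∫ ξ, |ξ| * J V a ξ := by
    rw [kap_eq]
    have e : ∫ ξ, |ξ| * ct (Fn w a Δ k) ξ = k * ∫ ξ, |ξ| * J V a ξ := by
      rw [← integral_const_mul]
      congr 1
      funext ξ
      rw [hct]
      ring
    rw [e]
    ring
  have hk4 : 0 ≤ k / (4 * Real.pi ^ 2) := by positivity
  refine ⟨fun ξ => ?_, fun ξ => ?_, fun δ ξ hδ hξ => ?_, ?_, ?_⟩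
  · rw [hct]
    exact mul_nonneg hk (J_nonneg hV0 ξ)
  · rw [hct, ← hVI]
    exact mul_le_mul_of_nonneg_left (J_le hV0 hVi ξ) hk
  · rw [hct, ← hVI, ← hVm]
    exact mul_le_mul_of_nonneg_left (J_ge hV0 hVi hVi1 hδ hξ) hk
  · rw [hkap]
    exact mul_le_mul_of_nonneg_left l1 hk4
  · rw [hkap]
    exact mul_le_mul_of_nonneg_left l2 hk4

/-- the tail -/
theorem tail {w : ℝ → ℝ} (hw : Continuous w) (hc : HasCompactSupport w) {C b Δ δ k ξ : ℝ}
    (h0 : ∀ ξ, 0 ≤ ct w ξ) (hC : ∀ ξ, ct w ξ ≤ C / (1 + ξ ^ 2) ^ 4) (hC0 : 0 ≤ C) (hb : 0 ≤ b)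
    (hδ : 0 < δ) (hΔ : 1 ≤ Δ) (hk : 0 ≤ k) (hξ : b + δ ≤ |ξ|) :
    ct (Fn w b Δ k) ξ ≤ k * (C * (2 + (1 + 2 * b ^ 2) / δ ^ 2) ^ 4 * (2 * b)) / Δ /
      (1 + ξ ^ 2) ^ 4 := by
  have hΔ0 : 0 < Δ := by linarith
  rw [ct_Fn hw hc hΔ0 hb]
  obtain ⟨K, hK⟩ : ∃ K : ℝ, K = 2 + (1 + 2 * b ^ 2) / δ ^ 2 := ⟨_, rfl⟩
  have hK0 : 0 < K := by rw [hK]; positivity
  rw [← hK]
  obtain ⟨t, ht⟩ : ∃ t : ℝ, t = |ξ| - b := ⟨_, rfl⟩
  have ht0 : δ ≤ t := by linarith
  have htp : 0 < t := by linarith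
  have hKt : 1 + ξ ^ 2 ≤ K * t ^ 2 := by
    have e1 : ξ ^ 2 = (t + b) ^ 2 := by
      rw [ht, sub_add_cancel, sq_abs]
    have e2 : (t + b) ^ 2 ≤ 2 * t ^ 2 + 2 * b ^ 2 := by nlinarith [sq_nonneg (t - b)]
    have e3 : 1 + 2 * b ^ 2 ≤ (1 + 2 * b ^ 2) / δ ^ 2 * t ^ 2 := by
      rw [div_mul_eq_mul_div, le_div_iff₀ (by positivity)]
      have : δ ^ 2 ≤ t ^ 2 := pow_le_pow_left₀ hδ.le ht0 2
      have h3 : 0 ≤ 1 + 2 * b ^ 2 := by positivity
      exact mul_le_mul_of_nonneg_left this h3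
    rw [hK, add_mul]
    linarith
  have hx0 : 0 < 1 + ξ ^ 2 := by positivity
  have bd : ∀ η ∈ Set.Ioc (-b) b, ‖Δ * ct w (Δ * (ξ - η))‖ ≤
      C * K ^ 4 / Δ / (1 + ξ ^ 2) ^ 4 := by
    intro η hη
    have h1 : t ≤ |ξ - η| := by
      have h2 : |η| ≤ b := abs_le.2 ⟨hη.1.le, hη.2⟩
      have h3 : |ξ| ≤ |η| + |ξ - η| := by
        calc |ξ| = |η + (ξ - η)| := by rw [add_sub_cancel]
          _ ≤ _ := abs_add_le _ _
      linarith
    rw [Real.norm_eq_abs, abs_of_nonneg (mul_nonneg hΔ0.le (h0 _))]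
    have h4 : Δ ^ 2 * (1 + ξ ^ 2) / K ≤ 1 + (Δ * (ξ - η)) ^ 2 := by
      rw [div_le_iff₀ hK0]
      have h5 : t ^ 2 ≤ (ξ - η) ^ 2 := by
        rw [← sq_abs (ξ - η)]
        exact pow_le_pow_left₀ htp.le h1 2
      calc Δ ^ 2 * (1 + ξ ^ 2) ≤ Δ ^ 2 * (K * t ^ 2) := by gcongr
        _ ≤ Δ ^ 2 * (K * (ξ - η) ^ 2) := by gcongr
        _ = (Δ * (ξ - η)) ^ 2 * K := by ring
        _ ≤ (1 + (Δ * (ξ - η)) ^ 2) * K := by
          apply mul_le_mul_of_nonneg_right _ hK0.le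
          linarith
    have h6 : 0 < Δ ^ 2 * (1 + ξ ^ 2) / K := by positivity
    calc Δ * ct w (Δ * (ξ - η)) ≤ Δ * (C / (1 + (Δ * (ξ - η)) ^ 2) ^ 4) := by
          have := hC (Δ * (ξ - η))
          gcongr
      _ ≤ Δ * (C / (Δ ^ 2 * (1 + ξ ^ 2) / K) ^ 4) := by gcongr
      _ = C * K ^ 4 / Δ ^ 7 / (1 + ξ ^ 2) ^ 4 := by
          field_simp
      _ ≤ C * K ^ 4 / Δ / (1 + ξ ^ 2) ^ 4 := by
          have h7 : Δ ≤ Δ ^ 7 := le_self_pow₀ hΔ (by norm_num)
          gcongr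
  have hJ : J (fun s => Δ * ct w (Δ * s)) b ξ ≤ C * K ^ 4 / Δ / (1 + ξ ^ 2) ^ 4 * (2 * b) := by
    have h1 := norm_setIntegral_le_of_norm_le_const (μ := volume) (s := Set.Ioc (-b) b)
      (by rw [Real.volume_Ioc]; exact ENNReal.ofReal_lt_top) bd
    rw [Real.volume_real_Ioc, max_eq_left (by linarith), show b - -b = 2 * b by ring] at h1
    exact (le_abs_self _).trans h1
  calc k * J (fun s => Δ * ct w (Δ * s)) b ξ
      ≤ k * (C * K ^ 4 / Δ / (1 + ξ ^ 2) ^ 4 * (2 * b)) := mul_le_mul_of_nonneg_left hJ hk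
    _ = _ := by ring

theorem small {φ : ℝ → ℝ} (hφ : Continuous φ) {B : ℝ} (h : φ 0 < B) :
    ∃ δ : ℝ, 0 < δ ∧ δ < 1 ∧ φ δ < B := by
  have h1 : ∀ᶠ δ in 𝓝 (0 : ℝ), φ δ < B := (hφ.tendsto 0).eventually_lt_const h
  have h2 : ∀ᶠ δ in 𝓝[>] (0 : ℝ), φ δ < B := h1.filter_mono nhdsWithin_le_nhds
  have h3 : ∀ᶠ δ in 𝓝[>] (0 : ℝ), δ ∈ Set.Ioo (0 : ℝ) 1 := Ioo_mem_nhdsGT one_pos
  obtain ⟨δ, h4, h5⟩ := (h2.and h3).exists
  exact ⟨δ, h5.1, h5.2, h4⟩

/-- `A + B / Δ` is small -/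
theorem large (A B D : ℝ) (h : A < D) : ∀ᶠ Δ : ℝ in atTop, A + B / Δ ≤ D := by
  have h1 : Tendsto (fun Δ : ℝ => A + B / Δ) atTop (𝓝 (A + 0)) :=
    tendsto_const_nhds.add (tendsto_const_nhds.div_atTop tendsto_id)
  rw [add_zero] at h1
  exact (h1.eventually_lt_const h).mono fun _ h => h.le

theorem t_MAJ : S_MAJ := by
  rintro w hw hc he ⟨c, C, hc0, hW⟩ ε hε
  have hwc := hw.continuous
  have hpos : ∀ ξ, 0 < ct w ξ := fun ξ => lt_of_lt_of_le (by positivity) (hW ξ).1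
  have h0 : ∀ ξ, 0 ≤ ct w ξ := fun ξ => (hpos ξ).le
  have hCW : ∀ ξ, ct w ξ ≤ C / (1 + ξ ^ 2) ^ 4 := fun ξ => (hW ξ).2
  have hC0 : 0 ≤ C := by
    have := (h0 0).trans (hCW 0)
    simpa using this
  obtain ⟨hi, hi1⟩ := W_int (ct_cont hwc hc) h0 hCW
  obtain ⟨I, hI⟩ : ∃ I : ℝ, I = ∫ s, ct w s := ⟨_, rfl⟩
  obtain ⟨m, hm⟩ : ∃ m : ℝ, m = ∫ s, |s| * ct w s := ⟨_, rfl⟩
  have hI0 : 0 < I := by
    rw [hI, integral_pos_iff_support_of_nonneg h0 hi]
    have : Function.support (ct w) = Set.univ := by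
      ext x
      simp only [Function.mem_support, Set.mem_univ, iff_true]
      exact (hpos x).ne'
    rw [this]
    simp
  have hm0 : 0 ≤ m := by
    rw [hm]
    exact integral_nonneg fun s => mul_nonneg (abs_nonneg _) (h0 _)
  have hπ := Real.pi_pos
  have hπ2 : 0 < 4 * Real.pi ^ 2 := by positivity
  constructor
  · -- the majorant
    obtain ⟨δ, hδ, hδ1, hδ2⟩ := small (φ := fun δ => (1 + δ) * (2 * Real.pi + δ) ^ 2)
      (B := 4 * Real.pi ^ 2 * (1 + ε)) (by fun_prop) (by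
        simp only [add_zero, one_mul]
        nlinarith [mul_pos hπ2 hε])
    have e1 := large ((1 + δ) * (2 * Real.pi + δ) ^ 2)
      ((1 + δ) * (2 * (2 * Real.pi + δ) * (m / I))) _ hδ2
    have e2 := large 1 ((1 + δ) * (1 / δ * (m / I))) (1 + δ) (by linarith)
    obtain ⟨Δ, ⟨d1, d2⟩, d3⟩ := ((e1.and e2).and (eventually_gt_atTop 0)).exists
    have hk : 0 ≤ (1 + δ) / I := by positivity
    obtain ⟨g1, -, g3, -, g5⟩ := est hwc hc h0 hi hi1 (a := 2 * Real.pi + δ) hI hm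
      (by positivity) d3 hk
    refine ⟨Fn w (2 * Real.pi + δ) Δ ((1 + δ) / I), Fn_smooth hw, Fn_supp hc d3, Fn_even he, g1,
      fun ξ hξ => ?_, ?_⟩
    · refine le_trans ?_ (g3 δ ξ hδ (by rw [add_sub_cancel_right]; exact hξ))
      have e3 : (1 + δ) / I * (I - 1 / δ * (m / Δ)) = 1 + δ - (1 + δ) * (1 / δ * (m / I)) / Δ := by
        field_simp
      rw [e3]
      linarith
    · refine g5.trans ?_
      have e3 : (1 + δ) / I / (4 * Real.pi ^ 2) *
          ((2 * Real.pi + δ) ^ 2 * I + 2 * (2 * Real.pi + δ) * (m / Δ)) =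
          ((1 + δ) * (2 * Real.pi + δ) ^ 2 +
            (1 + δ) * (2 * (2 * Real.pi + δ) * (m / I)) / Δ) / (4 * Real.pi ^ 2) := by
        field_simp
      rw [e3, div_le_iff₀ hπ2]
      linarith
  · -- the minorant
    obtain ⟨δ, hδ, hδ1, hδ2⟩ := small (φ := fun δ => -(2 * Real.pi - δ) ^ 2)
      (B := -(4 * Real.pi ^ 2 * (1 - ε))) (by fun_prop) (by
        simp only [sub_zero]
        nlinarith [mul_pos hπ2 hε])
    have hb : 0 ≤ 2 * Real.pi - δ := by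
      have := Real.pi_gt_three
      linarith
    obtain ⟨b, hbd⟩ : ∃ b : ℝ, b = 2 * Real.pi - δ := ⟨_, rfl⟩
    rw [← hbd] at hb hδ2
    have e1 := large (-b ^ 2) (2 * b * (m / I)) _ hδ2
    have e2 := large 0 (1 / I * (C * (2 + (1 + 2 * b ^ 2) / δ ^ 2) ^ 4 * (2 * b))) (ε * c)
      (by positivity)
    obtain ⟨Δ, ⟨d1, d2⟩, d3⟩ := ((e1.and e2).and (eventually_ge_atTop 1)).exists
    have d4 : 0 < Δ := by linarith
    have hk : 0 ≤ 1 / I := by positivity
    obtain ⟨-, g2, -, g4, -⟩ := est hwc hc h0 hi hi1 (a := b) hI hm hb d4 hk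
    refine ⟨Fn w b Δ (1 / I), Fn_smooth hw, Fn_supp hc d4, Fn_even he, fun ξ _ => ?_,
      fun ξ hξ => ?_, ?_⟩
    · refine (g2 ξ).trans ?_
      rw [one_div, inv_mul_cancel₀ hI0.ne']
    · refine (tail hwc hc h0 hCW hC0 hb hδ d3 hk (by rw [hbd]; linarith)).trans ?_
      rw [zero_add] at d2
      calc 1 / I * (C * (2 + (1 + 2 * b ^ 2) / δ ^ 2) ^ 4 * (2 * b)) / Δ / (1 + ξ ^ 2) ^ 4
          ≤ (ε * c) / (1 + ξ ^ 2) ^ 4 := by gcongr
        _ = ε * (c / (1 + ξ ^ 2) ^ 4) := by ring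
        _ ≤ ε * ct w ξ := mul_le_mul_of_nonneg_left (hW ξ).1 hε.le
    · refine le_trans ?_ g4
      have e3 : 1 / I / (4 * Real.pi ^ 2) * (b ^ 2 * I - 2 * b * (m / Δ)) =
          (b ^ 2 - 2 * b * (m / I) / Δ) / (4 * Real.pi ^ 2) := by
        field_simp
      rw [e3, le_div_iff₀ hπ2]
      linarith

end Pool.Agent.H478.ON.MAJ
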