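import Pool.Agent.H478.ON.Stm

/-! PER: from smooth autocorrelations to the periodogram (project ON, helper738). -/

set_option autoImplicit false

namespace Pool.Agent.H478.ON.PER

open Filter Topology MeasureTheory

theorem cont_TP (a : ℕ → ℝ) (N : ℕ) : Continuous fun θ : ℝ => ‖TP a N θ‖ ^ 2 := by
  unfold TP
  fun_prop

theorem Pe_eq (a : ℕ → ℝ) {ω : ℝ} (hω : 0 < ω) (N : ℕ) :
    Pe a ω N = 1 / (N : ℝ) * ∫ θ in Set.Icc (-ω) ω, ‖TP a N θ‖ ^ 2 := by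
  unfold Pe
  rw [intervalIntegral.integral_of_le (by linarith), ← integral_Icc_eq_integral_Ioc]

theorem mem_iff {r : ℝ} (hr : 0 < r) (θ : ℝ) :
    θ ∈ Set.Icc (-r⁻¹) r⁻¹ ↔ |2 * Real.pi * (r * θ)| ≤ 2 * Real.pi := by
  have hpi := Real.pi_pos
  rw [Set.mem_Icc, ← abs_le, abs_mul, abs_mul r, abs_of_pos hr,
    abs_of_pos (by positivity : (0 : ℝ) < 2 * Real.pi)]
  constructor
  · intro h
    have h1 : r * |θ| ≤ 1 := by
      calc r * |θ| ≤ r * r⁻¹ := mul_le_mul_of_nonneg_left h hr.le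
        _ = 1 := mul_inv_cancel₀ hr.ne'
    calc 2 * Real.pi * (r * |θ|) ≤ 2 * Real.pi * 1 :=
          mul_le_mul_of_nonneg_left h1 (by positivity)
      _ = 2 * Real.pi := mul_one _
  · intro h
    have h1 : r * |θ| ≤ 1 := by
      have h2 : 2 * Real.pi * (r * |θ|) ≤ 2 * Real.pi * 1 := by linarith
      exact le_of_mul_le_mul_left h2 (by positivity)
    rw [← one_div, le_div_iff₀ hr]
    linarith

theorem upper (h1 : S_SPEC) {f : ℝ → ℝ} (hf : ContDiff ℝ 6 f) (hc : HasCompactSupport f)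
    (he : ∀ x, f (-x) = f x) (h0 : ∀ ξ, 0 ≤ ct f ξ)
    (h2 : ∀ ξ, |ξ| ≤ 2 * Real.pi → 1 ≤ ct f ξ) (a : ℕ → ℝ) {r : ℝ} (hr : 0 < r) (N : ℕ) :
    r ^ 2 * Pe a r⁻¹ N ≤ AC a f r N := by
  obtain ⟨hi, hA⟩ := h1 f hf hc he a r hr N
  rw [hA, Pe_eq a (inv_pos.2 hr)]
  have hB := cont_TP a N
  have hB0 : ∀ θ, 0 ≤ ‖TP a N θ‖ ^ 2 := fun θ => by positivity
  have h3 : r ^ 2 * ∫ θ in Set.Icc (-r⁻¹) r⁻¹, ‖TP a N θ‖ ^ 2 ≤
      ∫ θ : ℝ, r ^ 2 * ct f (2 * Real.pi * (r * θ)) * ‖TP a N θ‖ ^ 2 := by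
    rw [← integral_const_mul]
    refine le_trans ?_ (setIntegral_le_integral (s := Set.Icc (-r⁻¹) r⁻¹) hi
      (Eventually.of_forall fun θ => ?_))
    · refine setIntegral_mono_on ?_ hi.integrableOn measurableSet_Icc fun θ hθ => ?_
      · exact (continuous_const.mul hB).continuousOn.integrableOn_compact isCompact_Icc
      · have h4 := h2 _ ((mem_iff hr θ).1 hθ)
        refine mul_le_mul_of_nonneg_right ?_ (hB0 θ)
        calc r ^ 2 = r ^ 2 * 1 := (mul_one _).symm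
          _ ≤ r ^ 2 * ct f (2 * Real.pi * (r * θ)) := mul_le_mul_of_nonneg_left h4 (sq_nonneg r)
    · exact mul_nonneg (mul_nonneg (sq_nonneg r) (h0 _)) (hB0 θ)
  calc r ^ 2 * (1 / (N : ℝ) * ∫ θ in Set.Icc (-r⁻¹) r⁻¹, ‖TP a N θ‖ ^ 2) =
      1 / (N : ℝ) * (r ^ 2 * ∫ θ in Set.Icc (-r⁻¹) r⁻¹, ‖TP a N θ‖ ^ 2) := by ring
    _ ≤ _ := mul_le_mul_of_nonneg_left h3 (by positivity)

theorem lower (h1 : S_SPEC) {f w : ℝ → ℝ} (hf : ContDiff ℝ 6 f) (hc : HasCompactSupport f)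
    (he : ∀ x, f (-x) = f x) (hw : ContDiff ℝ 6 w) (hwc : HasCompactSupport w)
    (hwe : ∀ x, w (-x) = w x) (h0 : ∀ ξ, 0 ≤ ct w ξ) {e : ℝ} (he0 : 0 ≤ e)
    (h2 : ∀ ξ, |ξ| ≤ 2 * Real.pi → ct f ξ ≤ 1)
    (h3 : ∀ ξ, 2 * Real.pi < |ξ| → ct f ξ ≤ e * ct w ξ) (a : ℕ → ℝ) {r : ℝ} (hr : 0 < r)
    (N : ℕ) : AC a f r N ≤ r ^ 2 * Pe a r⁻¹ N + e * AC a w r N := by
  obtain ⟨hi, hA⟩ := h1 f hf hc he a r hr N
  obtain ⟨hi', hA'⟩ := h1 w hw hwc hwe a r hr N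
  rw [hA, hA', Pe_eq a (inv_pos.2 hr)]
  have hB := cont_TP a N
  have hB0 : ∀ θ, 0 ≤ ‖TP a N θ‖ ^ 2 := fun θ => by positivity
  have hint : IntegrableOn (fun θ : ℝ => r ^ 2 * ‖TP a N θ‖ ^ 2) (Set.Icc (-r⁻¹) r⁻¹) :=
    (continuous_const.mul hB).continuousOn.integrableOn_compact isCompact_Icc
  have h4 : ∫ θ : ℝ, r ^ 2 * ct f (2 * Real.pi * (r * θ)) * ‖TP a N θ‖ ^ 2 ≤
      r ^ 2 * (∫ θ in Set.Icc (-r⁻¹) r⁻¹, ‖TP a N θ‖ ^ 2) +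
        e * ∫ θ : ℝ, r ^ 2 * ct w (2 * Real.pi * (r * θ)) * ‖TP a N θ‖ ^ 2 := by
    rw [← integral_const_mul, ← integral_const_mul, ← integral_indicator measurableSet_Icc,
      ← integral_add (hint.integrable_indicator measurableSet_Icc) (hi'.const_mul e)]
    refine integral_mono hi
      ((hint.integrable_indicator measurableSet_Icc).add (hi'.const_mul e)) fun θ => ?_
    show r ^ 2 * ct f (2 * Real.pi * (r * θ)) * ‖TP a N θ‖ ^ 2 ≤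
      (Set.Icc (-r⁻¹) r⁻¹).indicator (fun θ : ℝ => r ^ 2 * ‖TP a N θ‖ ^ 2) θ +
        e * (r ^ 2 * ct w (2 * Real.pi * (r * θ)) * ‖TP a N θ‖ ^ 2)
    have hrr := sq_nonneg r
    by_cases hθ : θ ∈ Set.Icc (-r⁻¹) r⁻¹
    · rw [Set.indicator_of_mem hθ]
      have h5 := h2 _ ((mem_iff hr θ).1 hθ)
      have h6 : r ^ 2 * ct f (2 * Real.pi * (r * θ)) * ‖TP a N θ‖ ^ 2 ≤
          r ^ 2 * ‖TP a N θ‖ ^ 2 := by
        refine mul_le_mul_of_nonneg_right ?_ (hB0 θ)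
        calc r ^ 2 * ct f (2 * Real.pi * (r * θ)) ≤ r ^ 2 * 1 :=
              mul_le_mul_of_nonneg_left h5 hrr
          _ = r ^ 2 := mul_one _
      have h7 : 0 ≤ e * (r ^ 2 * ct w (2 * Real.pi * (r * θ)) * ‖TP a N θ‖ ^ 2) :=
        mul_nonneg he0 (mul_nonneg (mul_nonneg hrr (h0 _)) (hB0 θ))
      linarith
    · rw [Set.indicator_of_notMem hθ, zero_add]
      have h5 : 2 * Real.pi < |2 * Real.pi * (r * θ)| := by
        rw [mem_iff hr θ] at hθ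
        exact not_le.1 hθ
      have h6 := h3 _ h5
      calc r ^ 2 * ct f (2 * Real.pi * (r * θ)) * ‖TP a N θ‖ ^ 2 ≤
          r ^ 2 * (e * ct w (2 * Real.pi * (r * θ))) * ‖TP a N θ‖ ^ 2 :=
            mul_le_mul_of_nonneg_right (mul_le_mul_of_nonneg_left h6 hrr) (hB0 θ)
        _ = e * (r ^ 2 * ct w (2 * Real.pi * (r * θ)) * ‖TP a N θ‖ ^ 2) := by ring
  calc 1 / (N : ℝ) * ∫ θ : ℝ, r ^ 2 * ct f (2 * Real.pi * (r * θ)) * ‖TP a N θ‖ ^ 2 ≤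
      1 / (N : ℝ) * (r ^ 2 * (∫ θ in Set.Icc (-r⁻¹) r⁻¹, ‖TP a N θ‖ ^ 2) +
        e * ∫ θ : ℝ, r ^ 2 * ct w (2 * Real.pi * (r * θ)) * ‖TP a N θ‖ ^ 2) :=
        mul_le_mul_of_nonneg_left h4 (by positivity)
    _ = _ := by ring

theorem t_PER (h1 : S_SPEC) (h2 : S_POS) (h3 : S_MAJ) : S_PER := by
  intro a H ε hε
  obtain ⟨w, hw, hwc, hwe, c, C, hc, hcC⟩ := h2
  have hw0 : ∀ ξ, 0 ≤ ct w ξ := fun ξ =>
    le_trans (by positivity) (hcC ξ).1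
  have hMAJ := h3 w hw hwc hwe ⟨c, C, hc, hcC⟩
  obtain ⟨⟨f, hf, hfc, hfe, hf0, hf1, hfk⟩, -⟩ := hMAJ (ε / 2) (by positivity)
  have hk : 0 < 4 * (|kap w| + 1) := by positivity
  obtain ⟨e, he⟩ : ∃ e, e = ε / (4 * (|kap w| + 1)) := ⟨_, rfl⟩
  have he0 : 0 < e := by
    rw [he]
    positivity
  have he1 : e * (|kap w| + 1) = ε / 4 := by
    rw [he]
    have : |kap w| + 1 ≠ 0 := by positivity
    field_simp
  have he2 : e ≤ ε / 4 := by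
    rw [← he1]
    have := mul_nonneg he0.le (abs_nonneg (kap w))
    linarith
  obtain ⟨-, g, hg, hgc, hge, hg1, hg2, hgk⟩ := hMAJ e he0
  have e1 := H f hf hfc hfe (ε / 2) (by positivity)
  have e2 := H g hg hgc hge (ε / 4) (by positivity)
  have e3 := H w hw hwc hwe 1 one_pos
  have key : ∀ᶠ r : ℝ in atTop, 0 < r → ∀ᶠ N : ℕ in atTop,
      |r ^ 2 * Pe a r⁻¹ N - 1| ≤ ε := by
    filter_upwards [e1, e2, e3] with r r1 r2 r3 hr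
    filter_upwards [r1, r2, r3] with N n1 n2 n3
    rw [abs_le] at n1 n2 n3
    have u := upper h1 hf hfc hfe hf0 hf1 a hr N
    have l := lower h1 hg hgc hge hw hwc hwe hw0 he0.le hg1 hg2 a hr N
    have h4 : e * AC a w r N ≤ e * (|kap w| + 1) := by
      refine mul_le_mul_of_nonneg_left ?_ he0.le
      linarith [le_abs_self (kap w)]
    rw [abs_le]
    constructor <;> linarith
  have h5 : ∀ᶠ ω : ℝ in 𝓝[>] 0, 0 < ω⁻¹ → ∀ᶠ N : ℕ in atTop,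
      |ω⁻¹ ^ 2 * Pe a ω⁻¹⁻¹ N - 1| ≤ ε := tendsto_inv_nhdsGT_zero.eventually key
  filter_upwards [h5, self_mem_nhdsWithin] with ω h6 hω
  have hω' : 0 < ω := hω
  filter_upwards [h6 (inv_pos.2 hω')] with N h7
  rw [inv_inv] at h7
  have h8 : Pe a ω N - ω ^ 2 = ω ^ 2 * (ω⁻¹ ^ 2 * Pe a ω N - 1) := by
    field_simp
  rw [h8, abs_mul, abs_of_nonneg (sq_nonneg ω), mul_comm]
  exact mul_le_mul_of_nonneg_right h7 (sq_nonneg ω)

end Pool.Agent.H478.ON.PER
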