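import Pool.Agent.H478.ON.Stm

/-! An even `C⁶` function of compact support with transform comparable with `(1+ξ²)^(-4)`. -/

namespace Pool.Agent.H478.ON.POS

open Filter Topology MeasureTheory Pool.Agent.H478.ON
open scoped FourierTransform Convolution

theorem integral_odd {g : ℝ → ℝ} (h : ∀ x, g (-x) = -g x) : ∫ x : ℝ, g x = 0 := by
  have h1 : ∫ x : ℝ, g (-x) = ∫ x : ℝ, g x := integral_neg_eq_self g volume
  have h2 : ∫ x : ℝ, g (-x) = -∫ x : ℝ, g x := by
    rw [← integral_neg]; exact integral_congr_ae (Eventually.of_forall h)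
  linarith

/-- The Fourier transform of an even real function is its cosine transform. -/
theorem fourier_even {f : ℝ → ℝ} (hf : Integrable f) (he : ∀ x, f (-x) = f x) (v : ℝ) :
    𝓕 (fun x => (f x : ℂ)) v = ((ct f (2 * Real.pi * v) : ℝ) : ℂ) := by
  rw [Real.fourier_real_eq_integral_exp_smul]
  have hc : Integrable (fun x : ℝ => f x * Real.cos (2 * Real.pi * v * x)) := by
    refine hf.mul_bdd (c := 1) ?_ ?_
    · exact (by fun_prop : Continuous fun x : ℝ => Real.cos (2 * Real.pi * v * x)).aestronglyMeasurable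
    · exact Eventually.of_forall fun x => by
        rw [Real.norm_eq_abs]; exact Real.abs_cos_le_one _
  have hs : Integrable (fun x : ℝ => f x * Real.sin (2 * Real.pi * v * x)) := by
    refine hf.mul_bdd (c := 1) ?_ ?_
    · exact (by fun_prop : Continuous fun x : ℝ => Real.sin (2 * Real.pi * v * x)).aestronglyMeasurable
    · exact Eventually.of_forall fun x => by
        rw [Real.norm_eq_abs]; exact Real.abs_sin_le_one _
  have h0 : ∫ x : ℝ, f x * Real.sin (2 * Real.pi * v * x) = 0 := by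
    apply integral_odd
    intro x
    rw [he, show 2 * Real.pi * v * -x = -(2 * Real.pi * v * x) by ring, Real.sin_neg]
    ring
  have h1 : ∀ x : ℝ, Complex.exp (↑(-2 * Real.pi * x * v) * Complex.I) • (f x : ℂ)
      = ((f x * Real.cos (2 * Real.pi * v * x) : ℝ) : ℂ)
        - ((f x * Real.sin (2 * Real.pi * v * x) : ℝ) : ℂ) * Complex.I := by
    intro x
    rw [Complex.exp_mul_I, ← Complex.ofReal_cos, ← Complex.ofReal_sin,
      show -2 * Real.pi * x * v = -(2 * Real.pi * v * x) by ring, Real.cos_neg, Real.sin_neg,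
      smul_eq_mul]
    push_cast
    ring
  rw [integral_congr_ae (Eventually.of_forall h1), integral_sub hc.ofReal (hs.ofReal.mul_const _),
    integral_complex_ofReal, integral_mul_const, integral_complex_ofReal, h0]
  simp [ct]

theorem ct_even (f : ℝ → ℝ) (ξ : ℝ) : ct f (-ξ) = ct f ξ := by
  unfold ct
  congr 1
  funext x
  rw [show -ξ * x = -(ξ * x) by ring, Real.cos_neg]

/-! ### The function `Λ` and its transform -/

/-- `g(t) = ∫_0^1 (1-x) cos(tx) dx` -/
noncomputable def g (t : ℝ) : ℝ := ∫ x in (0 : ℝ)..1, (1 - x) * Real.cos (t * x)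

theorem sq_mul_g (t : ℝ) : t ^ 2 * g t = 1 - Real.cos t := by
  unfold g
  rw [← intervalIntegral.integral_const_mul]
  have h : ∀ x ∈ Set.uIcc (0 : ℝ) 1,
      HasDerivAt (fun x : ℝ => t * (1 - x) * Real.sin (t * x) - Real.cos (t * x))
        (t ^ 2 * ((1 - x) * Real.cos (t * x))) x := by
    intro x _
    have h1 : HasDerivAt (fun x : ℝ => t * x) t x := by
      simpa using (hasDerivAt_id x).const_mul t
    have h2 : HasDerivAt (fun x : ℝ => t * (1 - x)) (-t) x := by
      simpa using ((hasDerivAt_id x).const_sub 1).const_mul t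
    have h3 := (h2.mul ((Real.hasDerivAt_sin (t * x)).comp x h1)).sub
      ((Real.hasDerivAt_cos (t * x)).comp x h1)
    refine h3.congr_deriv ?_
    have h4 : (Real.sin ∘ HMul.hMul t) x = Real.sin (t * x) := rfl
    rw [h4]
    ring
  rw [intervalIntegral.integral_eq_sub_of_hasDerivAt h
    (by apply Continuous.intervalIntegrable; fun_prop)]
  simp
  ring

theorem g_le (t : ℝ) : g t ≤ 1 := by
  have h : ‖g t‖ ≤ 1 * |(1 : ℝ) - 0| := by
    unfold g
    apply intervalIntegral.norm_integral_le_of_norm_le_const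
    intro x hx
    rw [Set.uIoc_of_le (by norm_num)] at hx
    rw [norm_mul, Real.norm_eq_abs, Real.norm_eq_abs, abs_of_nonneg (by linarith [hx.2])]
    calc (1 - x) * |Real.cos (t * x)| ≤ 1 * 1 :=
          mul_le_mul (by linarith [hx.1]) (Real.abs_cos_le_one _) (abs_nonneg _) (by norm_num)
      _ = 1 := by norm_num
  rw [Real.norm_eq_abs] at h
  have := le_abs_self (g t)
  norm_num at h
  linarith

theorem g_nonneg (t : ℝ) : 0 ≤ g t := by
  rcases eq_or_ne t 0 with rfl | ht
  · unfold g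
    apply intervalIntegral.integral_nonneg (by norm_num)
    intro x hx
    simp only [zero_mul, Real.cos_zero, mul_one]
    linarith [hx.2]
  · have h := sq_mul_g t
    have h2 : 0 < t ^ 2 := by positivity
    have h3 := Real.cos_le_one t
    by_contra hn
    push Not at hn
    nlinarith

theorem g_even (t : ℝ) : g (-t) = g t := by
  unfold g
  congr 1
  funext x
  rw [show -t * x = -(t * x) by ring, Real.cos_neg]

/-- the transform of `Λ` -/
noncomputable def h (ξ : ℝ) : ℝ := 2 * g ξ + g (ξ + Real.pi) + g (ξ - Real.pi)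

/-- the function `Λ` -/
noncomputable def lam (x : ℝ) : ℝ := max 0 (1 - |x|) * (1 + Real.cos (Real.pi * x))

theorem lam_cont : Continuous lam := by
  unfold lam
  fun_prop

theorem lam_even (x : ℝ) : lam (-x) = lam x := by
  unfold lam
  rw [abs_neg, mul_neg, Real.cos_neg]

theorem lam_zero {x : ℝ} (hx : 1 ≤ |x|) : lam x = 0 := by
  unfold lam
  rw [max_eq_left (by linarith), zero_mul]

theorem lam_supp : HasCompactSupport lam := by
  apply HasCompactSupport.intro (isCompact_Icc (a := (-1 : ℝ)) (b := 1))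
  intro x hx
  apply lam_zero
  by_contra hn
  push Not at hn
  exact hx ⟨(abs_lt.mp hn).1.le, (abs_lt.mp hn).2.le⟩

theorem ct_lam (ξ : ℝ) : ct lam ξ = h ξ := by
  have h1 : ct lam ξ = ∫ x in (-1 : ℝ)..1, lam x * Real.cos (ξ * x) := by
    unfold ct
    rw [intervalIntegral.integral_of_le (by norm_num)]
    symm
    apply setIntegral_eq_integral_of_forall_compl_eq_zero
    intro x hx
    rw [lam_zero, zero_mul]
    by_contra hn
    push Not at hn
    exact hx ⟨(abs_lt.mp hn).1, (abs_lt.mp hn).2.le⟩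
  have hcont : Continuous (fun x : ℝ => lam x * Real.cos (ξ * x)) := by
    have := lam_cont
    fun_prop
  have h2 : ∫ x in (-1 : ℝ)..0, lam x * Real.cos (ξ * x)
      = ∫ x in (0 : ℝ)..1, lam x * Real.cos (ξ * x) := by
    have := intervalIntegral.integral_comp_neg (a := 0) (b := 1)
      (fun x : ℝ => lam x * Real.cos (ξ * x))
    simp only [neg_zero] at this
    rw [← this]
    congr 1
    funext x
    rw [lam_even, mul_neg, Real.cos_neg]
  have h3 : ∫ x in (0 : ℝ)..1, lam x * Real.cos (ξ * x)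
      = g ξ + (1 / 2) * g (ξ + Real.pi) + (1 / 2) * g (ξ - Real.pi) := by
    unfold g
    rw [← intervalIntegral.integral_const_mul, ← intervalIntegral.integral_const_mul,
      ← intervalIntegral.integral_add (by apply Continuous.intervalIntegrable; fun_prop)
        (by apply Continuous.intervalIntegrable; fun_prop),
      ← intervalIntegral.integral_add (by apply Continuous.intervalIntegrable; fun_prop)
        (by apply Continuous.intervalIntegrable; fun_prop)]
    apply intervalIntegral.integral_congr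
    intro x hx
    rw [Set.uIcc_of_le (by norm_num)] at hx
    simp only
    unfold lam
    rw [abs_of_nonneg hx.1, max_eq_right (by linarith [hx.2]), add_mul, sub_mul ξ, Real.cos_add,
      Real.cos_sub]
    ring
  rw [h1, ← intervalIntegral.integral_add_adjacent_intervals (b := 0)
    (hcont.intervalIntegrable _ _) (hcont.intervalIntegrable _ _), h2, h3]
  unfold h
  ring

theorem shift_bound {s : ℝ} (hs : s ^ 2 ≤ 10) (ξ : ℝ) : 1 + (ξ + s) ^ 2 ≤ 22 * (1 + ξ ^ 2) := by
  nlinarith [sq_nonneg (ξ - s), sq_nonneg ξ]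

theorem pi_sq_le : Real.pi ^ 2 ≤ 10 := by
  have h1 := Real.pi_lt_d2
  have h2 := Real.pi_pos
  nlinarith

theorem h_nonneg (ξ : ℝ) : 0 ≤ h ξ := by
  unfold h
  have := g_nonneg ξ
  have := g_nonneg (ξ + Real.pi)
  have := g_nonneg (ξ - Real.pi)
  linarith

theorem h_lower (ξ : ℝ) : (1 / 11) / (1 + ξ ^ 2) ≤ h ξ := by
  have hp : 0 < 1 + ξ ^ 2 := by positivity
  rw [div_le_iff₀ hp]
  -- `(1+t²) g(t) ≥ 1 - cos t`
  have k : ∀ t, 1 - Real.cos t ≤ (1 + t ^ 2) * g t := by
    intro t
    have := sq_mul_g t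
    have := g_nonneg t
    nlinarith
  have k1 := k ξ
  have k2 := k (ξ + Real.pi)
  have k3 := k (ξ - Real.pi)
  rw [Real.cos_add_pi] at k2
  rw [Real.cos_sub_pi] at k3
  have b2 := shift_bound (s := Real.pi) pi_sq_le ξ
  have b3 := shift_bound (s := -Real.pi) (by rw [neg_sq]; exact pi_sq_le) ξ
  rw [← sub_eq_add_neg] at b3
  have g1 := g_nonneg ξ
  have g2 := g_nonneg (ξ + Real.pi)
  have g3 := g_nonneg (ξ - Real.pi)
  have m2 := mul_le_mul_of_nonneg_right b2 g2
  have m3 := mul_le_mul_of_nonneg_right b3 g3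
  have hc1 := Real.cos_le_one ξ
  have hc2 := Real.neg_one_le_cos ξ
  unfold h
  nlinarith

theorem h_upper (ξ : ℝ) : h ξ ≤ 138 / (1 + ξ ^ 2) := by
  have hp : 0 < 1 + ξ ^ 2 := by positivity
  rw [le_div_iff₀ hp]
  have k : ∀ t, (1 + t ^ 2) * g t ≤ 3 := by
    intro t
    have := sq_mul_g t
    have := g_le t
    have := Real.neg_one_le_cos t
    nlinarith
  have k1 := k ξ
  have k2 := k (ξ + Real.pi)
  have k3 := k (ξ - Real.pi)
  have b2 := shift_bound (s := -Real.pi) (by rw [neg_sq]; exact pi_sq_le) (ξ + Real.pi)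
  have b3 := shift_bound (s := Real.pi) pi_sq_le (ξ - Real.pi)
  rw [show ξ + Real.pi + -Real.pi = ξ by ring] at b2
  rw [show ξ - Real.pi + Real.pi = ξ by ring] at b3
  have g2 := g_nonneg (ξ + Real.pi)
  have g3 := g_nonneg (ξ - Real.pi)
  have m2 := mul_le_mul_of_nonneg_right b2 g2
  have m3 := mul_le_mul_of_nonneg_right b3 g3
  unfold h
  nlinarith

/-! ### The convolution powers -/

/-- `Λ` as a complex function -/
noncomputable def L1 (x : ℝ) : ℂ := (lam x : ℂ)

/-- `Λ ⋆ Λ` -/
noncomputable def L2 : ℝ → ℂ := L1 ⋆[ContinuousLinearMap.mul ℂ ℂ] L1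

/-- `Λ ⋆ Λ ⋆ Λ ⋆ Λ` -/
noncomputable def L4 : ℝ → ℂ := L2 ⋆[ContinuousLinearMap.mul ℂ ℂ] L2

theorem L1_cont : Continuous L1 := Complex.continuous_ofReal.comp lam_cont

theorem L1_supp : HasCompactSupport L1 := lam_supp.comp_left (g := fun y : ℝ => (y : ℂ)) (by simp)

theorem L1_int : Integrable L1 := L1_cont.integrable_of_hasCompactSupport L1_supp

theorem L2_supp : HasCompactSupport L2 := L1_supp.convolution _ L1_supp

theorem L2_cont : Continuous L2 :=
  L1_supp.continuous_convolution_right _ L1_int.locallyIntegrable L1_cont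

theorem L2_int : Integrable L2 := L2_cont.integrable_of_hasCompactSupport L2_supp

theorem L4_supp : HasCompactSupport L4 := L2_supp.convolution _ L2_supp

theorem L4_cont : Continuous L4 :=
  L2_supp.continuous_convolution_right _ L2_int.locallyIntegrable L2_cont

theorem L4_int : Integrable L4 := L4_cont.integrable_of_hasCompactSupport L4_supp

theorem F1 (v : ℝ) : 𝓕 L1 v = ((h (2 * Real.pi * v) : ℝ) : ℂ) := by
  have := fourier_even (f := lam) (lam_cont.integrable_of_hasCompactSupport lam_supp) lam_even v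
  rw [ct_lam] at this
  exact this

theorem F2 (v : ℝ) : 𝓕 L2 v = ((h (2 * Real.pi * v) ^ 2 : ℝ) : ℂ) := by
  have h1 := Real.fourier_mul_convolution_eq L1_int L1_int v
  unfold L2
  rw [h1, F1]
  push_cast
  ring

theorem F4 (v : ℝ) : 𝓕 L4 v = ((h (2 * Real.pi * v) ^ 4 : ℝ) : ℂ) := by
  have h1 := Real.fourier_mul_convolution_eq L2_int L2_int v
  unfold L4
  rw [h1, F2]
  push_cast
  ring

/-- the transform of `w` in the variable `v` -/
noncomputable def H (v : ℝ) : ℝ := h (2 * Real.pi * v) ^ 4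

theorem h_even (ξ : ℝ) : h (-ξ) = h ξ := by
  unfold h
  rw [g_even, show -ξ + Real.pi = -(ξ - Real.pi) by ring, g_even,
    show -ξ - Real.pi = -(ξ + Real.pi) by ring, g_even]
  ring

theorem H_even (v : ℝ) : H (-v) = H v := by
  unfold H
  rw [mul_neg, h_even]

theorem H_nonneg (v : ℝ) : 0 ≤ H v := by
  unfold H
  exact pow_nonneg (h_nonneg _) _

theorem H_le (v : ℝ) : H v ≤ 138 ^ 4 / (1 + v ^ 2) ^ 4 := by
  have h1 := h_upper (2 * Real.pi * v)
  have hp : 0 < 1 + v ^ 2 := by positivity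
  have h2 : (1 : ℝ) + v ^ 2 ≤ 1 + (2 * Real.pi * v) ^ 2 := by
    have : (1 : ℝ) ≤ (2 * Real.pi) ^ 2 := by nlinarith [Real.pi_gt_three]
    nlinarith [sq_nonneg v]
  have h3 : h (2 * Real.pi * v) ≤ 138 / (1 + v ^ 2) :=
    h1.trans (div_le_div_of_nonneg_left (by norm_num) hp h2)
  unfold H
  rw [← div_pow]
  exact pow_le_pow_left₀ (h_nonneg _) h3 4

theorem H_cont : Continuous H := by
  have h1 : Continuous (𝓕 L4) :=
    VectorFourier.fourierIntegral_continuous Real.continuous_fourierChar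
      (by exact continuous_inner) L4_int
  have h2 : H = fun v => (𝓕 L4 v).re := by
    funext v
    rw [F4, Complex.ofReal_re]
    rfl
  rw [h2]
  exact Complex.continuous_re.comp h1

theorem H_weight (n : ℕ) (hn : n ≤ 6) : Integrable (fun v : ℝ => ‖v‖ ^ n * ‖((H v : ℝ) : ℂ)‖) := by
  refine (integrable_inv_one_add_sq.const_mul (138 ^ 4)).mono' ?_ ?_
  · exact ((continuous_norm.pow n).mul
      (Complex.continuous_ofReal.comp H_cont).norm).aestronglyMeasurable
  · refine Eventually.of_forall fun v => ?_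
    have hp : 0 < 1 + v ^ 2 := by positivity
    rw [norm_mul, norm_pow, norm_norm, norm_norm, Complex.norm_real, Real.norm_eq_abs,
      Real.norm_eq_abs, abs_of_nonneg (H_nonneg v)]
    have h1 : |v| ^ n ≤ (1 + v ^ 2) ^ 3 := by
      have h2 : |v| ≤ 1 + v ^ 2 := by
        rw [← sq_abs v]
        nlinarith [sq_nonneg (|v| - 1), abs_nonneg v]
      rcases le_or_gt |v| 1 with h3 | h3
      · calc |v| ^ n ≤ 1 := pow_le_one₀ (abs_nonneg v) h3
          _ ≤ (1 + v ^ 2) ^ 3 := one_le_pow₀ (by nlinarith [sq_nonneg v])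
      · calc |v| ^ n ≤ |v| ^ 6 := pow_le_pow_right₀ h3.le hn
          _ = (v ^ 2) ^ 3 := by rw [← sq_abs v]; ring
          _ ≤ (1 + v ^ 2) ^ 3 := pow_le_pow_left₀ (sq_nonneg v) (by linarith) 3
    calc |v| ^ n * H v ≤ (1 + v ^ 2) ^ 3 * (138 ^ 4 / (1 + v ^ 2) ^ 4) :=
          mul_le_mul h1 (H_le v) (H_nonneg v) (by positivity)
      _ = 138 ^ 4 * (1 + v ^ 2)⁻¹ := by field_simp

theorem H_int : Integrable H := by
  have h1 := H_weight 0 (by norm_num)
  simp only [pow_zero, one_mul] at h1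
  have h2 : (fun v : ℝ => ‖((H v : ℝ) : ℂ)‖) = H := by
    funext v
    rw [Complex.norm_real, Real.norm_eq_abs, abs_of_nonneg (H_nonneg v)]
  rwa [h2] at h1

/-- the function `w` -/
noncomputable def w (x : ℝ) : ℝ := ct H (2 * Real.pi * x)

theorem w_eq (x : ℝ) : ((w x : ℝ) : ℂ) = L4 x := by
  have h1 : 𝓕 L4 = fun v => ((H v : ℝ) : ℂ) := funext fun v => by rw [F4]; rfl
  have h2 : 𝓕⁻ (𝓕 L4) = L4 := by
    apply Continuous.fourierInv_fourier_eq L4_cont L4_int
    rw [h1]; exact H_int.ofReal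
  have h3 := congrFun h2 x
  rw [Real.fourierInv_eq_fourier_neg, h1, fourier_even H_int H_even,
    show 2 * Real.pi * -x = -(2 * Real.pi * x) by ring, ct_even] at h3
  exact h3

theorem w_eq' (x : ℝ) : ((w x : ℝ) : ℂ) = 𝓕 (fun v => ((H v : ℝ) : ℂ)) x := by
  rw [fourier_even H_int H_even]
  rfl

theorem w_smooth : ContDiff ℝ 6 w := by
  have h1 : ContDiff ℝ ((6 : ℕ∞) : WithTop ℕ∞) (𝓕 (fun v => ((H v : ℝ) : ℂ))) := by
    apply Real.contDiff_fourier
    intro n hn
    exact H_weight n (by exact_mod_cast hn)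
  have h2 : w = fun x => (𝓕 (fun v => ((H v : ℝ) : ℂ)) x).re := by
    funext x
    rw [← w_eq', Complex.ofReal_re]
  rw [h2]
  exact Complex.reCLM.contDiff.comp h1

theorem w_supp : HasCompactSupport w := by
  have h2 : w = fun x => (L4 x).re := by
    funext x
    rw [← w_eq, Complex.ofReal_re]
  rw [h2]
  exact L4_supp.comp_left (g := Complex.re) (by simp)

theorem w_even (x : ℝ) : w (-x) = w x := by
  unfold w
  rw [show 2 * Real.pi * -x = -(2 * Real.pi * x) by ring, ct_even]

theorem ct_w (ξ : ℝ) : ct w ξ = h ξ ^ 4 := by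
  have hwi : Integrable w := w_smooth.continuous.integrable_of_hasCompactSupport w_supp
  have h1 := fourier_even hwi w_even (ξ / (2 * Real.pi))
  have h2 : (fun x => ((w x : ℝ) : ℂ)) = L4 := funext w_eq
  have h3 : 2 * Real.pi * (ξ / (2 * Real.pi)) = ξ := by
    have := Real.pi_pos
    field_simp
  rw [h2, F4, h3] at h1
  exact_mod_cast h1.symm

theorem t_POS : S_POS := by
  refine ⟨w, w_smooth, w_supp, w_even, (1 / 11) ^ 4, 138 ^ 4, by norm_num, fun ξ => ?_⟩
  rw [ct_w]
  constructor
  · rw [← div_pow]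
    exact pow_le_pow_left₀ (by positivity) (h_lower ξ) 4
  · rw [← div_pow]
    exact pow_le_pow_left₀ (h_nonneg ξ) (h_upper ξ) 4

end Pool.Agent.H478.ON.POS
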