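import Pool.Agent.H478.ON.Stm

/-! The autocorrelation as an integral against the periodogram. -/

namespace Pool.Agent.H478.ON.SPEC

open Filter Topology MeasureTheory Pool.Agent.H478.ON
open scoped FourierTransform

theorem integral_odd {g : ℝ → ℝ} (h : ∀ x, g (-x) = -g x) : ∫ x : ℝ, g x = 0 := by
  have h1 : ∫ x : ℝ, g (-x) = ∫ x : ℝ, g x := integral_neg_eq_self g volume
  have h2 : ∫ x : ℝ, g (-x) = -∫ x : ℝ, g x := by
    rw [← integral_neg]; exact integral_congr_ae (Eventually.of_forall h)
  linarith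

/-- The Fourier transform of an even real function is its cosine transform. -/
theorem fourier_even {f : ℝ → ℝ} (hf : Integrable f) (he : ∀ x, f (-x) = f x) (v : ℝ) :
    𝓕 (fun x => (f x : ℂ)) v = ((ct f (2 * Real.pi * v) : ℝ) : ℂ) := by
  rw [Real.fourier_real_eq_integral_exp_smul]
  have hc : Integrable (fun x : ℝ => f x * Real.cos (2 * Real.pi * v * x)) := by
    refine hf.mul_bdd (c := 1) ?_ ?_
    · exact (by fun_prop : Continuous fun x : ℝ => Real.cos (2 * Real.pi * v * x)).aestronglyMeasurable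
    · exact Eventually.of_forall fun x => by
        rw [Real.norm_eq_abs]; exact Real.abs_cos_le_one _
  have hs : Integrable (fun x : ℝ => f x * Real.sin (2 * Real.pi * v * x)) := by
    refine hf.mul_bdd (c := 1) ?_ ?_
    · exact (by fun_prop : Continuous fun x : ℝ => Real.sin (2 * Real.pi * v * x)).aestronglyMeasurable
    · exact Eventually.of_forall fun x => by
        rw [Real.norm_eq_abs]; exact Real.abs_sin_le_one _
  have h0 : ∫ x : ℝ, f x * Real.sin (2 * Real.pi * v * x) = 0 := by
    apply integral_odd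
    intro x
    rw [he, show 2 * Real.pi * v * -x = -(2 * Real.pi * v * x) by ring, Real.sin_neg]
    ring
  have h1 : ∀ x : ℝ, Complex.exp (↑(-2 * Real.pi * x * v) * Complex.I) • (f x : ℂ)
      = ((f x * Real.cos (2 * Real.pi * v * x) : ℝ) : ℂ)
        - ((f x * Real.sin (2 * Real.pi * v * x) : ℝ) : ℂ) * Complex.I := by
    intro x
    rw [Complex.exp_mul_I, ← Complex.ofReal_cos, ← Complex.ofReal_sin,
      show -2 * Real.pi * x * v = -(2 * Real.pi * v * x) by ring, Real.cos_neg, Real.sin_neg,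
      smul_eq_mul]
    push_cast
    ring
  rw [integral_congr_ae (Eventually.of_forall h1), integral_sub hc.ofReal (hs.ofReal.mul_const _),
    integral_complex_ofReal, integral_mul_const, integral_complex_ofReal, h0]
  simp [ct]

theorem ct_even (f : ℝ → ℝ) (ξ : ℝ) : ct f (-ξ) = ct f ξ := by
  unfold ct
  congr 1
  funext x
  rw [show -ξ * x = -(ξ * x) by ring, Real.cos_neg]

/-- Fourier inversion for even real functions. -/
theorem inversion {f : ℝ → ℝ} (hf : Integrable f) (hcont : Continuous f) (he : ∀ x, f (-x) = f x)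
    (hF : Integrable (fun v : ℝ => ct f (2 * Real.pi * v))) (x : ℝ) :
    f x = ct (fun v : ℝ => ct f (2 * Real.pi * v)) (2 * Real.pi * x) := by
  have h1 : 𝓕 (fun x => (f x : ℂ)) = fun v => ((ct f (2 * Real.pi * v) : ℝ) : ℂ) :=
    funext fun v => fourier_even hf he v
  have h2 : 𝓕⁻ (𝓕 (fun x => (f x : ℂ))) = fun x => (f x : ℂ) := by
    apply Continuous.fourierInv_fourier_eq
    · exact Complex.continuous_ofReal.comp hcont
    · exact hf.ofReal
    · rw [h1]; exact hF.ofReal
  have h3 := congrFun h2 x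
  rw [Real.fourierInv_eq_fourier_neg, h1, fourier_even (f := fun v => ct f (2 * Real.pi * v)) hF
    (fun v => by rw [show 2 * Real.pi * -v = -(2 * Real.pi * v) by ring, ct_even])] at h3
  rw [show 2 * Real.pi * -x = -(2 * Real.pi * x) by ring, ct_even] at h3
  exact_mod_cast h3.symm

/-- The transform of a `C²` function of compact support is integrable. -/
theorem fourier_integrable {f : ℝ → ℝ} (hf : ContDiff ℝ 2 f) (hs : HasCompactSupport f) :
    Integrable (𝓕 (fun x => (f x : ℂ))) := by
  set fc : ℝ → ℂ := fun x => (f x : ℂ) with hfc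
  have hfC : ContDiff ℝ ((2 : ℕ∞) : WithTop ℕ∞) fc := by
    have : ContDiff ℝ 2 fc := Complex.ofRealCLM.contDiff.comp hf
    exact_mod_cast this
  have hsC : HasCompactSupport fc := hs.comp_left (g := fun y : ℝ => (y : ℂ)) (by simp)
  have hint : ∀ k n : ℕ, (k : ℕ∞) ≤ 0 → (n : ℕ∞) ≤ 2 →
      Integrable (fun v => ‖v‖ ^ k * ‖iteratedFDeriv ℝ n fc v‖) := by
    intro k n hk hn
    have hc1 : Continuous (iteratedFDeriv ℝ n fc) :=
      hfC.continuous_iteratedFDeriv (by exact_mod_cast hn)
    have hc2 : Continuous (fun v => ‖v‖ ^ k * ‖iteratedFDeriv ℝ n fc v‖) :=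
      (continuous_norm.pow k).mul hc1.norm
    refine hc2.integrable_of_hasCompactSupport ?_
    have h3 : HasCompactSupport (iteratedFDeriv ℝ n fc) := hsC.iteratedFDeriv n
    exact h3.norm.mul_left
  have key : ∀ n : ℕ, (n : ℕ∞) ≤ 2 → ∃ C : ℝ, ∀ w : ℝ, |w| ^ n * ‖𝓕 fc w‖ ≤ C := by
    intro n hn
    refine ⟨(2 * Real.pi) ^ 0 * (2 * ((0 : ℕ) : ℝ) + 2) ^ n *
      ∑ p ∈ Finset.range (0 + 1) ×ˢ Finset.range (n + 1),
        ∫ v, ‖v‖ ^ p.1 * ‖iteratedFDeriv ℝ p.2 fc v‖, fun w => ?_⟩
    have := Real.pow_mul_norm_iteratedFDeriv_fourier_le (K := 0) (N := 2) hfC hint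
      (k := 0) (n := n) (le_refl _) hn w
    rw [norm_iteratedFDeriv_zero] at this
    exact this
  obtain ⟨C0, h0⟩ := key 0 (by simp)
  obtain ⟨C2, h2⟩ := key 2 (le_refl _)
  have hcontF : Continuous (𝓕 fc) := by
    have hi : Integrable fc :=
      (Complex.continuous_ofReal.comp hf.continuous).integrable_of_hasCompactSupport hsC
    exact VectorFourier.fourierIntegral_continuous Real.continuous_fourierChar
      (by exact continuous_inner) hi
  refine (integrable_inv_one_add_sq.const_mul (C0 + C2)).mono' hcontF.aestronglyMeasurable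
    (Eventually.of_forall fun w => ?_)
  have hp : (0 : ℝ) < 1 + w ^ 2 := by positivity
  rw [← div_eq_mul_inv, le_div_iff₀ hp]
  have h0' := h0 w
  have h2' := h2 w
  rw [pow_zero, one_mul] at h0'
  rw [sq_abs] at h2'
  nlinarith

theorem normSq_TP (a : ℕ → ℝ) (N : ℕ) (θ : ℝ) : ‖TP a N θ‖ ^ 2 =
    ∑ n ∈ Finset.Icc 1 N, ∑ m ∈ Finset.Icc 1 N,
      a n * a m * Real.cos (2 * Real.pi * (((m : ℝ) - n) * θ)) := by
  have hre : (TP a N θ).re = ∑ n ∈ Finset.Icc 1 N, a n * Real.cos (2 * Real.pi * n * θ) := by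
    unfold TP
    rw [Complex.re_sum]
    refine Finset.sum_congr rfl fun n _ => ?_
    rw [show (2 * (Real.pi : ℂ) * n * θ * Complex.I) = ((2 * Real.pi * n * θ : ℝ) : ℂ) * Complex.I
      by push_cast; ring, Complex.exp_mul_I, ← Complex.ofReal_cos, ← Complex.ofReal_sin]
    generalize Real.cos _ = c
    generalize Real.sin _ = s
    simp
  have him : (TP a N θ).im = ∑ n ∈ Finset.Icc 1 N, a n * Real.sin (2 * Real.pi * n * θ) := by
    unfold TP
    rw [Complex.im_sum]
    refine Finset.sum_congr rfl fun n _ => ?_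
    rw [show (2 * (Real.pi : ℂ) * n * θ * Complex.I) = ((2 * Real.pi * n * θ : ℝ) : ℂ) * Complex.I
      by push_cast; ring, Complex.exp_mul_I, ← Complex.ofReal_cos, ← Complex.ofReal_sin]
    generalize Real.cos _ = c
    generalize Real.sin _ = s
    simp
  rw [Complex.sq_norm, Complex.normSq_apply, hre, him, Finset.sum_mul_sum, Finset.sum_mul_sum,
    ← Finset.sum_add_distrib]
  refine Finset.sum_congr rfl fun n _ => ?_
  rw [← Finset.sum_add_distrib]
  refine Finset.sum_congr rfl fun m _ => ?_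
  rw [show 2 * Real.pi * (((m : ℝ) - n) * θ) = 2 * Real.pi * m * θ - 2 * Real.pi * n * θ by ring,
    Real.cos_sub]
  ring

theorem t_SPEC : S_SPEC := by
  intro f hf hs he a r hr N
  have hcont : Continuous f := hf.continuous
  have hint : Integrable f := hcont.integrable_of_hasCompactSupport hs
  set G : ℝ → ℝ := fun v => ct f (2 * Real.pi * v) with hG
  have hGi : Integrable G := by
    have h1 := fourier_integrable (hf.of_le (by norm_num)) hs
    have h2 : 𝓕 (fun x => (f x : ℂ)) = fun v => ((G v : ℝ) : ℂ) :=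
      funext fun v => fourier_even hint he v
    rw [h2] at h1
    exact h1.re
  -- the terms
  have hterm : ∀ k : ℝ, Integrable (fun θ : ℝ => G (r * θ) * Real.cos (2 * Real.pi * (k * θ))) := by
    intro k
    refine (hGi.comp_mul_left' hr.ne').mul_bdd (c := 1) ?_ ?_
    · exact (by fun_prop : Continuous fun θ : ℝ =>
        Real.cos (2 * Real.pi * (k * θ))).aestronglyMeasurable
    · exact Eventually.of_forall fun x => by
        rw [Real.norm_eq_abs]; exact Real.abs_cos_le_one _
  have hval : ∀ k : ℝ, ∫ θ : ℝ, G (r * θ) * Real.cos (2 * Real.pi * (k * θ)) = r⁻¹ * f (k / r) := by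
    intro k
    have h1 : ∀ θ : ℝ, G (r * θ) * Real.cos (2 * Real.pi * (k * θ))
        = (fun v : ℝ => G v * Real.cos (2 * Real.pi * (k / r) * v)) (r * θ) := by
      intro θ
      have : 2 * Real.pi * (k / r) * (r * θ) = 2 * Real.pi * (k * θ) := by field_simp
      simp only [this]
    rw [integral_congr_ae (Eventually.of_forall h1),
      Measure.integral_comp_mul_left (fun v : ℝ => G v * Real.cos (2 * Real.pi * (k / r) * v)) r,
      abs_of_pos (inv_pos.mpr hr), smul_eq_mul, inversion hint hcont he hGi (k / r)]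
    rfl
  have hexp : ∀ θ : ℝ, r ^ 2 * ct f (2 * Real.pi * (r * θ)) * ‖TP a N θ‖ ^ 2
      = ∑ n ∈ Finset.Icc 1 N, ∑ m ∈ Finset.Icc 1 N, (a n * a m * r ^ 2) *
        (G (r * θ) * Real.cos (2 * Real.pi * (((m : ℝ) - n) * θ))) := by
    intro θ
    rw [normSq_TP, Finset.mul_sum]
    refine Finset.sum_congr rfl fun n _ => ?_
    rw [Finset.mul_sum]
    refine Finset.sum_congr rfl fun m _ => ?_
    simp only [hG]
    ring
  have hI : Integrable (fun θ : ℝ => ∑ n ∈ Finset.Icc 1 N, ∑ m ∈ Finset.Icc 1 N,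
      (a n * a m * r ^ 2) * (G (r * θ) * Real.cos (2 * Real.pi * (((m : ℝ) - n) * θ)))) := by
    refine integrable_finsetSum _ fun n _ => integrable_finsetSum _ fun m _ => ?_
    exact (hterm _).const_mul _
  constructor
  · simp_rw [hexp]
    exact hI
  · simp_rw [hexp]
    rw [integral_finsetSum _ fun n _ => integrable_finsetSum _ fun m _ => (hterm _).const_mul _]
    unfold AC
    congr 1
    refine Finset.sum_congr rfl fun n _ => ?_
    rw [integral_finsetSum _ fun m _ => (hterm _).const_mul _]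
    refine Finset.sum_congr rfl fun m _ => ?_
    rw [integral_const_mul, hval]
    field_simp

end Pool.Agent.H478.ON.SPEC
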