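import Pool.Agent.H478.ON.Stm

/-!
# TAY (helper668): Taylor's formula with a global remainder
-/

set_option autoImplicit false

open Filter Topology MeasureTheory

namespace Pool.Agent.H478.ON.TAY

open Pool.Agent.H478.ON

theorem mvi (g : ℝ → ℝ) (C : ℝ) (n : ℕ) (hC : 0 ≤ C) (hg : Differentiable ℝ g) (h0 : g 0 = 0)
    (hd : ∀ x, |deriv g x| ≤ C * |x| ^ n) (h : ℝ) : |g h| ≤ C * |h| ^ (n + 1) := by
  have hm := (convex_Icc (-|h|) |h|).norm_image_sub_le_of_norm_deriv_le (f := g) (x := 0) (y := h)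
    (C := C * |h| ^ n) (fun x _ => hg x) (fun x hx => ?_)
    (Set.mem_Icc.2 ⟨neg_nonpos.2 (abs_nonneg h), abs_nonneg h⟩)
    (Set.mem_Icc.2 ⟨neg_abs_le h, le_abs_self h⟩)
  · rw [h0, sub_zero, sub_zero, Real.norm_eq_abs, Real.norm_eq_abs] at hm
    rw [pow_succ, ← mul_assoc]
    exact hm
  · rw [Real.norm_eq_abs]
    refine (hd x).trans (mul_le_mul_of_nonneg_left ?_ hC)
    exact pow_le_pow_left₀ (abs_nonneg x) (abs_le.2 (Set.mem_Icc.1 hx)) n

theorem bdd (f : ℝ → ℝ) (hf : Continuous f) (hc : HasCompactSupport f) :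
    ∃ C : ℝ, 0 ≤ C ∧ ∀ x, |f x| ≤ C := by
  obtain ⟨C, hC⟩ := hc.exists_bound_of_continuous hf
  exact ⟨C, (abs_nonneg (f 0)).trans (hC 0), hC⟩

theorem t_TAY : S_TAY := by
  intro f hf hc
  have e3 : (3 : WithTop ℕ∞) = 2 + 1 := by norm_num
  have e2 : (2 : WithTop ℕ∞) = 1 + 1 := by norm_num
  rw [e3, contDiff_succ_iff_deriv] at hf
  obtain ⟨hf0, -, hf1⟩ := hf
  rw [e2, contDiff_succ_iff_deriv] at hf1
  obtain ⟨hf1, -, hf2⟩ := hf1
  have hf2d : Differentiable ℝ (deriv (deriv f)) := hf2.differentiable one_ne_zero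
  have hf3c : Continuous (deriv (deriv (deriv f))) := hf2.continuous_deriv_one
  have hc1 : HasCompactSupport (deriv f) := hc.deriv
  have hc2 : HasCompactSupport (deriv (deriv f)) := hc1.deriv
  have hc3 : HasCompactSupport (deriv (deriv (deriv f))) := hc2.deriv
  obtain ⟨C0, h00, hC0⟩ := bdd f hf0.continuous hc
  obtain ⟨C1, h10, hC1⟩ := bdd _ hf1.continuous hc1
  obtain ⟨C2, h20, hC2⟩ := bdd _ hf2d.continuous hc2
  obtain ⟨C3, h30, hC3⟩ := bdd _ hf3c hc3
  refine ⟨C0 + C1 + C2 + C3, by positivity, fun a => (hC0 a).trans (by linarith),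
    fun a => (hC1 a).trans (by linarith), fun a => (hC2 a).trans (by linarith), fun a h => ?_⟩
  have hF : 0 ≤ C0 + C1 + C2 + C3 := by positivity
  -- the second derivative
  have hs : ∀ x : ℝ, HasDerivAt (fun y : ℝ => a + y) 1 x := fun x => (hasDerivAt_id x).const_add a
  have d2 : ∀ x : ℝ, HasDerivAt (fun y => deriv (deriv f) (a + y) - deriv (deriv f) a)
      (deriv (deriv (deriv f)) (a + x)) x := by
    intro x
    have h1 := ((hf2d (a + x)).hasDerivAt.comp x (hs x)).sub_const (deriv (deriv f) a)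
    rw [mul_one] at h1
    exact h1
  have d1 : ∀ x : ℝ, HasDerivAt (fun y => deriv f (a + y) - deriv f a - deriv (deriv f) a * y)
      (deriv (deriv f) (a + x) - deriv (deriv f) a) x := by
    intro x
    have h1 := (((hf1 (a + x)).hasDerivAt.comp x (hs x)).sub_const (deriv f a)).sub
      ((hasDerivAt_id x).const_mul (deriv (deriv f) a))
    rw [mul_one, mul_one] at h1
    exact h1
  have d0 : ∀ x : ℝ, HasDerivAt (fun y => f (a + y) - f a - deriv f a * y -
      deriv (deriv f) a * y ^ 2 / 2) (deriv f (a + x) - deriv f a - deriv (deriv f) a * x) x := by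
    intro x
    have h1 := ((((hf0 (a + x)).hasDerivAt.comp x (hs x)).sub_const (f a)).sub
      ((hasDerivAt_id x).const_mul (deriv f a))).sub
      ((((hasDerivAt_id x).pow 2).const_mul (deriv (deriv f) a)).div_const 2)
    refine h1.congr_deriv ?_
    simp only [id]
    push_cast
    ring
  have b2 : ∀ x : ℝ, |deriv (deriv f) (a + x) - deriv (deriv f) a| ≤
      (C0 + C1 + C2 + C3) * |x| ^ 1 := by
    refine mvi (fun y => deriv (deriv f) (a + y) - deriv (deriv f) a) _ 0 hF
      (fun x => (d2 x).differentiableAt) (by simp) fun x => ?_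
    rw [(d2 x).deriv, pow_zero, mul_one]
    exact (hC3 _).trans (by linarith)
  have b1 : ∀ x : ℝ, |deriv f (a + x) - deriv f a - deriv (deriv f) a * x| ≤
      (C0 + C1 + C2 + C3) * |x| ^ 2 := by
    refine mvi (fun y => deriv f (a + y) - deriv f a - deriv (deriv f) a * y) _ 1 hF
      (fun x => (d1 x).differentiableAt) (by simp) fun x => ?_
    rw [(d1 x).deriv]
    exact b2 x
  refine mvi (fun y => f (a + y) - f a - deriv f a * y - deriv (deriv f) a * y ^ 2 / 2) _ 2 hF
      (fun x => (d0 x).differentiableAt) (by simp) (fun x => ?_) h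
  rw [(d0 x).deriv]
  exact b1 x

end Pool.Agent.H478.ON.TAY
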