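import Pool.Agent.H478.ON.Stm2

/-!
# ZA (helper668): the normalised gaps against the gaps scaled by the density of the block
-/

set_option autoImplicit false

open Filter Topology MeasureTheory

namespace Pool.Agent.H478.ON.ZA

open Pool.Agent.H478.ON

theorem Sk_one (o : ℕ → ℝ) (m : ℕ) : Sk o 1 m = dl o m := by
  unfold Sk
  rw [Finset.sum_range_one, Nat.add_zero]

theorem sq_le_six (x : ℝ) : x ^ 2 ≤ 1 + x ^ 6 := by
  have h : 0 ≤ (x ^ 2 - 1) ^ 2 * (x ^ 2 + 2) := by positivity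
  nlinarith [sq_nonneg x, h]

/-- the estimate for one term -/
theorem term (η p q a b : ℝ) (hη0 : 0 ≤ η) (hη1 : η ≤ 1) (ha : 0 ≤ a) (hb : 0 ≤ b)
    (hp : |p - a| ≤ η * a) (hq : |q - b| ≤ η * b) :
    |(p - 1) * (q - 1) - (a - 1) * (b - 1)| ≤ η * (5 + 2 * a ^ 6 + 2 * b ^ 6) := by
  have e : (p - 1) * (q - 1) - (a - 1) * (b - 1) =
      (a - 1) * (q - b) + (p - a) * (b - 1) + (p - a) * (q - b) := by ring
  have h1 : |a - 1| ≤ a + 1 := by rw [abs_le]; constructor <;> linarith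
  have h2 : |b - 1| ≤ b + 1 := by rw [abs_le]; constructor <;> linarith
  have t1 : |(a - 1) * (q - b)| ≤ (a + 1) * (η * b) := by
    rw [abs_mul]
    exact mul_le_mul h1 hq (abs_nonneg _) (by linarith)
  have t2 : |(p - a) * (b - 1)| ≤ (η * a) * (b + 1) := by
    rw [abs_mul]
    exact mul_le_mul hp h2 (abs_nonneg _) (by positivity)
  have t3 : |(p - a) * (q - b)| ≤ (η * a) * (η * b) := by
    rw [abs_mul]
    exact mul_le_mul hp hq (abs_nonneg _) (by positivity)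
  have t4 : (η * a) * (η * b) ≤ η * (a * b) := by
    have : η * (a * b) * η ≤ η * (a * b) * 1 :=
      mul_le_mul_of_nonneg_left hη1 (by positivity)
    linarith
  have t5 : |(p - 1) * (q - 1) - (a - 1) * (b - 1)| ≤ η * (3 * (a * b) + a + b) := by
    rw [e]
    refine (abs_add_three _ _ _).trans ?_
    linarith
  refine t5.trans (mul_le_mul_of_nonneg_left ?_ hη0)
  have ha6 := sq_le_six a
  have hb6 := sq_le_six b
  nlinarith [sq_nonneg (a - b), sq_nonneg (a - 1), sq_nonneg (b - 1)]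

theorem t_ZA (h1 : S_ELM) (h2 : S_GM6) : S_ZA := by
  intro o Z hZ hgap k ε hε
  obtain ⟨hE1, -, hE3⟩ := h1 o Z hZ
  obtain ⟨C, hC, hG⟩ := h2 o Z hZ hgap
  obtain ⟨κ, hκ⟩ : ∃ κ : ℕ, κ = k.natAbs := ⟨_, rfl⟩
  obtain ⟨D, hD⟩ : ∃ D : ℝ, D = 5 + 4 * (C * (κ + 4)) := ⟨_, rfl⟩
  have hD0 : 0 < D := by rw [hD]; positivity
  obtain ⟨η, hη⟩ : ∃ η : ℝ, η = min 1 (ε / D) := ⟨_, rfl⟩
  have hη0 : 0 < η := by rw [hη]; exact lt_min one_pos (div_pos hε hD0)
  have hη1 : η ≤ 1 := by rw [hη]; exact min_le_left _ _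
  have hηD : η * D ≤ ε := by
    have : η ≤ ε / D := by rw [hη]; exact min_le_right _ _
    rwa [le_div_iff₀ hD0] at this
  filter_upwards [hE1, hE3 (κ + 1) η hη0] with T hT1 hT3
  obtain ⟨hMb, -, hZ3, -⟩ := hT1
  have hMb' : (1 : ℝ) ≤ (Z (2 * T) : ℝ) - Z T := hMb
  have hZT : (κ : ℤ) + 1 < Z T := by
    by_contra hcon
    push Not at hcon
    have := (hT3 0 (by push_cast; omega) (by push_cast; omega)).1
    omega
  -- the indices
  have hidx : ∀ j : ℤ, j.natAbs ≤ κ → ∀ n ∈ Bk Z T, 1 ≤ n + j ∧ ((n + j).toNat : ℤ) = n + j ∧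
      n + j ≤ Z (2 * T) + κ ∧ 0 ≤ dl o (n + j).toNat ∧
      |lb Z T * (o ((n + j).toNat + 1) - o (n + j).toNat) - dl o (n + j).toNat| ≤
        η * dl o (n + j).toNat := by
    intro j hj n hn
    obtain ⟨hn1, hn2⟩ := Finset.mem_Ioc.1 hn
    have ha : 1 ≤ n + j := by omega
    have hb : ((n + j).toNat : ℤ) = n + j := Int.toNat_of_nonneg (by omega)
    have hc : n + j ≤ Z (2 * T) + κ := by omega
    have h3 := hT3 (n + j).toNat (by rw [hb]; push_cast; omega) (by rw [hb]; push_cast; omega)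
    have h4 := h3.2.2.2 1 (by omega)
    rw [Sk_one] at h4
    exact ⟨ha, hb, hc, h4.1, h4.2⟩
  have hdd : ∀ m : ℤ, 1 ≤ m → (m.toNat : ℤ) = m → dd (xt o) (lb Z T) 1 m =
      lb Z T * (o (m.toNat + 1) - o m.toNat) - 1 := by
    intro m hm hm'
    unfold dd xt
    have e1 : (m + 1).toNat = m.toNat + 1 := by omega
    rw [if_pos (by omega), if_pos hm, e1]
    push_cast
    ring
  -- sums of sixth powers
  have hsum : ∀ j : ℤ, j.natAbs ≤ κ → ∑ n ∈ Bk Z T, dl o (n + j).toNat ^ 6 ≤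
      C * (κ + 4) * Mb Z T := by
    intro j hj
    have hinj : Set.InjOn (fun n : ℤ => (n + j).toNat) (Bk Z T : Set ℤ) := by
      intro n hn n' hn' e
      have h3 := (hidx j hj n hn).2.1
      have h4 := (hidx j hj n' hn').2.1
      have e' : (n + j).toNat = (n' + j).toNat := e
      rw [e'] at h3
      omega
    have h3 : ∑ n ∈ Bk Z T, dl o (n + j).toNat ^ 6 =
        ∑ m ∈ (Bk Z T).image (fun n : ℤ => (n + j).toNat), dl o m ^ 6 :=
      (Finset.sum_image (f := fun m => dl o m ^ 6) hinj).symm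
    rw [h3]
    have h4 : (Bk Z T).image (fun n : ℤ => (n + j).toNat) ⊆ Finset.Icc 1 (Z (2 * T) + κ) := by
      intro m hm
      obtain ⟨n, hn, rfl⟩ := Finset.mem_image.1 hm
      obtain ⟨h5, h6, h7, -⟩ := hidx j hj n hn
      rw [Finset.mem_Icc]
      constructor
      · omega
      · omega
    refine (Finset.sum_le_sum_of_subset_of_nonneg h4 (fun m _ _ => by positivity)).trans ?_
    have h5 := (hG 1 (Z (2 * T) + κ)).2
    simp only [Sk_one] at h5
    refine h5.trans ?_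
    have h6 : ((Z (2 * T) + κ : ℕ) : ℝ) + ((1 : ℕ) : ℝ) ≤ (κ + 4) * Mb Z T := by
      push_cast
      have h7 : (κ : ℝ) * 1 ≤ κ * Mb Z T := mul_le_mul_of_nonneg_left hMb (Nat.cast_nonneg _)
      linarith
    calc C * ((1 : ℕ) : ℝ) ^ 6 * (((Z (2 * T) + κ : ℕ) : ℝ) + ((1 : ℕ) : ℝ))
        = C * (((Z (2 * T) + κ : ℕ) : ℝ) + ((1 : ℕ) : ℝ)) := by norm_num
      _ ≤ C * ((κ + 4) * Mb Z T) := mul_le_mul_of_nonneg_left h6 hC
      _ = C * (κ + 4) * Mb Z T := by ring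
  have hcard : ((Bk Z T).card : ℝ) = Mb Z T := by
    unfold Bk Mb
    rw [Int.card_Ioc]
    have h3 : (Z T : ℤ) ≤ Z (2 * T) := by
      have : (Z T : ℝ) ≤ Z (2 * T) := by linarith
      exact_mod_cast this
    have h4 : (((Z (2 * T) : ℤ) - Z T).toNat : ℤ) = (Z (2 * T) : ℤ) - Z T :=
      Int.toNat_of_nonneg (by omega)
    have h5 : ((((Z (2 * T) : ℤ) - Z T).toNat : ℤ) : ℝ) = (((Z (2 * T) : ℤ) - Z T : ℤ) : ℝ) := by
      rw [h4]
    push_cast at h5
    exact_mod_cast h5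
  calc ∑ n ∈ Bk Z T, |dd (xt o) (lb Z T) 1 n * dd (xt o) (lb Z T) 1 (n + k) -
      (dl o n.toNat - 1) * (dl o (n + k).toNat - 1)|
      ≤ ∑ n ∈ Bk Z T, η * (5 + 2 * dl o n.toNat ^ 6 + 2 * dl o (n + k).toNat ^ 6) := by
        refine Finset.sum_le_sum fun n hn => ?_
        obtain ⟨a1, a2, -, a3, a4⟩ := hidx 0 (by simp) n hn
        obtain ⟨b1, b2, -, b3, b4⟩ := hidx k hκ.ge n hn
        rw [add_zero] at a1 a2 a3 a4
        rw [hdd n a1 a2, hdd (n + k) b1 b2]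
        exact term η _ _ _ _ hη0.le hη1 a3 b3 a4 b4
    _ = η * (5 * Mb Z T + 2 * ∑ n ∈ Bk Z T, dl o n.toNat ^ 6 +
          2 * ∑ n ∈ Bk Z T, dl o (n + k).toNat ^ 6) := by
        rw [← Finset.mul_sum, Finset.sum_add_distrib, Finset.sum_add_distrib, Finset.sum_const,
          nsmul_eq_mul, hcard, ← Finset.mul_sum, ← Finset.mul_sum, mul_comm (Mb Z T) 5]
    _ ≤ η * (D * Mb Z T) := by
        apply mul_le_mul_of_nonneg_left _ hη0.le
        have s1 := hsum 0 (by simp)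
        have s2 := hsum k hκ.ge
        simp only [add_zero] at s1
        rw [hD]
        linarith
    _ = η * D * Mb Z T := by ring
    _ ≤ ε * Mb Z T := mul_le_mul_of_nonneg_right hηD (by linarith)

end Pool.Agent.H478.ON.ZA
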