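import Pool.Agent.H478.ON.Stm2

/-! ON-ZF: the mean displacement and the boundary terms. -/

namespace Pool.Agent.H478.ON.ZF

open Filter Topology MeasureTheory Pool.Agent.H478.ON

variable {o : ℕ → ℝ} {Z : ℝ → ℕ}

lemma xt_nat {n : ℕ} (hn : 1 ≤ n) : xt o (n : ℤ) = o n := by
  unfold xt
  rw [if_pos (by exact_mod_cast hn), Int.toNat_natCast]

lemma xt_succ (hz : Zr o Z) {C : ℝ} (hC : ∀ n : ℕ, 1 ≤ n → o (n + 1) - o n ≤ C) {m : ℤ}
    (hm : 1 ≤ m) : |xt o (m + 1) - xt o m| ≤ C := by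
  obtain ⟨n, rfl⟩ := Int.eq_ofNat_of_zero_le (by omega : 0 ≤ m)
  have hn : 1 ≤ n := by exact_mod_cast hm
  have h1 : xt o ((n : ℤ) + 1) = o (n + 1) := by
    have h2 := xt_nat (o := o) (n := n + 1) (by omega)
    push_cast at h2
    exact h2
  rw [h1, xt_nat hn, abs_of_nonneg (sub_nonneg.2 (hz.mono n (n + 1) hn (by omega)))]
  exact hC n hn

lemma xt_diff (hz : Zr o Z) {C : ℝ} (hC : ∀ n : ℕ, 1 ≤ n → o (n + 1) - o n ≤ C) (j : ℕ) {m : ℤ}
    (hm : 1 ≤ m) : |xt o (m + j) - xt o m| ≤ C * j := by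
  induction j with
  | zero => simp
  | succ j ih =>
    have h1 := xt_succ hz hC (m := m + j) (by omega)
    have h2 : m + ((j + 1 : ℕ) : ℤ) = m + j + 1 := by push_cast; ring
    rw [h2]
    have h3 : xt o (m + j + 1) - xt o m = (xt o (m + j + 1) - xt o (m + j)) +
        (xt o (m + j) - xt o m) := by ring
    rw [h3]
    have h4 := abs_add_le (xt o (m + j + 1) - xt o (m + j)) (xt o (m + j) - xt o m)
    push_cast
    linarith

lemma xt_abs (hz : Zr o Z) {C : ℝ} (hC : ∀ n : ℕ, 1 ≤ n → o (n + 1) - o n ≤ C) {m m' : ℤ}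
    (hm : 1 ≤ m) (hm' : 1 ≤ m') : |xt o m - xt o m'| ≤ C * |(m : ℝ) - m'| := by
  rcases le_total m m' with h | h
  · obtain ⟨j, hj⟩ := Int.eq_ofNat_of_zero_le (by omega : 0 ≤ m' - m)
    have h1 : m' = m + j := by omega
    subst h1
    have h2 := xt_diff hz hC j hm
    rw [abs_sub_comm]
    have h3 : |(m : ℝ) - ((m + j : ℤ) : ℝ)| = j := by
      push_cast
      rw [show (m : ℝ) - (m + j) = -(j : ℝ) by ring, abs_neg, Nat.abs_cast]
    rw [h3]
    exact h2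
  · obtain ⟨j, hj⟩ := Int.eq_ofNat_of_zero_le (by omega : 0 ≤ m - m')
    have h1 : m = m' + j := by omega
    subst h1
    have h2 := xt_diff hz hC j hm'
    have h3 : |((m' + j : ℤ) : ℝ) - m'| = j := by
      push_cast
      rw [show (m' : ℝ) + j - m' = (j : ℝ) by ring, Nat.abs_cast]
    rw [h3]
    exact h2

lemma xt_at (hz : Zr o Z) {C : ℝ} (hC : ∀ n : ℕ, 1 ≤ n → o (n + 1) - o n ≤ C) {T : ℝ}
    (hT : 1 ≤ Z T) : |xt o (Z T : ℤ) - T| ≤ C := by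
  rw [xt_nat hT]
  have h1 : o (Z T) ≤ T := (hz.iff (Z T) hT T).2 le_rfl
  have h2 : T < o (Z T + 1) := by
    by_contra h3
    have := (hz.iff (Z T + 1) (by omega) T).1 (not_lt.1 h3)
    omega
  have h3 := hC (Z T) hT
  rw [abs_le]
  constructor <;> linarith

lemma xt_near (hz : Zr o Z) {C : ℝ} (hC : ∀ n : ℕ, 1 ≤ n → o (n + 1) - o n ≤ C) {T : ℝ}
    (hT : 1 ≤ Z T) {m : ℤ} (hm : 1 ≤ m) : |xt o m - T| ≤ C * (|(m : ℝ) - (Z T : ℕ)| + 1) := by
  have h1 := xt_at hz hC hT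
  have h2 := xt_abs hz hC hm (show (1 : ℤ) ≤ (Z T : ℤ) by exact_mod_cast hT)
  have h3 : xt o m - T = (xt o m - xt o (Z T : ℤ)) + (xt o (Z T : ℤ) - T) := by ring
  rw [h3]
  have h4 := abs_add_le (xt o m - xt o (Z T : ℤ)) (xt o (Z T : ℤ) - T)
  rw [Int.cast_natCast] at h2
  linarith

lemma sum_tele (g : ℤ → ℝ) (a : ℤ) (N : ℕ) :
    ∑ n ∈ Finset.Ioc a (a + N), (g (n + 1) - g n) = g (a + N + 1) - g (a + 1) := by
  induction N with
  | zero => simp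
  | succ N ih =>
    have h1 : Finset.Ioc a (a + ((N + 1 : ℕ) : ℤ)) = insert (a + N + 1) (Finset.Ioc a (a + N)) := by
      ext z
      simp only [Finset.mem_Ioc, Finset.mem_insert]
      push_cast
      omega
    rw [h1, Finset.sum_insert (by simp), ih]
    have h2 : a + ((N + 1 : ℕ) : ℤ) + 1 = a + N + 1 + 1 := by push_cast; ring
    rw [h2]
    ring

lemma sum_tele' (g : ℤ → ℝ) {a b : ℤ} (hab : a ≤ b) :
    ∑ n ∈ Finset.Ioc a b, g (n + 1) - ∑ n ∈ Finset.Ioc a b, g n = g (b + 1) - g (a + 1) := by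
  obtain ⟨N, hN⟩ := Int.eq_ofNat_of_zero_le (by omega : 0 ≤ b - a)
  have h1 : b = a + N := by omega
  subst h1
  rw [← Finset.sum_sub_distrib]
  exact sum_tele g a N

/-- one shift -/
lemma one_shift (hz : Zr o Z) {C : ℝ} (hC0 : 0 ≤ C)
    (hC : ∀ n : ℕ, 1 ≤ n → o (n + 1) - o n ≤ C) {T : ℝ}
    (hZ : Z T ≤ Z (2 * T)) {J : ℕ} (hJ : J + 2 ≤ Z T) {k : ℤ} (hk1 : -J ≤ k) (hk2 : k + 1 ≤ J) :
    |∑ n ∈ Bk Z T, xt o (n + (k + 1)) - ∑ n ∈ Bk Z T, xt o (n + k) - T| ≤ 2 * C * (J + 1) := by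
  have h1 := sum_tele' (fun n => xt o (n + k)) (a := (Z T : ℤ)) (b := (Z (2 * T) : ℤ))
    (by exact_mod_cast hZ)
  have h2 : ∀ n : ℤ, n + (k + 1) = n + 1 + k := fun n => by ring
  unfold Bk
  simp only [h2]
  rw [h1]
  have hJ' : (J : ℤ) + 2 ≤ (Z T : ℤ) := by exact_mod_cast hJ
  have hZ' : (Z T : ℤ) ≤ (Z (2 * T) : ℤ) := by exact_mod_cast hZ
  have h3 := xt_near hz hC (T := T) (by omega) (m := (Z T : ℤ) + 1 + k) (by omega)
  have h4 := xt_near hz hC (T := 2 * T) (by omega) (m := (Z (2 * T) : ℤ) + 1 + k) (by omega)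
  have hk : |(k : ℝ) + 1| ≤ J := by
    rw [abs_le]
    have h5 : (-(J : ℤ) : ℤ) ≤ k + 1 := by omega
    constructor
    · exact_mod_cast h5
    · exact_mod_cast hk2
  have h5 : (((Z T : ℤ) + 1 + k : ℤ) : ℝ) - (Z T : ℕ) = k + 1 := by push_cast; ring
  have h6 : (((Z (2 * T) : ℤ) + 1 + k : ℤ) : ℝ) - (Z (2 * T) : ℕ) = k + 1 := by push_cast; ring
  rw [h5] at h3
  rw [h6] at h4
  have h7 : C * (|(k : ℝ) + 1| + 1) ≤ C * (J + 1) := mul_le_mul_of_nonneg_left (by linarith) hC0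
  rw [abs_le] at h3 h4 ⊢
  constructor <;> linarith [h3.1, h3.2, h4.1, h4.2]

lemma shift (hz : Zr o Z) {C : ℝ} (hC0 : 0 ≤ C)
    (hC : ∀ n : ℕ, 1 ≤ n → o (n + 1) - o n ≤ C) {T : ℝ}
    (hZ : Z T ≤ Z (2 * T)) {J : ℕ} (hJ : J + 2 ≤ Z T) (j : ℕ) (hj : j ≤ J) :
    |∑ n ∈ Bk Z T, xt o (n + j) - ∑ n ∈ Bk Z T, xt o n - j * T| ≤ 2 * C * (J + 1) * j ∧
    |∑ n ∈ Bk Z T, xt o (n + (-(j : ℤ))) - ∑ n ∈ Bk Z T, xt o n + j * T| ≤
      2 * C * (J + 1) * j := by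
  induction j with
  | zero => simp
  | succ j ih =>
    obtain ⟨ih1, ih2⟩ := ih (by omega)
    constructor
    · have h1 := one_shift hz hC0 hC hZ hJ (k := j) (by omega) (by omega)
      push_cast
      rw [abs_le] at ih1 h1 ⊢
      constructor <;> linarith [ih1.1, ih1.2, h1.1, h1.2]
    · have h1 := one_shift hz hC0 hC hZ hJ (k := -((j + 1 : ℕ) : ℤ)) (by omega) (by omega)
      have h2 : (-((j + 1 : ℕ) : ℤ)) + 1 = -(j : ℤ) := by push_cast; ring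
      rw [h2] at h1
      have h3 : ((j + 1 : ℕ) : ℝ) = (j : ℝ) + 1 := by push_cast; ring
      rw [h3]
      rw [abs_le] at ih2 h1 ⊢
      constructor <;> linarith [ih2.1, ih2.2, h1.1, h1.2]

lemma shift_int (hz : Zr o Z) {C : ℝ} (hC0 : 0 ≤ C)
    (hC : ∀ n : ℕ, 1 ≤ n → o (n + 1) - o n ≤ C) {T : ℝ}
    (hZ : Z T ≤ Z (2 * T)) (k : ℤ) (hJ : k.natAbs + 2 ≤ Z T) :
    |∑ n ∈ Bk Z T, xt o (n + k) - ∑ n ∈ Bk Z T, xt o n - k * T| ≤
      2 * C * (k.natAbs + 1) * k.natAbs := by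
  obtain ⟨h1, h2⟩ := shift hz hC0 hC hZ hJ k.natAbs le_rfl
  rcases Int.natAbs_eq k with h | h
  · generalize hj : k.natAbs = j at *
    subst h
    exact_mod_cast h1
  · generalize hj : k.natAbs = j at *
    subst h
    rw [Int.cast_neg, neg_mul, sub_neg_eq_add]
    exact_mod_cast h2

theorem t_ZF (h1 : S_ELM) : S_ZF := by
  intro o Z hz k ε hε
  obtain ⟨C, hC0, hC⟩ := hz.gapb
  obtain ⟨h2, h3, -⟩ := h1 o Z hz
  -- the counting function tends to infinity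
  have hZ : ∀ N : ℕ, ∀ᶠ T : ℝ in atTop, N ≤ Z T := by
    intro N
    filter_upwards [eventually_ge_atTop (o (N + 1))] with T hT
    have := (hz.iff (N + 1) (by omega) T).1 hT
    omega
  have hlog : Tendsto (fun T : ℝ => Real.log T) atTop atTop := Real.tendsto_log_atTop
  have hlb : ∀ᶠ T : ℝ in atTop, 1 ≤ lb Z T := by
    have h4 : ∀ᶠ T : ℝ in atTop, (1 / 2 : ℝ) < lb Z T / (Real.log T / (2 * Real.pi)) :=
      h3.eventually (lt_mem_nhds (by norm_num))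
    filter_upwards [h4, hlog.eventually_ge_atTop (4 * Real.pi)] with T hT1 hT2
    have hpi := Real.pi_pos
    have h5 : 2 ≤ Real.log T / (2 * Real.pi) := by
      rw [le_div_iff₀ (by positivity)]
      linarith
    rw [lt_div_iff₀ (by linarith)] at hT1
    linarith
  have hratio : Tendsto (fun T : ℝ => Real.log T / T) atTop (𝓝 0) := by
    have h4 := Real.isLittleO_log_id_atTop.tendsto_div_nhds_zero
    exact h4
  set c₁ : ℝ := 2 * C * (k.natAbs + 1) * k.natAbs with hc₁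
  set c₂ : ℝ := 4 * C ^ 2 * (k : ℝ) ^ 2 with hc₂
  have hc₂0 : 0 ≤ c₂ := by positivity
  have hc₁0 : 0 ≤ c₁ := by positivity
  filter_upwards [h2, hlb, hZ (k.natAbs + 2), eventually_ge_atTop (1 : ℝ),
    eventually_ge_atTop (c₁ / ε), eventually_ge_atTop (4 * (k : ℝ) ^ 2 / ε),
    hratio.eventually (gt_mem_nhds (show (0 : ℝ) < ε / (c₂ + 1) by positivity))]
    with T hT1 hT2 hT3 hT4 hT5 hT6 hT7
  obtain ⟨hM1, hl0, -, hll⟩ := hT1
  have hT0 : 0 < T := by linarith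
  have hZZ : Z T ≤ Z (2 * T) := by
    have h4 : o (Z T) ≤ T := (hz.iff (Z T) (by omega) T).2 le_rfl
    exact (hz.iff (Z T) (by omega) (2 * T)).1 (by linarith)
  have hMT : Mb Z T = lb Z T * T := by
    unfold lb
    field_simp
  have hMge : T ≤ Mb Z T := by
    rw [hMT]
    nlinarith
  have hbd : ∀ m : ℤ, (Z T : ℤ) ≤ m → dd (xt o) (lb Z T) k (m + 1) ^ 2 ≤ ε * Mb Z T := by
    intro m hm
    have hm' : (k.natAbs : ℤ) + 2 ≤ m := by
      have : ((k.natAbs + 2 : ℕ) : ℤ) ≤ (Z T : ℤ) := by exact_mod_cast hT3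
      push_cast at this
      omega
    have h4 := xt_abs hz hC (m := m + 1 + k) (m' := m + 1) (by omega) (by omega)
    have h5 : (((m + 1 + k : ℤ) : ℝ) - ((m + 1 : ℤ) : ℝ)) = k := by push_cast; ring
    rw [h5] at h4
    unfold dd
    set u : ℝ := xt o (m + 1 + k) - xt o (m + 1) with hu
    have h6 : u ^ 2 ≤ C ^ 2 * (k : ℝ) ^ 2 := by
      rw [← sq_abs u, ← sq_abs (k : ℝ), ← mul_pow]
      exact pow_le_pow_left₀ (abs_nonneg _) h4 2
    have h7 : (lb Z T * u - k) ^ 2 ≤ 2 * (lb Z T) ^ 2 * u ^ 2 + 2 * (k : ℝ) ^ 2 := by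
      nlinarith [sq_nonneg (lb Z T * u + k)]
    have h8 : 2 * (k : ℝ) ^ 2 ≤ ε / 2 * Mb Z T := by
      rw [div_le_iff₀ hε] at hT6
      nlinarith
    have h9 : 2 * (lb Z T) ^ 2 * u ^ 2 ≤ ε / 2 * Mb Z T := by
      have h10 : 2 * (lb Z T) ^ 2 * u ^ 2 ≤ 2 * (lb Z T) ^ 2 * (C ^ 2 * (k : ℝ) ^ 2) :=
        mul_le_mul_of_nonneg_left h6 (by positivity)
      have h11 : 2 * (lb Z T) ^ 2 * (C ^ 2 * (k : ℝ) ^ 2) = (lb Z T) * (lb Z T * c₂) / 2 := by
        rw [hc₂]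
        ring
      have h12 : lb Z T * c₂ ≤ ε * T := by
        have h13 : Real.log T ≤ ε / (c₂ + 1) * T := by
          rw [div_lt_iff₀ hT0] at hT7
          exact hT7.le
        calc lb Z T * c₂ ≤ Real.log T * c₂ := mul_le_mul_of_nonneg_right hll hc₂0
          _ ≤ (ε / (c₂ + 1) * T) * c₂ := mul_le_mul_of_nonneg_right h13 hc₂0
          _ = ε * T * (c₂ / (c₂ + 1)) := by ring
          _ ≤ ε * T * 1 := by
            apply mul_le_mul_of_nonneg_left _ (by positivity)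
            rw [div_le_one (by positivity)]
            linarith
          _ = ε * T := mul_one _
      have h14 : lb Z T * (lb Z T * c₂) ≤ lb Z T * (ε * T) := mul_le_mul_of_nonneg_left h12 hl0.le
      rw [hMT]
      linarith
    linarith
  refine ⟨?_, hbd _ le_rfl, hbd _ (by exact_mod_cast hZZ)⟩
  have h4 := shift_int hz hC0 hC hZZ k hT3
  have h5 : ∑ n ∈ Bk Z T, dd (xt o) (lb Z T) k n = lb Z T *
      (∑ n ∈ Bk Z T, xt o (n + k) - ∑ n ∈ Bk Z T, xt o n - k * T) := by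
    unfold dd
    rw [Finset.sum_sub_distrib, ← Finset.mul_sum, Finset.sum_sub_distrib, Finset.sum_const]
    have h6 : (((Bk Z T).card : ℕ) : ℝ) = Mb Z T := by
      unfold Bk Mb
      rw [Int.card_Ioc]
      have h7 : ((Z (2 * T) : ℤ) - (Z T : ℤ)).toNat = Z (2 * T) - Z T := by omega
      rw [h7, Nat.cast_sub hZZ]
    rw [nsmul_eq_mul, h6, hMT]
    ring
  rw [h5, abs_mul, abs_of_pos hl0]
  have h6 : c₁ ≤ ε * T := by
    rw [div_le_iff₀ hε] at hT5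
    linarith
  calc lb Z T * _ ≤ lb Z T * (ε * T) := mul_le_mul_of_nonneg_left (h4.trans h6) hl0.le
    _ = ε * Mb Z T := by rw [hMT]; ring

end Pool.Agent.H478.ON.ZF
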