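import Pool.Agent.H478.ON.Stm2

/-! Third moments of the displacements in blocks (helper747). -/

namespace Pool.Agent.H478.ON.ZM

open Filter Topology MeasureTheory Pool.Agent.H478.ON

theorem cube_le {t l : ℝ} (hl : 0 < l) (ht : 0 ≤ t) : t ^ 3 ≤ l + t ^ 6 / l := by
  have h1 : t ^ 3 * l ≤ l ^ 2 + t ^ 6 := by
    nlinarith [sq_nonneg (t ^ 3 - l), mul_nonneg (pow_nonneg ht 3) hl.le]
  have h2 : l + t ^ 6 / l = (l ^ 2 + t ^ 6) / l := by
    field_simp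
  rw [h2, le_div_iff₀ hl]
  exact h1

theorem six_le {s K : ℝ} (hs : 0 ≤ s) (hK : 0 ≤ K) : |s - K| ^ 6 ≤ s ^ 6 + K ^ 6 := by
  rcases le_total s K with h | h
  · have h1 : |s - K| ≤ K := by
      rw [abs_le]
      constructor <;> linarith
    have h2 := pow_le_pow_left₀ (abs_nonneg (s - K)) h1 6
    have h3 : 0 ≤ s ^ 6 := by positivity
    linarith
  · have h1 : |s - K| ≤ s := by
      rw [abs_le]
      constructor <;> linarith
    have h2 := pow_le_pow_left₀ (abs_nonneg (s - K)) h1 6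
    have h3 : 0 ≤ K ^ 6 := by positivity
    linarith

theorem add_cube {a b : ℝ} (ha : 0 ≤ a) (hb : 0 ≤ b) :
    (a + b) ^ 3 ≤ 4 * (a ^ 3 + b ^ 3) := by
  nlinarith [mul_nonneg (add_nonneg ha hb) (sq_nonneg (a - b))]

theorem good_cube {t : ℝ} (ht : 0 ≤ t) {K : ℕ} (h : t < (K : ℝ) ^ (1 / 8 : ℝ)) :
    t ^ 3 ≤ Real.sqrt (1 + K) := by
  have hK : (0 : ℝ) ≤ K := Nat.cast_nonneg K
  have h1 : t ^ 8 ≤ K := by
    have h2 := pow_le_pow_left₀ ht h.le 8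
    have h3 : ((K : ℝ) ^ (1 / 8 : ℝ)) ^ 8 = K := by
      rw [← Real.rpow_natCast, ← Real.rpow_mul hK]
      norm_num
    linarith
  refine Real.le_sqrt_of_sq_le ?_
  have h4 : (t ^ 3) ^ 2 ≤ 1 + t ^ 8 := by
    nlinarith [sq_nonneg (t ^ 4 - t ^ 2), sq_nonneg (t ^ 2 - 1), sq_nonneg (t ^ 4),
      sq_nonneg (t ^ 4 - 1), sq_nonneg (t ^ 2)]
  linarith

/-- the sum of the sixth powers -/
theorem sum_six (o : ℕ → ℝ) (C : ℝ) (hC : 0 ≤ C) (K N : ℕ) (hKN : K ≤ N)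
    (hdl : ∀ n : ℕ, 1 ≤ n → 0 ≤ dl o n)
    (hM : ∑ n ∈ Finset.Icc 1 N, Sk o K n ^ 6 ≤ C * (K : ℝ) ^ 6 * (N + K)) :
    ∑ n ∈ Finset.Icc 1 N, |Sk o K n - K| ^ 6 ≤ (K : ℝ) ^ 6 * (2 * C + 1) * N := by
  have hKN' : (K : ℝ) ≤ N := by exact_mod_cast hKN
  have h1 : ∀ n ∈ Finset.Icc 1 N, |Sk o K n - K| ^ 6 ≤ Sk o K n ^ 6 + (K : ℝ) ^ 6 := by
    intro n hn
    refine six_le ?_ (Nat.cast_nonneg K)
    exact Finset.sum_nonneg fun i _ => hdl _ (by rw [Finset.mem_Icc] at hn; omega)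
  calc ∑ n ∈ Finset.Icc 1 N, |Sk o K n - K| ^ 6
      ≤ ∑ n ∈ Finset.Icc 1 N, (Sk o K n ^ 6 + (K : ℝ) ^ 6) := Finset.sum_le_sum h1
    _ = ∑ n ∈ Finset.Icc 1 N, Sk o K n ^ 6 + N * (K : ℝ) ^ 6 := by
        rw [Finset.sum_add_distrib, Finset.sum_const, Nat.card_Icc, nsmul_eq_mul,
          Nat.add_sub_cancel]
    _ ≤ C * (K : ℝ) ^ 6 * (N + K) + N * (K : ℝ) ^ 6 := by linarith
    _ ≤ C * (K : ℝ) ^ 6 * (N + N) + N * (K : ℝ) ^ 6 := by
        have h2 : C * (K : ℝ) ^ 6 * (N + K) ≤ C * (K : ℝ) ^ 6 * (N + N) :=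
          mul_le_mul_of_nonneg_left (by linarith) (by positivity)
        linarith
    _ = (K : ℝ) ^ 6 * (2 * C + 1) * N := by ring

/-- the crude bound -/
theorem crude (y : ℕ → ℝ) (hy : ∀ n, 0 ≤ y n) (N : ℕ) (D : ℝ)
    (h : ∑ n ∈ Finset.Icc 1 N, y n ^ 6 ≤ D * N) :
    ∑ n ∈ Finset.Icc 1 N, y n ^ 3 ≤ (1 + D) * N := by
  calc ∑ n ∈ Finset.Icc 1 N, y n ^ 3 ≤ ∑ n ∈ Finset.Icc 1 N, (1 + y n ^ 6) :=
        Finset.sum_le_sum fun n _ => by
          have := cube_le one_pos (hy n)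
          rwa [div_one] at this
    _ = N + ∑ n ∈ Finset.Icc 1 N, y n ^ 6 := by
        rw [Finset.sum_add_distrib, Finset.sum_const, Nat.card_Icc, nsmul_eq_mul,
          Nat.add_sub_cancel, mul_one]
    _ ≤ (1 + D) * N := by linarith

/-- the fine bound -/
theorem fine (y : ℕ → ℝ) (hy : ∀ n, 0 ≤ y n) (K N : ℕ) (hK : 1 ≤ K) (D : ℝ)
    (h : ∑ n ∈ Finset.Icc 1 N, y n ^ 6 ≤ (K : ℝ) ^ 6 * D * N)
    (hb : (({n : ℕ | 1 ≤ n ∧ n ≤ N ∧ (K : ℝ) ^ (1 / 8 : ℝ) ≤ y n}.ncard : ℕ) : ℝ) ≤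
      (K : ℝ) ^ (-6 : ℝ) * N) :
    ∑ n ∈ Finset.Icc 1 N, y n ^ 3 ≤ (Real.sqrt (1 + K) + 1 + D) * N := by
  classical
  have hK0 : (0 : ℝ) < K := by exact_mod_cast hK
  have hK6 : (0 : ℝ) < (K : ℝ) ^ 6 := by positivity
  have h1 : ∀ n ∈ Finset.Icc 1 N, y n ^ 3 ≤ Real.sqrt (1 + K) +
      (if (K : ℝ) ^ (1 / 8 : ℝ) ≤ y n then (K : ℝ) ^ 6 else 0) + y n ^ 6 / (K : ℝ) ^ 6 := by
    intro n _
    have h2 : 0 ≤ y n ^ 6 / (K : ℝ) ^ 6 := by
      have := hy n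
      positivity
    by_cases h3 : (K : ℝ) ^ (1 / 8 : ℝ) ≤ y n
    · rw [if_pos h3]
      have h4 := cube_le hK6 (hy n)
      have h5 := Real.sqrt_nonneg (1 + (K : ℝ))
      linarith
    · rw [if_neg h3]
      have h4 := good_cube (hy n) (not_le.1 h3)
      linarith
  have h6 : {n : ℕ | 1 ≤ n ∧ n ≤ N ∧ (K : ℝ) ^ (1 / 8 : ℝ) ≤ y n} =
      ((Finset.Icc 1 N).filter fun n => (K : ℝ) ^ (1 / 8 : ℝ) ≤ y n : Finset ℕ) := by
    ext n
    simp only [Set.mem_ofPred_eq, Finset.coe_filter, Finset.mem_Icc]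
    tauto
  rw [h6, Set.ncard_coe_finset] at hb
  have h7 : ∑ n ∈ Finset.Icc 1 N, (if (K : ℝ) ^ (1 / 8 : ℝ) ≤ y n then (K : ℝ) ^ 6 else 0) ≤
      N := by
    rw [← Finset.sum_filter, Finset.sum_const, nsmul_eq_mul]
    have h8 : (K : ℝ) ^ (-6 : ℝ) = ((K : ℝ) ^ 6)⁻¹ := by
      rw [Real.rpow_neg hK0.le]
      norm_cast
    rw [h8] at hb
    calc (((Finset.Icc 1 N).filter fun n => (K : ℝ) ^ (1 / 8 : ℝ) ≤ y n).card : ℝ) * (K : ℝ) ^ 6
        ≤ ((K : ℝ) ^ 6)⁻¹ * N * (K : ℝ) ^ 6 := mul_le_mul_of_nonneg_right hb hK6.le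
      _ = N := by field_simp
  calc ∑ n ∈ Finset.Icc 1 N, y n ^ 3
      ≤ ∑ n ∈ Finset.Icc 1 N, (Real.sqrt (1 + K) +
        (if (K : ℝ) ^ (1 / 8 : ℝ) ≤ y n then (K : ℝ) ^ 6 else 0) + y n ^ 6 / (K : ℝ) ^ 6) :=
        Finset.sum_le_sum h1
    _ = N * Real.sqrt (1 + K) +
        ∑ n ∈ Finset.Icc 1 N, (if (K : ℝ) ^ (1 / 8 : ℝ) ≤ y n then (K : ℝ) ^ 6 else 0) +
        (∑ n ∈ Finset.Icc 1 N, y n ^ 6) / (K : ℝ) ^ 6 := by
        rw [Finset.sum_add_distrib, Finset.sum_add_distrib, Finset.sum_const, Nat.card_Icc,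
          nsmul_eq_mul, Nat.add_sub_cancel, Finset.sum_div]
    _ ≤ N * Real.sqrt (1 + K) + N + (K : ℝ) ^ 6 * D * N / (K : ℝ) ^ 6 := by
        have h9 := div_le_div_of_nonneg_right h hK6.le
        linarith
    _ = (Real.sqrt (1 + K) + 1 + D) * N := by
        field_simp

/-- the bound for sums over sets of indices near the block -/
theorem claim (h1 : S_ELM) (h2 : S_GM6) (o : ℕ → ℝ) (Z : ℝ → ℕ) (hz : Zr o Z) (hg : Gap o)
    (hd : Dev o) : ∃ C : ℝ, 0 ≤ C ∧ ∀ K : ℕ, ∀ᶠ T : ℝ in atTop, K < Z T ∧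
      ∀ s : Finset ℕ, (∀ m ∈ s, (Z T : ℤ) - K ≤ m ∧ m ≤ Z (2 * T)) →
        ∑ m ∈ s, |lb Z T * (o (m + K) - o m) - K| ^ 3 ≤
          C * Real.sqrt (1 + K) * Mb Z T := by
  classical
  obtain ⟨hE1, _, hE3⟩ := h1 o Z hz
  obtain ⟨C, hC, hM⟩ := h2 o Z hz hg
  have hdl := (hM 0 0).1
  obtain ⟨k0, hk0⟩ := eventually_atTop.1 (hd 6 (by norm_num))
  have hlarge : ∀ K : ℕ, ∀ᶠ T : ℝ in atTop, K < Z T := by
    intro K
    filter_upwards [hE3 K 1 one_pos] with T hT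
    by_contra hc
    have h3 := (hT 0 (by push_cast; omega) (by push_cast; positivity)).1
    omega
  set E : ℝ := 2 * C + 1 with hE
  have hE0 : 0 ≤ E := by positivity
  set B : ℝ := 3 + 2 * E + (k0 : ℝ) ^ 6 * E with hB
  refine ⟨12 * B, by positivity, fun K => ?_⟩
  have hK0 : (0 : ℝ) ≤ K := Nat.cast_nonneg K
  have hsq : 1 ≤ Real.sqrt (1 + K) := by
    rw [Real.one_le_sqrt]
    linarith
  -- the first term
  have hfirst : ∀ᶠ N : ℕ in atTop, ∑ n ∈ Finset.Icc 1 N, |Sk o K n - K| ^ 3 ≤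
      (Real.sqrt (1 + K) + 1 + E + (k0 : ℝ) ^ 6 * E) * N := by
    by_cases hK : 1 ≤ K ∧ k0 ≤ K
    · filter_upwards [hk0 K hK.2, eventually_ge_atTop K] with N hN hKN
      have h3 := fine (fun n => |Sk o K n - K|) (fun n => abs_nonneg _) K N hK.1 E
        (sum_six o C hC K N hKN hdl (hM K N).2) hN
      refine h3.trans (mul_le_mul_of_nonneg_right ?_ (Nat.cast_nonneg N))
      have : 0 ≤ (k0 : ℝ) ^ 6 * E := by positivity
      linarith
    · filter_upwards [eventually_ge_atTop K] with N hKN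
      have h3 := crude (fun n => |Sk o K n - K|) (fun n => abs_nonneg _) N ((K : ℝ) ^ 6 * E)
        (sum_six o C hC K N hKN hdl (hM K N).2)
      refine h3.trans (mul_le_mul_of_nonneg_right ?_ (Nat.cast_nonneg N))
      have h4 : (K : ℝ) ^ 6 * E ≤ (k0 : ℝ) ^ 6 * E := by
        refine mul_le_mul_of_nonneg_right ?_ hE0
        by_cases h5 : K = 0
        · rw [h5]
          simp
        · have h6 : K ≤ k0 := by omega
          exact pow_le_pow_left₀ hK0 (by exact_mod_cast h6) 6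
      linarith
  obtain ⟨N1, hN1⟩ := eventually_atTop.1 hfirst
  filter_upwards [hE1, hE3 K (1 / (K + 1)) (by positivity), hlarge (max K N1)] with T hT1 hT3 hT4
  obtain ⟨hMb, hlb, hZ3, _⟩ := hT1
  have hZT : Z T ≤ Z (2 * T) := by
    have h3 : (Z T : ℝ) ≤ Z (2 * T) := by
      unfold Mb at hMb
      linarith
    exact_mod_cast h3
  refine ⟨(le_max_left _ _).trans_lt hT4, fun s hs => ?_⟩
  set N := Z (2 * T) with hN
  have hKN : K ≤ N := by
    have := le_max_left K N1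
    omega
  have hNN : N1 ≤ N := by
    have := le_max_right K N1
    omega
  have hsub : s ⊆ Finset.Icc 1 N := by
    intro m hm
    have h3 := hs m hm
    rw [Finset.mem_Icc]
    have := le_max_left K N1
    omega
  have hSk : ∀ n ∈ Finset.Icc 1 N, 0 ≤ Sk o K n := fun n hn =>
    Finset.sum_nonneg fun i _ => hdl _ (by rw [Finset.mem_Icc] at hn; omega)
  -- the second term
  have hsecond : ∑ n ∈ Finset.Icc 1 N, (Sk o K n / (K + 1)) ^ 3 ≤ (1 + 2 * C) * N := by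
    have h3 : ∑ n ∈ Finset.Icc 1 N, |Sk o K n / (K + 1)| ^ 6 ≤ 2 * C * N := by
      have h4 : ∀ n ∈ Finset.Icc 1 N, |Sk o K n / (K + 1)| ^ 6 =
          Sk o K n ^ 6 / ((K : ℝ) + 1) ^ 6 := by
        intro n hn
        rw [abs_of_nonneg (div_nonneg (hSk n hn) (by positivity)), div_pow]
      rw [Finset.sum_congr rfl h4, ← Finset.sum_div, div_le_iff₀ (by positivity)]
      refine (hM K N).2.trans ?_
      have h5 : (K : ℝ) ≤ N := by exact_mod_cast hKN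
      have h6 : (K : ℝ) ^ 6 ≤ ((K : ℝ) + 1) ^ 6 := pow_le_pow_left₀ hK0 (by linarith) 6
      calc C * (K : ℝ) ^ 6 * (N + K) ≤ C * ((K : ℝ) + 1) ^ 6 * (N + N) := by
            refine mul_le_mul (mul_le_mul_of_nonneg_left h6 hC) (by linarith) (by positivity)
              (by positivity)
        _ = 2 * C * N * ((K : ℝ) + 1) ^ 6 := by ring
    have h7 := crude (fun n => |Sk o K n / (K + 1)|) (fun n => abs_nonneg _) N (2 * C) h3
    refine le_trans (le_of_eq ?_) h7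
    refine Finset.sum_congr rfl fun n hn => ?_
    rw [abs_of_nonneg (div_nonneg (hSk n hn) (by positivity))]
  have hpt : ∀ m ∈ s, |lb Z T * (o (m + K) - o m) - K| ^ 3 ≤
      4 * |Sk o K m - K| ^ 3 + 4 * (Sk o K m / (K + 1)) ^ 3 := by
    intro m hm
    have h3 := hs m hm
    obtain ⟨_, _, _, h4⟩ := hT3 m h3.1 (by omega)
    obtain ⟨h5, h6⟩ := h4 K le_rfl
    have h7 : |lb Z T * (o (m + K) - o m) - K| ≤ |Sk o K m - K| + Sk o K m / (K + 1) := by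
      calc |lb Z T * (o (m + K) - o m) - K|
          = |(lb Z T * (o (m + K) - o m) - Sk o K m) + (Sk o K m - K)| := by
            congr 1
            ring
        _ ≤ |lb Z T * (o (m + K) - o m) - Sk o K m| + |Sk o K m - K| := abs_add_le _ _
        _ ≤ 1 / (K + 1) * Sk o K m + |Sk o K m - K| := by linarith
        _ = |Sk o K m - K| + Sk o K m / (K + 1) := by ring
    have h8 := pow_le_pow_left₀ (abs_nonneg _) h7 3
    have h9 := add_cube (abs_nonneg (Sk o K m - K))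
      (div_nonneg h5 (by positivity : (0 : ℝ) ≤ (K : ℝ) + 1))
    linarith
  have hN3 : (N : ℝ) ≤ 3 * Mb Z T := hZ3
  calc ∑ m ∈ s, |lb Z T * (o (m + K) - o m) - K| ^ 3
      ≤ ∑ m ∈ s, (4 * |Sk o K m - K| ^ 3 + 4 * (Sk o K m / (K + 1)) ^ 3) :=
        Finset.sum_le_sum hpt
    _ ≤ ∑ m ∈ Finset.Icc 1 N, (4 * |Sk o K m - K| ^ 3 + 4 * (Sk o K m / (K + 1)) ^ 3) := by
        refine Finset.sum_le_sum_of_subset_of_nonneg hsub fun n hn _ => ?_
        have h3 := div_nonneg (hSk n hn) (by positivity : (0 : ℝ) ≤ (K : ℝ) + 1)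
        positivity
    _ = 4 * ∑ m ∈ Finset.Icc 1 N, |Sk o K m - K| ^ 3 +
        4 * ∑ m ∈ Finset.Icc 1 N, (Sk o K m / (K + 1)) ^ 3 := by
        rw [Finset.sum_add_distrib, Finset.mul_sum, Finset.mul_sum]
    _ ≤ 4 * ((Real.sqrt (1 + K) + 1 + E + (k0 : ℝ) ^ 6 * E) * N) + 4 * ((1 + 2 * C) * N) := by
        have h3 := hN1 N hNN
        linarith
    _ = 4 * (Real.sqrt (1 + K) + (1 + 2 * E + (k0 : ℝ) ^ 6 * E)) * N := by
        rw [hE]
        ring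
    _ ≤ 4 * (B * Real.sqrt (1 + K)) * N := by
        have h3 : 0 ≤ 1 + 2 * E + (k0 : ℝ) ^ 6 * E := by positivity
        have h4 : Real.sqrt (1 + K) + (1 + 2 * E + (k0 : ℝ) ^ 6 * E) ≤ B * Real.sqrt (1 + K) := by
          rw [hB]
          nlinarith [mul_nonneg h3 (sub_nonneg.2 hsq)]
        have h5 : (0 : ℝ) ≤ N := Nat.cast_nonneg N
        nlinarith [mul_nonneg (sub_nonneg.2 h4) h5]
    _ ≤ 4 * (B * Real.sqrt (1 + K)) * (3 * Mb Z T) := by
        refine mul_le_mul_of_nonneg_left hN3 (by positivity)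
    _ = 12 * B * Real.sqrt (1 + K) * Mb Z T := by ring

theorem t_ZM (h1 : S_ELM) (h2 : S_GM6) : S_ZM := by
  classical
  intro o Z hz hg hd
  obtain ⟨C, hC, hcl⟩ := claim h1 h2 o Z hz hg hd
  refine ⟨C, hC, fun k => ?_⟩
  have hkabs : |(k : ℝ)| = (k.natAbs : ℝ) := by
    rw [Nat.cast_natAbs, Int.cast_abs]
  rw [hkabs]
  filter_upwards [hcl k.natAbs] with T hT
  obtain ⟨hZ, hsum⟩ := hT
  rcases le_total 0 k with hk | hk
  · obtain ⟨K, rfl⟩ := Int.eq_ofNat_of_zero_le hk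
    rw [Int.natAbs_natCast] at hZ hsum ⊢
    have h3 : ∑ n ∈ Bk Z T, |dd (xt o) (lb Z T) (K : ℤ) n| ^ 3 =
        ∑ m ∈ (Bk Z T).image Int.toNat, |lb Z T * (o (m + K) - o m) - K| ^ 3 := by
      rw [Finset.sum_image]
      · refine Finset.sum_congr rfl fun n hn => ?_
        unfold Bk at hn
        rw [Finset.mem_Ioc] at hn
        have h4 : (1 : ℤ) ≤ n := by omega
        have h5 : (1 : ℤ) ≤ n + K := by omega
        have h6 : (n + K).toNat = n.toNat + K := by omega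
        unfold dd xt
        rw [if_pos h4, if_pos h5, h6]
        push_cast
        rfl
      · intro m hm n hn hmn
        unfold Bk at hm hn
        rw [Finset.mem_coe, Finset.mem_Ioc] at hm hn
        omega
    rw [h3]
    refine hsum _ fun m hm => ?_
    rw [Finset.mem_image] at hm
    obtain ⟨n, hn, rfl⟩ := hm
    unfold Bk at hn
    rw [Finset.mem_Ioc] at hn
    omega
  · obtain ⟨K, hK⟩ := Int.eq_ofNat_of_zero_le (neg_nonneg.2 hk)
    obtain rfl : k = -(K : ℤ) := by omega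
    rw [Int.natAbs_neg, Int.natAbs_natCast] at hZ hsum ⊢
    have h3 : ∑ n ∈ Bk Z T, |dd (xt o) (lb Z T) (-(K : ℤ)) n| ^ 3 =
        ∑ m ∈ (Bk Z T).image (fun n : ℤ => (n - (K : ℤ)).toNat),
          |lb Z T * (o (m + K) - o m) - K| ^ 3 := by
      rw [Finset.sum_image]
      · refine Finset.sum_congr rfl fun n hn => ?_
        unfold Bk at hn
        rw [Finset.mem_Ioc] at hn
        have h4 : (1 : ℤ) ≤ n := by omega
        have h5 : (1 : ℤ) ≤ n + -(K : ℤ) := by omega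
        have h6 : (n + -(K : ℤ)).toNat = (n - K).toNat := by omega
        have h7 : n.toNat = (n - K).toNat + K := by omega
        unfold dd xt
        rw [if_pos h4, if_pos h5, h6, h7, ← abs_neg]
        push_cast
        congr 2
        ring
      · intro m hm n hn hmn
        unfold Bk at hm hn
        rw [Finset.mem_coe, Finset.mem_Ioc] at hm hn
        simp only at hmn
        omega
    rw [h3]
    refine hsum _ fun m hm => ?_
    rw [Finset.mem_image] at hm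
    obtain ⟨n, hn, rfl⟩ := hm
    unfold Bk at hn
    rw [Finset.mem_Ioc] at hn
    omega

end Pool.Agent.H478.ON.ZM
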