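import Pool.Agent.H478.ON.Stm2

/-!
# ZX: few points have far too many neighbours (helper249, for helper478)
-/

set_option autoImplicit false

namespace Pool.Agent.H478.ON.ZX

open Filter Topology Finset Pool.Agent.H478.ON

theorem xt_nat (o : ℕ → ℝ) {m : ℕ} (hm : 1 ≤ m) : xt o (m : ℤ) = o m := by
  unfold xt
  rw [if_pos (by exact_mod_cast hm), Int.toNat_natCast]

theorem xt_mono {o : ℕ → ℝ} {Z : ℝ → ℕ} (hZ : Zr o Z) {m n : ℤ} (hmn : m ≤ n) :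
    xt o m ≤ xt o n := by
  unfold xt
  by_cases hm : 1 ≤ m
  · rw [if_pos hm, if_pos (hm.trans hmn)]
    exact hZ.mono _ _ (by omega) (by omega)
  · rw [if_neg hm]
    by_cases hn : 1 ≤ n
    · rw [if_pos hn]
      have h1 : (m : ℝ) ≤ 0 := by exact_mod_cast (by omega : m ≤ 0)
      have h2 := hZ.mono 1 n.toNat le_rfl (by omega)
      linarith [hZ.one]
    · rw [if_neg hn]
      exact_mod_cast hmn

/-- the comparison of `k^(1/8)` and `k` -/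
theorem rpow_le {k : ℝ} (hk : 16 ≤ k) : k ^ (1 / 8 : ℝ) ≤ k / 4 := by
  have h1 : k ^ (1 / 8 : ℝ) ≤ k ^ (1 / 2 : ℝ) :=
    Real.rpow_le_rpow_of_exponent_le (by linarith) (by norm_num)
  rw [← Real.sqrt_eq_rpow] at h1
  have h2 : 4 ≤ Real.sqrt k := by
    rw [show (4 : ℝ) = Real.sqrt (4 ^ 2) by rw [Real.sqrt_sq (by norm_num)]]
    exact Real.sqrt_le_sqrt (by linarith)
  have h3 : Real.sqrt k * Real.sqrt k = k := Real.mul_self_sqrt (by linarith)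
  nlinarith

/-- a short block has an atypical sum of gaps -/
theorem dev_of {X L S k : ℝ} (hk16 : 16 ≤ k) (hk : 2 * X ≤ k) (hL : L < X) (_hS : 0 ≤ S)
    (h : |L - S| ≤ 1 / 10 * S) : k ^ (1 / 8 : ℝ) ≤ |S - k| := by
  have h1 := (abs_le.1 h).1
  have h2 : S ≤ 5 / 9 * k := by linarith
  refine (rpow_le hk16).trans ?_
  rw [abs_sub_comm]
  refine le_trans ?_ (le_abs_self _)
  linarith

/-- `Z` tends to infinity -/
theorem tendsto_Z (h1 : S_ELM) {o : ℕ → ℝ} {Z : ℝ → ℕ} (hZ : Zr o Z) :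
    Tendsto Z atTop atTop := by
  rw [tendsto_atTop]
  intro k
  filter_upwards [(h1 o Z hZ).2.2 k 1 one_pos] with T hT
  by_contra hlt
  have h2 := (hT 0 (by push_cast; omega) (by push_cast; omega)).1
  omega

open Classical in
/-- the count of the bad points of one kind -/
theorem count_le (o : ℕ → ℝ) (k N : ℕ) (B : Finset ℤ) (s : ℤ)
    (hB : ∀ n ∈ B, 1 ≤ n - s ∧ n - s ≤ N ∧
      (k : ℝ) ^ (1 / 8 : ℝ) ≤ |Sk o k (n - s).toNat - k|) :
    B.card ≤ {n : ℕ | 1 ≤ n ∧ n ≤ N ∧ (k : ℝ) ^ (1 / 8 : ℝ) ≤ |Sk o k n - k|}.ncard := by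
  have hfin : {n : ℕ | 1 ≤ n ∧ n ≤ N ∧ (k : ℝ) ^ (1 / 8 : ℝ) ≤ |Sk o k n - k|}.Finite :=
    (Finset.Icc 1 N).finite_toSet.subset fun n hn => Finset.mem_coe.2 (Finset.mem_Icc.2 ⟨hn.1, hn.2.1⟩)
  rw [Set.ncard_eq_toFinset_card _ hfin]
  refine Finset.card_le_card_of_injOn (fun n => (n - s).toNat) ?_ ?_
  · intro n hn
    have h := hB n hn
    rw [Finset.mem_coe, Set.Finite.mem_toFinset]
    refine ⟨?_, ?_, h.2.2⟩
    · show 1 ≤ (n - s).toNat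
      omega
    · show (n - s).toNat ≤ N
      omega
  · intro n hn n' hn' he
    have h := hB n hn
    have h' := hB n' hn'
    have he' : (n - s).toNat = (n' - s).toNat := he
    omega

theorem t_ZX (h1 : S_ELM) : S_ZX := by
  intro o Z hZ hDev hClu A hA ε hε
  obtain ⟨C, hC0, hC⟩ := hClu
  obtain ⟨k1, hk1⟩ := eventually_atTop.1 (hDev 20 (by norm_num))
  filter_upwards [eventually_ge_atTop (1 : ℝ), eventually_ge_atTop (k1 : ℝ),
    eventually_ge_atTop (16 : ℝ), eventually_ge_atTop (6 * C / ε ^ 2)] with r hr1 hrk hr16 hrε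
  intro K hK
  obtain ⟨X, hX⟩ : ∃ X, X = A * r := ⟨_, rfl⟩
  have hXr : r ≤ X := by rw [hX]; nlinarith
  have hX1 : 1 ≤ X := hr1.trans hXr
  obtain ⟨k0, hk0⟩ : ∃ k0 : ℕ, k0 = ⌈2 * X⌉₊ + 1 := ⟨_, rfl⟩
  have hk0X : 2 * X ≤ (k0 : ℝ) := by
    rw [hk0]
    push_cast
    linarith [Nat.le_ceil (2 * X)]
  have hk0K : (k0 : ℤ) ≤ K + 1 := by
    have e1 : ((⌈2 * X⌉₊ : ℕ) : ℝ) < 2 * X + 1 := Nat.ceil_lt_add_one (by linarith)
    have e2 : ((⌈2 * X⌉₊ : ℕ) : ℝ) < (K : ℝ) := by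
      have : 2 * A * r = 2 * X := by rw [hX]; ring
      linarith
    have e3 : ((⌈2 * X⌉₊ : ℕ) : ℤ) < K := by exact_mod_cast e2
    rw [hk0]
    push_cast
    omega
  have hk016 : (16 : ℝ) ≤ k0 := by linarith
  have hk0k1 : k1 ≤ k0 := by
    have : (k1 : ℝ) ≤ (k0 : ℝ) := by linarith
    exact_mod_cast this
  -- large `T`
  have hZ2 : Tendsto (fun T : ℝ => Z (2 * T)) atTop atTop :=
    (tendsto_Z h1 hZ).comp (tendsto_id.const_mul_atTop (by norm_num : (0 : ℝ) < 2))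
  filter_upwards [(h1 o Z hZ).1, (h1 o Z hZ).2.2 k0 (1 / 10) (by norm_num), hC X hX1,
    hZ2.eventually (hk1 k0 hk0k1), (tendsto_Z h1 hZ).eventually_ge_atTop k0] with T hT1 hT2 hT3 hT4 hT5
  intro K0
  obtain ⟨hMb, hlb, hZ3, _⟩ := hT1
  have hcl := hT3 K0
  rw [← hX]
  obtain ⟨lam, hlam⟩ : ∃ lam, lam = lb Z T := ⟨_, rfl⟩
  rw [← hlam] at hlb hT2 hcl ⊢
  have hmem : ∀ n ∈ Bk Z T, (Z T : ℤ) < n ∧ n ≤ (Z (2 * T) : ℤ) := fun n hn => Finset.mem_Ioc.1 hn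
  classical
  -- the bad points
  let Bp : Finset ℤ := (Bk Z T).filter fun n => lam * (xt o (n + k0) - xt o n) < X
  let Bm : Finset ℤ := (Bk Z T).filter fun n => lam * (xt o n - xt o (n - k0)) < X
  have hBp : Bp.card ≤ {n : ℕ | 1 ≤ n ∧ n ≤ Z (2 * T) ∧
      (k0 : ℝ) ^ (1 / 8 : ℝ) ≤ |Sk o k0 n - k0|}.ncard := by
    refine count_le o k0 (Z (2 * T)) Bp 0 fun n hn => ?_
    obtain ⟨hn1, hn2⟩ := Finset.mem_filter.1 hn
    obtain ⟨hn3, hn4⟩ := hmem n hn1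
    obtain ⟨m, rfl⟩ : ∃ m : ℕ, n = m := ⟨n.toNat, by omega⟩
    have hm1 : 1 ≤ m := by omega
    have hE := (hT2 m (by omega) (by omega)).2.2.2 k0 le_rfl
    refine ⟨by omega, by omega, ?_⟩
    rw [sub_zero, Int.toNat_natCast]
    rw [xt_nat o hm1, show ((m : ℤ) + (k0 : ℤ)) = ((m + k0 : ℕ) : ℤ) by push_cast; ring,
      xt_nat o (by omega)] at hn2
    exact dev_of hk016 hk0X hn2 hE.1 hE.2
  have hBm : Bm.card ≤ {n : ℕ | 1 ≤ n ∧ n ≤ Z (2 * T) ∧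
      (k0 : ℝ) ^ (1 / 8 : ℝ) ≤ |Sk o k0 n - k0|}.ncard := by
    refine count_le o k0 (Z (2 * T)) Bm k0 fun n hn => ?_
    obtain ⟨hn1, hn2⟩ := Finset.mem_filter.1 hn
    obtain ⟨hn3, hn4⟩ := hmem n hn1
    obtain ⟨m, hm⟩ : ∃ m : ℕ, n - k0 = m := ⟨(n - k0).toNat, by omega⟩
    have hm1 : 1 ≤ m := by omega
    have hE := (hT2 m (by omega) (by omega)).2.2.2 k0 le_rfl
    refine ⟨by omega, by omega, ?_⟩
    have hn5 : n = ((m + k0 : ℕ) : ℤ) := by push_cast; omega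
    rw [hm, Int.toNat_natCast]
    rw [hm, xt_nat o hm1, hn5, xt_nat o (by omega)] at hn2
    exact dev_of hk016 hk0X hn2 hE.1 hE.2
  -- the indicator of the bad points and the number of the neighbours
  let b : ℤ → ℝ := fun n => if n ∈ Bp ∪ Bm then 1 else 0
  let ν : ℤ → ℝ := fun n => ∑ k ∈ Finset.Icc (-K0) K0,
    (if |lam * (xt o (n + k) - xt o n)| < X then (1 : ℝ) else 0)
  have hpt : ∀ n ∈ Bk Z T, ∑ k ∈ Finset.Icc (-K0) K0,
      (if K < |k| ∧ |lam * (xt o (n + k) - xt o n)| < X then (1 : ℝ) else 0) ≤ b n * ν n := by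
    intro n hn
    by_cases hb : n ∈ Bp ∪ Bm
    · have e1 : b n = 1 := if_pos hb
      rw [e1, one_mul]
      refine Finset.sum_le_sum fun k _ => ?_
      by_cases h3 : |lam * (xt o (n + k) - xt o n)| < X
      · rw [if_pos h3]
        by_cases h4 : K < |k| ∧ |lam * (xt o (n + k) - xt o n)| < X
        · rw [if_pos h4]
        · rw [if_neg h4]; exact zero_le_one
      · rw [if_neg h3, if_neg (fun h4 => h3 h4.2)]
    · have e1 : b n = 0 := if_neg hb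
      rw [e1, zero_mul]
      refine le_of_eq (Finset.sum_eq_zero fun k _ => ?_)
      refine if_neg fun h4 => hb ?_
      obtain ⟨h5, h6⟩ := h4
      have h7 := (abs_lt.1 h6)
      rcases le_total 0 k with hk | hk
      · rw [abs_of_nonneg hk] at h5
        refine Finset.mem_union_left _ (Finset.mem_filter.2 ⟨hn, ?_⟩)
        have h8 : xt o (n + k0) ≤ xt o (n + k) := xt_mono hZ (by omega)
        have h9 : lam * (xt o (n + k0) - xt o n) ≤ lam * (xt o (n + k) - xt o n) :=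
          mul_le_mul_of_nonneg_left (by linarith) hlb.le
        linarith [h7.2]
      · rw [abs_of_nonpos hk] at h5
        refine Finset.mem_union_right _ (Finset.mem_filter.2 ⟨hn, ?_⟩)
        have h8 : xt o (n + k) ≤ xt o (n - k0) := xt_mono hZ (by omega)
        have h9 : lam * (xt o n - xt o (n - k0)) ≤ lam * (xt o n - xt o (n + k)) :=
          mul_le_mul_of_nonneg_left (by linarith) hlb.le
        have h10 : lam * (xt o n - xt o (n + k)) = -(lam * (xt o (n + k) - xt o n)) := by ring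
        linarith [h7.1]
  obtain ⟨ex, hex⟩ : ∃ ex, ex = ∑ n ∈ Bk Z T, ∑ k ∈ Finset.Icc (-K0) K0,
    (if K < |k| ∧ |lam * (xt o (n + k) - xt o n)| < X then (1 : ℝ) else 0) := ⟨_, rfl⟩
  rw [← hex]
  have hex0 : 0 ≤ ex := by
    rw [hex]
    refine Finset.sum_nonneg fun n _ => Finset.sum_nonneg fun k _ => ?_
    by_cases h4 : K < |k| ∧ |lam * (xt o (n + k) - xt o n)| < X
    · rw [if_pos h4]; exact zero_le_one
    · rw [if_neg h4]
  have hexle : ex ≤ ∑ n ∈ Bk Z T, b n * ν n := by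
    rw [hex]
    exact Finset.sum_le_sum hpt
  have hCS := Finset.sum_mul_sq_le_sq_mul_sq (Bk Z T) b ν
  have hb2 : ∑ n ∈ Bk Z T, b n ^ 2 ≤ (Bp.card : ℝ) + Bm.card := by
    have e1 : ∀ n ∈ Bk Z T, b n ^ 2 = if n ∈ Bp ∪ Bm then (1 : ℝ) else 0 := by
      intro n _
      show (if n ∈ Bp ∪ Bm then (1 : ℝ) else 0) ^ 2 = _
      by_cases h : n ∈ Bp ∪ Bm
      · rw [if_pos h, one_pow]
      · rw [if_neg h]; norm_num
    rw [Finset.sum_congr rfl e1, Finset.sum_boole]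
    have e2 : ((Bk Z T).filter fun n => n ∈ Bp ∪ Bm) ⊆ Bp ∪ Bm := fun n hn => (Finset.mem_filter.1 hn).2
    have e3 := (Finset.card_le_card e2).trans (Finset.card_union_le Bp Bm)
    exact_mod_cast e3
  -- the final estimate
  have hk0pos : (0 : ℝ) < k0 := by linarith
  have hpow : (k0 : ℝ) ^ (-(20 : ℝ)) = ((k0 : ℝ) ^ 20)⁻¹ := by
    rw [Real.rpow_neg hk0pos.le, Real.rpow_ofNat]
  have hcount : (Bp.card : ℝ) + Bm.card ≤ 6 * ((k0 : ℝ) ^ 20)⁻¹ * Mb Z T := by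
    have e1 : (Bp.card : ℝ) ≤ (k0 : ℝ) ^ (-(20 : ℝ)) * (Z (2 * T) : ℝ) :=
      le_trans (by exact_mod_cast hBp) hT4
    have e2 : (Bm.card : ℝ) ≤ (k0 : ℝ) ^ (-(20 : ℝ)) * (Z (2 * T) : ℝ) :=
      le_trans (by exact_mod_cast hBm) hT4
    rw [hpow] at e1 e2
    have e3 : ((k0 : ℝ) ^ 20)⁻¹ * (Z (2 * T) : ℝ) ≤ ((k0 : ℝ) ^ 20)⁻¹ * (3 * Mb Z T) :=
      mul_le_mul_of_nonneg_left hZ3 (by positivity)
    linarith
  have hMb0 : 0 < Mb Z T := by linarith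
  have hsq : ex ^ 2 ≤ (6 * ((k0 : ℝ) ^ 20)⁻¹ * Mb Z T) * (C * X ^ 8 * Mb Z T) := by
    have e1 : ex ^ 2 ≤ (∑ n ∈ Bk Z T, b n * ν n) ^ 2 := pow_le_pow_left₀ hex0 hexle 2
    refine e1.trans (hCS.trans ?_)
    refine mul_le_mul (hb2.trans hcount) hcl (Finset.sum_nonneg fun n _ => sq_nonneg _) (by positivity)
  have hk20 : X ^ 20 ≤ (k0 : ℝ) ^ 20 := pow_le_pow_left₀ (by linarith) (by linarith) 20
  have hX0 : 0 < X := by linarith
  have hr0 : 0 < r := by linarith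
  have hfin : r ^ 2 * (6 * ((k0 : ℝ) ^ 20)⁻¹ * (C * X ^ 8)) ≤ ε ^ 2 := by
    have e1 : ((k0 : ℝ) ^ 20)⁻¹ ≤ (X ^ 20)⁻¹ := inv_anti₀ (by positivity) hk20
    have e2 : r ^ 2 * (6 * ((k0 : ℝ) ^ 20)⁻¹ * (C * X ^ 8)) ≤ r ^ 2 * (6 * (X ^ 20)⁻¹ * (C * X ^ 8)) := by
      refine mul_le_mul_of_nonneg_left ?_ (by positivity)
      refine mul_le_mul_of_nonneg_right ?_ (by positivity)
      exact mul_le_mul_of_nonneg_left e1 (by norm_num)
    refine e2.trans ?_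
    have e3 : r ^ 2 * (6 * (X ^ 20)⁻¹ * (C * X ^ 8)) = 6 * C * (r ^ 2 / X ^ 12) := by
      field_simp
    rw [e3]
    have e4 : r ^ 2 / X ^ 12 ≤ 1 / r := by
      rw [div_le_div_iff₀ (by positivity) hr0]
      have e5 : r ^ 3 ≤ X ^ 3 := pow_le_pow_left₀ hr0.le hXr 3
      have e6 : X ^ 3 ≤ X ^ 12 := pow_le_pow_right₀ hX1 (by norm_num)
      calc r ^ 2 * r = r ^ 3 := by ring
        _ ≤ X ^ 12 := e5.trans e6
        _ = 1 * X ^ 12 := (one_mul _).symm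
    have e7 : 6 * C * (r ^ 2 / X ^ 12) ≤ 6 * C * (1 / r) :=
      mul_le_mul_of_nonneg_left e4 (by positivity)
    refine e7.trans ?_
    rw [mul_one_div, div_le_iff₀ hr0]
    rw [div_le_iff₀ (by positivity)] at hrε
    linarith
  have hend : (r * ex) ^ 2 ≤ (ε * Mb Z T) ^ 2 := by
    calc (r * ex) ^ 2 = r ^ 2 * ex ^ 2 := by ring
      _ ≤ r ^ 2 * ((6 * ((k0 : ℝ) ^ 20)⁻¹ * Mb Z T) * (C * X ^ 8 * Mb Z T)) :=
          mul_le_mul_of_nonneg_left hsq (by positivity)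
      _ = (r ^ 2 * (6 * ((k0 : ℝ) ^ 20)⁻¹ * (C * X ^ 8))) * (Mb Z T) ^ 2 := by ring
      _ ≤ ε ^ 2 * (Mb Z T) ^ 2 := mul_le_mul_of_nonneg_right hfin (by positivity)
      _ = (ε * Mb Z T) ^ 2 := by ring
  exact (pow_le_pow_iff_left₀ (by positivity) (by positivity) (by norm_num)).1 hend

end Pool.Agent.H478.ON.ZX
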