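import Pool.Agent.H478.ON.Zeta3
import Pool.Agent.H478.ON.TAY
import Pool.Agent.H478.ON.EM
import Pool.Agent.H478.ON.DET
import Pool.Agent.H478.ON.SPEC
import Pool.Agent.H478.ON.POS
import Pool.Agent.H478.ON.MAJ
import Pool.Agent.H478.ON.PER
import Pool.Agent.H478.ON.COV
import Pool.Agent.H478.ON.ELM
import Pool.Agent.H478.ON.GM6
import Pool.Agent.H478.ON.ZM
import Pool.Agent.H478.ON.ZX
import Pool.Agent.H478.ON.ZF
import Pool.Agent.H478.ON.ZA
import Pool.Agent.H478.ON.BLO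
import Pool.Agent.H478.ON.GLO

/-! Assembly: autocorrelations and periodogram of the normalised gaps. -/

open Finset MeasureTheory Filter Topology

namespace Pool.Agent.H478.ON

open SG (ord NZ)
open TH800.MS (dlt)

lemma supp_A {f : ℝ → ℝ} (hfs : HasCompactSupport f) : ∃ A : ℝ, 1 ≤ A ∧ ∀ y, A ≤ |y| → f y = 0 := by
  obtain ⟨R, hR⟩ := hfs.isCompact.isBounded.subset_closedBall (0 : ℝ)
  refine ⟨max (R + 1) 1, le_max_right _ _, fun y hy => ?_⟩
  by_contra hc
  have h1 : y ∈ tsupport f := subset_tsupport f (Function.mem_support.2 hc)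
  have h2 := hR h1
  rw [Metric.mem_closedBall, Real.dist_eq, sub_zero] at h2
  have := (le_max_left (R + 1) 1).trans hy
  linarith

/-- autocorrelations for the modified sequence -/
theorem ac_zn (RH : RiemannHypothesis) (f : ℝ → ℝ) (hf : ContDiff ℝ 6 f) (hfs : HasCompactSupport f)
    (hfe : ∀ x, f (-x) = f x) (ε : ℝ) (hε : 0 < ε) :
    ∀ᶠ r : ℝ in atTop, ∀ᶠ N : ℕ in atTop, |AC (fun n => dl zn n - 1) f r N - kap f| ≤ ε := by
  have hE : S_ELM := ELM.t_ELM
  have hG : S_GM6 := GM6.t_GM6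
  obtain ⟨A, hA1, hA⟩ := supp_A hfs
  have hzr := zr_zn RH
  have hb := BLO.t_BLO TAY.t_TAY EM.t_EM DET.t_DET hE (ZM.t_ZM hE hG) (ZX.t_ZX hE) (ZF.t_ZF hE)
    (ZA.t_ZA hE hG) zn zc hzr (gap_zn RH) (dev_zn RH) (clu_zn RH hE) (pc_zn RH hE) f hf hfs hfe A hA1
    hA (ε / 2) (by positivity)
  filter_upwards [hb, eventually_ge_atTop (1 : ℝ)] with r hr hr1
  have hK : 2 * A * r + 1 ≤ ((⌈2 * A * r + 1⌉ : ℤ) : ℝ) := Int.le_ceil _
  have h1 := GLO.t_GLO hE hG zn zc hzr (gap_zn RH) f hf.continuous A hA1 hA r hr1 (ε / 2) (kap f)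
    (by positivity) _ hK (hr _ hK)
  filter_upwards [h1] with N hN
  linarith

/-- changing finitely many terms -/
lemma AC_congr {a a' : ℕ → ℝ} {n1 : ℕ} (ha : ∀ n, n1 < n → a n = a' n) {f : ℝ → ℝ} {A : ℝ}
    (hA : ∀ y, A ≤ |y| → f y = 0) {r : ℝ} (hr : 1 ≤ r) :
    Tendsto (fun N : ℕ => AC a f r N - AC a' f r N) atTop (𝓝 0) := by
  set B : ℕ := n1 + ⌈A * r⌉₊ with hB
  have hr0 : 0 < r := by linarith
  set g : ℕ → ℕ → ℝ := fun n m => (a n * a m - a' n * a' m) * (r * f (((m : ℝ) - n) / r)) with hg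
  have hzero : ∀ n m : ℕ, (B < n ∨ B < m) → g n m = 0 := by
    intro n m h
    simp only [hg]
    by_cases h2 : n1 < n ∧ n1 < m
    · rw [ha n h2.1, ha m h2.2, sub_self, zero_mul]
    · have h3 : A ≤ |((m : ℝ) - n) / r| := by
        rw [abs_div, abs_of_pos hr0, le_div_iff₀ hr0]
        have h4 : A * r ≤ (⌈A * r⌉₊ : ℝ) := Nat.le_ceil _
        rw [hB] at h
        rcases h with h | h
        · have h5 : m ≤ n1 := by omega
          have h6 : (m : ℝ) + ⌈A * r⌉₊ ≤ n := by exact_mod_cast (by omega)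
          rw [abs_sub_comm, abs_of_nonneg (by
            have : (0 : ℝ) ≤ (⌈A * r⌉₊ : ℝ) := Nat.cast_nonneg _
            linarith)]
          linarith
        · have h5 : n ≤ n1 := by omega
          have h6 : (n : ℝ) + ⌈A * r⌉₊ ≤ m := by exact_mod_cast (by omega)
          rw [abs_of_nonneg (by
            have : (0 : ℝ) ≤ (⌈A * r⌉₊ : ℝ) := Nat.cast_nonneg _
            linarith)]
          linarith
      rw [hA _ h3, mul_zero, mul_zero]
  set D : ℝ := ∑ n ∈ Finset.Icc 1 B, ∑ m ∈ Finset.Icc 1 B, g n m with hD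
  have hlim : Tendsto (fun N : ℕ => D / (N : ℝ)) atTop (𝓝 0) :=
    tendsto_const_nhds.div_atTop tendsto_natCast_atTop_atTop
  refine hlim.congr' ?_
  filter_upwards [eventually_ge_atTop B] with N hN
  have hsub : Finset.Icc 1 B ⊆ Finset.Icc 1 N := Finset.Icc_subset_Icc le_rfl hN
  have e1 : D = ∑ n ∈ Finset.Icc 1 N, ∑ m ∈ Finset.Icc 1 N, g n m := by
    rw [hD]
    have e2 : ∀ n, ∑ m ∈ Finset.Icc 1 B, g n m = ∑ m ∈ Finset.Icc 1 N, g n m := by
      intro n
      apply Finset.sum_subset hsub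
      intro m hm1 hm2
      apply hzero
      right
      rw [Finset.mem_Icc] at hm1 hm2
      omega
    rw [Finset.sum_congr rfl fun n _ => e2 n]
    apply Finset.sum_subset hsub
    intro n hn1 hn2
    apply Finset.sum_eq_zero
    intro m _
    apply hzero
    left
    rw [Finset.mem_Icc] at hn1 hn2
    omega
  rw [e1]
  unfold AC
  rw [← mul_sub, ← Finset.sum_sub_distrib, div_eq_inv_mul, one_div]
  congr 1
  refine Finset.sum_congr rfl fun n _ => ?_
  rw [← Finset.sum_sub_distrib]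
  refine Finset.sum_congr rfl fun m _ => ?_
  simp only [hg]
  ring

/-- **autocorrelations of the normalised gaps** -/
theorem ac_dlt (RH : RiemannHypothesis) (f : ℝ → ℝ) (hf : ContDiff ℝ 6 f) (hfs : HasCompactSupport f)
    (hfe : ∀ x, f (-x) = f x) (ε : ℝ) (hε : 0 < ε) :
    ∀ᶠ r : ℝ in atTop, ∀ᶠ N : ℕ in atTop, |AC (fun n => dlt n - 1) f r N - kap f| ≤ ε := by
  obtain ⟨A, hA1, hA⟩ := supp_A hfs
  filter_upwards [ac_zn RH f hf hfs hfe (ε / 2) (by positivity), eventually_ge_atTop (1 : ℝ)] with r hr hr1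
  have h1 := AC_congr (a := fun n => dlt n - 1) (a' := fun n => dl zn n - 1) (n1 := NZ 1)
    (fun n hn => by simp only [dl_big hn]) hA hr1
  have h2 := h1.abs
  rw [abs_zero] at h2
  filter_upwards [hr, h2.eventually (gt_mem_nhds (by positivity : 0 < ε / 2))] with N h3 h4
  have h5 : AC (fun n => dlt n - 1) f r N - kap f = (AC (fun n => dlt n - 1) f r N -
    AC (fun n => dl zn n - 1) f r N) + (AC (fun n => dl zn n - 1) f r N - kap f) := by ring
  rw [h5]
  refine (abs_add_le _ _).trans ?_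
  linarith

/-- **the periodogram of the normalised gaps** -/
theorem per_dlt (RH : RiemannHypothesis) (ε : ℝ) (hε : 0 < ε) :
    ∀ᶠ ω : ℝ in 𝓝[>] 0, ∀ᶠ N : ℕ in atTop, |Pe (fun n => dlt n - 1) ω N - ω ^ 2| ≤ ε * ω ^ 2 :=
  PER.t_PER SPEC.t_SPEC POS.t_POS MAJ.t_MAJ (fun n => dlt n - 1) (ac_dlt RH) ε hε

/-- the sample autocovariance -/
noncomputable def cvs (a : ℕ → ℝ) (N k : ℕ) : ℝ :=
  1 / (N : ℝ) * ∑ n ∈ Finset.Icc 1 (N - k), a n * a (n + k)

/-- even kernels -/
lemma AC_even (a : ℕ → ℝ) {f : ℝ → ℝ} (h0 : f 0 = 0) {r : ℝ} (hr : 0 < r) (N : ℕ) :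
    AC a (fun x => f |x|) r N = 2 * (r * ∑ k ∈ Finset.range N, f (k / r) * cvs a N k) := by
  classical
  set G : ℕ → ℕ → ℝ := fun n m => a n * a m * (r * f (|(m : ℝ) - n| / r)) with hG
  have hsym : ∀ n m, G n m = G m n := by
    intro n m
    simp only [hG]
    rw [abs_sub_comm]
    ring
  have hdiag : ∀ n, G n n = 0 := by
    intro n; simp [hG, h0]
  have e1 : AC a (fun x => f |x|) r N = 1 / (N : ℝ) * ∑ n ∈ Finset.Icc 1 N, ∑ m ∈ Finset.Icc 1 N, G n m := by
    unfold AC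
    congr 1
    refine Finset.sum_congr rfl fun n _ => Finset.sum_congr rfl fun m _ => ?_
    simp only [hG]
    rw [abs_div, abs_of_pos hr]
  -- split
  have e2 : ∑ n ∈ Finset.Icc 1 N, ∑ m ∈ Finset.Icc 1 N, G n m =
      2 * ∑ n ∈ Finset.Icc 1 N, ∑ m ∈ (Finset.Icc 1 N).filter (fun m => n < m), G n m := by
    have h1 : ∀ n ∈ Finset.Icc 1 N, ∑ m ∈ Finset.Icc 1 N, G n m =
        ∑ m ∈ (Finset.Icc 1 N).filter (fun m => n < m), G n m +
        ∑ m ∈ (Finset.Icc 1 N).filter (fun m => m < n), G n m := by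
      intro n hn
      rw [← Finset.sum_filter_add_sum_filter_not (Finset.Icc 1 N) (fun m => n < m)]
      congr 1
      symm
      apply Finset.sum_subset
      · intro m hm
        rw [Finset.mem_filter] at hm ⊢
        exact ⟨hm.1, by omega⟩
      · intro m hm1 hm2
        rw [Finset.mem_filter] at hm1 hm2
        have : m = n := by
          by_contra hne
          exact hm2 ⟨hm1.1, by omega⟩
        rw [this]
        exact hdiag n
    rw [Finset.sum_congr rfl h1, Finset.sum_add_distrib, two_mul]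
    congr 1
    simp only [Finset.sum_filter]
    rw [Finset.sum_comm]
    refine Finset.sum_congr rfl fun m _ => Finset.sum_congr rfl fun n _ => ?_
    rw [hsym n m]
  have e3 : ∑ n ∈ Finset.Icc 1 N, ∑ m ∈ (Finset.Icc 1 N).filter (fun m => n < m), G n m =
      ∑ k ∈ Finset.range N, ∑ n ∈ Finset.Icc 1 (N - k), G n (n + k) := by
    have e4 : ∑ k ∈ Finset.range N, ∑ n ∈ Finset.Icc 1 (N - k), G n (n + k) =
        ∑ k ∈ Finset.Ico 1 N, ∑ n ∈ Finset.Icc 1 (N - k), G n (n + k) := by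
      symm
      apply Finset.sum_subset
      · intro k hk
        rw [Finset.mem_Ico] at hk
        rw [Finset.mem_range]
        exact hk.2
      · intro k hk1 hk2
        rw [Finset.mem_range] at hk1
        rw [Finset.mem_Ico] at hk2
        have : k = 0 := by omega
        subst this
        exact Finset.sum_eq_zero fun n _ => hdiag n
    rw [e4, Finset.sum_sigma', Finset.sum_sigma']
    apply Finset.sum_bij' (fun (p : (_ : ℕ) × ℕ) _ => (⟨p.2 - p.1, p.1⟩ : (_ : ℕ) × ℕ))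
      (fun (p : (_ : ℕ) × ℕ) _ => (⟨p.2, p.2 + p.1⟩ : (_ : ℕ) × ℕ))
    · rintro ⟨n, m⟩ h
      simp only [Finset.mem_sigma, Finset.mem_filter, Finset.mem_Icc, Finset.mem_Ico] at h ⊢
      omega
    · rintro ⟨k, n⟩ h
      simp only [Finset.mem_sigma, Finset.mem_filter, Finset.mem_Icc, Finset.mem_Ico] at h ⊢
      omega
    · rintro ⟨n, m⟩ h
      simp only [Finset.mem_sigma, Finset.mem_filter, Finset.mem_Icc] at h
      have : n + (m - n) = m := by omega
      simp only [this]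
    · rintro ⟨k, n⟩ h
      have : n + k - n = k := by omega
      simp only [this]
    · rintro ⟨n, m⟩ h
      simp only [Finset.mem_sigma, Finset.mem_filter, Finset.mem_Icc] at h
      have : n + (m - n) = m := by omega
      simp only [this]
  rw [e1, e2, e3]
  have e5 : ∀ k ∈ Finset.range N, ∑ n ∈ Finset.Icc 1 (N - k), G n (n + k) =
      (r * f (k / r)) * ∑ n ∈ Finset.Icc 1 (N - k), a n * a (n + k) := by
    intro k _
    rw [Finset.mul_sum]
    refine Finset.sum_congr rfl fun n _ => ?_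
    simp only [hG]
    have : |((n + k : ℕ) : ℝ) - n| = k := by
      push_cast
      rw [add_sub_cancel_left, abs_of_nonneg (Nat.cast_nonneg _)]
    rw [this]
    ring
  rw [Finset.sum_congr rfl e5]
  unfold cvs
  simp only [Finset.mul_sum]
  refine Finset.sum_congr rfl fun k _ => Finset.sum_congr rfl fun n _ => ?_
  ring

/-- **the autocovariances of the normalised gaps** -/
theorem cov_dlt (RH : RiemannHypothesis) (f : ℝ → ℝ) (hf : ContDiff ℝ 6 f) (hfs : HasCompactSupport f)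
    (h0 : ∃ δ : ℝ, 0 < δ ∧ ∀ x, x ≤ δ → f x = 0) (ε : ℝ) (hε : 0 < ε) :
    ∀ᶠ r : ℝ in atTop, ∀ᶠ N : ℕ in atTop,
      |r * ∑ k ∈ Finset.range N, f (k / r) * cvs (fun n => dlt n - 1) N k +
        1 / (2 * Real.pi ^ 2) * ∫ x in Set.Ioi (0 : ℝ), f x / x ^ 2| ≤ ε := by
  obtain ⟨c1, c2, c3⟩ := COV.t_COV f hf hfs h0
  obtain ⟨δ, hδ, hz⟩ := h0
  have hf0 : f 0 = 0 := hz 0 hδ.le
  filter_upwards [ac_dlt RH (fun x => f |x|) c1 c2 (fun x => by rw [abs_neg]) (2 * ε) (by positivity),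
    eventually_gt_atTop (0 : ℝ)] with r hr hr0
  filter_upwards [hr] with N hN
  rw [AC_even _ hf0 hr0, c3] at hN
  have e : 2 * (r * ∑ k ∈ Finset.range N, f (k / r) * cvs (fun n => dlt n - 1) N k) -
      -(1 / Real.pi ^ 2) * ∫ x in Set.Ioi (0 : ℝ), f x / x ^ 2 =
      2 * (r * ∑ k ∈ Finset.range N, f (k / r) * cvs (fun n => dlt n - 1) N k +
        1 / (2 * Real.pi ^ 2) * ∫ x in Set.Ioi (0 : ℝ), f x / x ^ 2) := by
    have := Real.pi_pos
    field_simp
    ring
  rw [e, abs_mul, abs_of_pos (by norm_num : (0 : ℝ) < 2)] at hN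
  linarith

end Pool.Agent.H478.ON
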