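import Mathlib

/-! Statements of the project ON (1/f noise of the gaps of the zeta zeros): the parts over Mathlib. -/

namespace Pool.Agent.H478.ON

open Filter Topology MeasureTheory

/-- the cosine transform `∫ f(x) cos(ξ x) dx` -/
noncomputable def ct (f : ℝ → ℝ) (ξ : ℝ) : ℝ := ∫ x : ℝ, f x * Real.cos (ξ * x)

/-- `κ(f) = (1/2π²) ∫_0^∞ ξ f^(ξ) dξ` -/
noncomputable def kap (f : ℝ → ℝ) : ℝ :=
  1 / (2 * Real.pi ^ 2) * ∫ ξ in Set.Ioi (0 : ℝ), ξ * ct f ξ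

/-- the displacement of the `k`-th point after the `n`-th one -/
noncomputable def dd (x : ℤ → ℝ) (lam : ℝ) (k n : ℤ) : ℝ := lam * (x (n + k) - x n) - k

/-- the smoothed autocorrelation `(1/N) ∑_{n,m ≤ N} a_n a_m r f((m-n)/r)` -/
noncomputable def AC (a : ℕ → ℝ) (f : ℝ → ℝ) (r : ℝ) (N : ℕ) : ℝ :=
  1 / (N : ℝ) * ∑ n ∈ Finset.Icc 1 N, ∑ m ∈ Finset.Icc 1 N,
    a n * a m * (r * f (((m : ℝ) - n) / r))

/-- the trigonometric polynomial `∑_{n ≤ N} a_n e(n θ)` -/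
noncomputable def TP (a : ℕ → ℝ) (N : ℕ) (θ : ℝ) : ℂ :=
  ∑ n ∈ Finset.Icc 1 N, (a n : ℂ) * Complex.exp (2 * Real.pi * n * θ * Complex.I)

/-- the energy of the periodogram at the frequencies at most `ω` -/
noncomputable def Pe (a : ℕ → ℝ) (ω : ℝ) (N : ℕ) : ℝ :=
  1 / (N : ℝ) * ∫ θ in (-ω)..ω, ‖TP a N θ‖ ^ 2

/-- **TAY.** Taylor's formula with a global remainder for a `C³` function with compact support.
Proof. `f`, `f'`, `f''`, `f'''` are continuous with compact support, so bounded by some `F`.  For fixed `a` put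
`g(h) = f(a+h) - f(a) - f'(a) h - f''(a) h²/2`; `g(0) = g'(0) = g''(0) = 0` and `|g'''| ≤ F`, so `|g''(h)| ≤ F |h|`,
`|g'(h)| ≤ F h²`, `|g(h)| ≤ F |h|³` (mean value inequality three times, or
`taylor_mean_remainder_bound` for `h > 0` applied to `x ↦ f(a + x)` and to `x ↦ f(a - x)`). -/
def S_TAY : Prop := ∀ f : ℝ → ℝ, ContDiff ℝ 3 f → HasCompactSupport f → ∃ F : ℝ, 0 ≤ F ∧
  (∀ a, |f a| ≤ F) ∧ (∀ a, |deriv f a| ≤ F) ∧ (∀ a, |deriv (deriv f) a| ≤ F) ∧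
  ∀ a h : ℝ, |f (a + h) - f a - deriv f a * h - deriv (deriv f) a * h ^ 2 / 2| ≤ F * |h| ^ 3

/-- **EM.** Riemann sums of smooth functions with compact support.
Proof. Poisson summation (`Real.tsum_eq_tsum_fourier_of_rpow_decay` or the version
`Real.tsum_eq_tsum_fourierIntegral_of_rpow_decay`, or the one for Schwartz like decay) for `x ↦ f(x/r)`:
`∑_k f(k/r) = ∑_j r F(r j)`, `F(v) = ∫ f(x) e(-vx) dx`, and `|F(v)| ≤ C |v|^(-3)` by three integrations by parts, so the sum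
of the terms with `j ≠ 0` is at most `2 ζ(3) C r^(-2)`.  The sum over `k ∈ ℤ` is the finite sum since `f(k/r) = 0`
for `|k| > K`.  Elementary alternative: on each cell `[k/r, (k+1)/r]` Taylor's formula of order `4` gives
`∫ f = (f(k/r) + f((k+1)/r)) / (2r) - (f'((k+1)/r) - f'(k/r)) / (12 r²) + O(r^(-5))`; the sum over the `≪ r` cells meeting
the support telescopes: `∫ f = (1/r) ∑ f(k/r) + O(r^(-4))`. -/
def S_EM : Prop := ∀ f : ℝ → ℝ, ContDiff ℝ 6 f → HasCompactSupport f → ∃ C : ℝ, 0 ≤ C ∧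
  ∀ r : ℝ, 1 ≤ r → ∀ K : ℤ, (∀ k : ℤ, K < |k| → f (k / r) = 0) →
    |∑ k ∈ Finset.Icc (-K) K, f (k / r) - r * ∫ x, f x| ≤ C / r ^ 2

/-- **DET.** The deterministic identity between the autocorrelation of the gaps and the pair sum of a block of points.
Notation: `d k n = dd x lam k n`, `e n = d 1 n = lam (x(n+1) - x n) - 1`, `S = (M0, M1]`, `M = M1 - M0`,
`V k = ∑_{n ∈ S} (d k n)²`, `q k = r f(k/r)` (so `q k = 0` for `|k| ≥ A r`, in particular for `|k| > K`).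
Proof. (1) With `D m = lam x m - m` one has `d k n = D(n+k) - D n` and
`(a-b)(c-d) = ½[(a-d)² + (b-c)² - (a-c)² - (b-d)²]` gives
`e(n) e(n+k) = ½ [ (d (k+1) n)² + (d (k-1) (n+1))² - (d k (n+1))² - (d k n)² ]`.  Sum over `n ∈ S`; since
`∑_{n ∈ S} g(n+1) = ∑_{n ∈ S} g(n) + g(M1+1) - g(M0+1)`,
`∑_{n ∈ S} e(n) e(n+k) = ½ [V(k+1) + V(k-1) - 2 V(k)] + ½ b_k`, `|b_k| ≤` the summand of `bd`.
Multiply by `q k` and sum over `|k| ≤ K`; shifting the summation (`q` vanishes for `|k| > K`, all sums may be extended to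
`|k| ≤ K+1`): `AC = ½ ∑_{|k| ≤ K+1} V(k) [q(k+1) + q(k-1) - 2 q(k)] + O(½ r F bd)`.  By the Taylor hypothesis at `a = k/r`,
`h = ± 1/r`: `|q(k+1) + q(k-1) - 2q(k) - f''(k/r)/r| ≤ 2F/r²`.  So
`|AC - ½ ∑_{|k| ≤ K+1} V(k) f''(k/r)/r| ≤ F/r² m2 + r F bd`, and `f''(k/r) = 0` for `|k| ≥ K` (`f` vanishes near such points,
`K ≥ 2 A r + 1`), so the sum may be restricted to `|k| ≤ K`.
(2) For `|k| ≤ K`: `lam (x(n+k) - x n)/r = k/r + d/r`, Taylor's formula: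
`|f(k/r + d/r) - f(k/r) - f'(k/r) d/r - f''(k/r) d²/(2r²)| ≤ F |d|³/r³`.  For `K < |k| ≤ K0` the value of `f` is
at most `F` times the indicator in `ex`.  Sum over `n ∈ S` and `k`, multiply by `r`:
`|r PS - r M ∑_{|k| ≤ K} f(k/r) - ½ ∑_{|k| ≤ K} V(k) f''(k/r)/r| ≤ F fo + F/r² m3 + r F ex`.
(3) Subtract, use `|∑_{|k| ≤ K} f(k/r) - r ∫ f| = eu`, divide by `M`. -/
def S_DET : Prop := ∀ (f : ℝ → ℝ) (F A r : ℝ), 0 ≤ F → 1 ≤ A → 1 ≤ r → (∀ y, A ≤ |y| → f y = 0) →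
  (∀ a, |f a| ≤ F) → (∀ a, |deriv f a| ≤ F) →
  (∀ a h : ℝ, |f (a + h) - f a - deriv f a * h - deriv (deriv f) a * h ^ 2 / 2| ≤ F * |h| ^ 3) →
  ∀ (K K0 : ℤ), 2 * A * r + 1 ≤ K → K ≤ K0 → ∀ (x : ℤ → ℝ) (lam : ℝ), 0 < lam →
  ∀ M0 M1 : ℤ, M0 < M1 → ∀ (M PS AC m2 m3 ex fo bd eu : ℝ), M = M1 - M0 →
  PS = ∑ n ∈ Finset.Ioc M0 M1, ∑ k ∈ Finset.Icc (-K0) K0, f (lam * (x (n + k) - x n) / r) →
  AC = ∑ n ∈ Finset.Ioc M0 M1, ∑ k ∈ Finset.Icc (-K) K,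
    dd x lam 1 n * dd x lam 1 (n + k) * (r * f (k / r)) →
  m2 = ∑ k ∈ Finset.Icc (-(K + 1)) (K + 1), ∑ n ∈ Finset.Ioc M0 M1, dd x lam k n ^ 2 →
  m3 = ∑ k ∈ Finset.Icc (-(K + 1)) (K + 1), ∑ n ∈ Finset.Ioc M0 M1, |dd x lam k n| ^ 3 →
  ex = ∑ n ∈ Finset.Ioc M0 M1, ∑ k ∈ Finset.Icc (-K0) K0,
    (if K < |k| ∧ |lam * (x (n + k) - x n)| < A * r then 1 else 0) →
  fo = ∑ k ∈ Finset.Icc (-K) K, |∑ n ∈ Finset.Ioc M0 M1, dd x lam k n| →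
  bd = ∑ k ∈ Finset.Icc (-K) K, (dd x lam (k - 1) (M1 + 1) ^ 2 + dd x lam (k - 1) (M0 + 1) ^ 2 +
    dd x lam k (M1 + 1) ^ 2 + dd x lam k (M0 + 1) ^ 2) →
  eu = |∑ k ∈ Finset.Icc (-K) K, f (k / r) - r * ∫ x, f x| →
  |AC / M - r * (PS / M - r * ∫ x, f x)| ≤ r * eu + (F * fo + F / r ^ 2 * m3 + r * F * ex +
    F / r ^ 2 * m2 + r * F * bd) / M

/-- **DIAG.** From all slowly growing scales to fixed scales.
Proof. Suppose not: for some `ε > 0`, for every `R` there is `r ≥ R` with `|P r T - κ| > ε` for arbitrarily large `T`.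
Choose recursively `r_j ≥ j + 1` of this kind and `T_j ≥ T_(j-1) + 1`, `T_j ≥ exp((j+1) r_j)` (and `T_j ≥ j`) with
`|P r_j T_j - κ| > ε` (also `T_j ≥ exp((j+1) r_(j))` suffices for the second limit below).  Put `g(T) = r_j` for `T_j ≤ T < T_(j+1)` (`j ≥ 0`), `g(T) = r_0`
for `T < T_0`.  Then `g → ∞`, and for `T_j ≤ T < T_(j+1)`: `g(T)/log T ≤ r_j / log T_j ≤ 1/(j+1) → 0`.  By hypothesis
`P (g T) T → κ`, but at `T = T_j → ∞` the distance is `> ε`: contradiction. -/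
def S_DIAG : Prop := ∀ (P : ℝ → ℝ → ℝ) (κ : ℝ),
  (∀ g : ℝ → ℝ, Tendsto g atTop atTop → Tendsto (fun T => g T / Real.log T) atTop (𝓝 0) →
    Tendsto (fun T => P (g T) T) atTop (𝓝 κ)) →
  ∀ ε : ℝ, 0 < ε → ∀ᶠ r : ℝ in atTop, ∀ᶠ T : ℝ in atTop, |P r T - κ| ≤ ε

/-- **SPEC.** The autocorrelation is an integral against the periodogram.
Proof. `f` is `C⁶`, even, with compact support, so `F(v) = ct f (2 π v) = ∫ f(x) e(-vx) dx` is `O((1+|v|)^(-6))` and by Fourier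
inversion (Mathlib: `MeasureTheory.Integrable.fourierInv_fourier_eq` or its predecessor names) `f(x) = ∫ F(v) cos(2π v x) dv`
(`F` is even).  Hence `r f(k/r) = r ∫ F(v) cos(2π v k/r) dv = r² ∫ F(rθ) cos(2π k θ) dθ`.  Multiply by `a_n a_m`, `k = m - n`,
sum, and use `∑_{n,m} a_n a_m cos(2π (m-n) θ) = ‖TP a N θ‖²`. -/
def S_SPEC : Prop := ∀ f : ℝ → ℝ, ContDiff ℝ 6 f → HasCompactSupport f → (∀ x, f (-x) = f x) →
  ∀ (a : ℕ → ℝ) (r : ℝ), 0 < r → ∀ N : ℕ,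
    Integrable (fun θ : ℝ => r ^ 2 * ct f (2 * Real.pi * (r * θ)) * ‖TP a N θ‖ ^ 2) ∧
    AC a f r N = 1 / (N : ℝ) * ∫ θ : ℝ, r ^ 2 * ct f (2 * Real.pi * (r * θ)) * ‖TP a N θ‖ ^ 2

/-- **POS.** An even `C⁶` function with compact support whose transform is positive and comparable with `(1+ξ²)^(-4)`.
Proof. Let `Λ(x) = max(0, 1 - |x|) (1 + cos(π x))`, continuous, even, support `[-1, 1]`.  Its transform at `ξ = 2πv` is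
`W₁(v) = s(v)² + ½ s(v - ½)² + ½ s(v + ½)²`, `s(v) = sin(πv)/(πv)` (the transform of `max(0, 1-|x|)` is `s(v)²`;
multiplication by `cos(πx)` averages the shifts by `± ½`).  Since `sin²(πv) + sin²(π(v-½)) = 1`,
`c (1+v²)^(-1) ≤ W₁(v) ≤ C (1+v²)^(-1)` (lower bound: `s(v)² ≥ sin²(πv)/(π²(1+v²))`-like bounds for both terms, using
`|sin x| ≥`-free estimates `s(u)² ≥ sin²(πu) / (π² u²)`; near `v = 0` use continuity and positivity: `W₁ > 0` everywhere and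
`liminf v² W₁(v) ≥ 1/(2π²)`).  Let `w = Λ ⋆ Λ ⋆ Λ ⋆ Λ` (four factors, `MeasureTheory.convolution`): even, compact
support, transform `W₁⁴`, comparable with `(1+v²)^(-4)`; `w` is the inverse transform of `W₁⁴`, and `|v|^6 W₁⁴` is
integrable, so `w ∈ C⁶` (`Real.contDiff_fourier` / `contDiff_fourierIntegral`, with Fourier inversion).  Alternative: define
`w` as the inverse transform of `W₁⁴` and prove the compact support through the convolution. -/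
def S_POS : Prop := ∃ w : ℝ → ℝ, ContDiff ℝ 6 w ∧ HasCompactSupport w ∧ (∀ x, w (-x) = w x) ∧
  ∃ c C : ℝ, 0 < c ∧ ∀ ξ : ℝ, c / (1 + ξ ^ 2) ^ 4 ≤ ct w ξ ∧ ct w ξ ≤ C / (1 + ξ ^ 2) ^ 4

/-- **MAJ.** Majorants and minorants of the indicator function of `[-2π, 2π]` by transforms of `C⁶` functions with compact
support; the minorant up to `ε` times a given positive transform.
Proof. Let `w` be as in the hypothesis, `W = ct w`, `I = ∫ W > 0`, and for `Δ ≥ 1` let `W_Δ(s) = Δ W(Δ s) / I` (a probability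
density).  For a continuous even function `h ≥ 0` with compact support put `g(x) = (1/2π) ∫ h(η) cos(ηx) dη` (even,
`C^∞`) and `f(x) = g(x) w(x/Δ) · 2π / I`... precisely the constant for which `ct f = h ⋆ W_Δ`:
by Fourier inversion `w(y) = (1/2π) ∫ W(s) cos(s y) ds`, so `w(x/Δ) = (I/2π) ∫ W_Δ(s) cos(s x) ds`, and
`ct f (ξ) = ∫ h(η) W_Δ(ξ - η) dη` for `f(x) = (2π/I) g(x) w(x/Δ)` [transform of a product; all functions even].  `f` is `C⁶`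
with compact support and even.
Majorant: `h₊ = 1 + δ` on `[-2π-δ, 2π+δ]`, `0` off `[-2π-2δ, 2π+2δ]`, linear between.  `ct f₊ ≥ 0`; for `|ξ| ≤ 2π`:
`ct f₊(ξ) ≥ (1+δ) ∫_{|s| ≤ δ} W_Δ ≥ 1` for large `Δ`.  `∫_0^∞ ξ ct f₊ = ½ ∫ |ξ| ct f₊ ≤ ½ ∫ h₊(η) (|η| + ∫ |s| W_Δ(s) ds) dη`
`= ½ ∫ h₊ |η| + O(1/Δ)`, and `½ ∫ h₊|η| → (2π)²/2 = 2π²` as `δ → 0`.
Minorant: `h₋ = 1` on `[-2π+2δ, 2π-2δ]`, `0` off `[-2π+δ, 2π-δ]`, linear between; `0 ≤ ct f₋ ≤ 1`; for `|ξ| > 2π` the distance from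
`ξ` to the support of `h₋` is at least `|ξ| - 2π + δ`, so `ct f₋(ξ) ≤ ∫_{|s| ≥ |ξ|-2π+δ} W_Δ(s) ds ≤ C Δ^(-7) (|ξ|-2π+δ)^(-7)`
and also `≤ 4π sup_{|s| ≥ |ξ| - 2π+δ} W_Δ(s) ≤ C' Δ^(-7) (|ξ|-2π+δ)^(-8) ≤ C_δ Δ^(-7) (1+ξ²)^(-4) ≤ ε W(ξ)` for large `Δ`
(`W(ξ) ≥ c (1+ξ²)^(-4)`).  `½∫|ξ| ct f₋ ≥ ½ ∫ h₋(η)(|η| - ∫|s|W_Δ) dη → ½∫h₋|η|`, close to `2π²`. -/
def S_MAJ : Prop := ∀ w : ℝ → ℝ, ContDiff ℝ 6 w → HasCompactSupport w → (∀ x, w (-x) = w x) →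
  (∃ c C : ℝ, 0 < c ∧ ∀ ξ : ℝ, c / (1 + ξ ^ 2) ^ 4 ≤ ct w ξ ∧ ct w ξ ≤ C / (1 + ξ ^ 2) ^ 4) →
  ∀ ε : ℝ, 0 < ε →
  (∃ f : ℝ → ℝ, ContDiff ℝ 6 f ∧ HasCompactSupport f ∧ (∀ x, f (-x) = f x) ∧ (∀ ξ, 0 ≤ ct f ξ) ∧
    (∀ ξ, |ξ| ≤ 2 * Real.pi → 1 ≤ ct f ξ) ∧ kap f ≤ 1 + ε) ∧
  (∃ f : ℝ → ℝ, ContDiff ℝ 6 f ∧ HasCompactSupport f ∧ (∀ x, f (-x) = f x) ∧
    (∀ ξ, |ξ| ≤ 2 * Real.pi → ct f ξ ≤ 1) ∧
    (∀ ξ, 2 * Real.pi < |ξ| → ct f ξ ≤ ε * ct w ξ) ∧ 1 - ε ≤ kap f)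

/-- **PER.** From smooth autocorrelations to the periodogram.  uses S_SPEC, S_POS, S_MAJ
Proof. By SPEC, `AC a f r N = (1/N) ∫ r² F(rθ) ‖TP‖² dθ`, `F(v) = ct f (2πv)`.  Take `w` from POS, and
`f₊`, `f₋` from MAJ with `ε' = ε / (4 (kap w + 2))` or similar.  Since `F₊(rθ) ≥ 1` for `|θ| ≤ 1/r` and `≥ 0` everywhere:
`r² Pe a (1/r) N ≤ AC a f₊ r N ≤ kap f₊ + ε/2 ≤ 1 + ε` (for large `r`, then large `N`).  Since
`F₋(v) ≤ 1` for `|v| ≤ 1` and `≤ ε' W(2πv)` for `|v| > 1`, `W ≥ 0`: `AC a f₋ r N ≤ r² Pe a (1/r) N + ε' AC a w r N`, and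
`AC a w r N ≤ kap w + 1`, so `r² Pe ≥ kap f₋ - ε/4 - ε'(kap w + 1) ≥ 1 - ε`. -/
def S_PER : Prop := ∀ a : ℕ → ℝ,
  (∀ f : ℝ → ℝ, ContDiff ℝ 6 f → HasCompactSupport f → (∀ x, f (-x) = f x) → ∀ ε : ℝ, 0 < ε →
    ∀ᶠ r : ℝ in atTop, ∀ᶠ N : ℕ in atTop, |AC a f r N - kap f| ≤ ε) →
  ∀ ε : ℝ, 0 < ε → ∀ᶠ ω : ℝ in 𝓝[>] 0, ∀ᶠ N : ℕ in atTop, |Pe a ω N - ω ^ 2| ≤ ε * ω ^ 2

/-- **COV.** The constant `κ` of a function supported away from `0`.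
Proof. Let `fe(x) = f(|x|)`; it vanishes near `0`, so it is `C⁶`, even, with compact support, and
`ct fe (ξ) = O((1+ξ²)^(-2))` (integration by parts).  For `s > 0`, `x ≠ 0`:
`∫_0^∞ ξ e^(-sξ) cos(ξx) dξ = (s² - x²)/(s² + x²)²` (real part of `1/(s - ix)²`).  By Fubini
`∫_0^∞ ξ e^(-sξ) ct fe(ξ) dξ = ∫ fe(x) (s²-x²)/(s²+x²)² dx`.  Let `s → 0+`: dominated convergence on both sides (left:
`|ξ ct fe(ξ)|` integrable; right: `fe` bounded, supported in `δ ≤ |x| ≤ B`, where the factor is at most `δ^(-2)`) gives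
`∫_0^∞ ξ ct fe(ξ) dξ = -∫ fe(x)/x² dx = -2 ∫_0^∞ f(x)/x² dx`. -/
def S_COV : Prop := ∀ f : ℝ → ℝ, ContDiff ℝ 6 f → HasCompactSupport f →
  (∃ δ : ℝ, 0 < δ ∧ ∀ x, x ≤ δ → f x = 0) →
  ContDiff ℝ 6 (fun x => f |x|) ∧ HasCompactSupport (fun x => f |x|) ∧
  kap (fun x => f |x|) = -(1 / Real.pi ^ 2) * ∫ x in Set.Ioi (0 : ℝ), f x / x ^ 2

end Pool.Agent.H478.ON
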