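import Pool.Agent.H478.ON.Stm

/-! Statements of the project ON: sequences with the properties of the ordinates of the zeta zeros. Everything here is about an
abstract sequence, no number theory is needed. -/

namespace Pool.Agent.H478.ON

open Filter Topology MeasureTheory

/-- normalised gaps -/
noncomputable def dl (o : ℕ → ℝ) (n : ℕ) : ℝ :=
  (o (n + 1) * Real.log (o (n + 1)) - o n * Real.log (o n)) / (2 * Real.pi)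

/-- sums of `k` consecutive normalised gaps -/
noncomputable def Sk (o : ℕ → ℝ) (k n : ℕ) : ℝ := ∑ i ∈ Finset.range k, dl o (n + i)

/-- the sequence extended to all integers -/
noncomputable def xt (o : ℕ → ℝ) (n : ℤ) : ℝ := if 1 ≤ n then o n.toNat else (n : ℝ)

/-- the number of points of the block `(T, 2T]` -/
noncomputable def Mb (Z : ℝ → ℕ) (T : ℝ) : ℝ := (Z (2 * T) : ℝ) - Z T

/-- the density of the block -/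
noncomputable def lb (Z : ℝ → ℕ) (T : ℝ) : ℝ := Mb Z T / T

/-- the indices of the block -/
noncomputable def Bk (Z : ℝ → ℕ) (T : ℝ) : Finset ℤ := Finset.Ioc (Z T : ℤ) (Z (2 * T) : ℤ)

/-- the elementary properties of the ordinates `o` (`o n` for `n ≥ 1`) and of their counting function `Z` -/
structure Zr (o : ℕ → ℝ) (Z : ℝ → ℕ) : Prop where
  mono : ∀ m n : ℕ, 1 ≤ m → m ≤ n → o m ≤ o n
  one : 1 ≤ o 1
  iff : ∀ n : ℕ, 1 ≤ n → ∀ t : ℝ, o n ≤ t ↔ n ≤ Z t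
  lim : Tendsto (fun T : ℝ => (Z T : ℝ) / (T * Real.log T / (2 * Real.pi))) atTop (𝓝 1)
  gapb : ∃ C : ℝ, 0 ≤ C ∧ ∀ n : ℕ, 1 ≤ n → o (n + 1) - o n ≤ C

/-- uniform bound for the number of long gaps -/
def Gap (o : ℕ → ℝ) : Prop := ∃ c y0 : ℝ, 0 < c ∧ 1 < y0 ∧ ∀ N : ℕ, 1 ≤ N → ∀ y : ℝ, y0 ≤ y →
  (({n : ℕ | 1 ≤ n ∧ n ≤ N ∧ y ≤ dl o n}.ncard : ℕ) : ℝ) ≤ N * Real.exp (-c * y * Real.log y)

/-- large deviations of sums of consecutive gaps -/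
def Dev (o : ℕ → ℝ) : Prop := ∀ A : ℝ, 0 < A → ∀ᶠ k : ℕ in atTop, ∀ᶠ N : ℕ in atTop,
  (({n : ℕ | 1 ≤ n ∧ n ≤ N ∧ (k : ℝ) ^ (1 / 8 : ℝ) ≤ |Sk o k n - k|}.ncard : ℕ) : ℝ) ≤
    (k : ℝ) ^ (-A) * N

/-- second moments of the number of neighbours -/
def Clu (o : ℕ → ℝ) (Z : ℝ → ℕ) : Prop := ∃ C : ℝ, 0 ≤ C ∧ ∀ X : ℝ, 1 ≤ X → ∀ᶠ T : ℝ in atTop,
  ∀ K0 : ℤ, ∑ n ∈ Bk Z T, (∑ k ∈ Finset.Icc (-K0) K0,
    (if |lb Z T * (xt o (n + k) - xt o n)| < X then (1 : ℝ) else 0)) ^ 2 ≤ C * X ^ 8 * Mb Z T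

/-- pair correlation in blocks: `r (PS / M - r ∫ f) → κ(f)` at fixed scales, with `PS` the sum over `n` in the block and all
neighbours (`K0` large) -/
def PC (o : ℕ → ℝ) (Z : ℝ → ℕ) : Prop := ∀ f : ℝ → ℝ, ContDiff ℝ 6 f → HasCompactSupport f →
  (∀ x, f (-x) = f x) → ∀ ε : ℝ, 0 < ε → ∀ᶠ r : ℝ in atTop, ∀ᶠ T : ℝ in atTop, ∀ᶠ K0 : ℤ in atTop,
  |r * ((∑ n ∈ Bk Z T, ∑ k ∈ Finset.Icc (-K0) K0, f (lb Z T * (xt o (n + k) - xt o n) / r)) / Mb Z T -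
    r * ∫ x, f x) - kap f| ≤ ε

/-- the block autocorrelation of the gaps -/
noncomputable def ACb (o : ℕ → ℝ) (Z : ℝ → ℕ) (f : ℝ → ℝ) (r : ℝ) (K : ℤ) (T : ℝ) : ℝ :=
  ∑ n ∈ Bk Z T, ∑ k ∈ Finset.Icc (-K) K, (dl o n.toNat - 1) * (dl o (n + k).toNat - 1) * (r * f (k / r))

/-- **ELM.** Elementary consequences of the counting function.
Proof. `Z T ~ T log T / 2π`, so `Mb Z T ~ T log T / 2π`, `lb Z T ~ log T / 2π`, `Z (2T) ≤ 3 Mb Z T` for large `T`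
(`Z(2T) ~ 2T log(2T)/2π`, ratio `→ 2`).  For `n ∈ (Z T, Z 2T]`: `T < o n ≤ 2T` (`iff`), and by `gapb`
`T - (2k+1)C ≤ o (n ± j) ≤ 2T + (2k+1)C` for `0 ≤ j ≤ 2k` (`k` fixed, `T` large; the point with index `Z T` is `≤ T` and the next one is `> T`, the
gap is `≤ C`, so `o (Z T - j) ≥ T - (j+1) C`).  For `a < b` in this range `b log b - a log a = ∫_a^b (log t + 1) dt` lies between
`(log (T/2) + 1)(b-a)` and `(log (3T) + 1)(b-a)`, and `(log(cT) + 1)/(2π) / lb Z T → 1`.  This gives the last statement with any `η > 0`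
(for negative `k` apply it with `n + k` in place of `n`; `Sk o j m = (o(m+j) log o(m+j) - o m log o m)/2π` telescopes). -/
def S_ELM : Prop := ∀ (o : ℕ → ℝ) (Z : ℝ → ℕ), Zr o Z →
  (∀ᶠ T : ℝ in atTop, 1 ≤ Mb Z T ∧ 0 < lb Z T ∧ (Z (2 * T) : ℝ) ≤ 3 * Mb Z T ∧ lb Z T ≤ Real.log T) ∧
  Tendsto (fun T => lb Z T / (Real.log T / (2 * Real.pi))) atTop (𝓝 1) ∧
  (∀ k : ℕ, ∀ η : ℝ, 0 < η → ∀ᶠ T : ℝ in atTop, ∀ m : ℕ, (Z T : ℤ) - k ≤ m → (m : ℤ) ≤ Z (2 * T) + k →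
    1 ≤ m ∧ T / 2 ≤ o m ∧ o m ≤ 3 * T ∧ ∀ j : ℕ, j ≤ k → 0 ≤ Sk o j m ∧
    |lb Z T * (o (m + j) - o m) - Sk o j m| ≤ η * Sk o j m)

/-- **GM6.** Sixth moments of sums of gaps.
Proof. By `Gap` and `dl o n ≥ 0` for `n ≥ 1` (`t log t` increases for `t ≥ 1`): with `y_j = y0 2^j`,
`∑_{n ≤ N} dl^6 ≤ y0^6 N + ∑_j (2 y_j)^6 N exp(-c y_j log y_j) = C N`.  Then `(Sk o k n)^6 ≤ k^5 ∑_{i<k} dl(n+i)^6` (power mean) and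
`∑_{n ≤ N} dl(n+i)^6 ≤ C (N+k)`. -/
def S_GM6 : Prop := ∀ (o : ℕ → ℝ) (Z : ℝ → ℕ), Zr o Z → Gap o → ∃ C : ℝ, 0 ≤ C ∧ ∀ k N : ℕ,
  (∀ n : ℕ, 1 ≤ n → 0 ≤ dl o n) ∧
  ∑ n ∈ Finset.Icc 1 N, Sk o k n ^ 6 ≤ C * (k : ℝ) ^ 6 * (N + k)

/-- **ZM.** Third moments of the displacements in blocks.  uses S_ELM, S_GM6
Proof. Let `k ≥ 1` first.  For `n ∈ (Z T, Z 2T]`, `dd (xt o) λ k n = λ (o(n+k) - o n) - k`, so by ELM
`|dd| ≤ |Sk o k n - k| + η Sk o k n`, `|dd|³ ≤ 4 |Sk - k|³ + 4 η³ Sk³`; by GM6 (and `Sk³ ≤ 1 + Sk^6`) the mean of the second term is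
`≤ 4 η³ (1 + 3·2 C k^6) ≤ 1` for `η` small in terms of `k`.  First term: `|Sk - k|³ ≤ k^(3/8) + |Sk - k|³ 1[|Sk-k| ≥ k^(1/8)]`
and by Cauchy-Schwarz `∑_{n ≤ N} |Sk-k|³ 1[..] ≤ (∑ (Sk-k)^6)^(1/2) (#{..})^(1/2) ≤ (64 (C k^6 + k^6) (N+k))^(1/2) (k^(-20) N)^(1/2) ≤ C' N`
for `k ≥ k0` (Dev with `A = 20`), `N` large; with `N = Z(2T) ≤ 3 Mb`.  For `1 ≤ k < k0` use the crude bound
`∑ |Sk-k|³ ≤ ∑ (8 + ...)(Sk^6 + k^6 + 1) ≤ C'' N`.  For negative `k`: `dd x λ k n = - dd x λ (-k) (n + k)`, so the sum over the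
block is the sum of `|dd x λ |k| m|³` over the shifted block `m ∈ (Z T - |k|, Z 2T - |k|]`, to which the same argument applies (ELM
covers these `m`; all of them are `≤ Z(2T)` and `≥ 1`).  `k = 0`: `dd = 0`. -/
def S_ZM : Prop := ∀ (o : ℕ → ℝ) (Z : ℝ → ℕ), Zr o Z → Gap o → Dev o → ∃ C : ℝ, 0 ≤ C ∧
  ∀ k : ℤ, ∀ᶠ T : ℝ in atTop,
    ∑ n ∈ Bk Z T, |dd (xt o) (lb Z T) k n| ^ 3 ≤ C * Real.sqrt (1 + |(k : ℝ)|) * Mb Z T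

/-- **ZX.** Few points have far too many neighbours.  uses S_ELM
Proof. Let `X = A r ≥ 1`, `k0 = ⌈2X⌉ + 1`.  If `|k| > K ≥ 2 A r + 1` and `|λ(x(n+k) - x n)| < X`, then by monotonicity of `xt o` (near the
block; `k ↦ xt o (n+k)` is nondecreasing) also `|λ(x(n ± k0) - x n)| < X`, with the sign of `k` and `k0 ≤ K + 1 ≤ |k|`.
So `ex ≤ ∑_{n ∈ Bk} 1[b_n] ν_n`, `ν_n = #{|k| ≤ K0 : |λ(x(n+k)-x n)| < X}`, `b_n`: `λ(x(n+k0) - x n) < X` or `λ(x n - x(n-k0)) < X`.  In the first case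
`Sk o k0 n ≤ (1 + 2η) X ≤ 3k0/4` (ELM with `η` small, for large `T`), so `|Sk o k0 n - k0| ≥ k0/4 ≥ k0^(1/8)` for large `r`; in the second case the same for
`n - k0 ≥ 1` in place of `n`.  By Dev (exponent `A' = 20`) the number of such `n ∈ Bk` is at most `2 k0^(-20) Z(2T) ≤ 6 k0^(-20) Mb`.
Cauchy-Schwarz with `Clu`: `ex ≤ (6 k0^(-20) Mb)^(1/2) (C X^8 Mb)^(1/2) ≤ C' X^(-6) Mb`, and `r X^(-6) → 0`. -/
def S_ZX : Prop := ∀ (o : ℕ → ℝ) (Z : ℝ → ℕ), Zr o Z → Dev o → Clu o Z → ∀ A : ℝ, 1 ≤ A →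
  ∀ ε : ℝ, 0 < ε → ∀ᶠ r : ℝ in atTop, ∀ K : ℤ, 2 * A * r + 1 ≤ K → ∀ᶠ T : ℝ in atTop, ∀ K0 : ℤ,
    r * ∑ n ∈ Bk Z T, ∑ k ∈ Finset.Icc (-K0) K0,
      (if K < |k| ∧ |lb Z T * (xt o (n + k) - xt o n)| < A * r then (1 : ℝ) else 0) ≤ ε * Mb Z T

/-- **ZF.** The mean displacement and the boundary terms.  uses S_ELM
Proof. (1) `k ≥ 0`: `∑_{n ∈ (Z T, Z 2T]} (x(n+k) - x n) = ∑_{j=1}^k (x(Z 2T + j) - x(Z T + j))` (telescoping) and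
`|x(Z 2T + j) - 2T| ≤ j C`, `|x(Z T + j) - T| ≤ j C` (`iff`, `gapb`), so the sum is `k T + O(k² C)`; multiply by `λ = Mb/T`:
`∑ dd = O(k² C λ)`, and `λ / Mb = 1/T → 0`.  Negative `k` in the same way.  (2) For `m = Z T + 1` or `Z(2T) + 1`:
`|dd x λ k m| ≤ λ |k| C + |k| ≤ 2 |k| (C+1) (1 + log T)`, and `log² T / Mb → 0`. -/
def S_ZF : Prop := ∀ (o : ℕ → ℝ) (Z : ℝ → ℕ), Zr o Z → ∀ k : ℤ, ∀ ε : ℝ, 0 < ε → ∀ᶠ T : ℝ in atTop,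
  |∑ n ∈ Bk Z T, dd (xt o) (lb Z T) k n| ≤ ε * Mb Z T ∧
  dd (xt o) (lb Z T) k ((Z T : ℤ) + 1) ^ 2 ≤ ε * Mb Z T ∧
  dd (xt o) (lb Z T) k ((Z (2 * T) : ℤ) + 1) ^ 2 ≤ ε * Mb Z T

/-- **ZA.** The normalised gaps against the gaps scaled by the density of the block.  uses S_ELM, S_GM6
Proof. `k` fixed.  For `m` with `Z T - |k| ≤ m ≤ Z 2T + |k|`: `dd (xt o) λ 1 m = λ (o(m+1) - o m) - 1`, and by ELM (applied with `|k| + 1` in place of its `k`, and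
`j = 1`, `dl o m = Sk o 1 m`) `|λ (o(m+1)-o m) - dl o m| ≤ η dl o m`.  So
`|dd 1 n · dd 1 (n+k) - (dl n - 1)(dl (n+k) - 1)| ≤ η (1+η) (1 + dl n + dl n dl (n+k) + dl(n+k) + ...) ≤ 4 η (1 + dl n² + dl(n+k)²)`,
the mean of which over the block is `≤ C η` by GM6 with `k = 1` (`dl² ≤ 1 + dl^6`), for every `η > 0`. -/
def S_ZA : Prop := ∀ (o : ℕ → ℝ) (Z : ℝ → ℕ), Zr o Z → Gap o → ∀ k : ℤ, ∀ ε : ℝ, 0 < ε →
  ∀ᶠ T : ℝ in atTop,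
    ∑ n ∈ Bk Z T, |dd (xt o) (lb Z T) 1 n * dd (xt o) (lb Z T) 1 (n + k) -
      (dl o n.toNat - 1) * (dl o (n + k).toNat - 1)| ≤ ε * Mb Z T

/-- **BLO.** The autocorrelation of the gaps in blocks.  uses S_TAY, S_EM, S_DET, S_ELM, S_ZM, S_ZX, S_ZF, S_ZA
Proof. `f` vanishes off `[-A, A]`, `F` from TAY, `K = ⌈2 A r⌉ + 1`; apply DET with `x = xt o`, `λ = lb Z T`, `M0 = Z T`, `M1 = Z 2T`,
`M = Mb Z T` and `K0` large (the `K0` of `PC`).  `r eu ≤ C/r` (EM); `F fo / M ≤ ε` (ZF, finitely many `k`); by ZM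
`F r^(-2) m3/M ≤ F r^(-2) ∑_{|k| ≤ K+1} C (1+|k|)^(1/2) ≤ C' r^(-1/2)`; `m2 ≤ ∑∑ (1 + |dd|³)`, so
`F r^(-2) m2 / M ≤ C' r^(-1/2)` as well; `r F ex/M ≤ ε` (ZX); `r F bd/M ≤ ε` (ZF).  So
`|AC/M - r (PS/M - r∫f)| ≤ 4ε` for `r` large, then `T` large, then `K0` large; combine with `PC`, and replace the product of the
displacements by the normalised gaps by ZA (finitely many `k`, `|r f(k/r)| ≤ r F`). For a given larger `K` (the statement allows any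
`K ≥ 2 A r + 1`) nothing changes since `f(k/r) = 0` for the additional `k`. -/
def S_BLO : Prop := ∀ (o : ℕ → ℝ) (Z : ℝ → ℕ), Zr o Z → Gap o → Dev o → Clu o Z → PC o Z →
  ∀ f : ℝ → ℝ, ContDiff ℝ 6 f → HasCompactSupport f → (∀ x, f (-x) = f x) →
  ∀ A : ℝ, 1 ≤ A → (∀ y, A ≤ |y| → f y = 0) → ∀ ε : ℝ, 0 < ε →
  ∀ᶠ r : ℝ in atTop, ∀ K : ℤ, 2 * A * r + 1 ≤ K → ∀ᶠ T : ℝ in atTop,
    |ACb o Z f r K T - kap f * Mb Z T| ≤ ε * Mb Z T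

/-- **GLO.** From blocks to all indices.  uses S_ELM, S_GM6
Proof. Fix `f`, `r`, `A` with `f = 0` off `[-A, A]`, `K = ⌈2Ar⌉ + 1`, `q(k) = r f(k/r)`.  Put `G(n) = ∑_{|k| ≤ K} (dl n - 1)(dl (n+k) - 1) q(k) - κ` for `n > K`.
By hypothesis `|∑_{Z T < n ≤ Z 2T} G(n)| ≤ ε Mb Z T` for `T ≥ T0`, so for `y ≥ T0`, halving (`y, y/2, ...` until below `2 T0`)
`|∑_{K < n ≤ Z y} G(n)| ≤ C(T0) + ε Z(y)`.  Given `N`: for `ι > 0` small take `y = (1-ι) o N`, then `Z y ≤ N` and `N - Z y ≤ 3 ι N` for large `N` (`lim`), and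
`∑_{Z y < n ≤ N} |G(n)| ≤ C_r ∑_{Z y < n ≤ N} (1 + S(n))`, `S(n) = ∑_{|k| ≤ K} (dl n² + dl(n+k)²)`, by Cauchy-Schwarz and GM6 at most
`C_r (3ιN)^(1/2) (C N)^(1/2) ≤ ε N` for small `ι`.  Finally
`∑_{n,m ≤ N} a_n a_m r f((m-n)/r)`, `a = dl - 1`, differs from `∑_{K < n ≤ N} ∑_{|k| ≤ K} a_n a_(n+k) q(k)` by the terms with `n ≤ K` or with `m = n + k > N`:
at most `C_r N^(1/3) K²`-many/size by `|a_n| ≤ C n^(1/6)`: divided by `N` it tends to `0`. -/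
def S_GLO : Prop := ∀ (o : ℕ → ℝ) (Z : ℝ → ℕ), Zr o Z → Gap o →
  ∀ f : ℝ → ℝ, Continuous f → ∀ A : ℝ, 1 ≤ A → (∀ y, A ≤ |y| → f y = 0) → ∀ r : ℝ, 1 ≤ r →
  ∀ ε κ : ℝ, 0 < ε → ∀ K : ℤ, 2 * A * r + 1 ≤ K →
  (∀ᶠ T : ℝ in atTop, |ACb o Z f r K T - κ * Mb Z T| ≤ ε * Mb Z T) →
  ∀ᶠ N : ℕ in atTop, |AC (fun n => dl o n - 1) f r N - κ| ≤ 2 * ε

end Pool.Agent.H478.ON
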