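import Pool.Agent.H478.ON.Stm2
import Pool.Agent.H478.LD10

/-! The ordinates of the zeta zeros: counting, long gaps, large deviations. -/

open Finset MeasureTheory Filter Topology

namespace Pool.Agent.H478.ON

open SG (ord NZ zmult ZS)
open TH800.MS (dlt)

/-- the ordinates, at least `1` -/
noncomputable def zn (n : ℕ) : ℝ := max (ord n) 1

/-- the counting function -/
noncomputable def zc (t : ℝ) : ℕ := if 1 ≤ t then NZ t else 0

lemma zc_eq {t : ℝ} (ht : 1 ≤ t) : zc t = NZ t := if_pos ht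

lemma zn_big {n : ℕ} (h : NZ 1 < n) : zn n = ord n := by
  unfold zn
  apply max_eq_left
  by_contra hc
  have := (SG.ord_le_iff (by omega : 1 ≤ n) 1).1 (not_le.1 hc).le
  omega

lemma dl_big {n : ℕ} (h : NZ 1 < n) : dl zn n = dlt n := by
  unfold dl TH800.MS.dlt
  rw [zn_big h, zn_big (by omega : NZ 1 < n + 1)]

lemma Sk_big {n : ℕ} (k : ℕ) (h : NZ 1 < n) : Sk zn k n = ∑ i ∈ Finset.range k, dlt (n + i) := by
  unfold Sk
  exact Finset.sum_congr rfl fun i _ => dl_big (by omega)

/-- dyadic summation, second form -/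
lemma dyadic2 {f : ℝ → ℝ} {T0 a M : ℝ} (hT0 : 1 ≤ T0) (ha : 0 ≤ a)
    (hf : ∀ T, T0 ≤ T → |f (2 * T) - f T| ≤ a * (T * Real.log T))
    (hM : ∀ x, T0 ≤ x → x ≤ 2 * T0 → |f x| ≤ M) :
    ∀ x, T0 ≤ x → |f x| ≤ M + a * (x * Real.log x) := CW.dyadic hT0 ha hf hM

lemma NN_NZ {T : ℝ} (hT : 1 ≤ T) : (H370.NN riemannZeta T (2 * T) : ℝ) = NZ (2 * T) - NZ T := by
  classical
  have hfin := H370.zset_finite H370.good_zeta T (2 * T) hT
  have e : H370.NN riemannZeta T (2 * T) = ∑ s ∈ hfin.toFinset, H370.mult riemannZeta s := by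
    unfold H370.NN
    exact finsum_mem_eq_finite_toFinset_sum _ hfin
  have h1 : NZ T + ∑ s ∈ hfin.toFinset, zmult s = NZ (2 * T) := by
    rw [SG.NZ_eq, SG.NZ_eq, ← Finset.sum_union]
    · apply Finset.sum_congr _ fun _ _ => rfl
      ext s
      simp only [Finset.mem_union, Set.Finite.mem_toFinset]
      constructor
      · rintro (h | h)
        · exact ⟨h.1, h.2.1, h.2.2.1, h.2.2.2.1, by linarith [h.2.2.2.2]⟩
        · obtain ⟨a1, a2, a3, a4, a5⟩ := h
          exact ⟨a5, a1, a2, by linarith, a4⟩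
      · rintro ⟨a1, a2, a3, a4, a5⟩
        by_cases h : s.im ≤ T
        · left; exact ⟨a1, a2, a3, a4, h⟩
        · right; exact ⟨a2, a3, not_le.1 h, a5, a1⟩
    · rw [Finset.disjoint_left]
      intro s h1 h2
      rw [Set.Finite.mem_toFinset] at h1 h2
      obtain ⟨a1, a2, a3, a4, a5⟩ := h2
      have := h1.2.2.2.2
      linarith
  have h2 : (H370.NN riemannZeta T (2 * T)) = ∑ s ∈ hfin.toFinset, zmult s := e
  rw [h2]
  have : (NZ (2 * T) : ℝ) = NZ T + ((∑ s ∈ hfin.toFinset, zmult s : ℕ) : ℝ) := by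
    exact_mod_cast h1.symm
  linarith

/-- `N(T) ~ (T/2π) log T` -/
lemma NZ_lim : Tendsto (fun T : ℝ => (NZ T : ℝ) / (T * Real.log T / (2 * Real.pi))) atTop (𝓝 1) := by
  obtain ⟨C, T1, hC, hT1, h⟩ := H370.nn_asymp H370.good_zeta
  have hpi := Real.pi_pos
  have hpi3 := Real.pi_gt_three
  rw [Metric.tendsto_atTop]
  intro ε hε
  set f : ℝ → ℝ := fun T => (NZ T : ℝ) - T * Real.log T / (2 * Real.pi) with hf
  set a : ℝ := ε / (4 * Real.pi) / 2 with ha
  have ha0 : 0 < a := by positivity
  -- the step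
  obtain ⟨T2, hT2⟩ := eventually_atTop.1
    (Real.tendsto_log_atTop.eventually_ge_atTop ((C + Real.log 2 / Real.pi) / a))
  set T0 := max (max T1 T2) 10 with hT0
  have hT010 : 10 ≤ T0 := le_max_right _ _
  have hstep : ∀ T, T0 ≤ T → |f (2 * T) - f T| ≤ a * (T * Real.log T) := by
    intro T hT
    have h10 : 10 ≤ T := hT010.trans hT
    have hTp : 0 < T := by linarith
    have hTT1 : T1 ≤ T := ((le_max_left _ _).trans (le_max_left _ _)).trans hT
    have hTT2 : T2 ≤ T := ((le_max_right _ _).trans (le_max_left _ _)).trans hT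
    have h1 := h T hTT1 T (2 * T) le_rfl (by linarith) (by linarith) le_rfl
    rw [NN_NZ (by linarith)] at h1
    have h2 : Real.log (2 * T) = Real.log 2 + Real.log T := Real.log_mul (by norm_num) hTp.ne'
    have e : f (2 * T) - f T = ((NZ (2 * T) : ℝ) - NZ T - T * Real.log T / (2 * Real.pi)) -
        T * (Real.log 2 / Real.pi) := by
      simp only [hf]
      rw [h2]
      field_simp
      ring
    rw [e]
    have h3 : 0 ≤ T * (Real.log 2 / Real.pi) := by
      have := Real.log_nonneg (by norm_num : (1 : ℝ) ≤ 2)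
      positivity
    have h4 := hT2 T hTT2
    rw [div_le_iff₀ ha0] at h4
    calc |_ - T * (Real.log 2 / Real.pi)| ≤ |(NZ (2 * T) : ℝ) - NZ T - T * Real.log T / (2 * Real.pi)| +
          |T * (Real.log 2 / Real.pi)| := abs_sub _ _
      _ ≤ C * T + T * (Real.log 2 / Real.pi) := by rw [abs_of_nonneg h3]; gcongr
      _ = T * (C + Real.log 2 / Real.pi) := by ring
      _ ≤ T * (Real.log T * a) := by gcongr
      _ = _ := by ring
  have hbd : ∀ x, T0 ≤ x → x ≤ 2 * T0 → |f x| ≤ NZ (2 * T0) + 2 * T0 * Real.log (2 * T0) := by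
    intro x h1 h2
    have hx0 : 0 < x := by linarith
    have h3 : (NZ x : ℝ) ≤ NZ (2 * T0) := by exact_mod_cast SG.NZ_mono h2
    have h4 : 0 ≤ Real.log x := Real.log_nonneg (by linarith)
    have h5 : Real.log x ≤ Real.log (2 * T0) := Real.log_le_log hx0 h2
    have h6 : 0 ≤ x * Real.log x / (2 * Real.pi) := by positivity
    have h7 : x * Real.log x / (2 * Real.pi) ≤ 2 * T0 * Real.log (2 * T0) := by
      rw [div_le_iff₀ (by positivity)]
      have h8 : x * Real.log x ≤ 2 * T0 * Real.log (2 * T0) := by gcongr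
      have h9 : 0 ≤ 2 * T0 * Real.log (2 * T0) := by
        have := Real.log_nonneg (by linarith : 1 ≤ 2 * T0)
        positivity
      nlinarith
    simp only [hf]
    have h10 : (0 : ℝ) ≤ NZ x := Nat.cast_nonneg _
    rw [abs_le]
    constructor
    · have : (0 : ℝ) ≤ NZ (2 * T0) := Nat.cast_nonneg _
      linarith
    · have : 0 ≤ 2 * T0 * Real.log (2 * T0) := h6.trans h7
      linarith
  have hall := dyadic2 (by linarith : 1 ≤ T0) ha0.le hstep hbd
  set M := (NZ (2 * T0) : ℝ) + 2 * T0 * Real.log (2 * T0) with hM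
  have hM0 : 0 ≤ M := (abs_nonneg _).trans (hbd T0 le_rfl (by linarith))
  have hgrow : Tendsto (fun T : ℝ => a * (T * Real.log T)) atTop atTop :=
    (tendsto_id.atTop_mul_atTop₀ Real.tendsto_log_atTop).const_mul_atTop ha0
  obtain ⟨T3, hT3⟩ := eventually_atTop.1 (hgrow.eventually_gt_atTop M)
  refine ⟨max T0 T3, fun T hT => ?_⟩
  have h1 := hall T ((le_max_left _ _).trans hT)
  have h2 := hT3 T ((le_max_right _ _).trans hT)
  have h10 : 10 ≤ T := hT010.trans ((le_max_left _ _).trans hT)
  have hL : 0 < Real.log T := Real.log_pos (by linarith)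
  have hTL : 0 < T * Real.log T := by positivity
  have hD : 0 < T * Real.log T / (2 * Real.pi) := by positivity
  rw [Real.dist_eq]
  have e : (NZ T : ℝ) / (T * Real.log T / (2 * Real.pi)) - 1 = f T / (T * Real.log T / (2 * Real.pi)) := by
    simp only [hf]
    field_simp
  rw [e, abs_div, abs_of_pos hD, div_lt_iff₀ hD]
  calc |f T| ≤ M + a * (T * Real.log T) := h1
    _ < a * (T * Real.log T) + a * (T * Real.log T) := by linarith
    _ = ε * (T * Real.log T / (2 * Real.pi)) / 2 := by rw [ha]; field_simp; ring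
    _ ≤ _ := by
      have : 0 < ε * (T * Real.log T / (2 * Real.pi)) := by positivity
      linarith

/-- long gaps -/
theorem gap_zn (RH : RiemannHypothesis) : Gap zn := by
  obtain ⟨c, y0, hc, hy0, h⟩ := LG.gap_uniform (CW.rhs_of RH)
  set B : ℝ := ∑ n ∈ Finset.range (NZ 1 + 1), |dl zn n| with hB
  have hB0 : 0 ≤ B := Finset.sum_nonneg fun _ _ => abs_nonneg _
  refine ⟨c, y0 + B, hc, by linarith, fun N hN y hy => ?_⟩
  have hy' : y0 ≤ y := by linarith
  refine le_trans ?_ (h N hN y hy')
  have hfin : {n : ℕ | 1 ≤ n ∧ n ≤ N ∧ y ≤ dlt n}.Finite :=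
    (Set.finite_le_nat N).subset fun k hk => hk.2.1
  have hsub : {n : ℕ | 1 ≤ n ∧ n ≤ N ∧ y ≤ dl zn n} ⊆ {n : ℕ | 1 ≤ n ∧ n ≤ N ∧ y ≤ dlt n} := by
    rintro n ⟨h1, h2, h3⟩
    by_cases hn : NZ 1 < n
    · rw [dl_big hn] at h3
      exact ⟨h1, h2, h3⟩
    · exfalso
      have h4 : |dl zn n| ≤ B := Finset.single_le_sum (f := fun n => |dl zn n|)
        (fun _ _ => abs_nonneg _) (Finset.mem_range.2 (by omega))
      have h5 := le_abs_self (dl zn n)
      linarith
  exact_mod_cast Set.ncard_le_ncard hsub hfin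

/-- large deviations -/
theorem dev_zn (RH : RiemannHypothesis) : Dev zn := by
  intro A hA
  obtain ⟨K, c, hK, hc, hc1, hup⟩ := LD.idx_up RH (by norm_num : (0 : ℝ) < 1 / 2) (by norm_num)
  have hpi3 := Real.pi_gt_three
  have hl1 : Tendsto (fun k : ℕ => Real.log k) atTop atTop := CW.log_nat_atTop
  have hl2 : Tendsto (fun k : ℕ => Real.log (Real.log k)) atTop atTop :=
    Real.tendsto_log_atTop.comp hl1
  -- `K √ℓ ≤ c ℓ log ℓ`
  have e1 : ∀ᶠ k : ℕ in atTop, K * Real.sqrt (Real.log k) ≤ c * Real.log k * Real.log (Real.log k) := by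
    filter_upwards [hl1.eventually_ge_atTop 1, hl2.eventually_ge_atTop (K / c)] with k h1 h2
    have h3 : Real.sqrt (Real.log k) ≤ Real.log k := by
      rw [Real.sqrt_le_left (by linarith)]
      nlinarith
    rw [div_le_iff₀ hc] at h2
    have h5 : 0 ≤ Real.log (Real.log k) * c := by linarith
    calc K * Real.sqrt (Real.log k) ≤ (Real.log (Real.log k) * c) * Real.log k :=
          mul_le_mul h2 h3 (Real.sqrt_nonneg _) h5
      _ = _ := by ring
  -- `c ℓ log ℓ ≤ k^(1/8)`
  have e2 : ∀ᶠ k : ℕ in atTop, c * Real.log k * Real.log (Real.log k) ≤ (k : ℝ) ^ (1 / 8 : ℝ) := by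
    have h := (isLittleO_log_rpow_atTop (by norm_num : (0 : ℝ) < 1 / 16)).def
      (by norm_num : (0 : ℝ) < 1)
    have h' := (tendsto_natCast_atTop_atTop (R := ℝ)).eventually h
    filter_upwards [h', hl1.eventually_ge_atTop 1, eventually_ge_atTop 1] with k h1 h2 h3
    have hk : (0 : ℝ) ≤ k := Nat.cast_nonneg _
    rw [Real.norm_eq_abs, Real.norm_eq_abs, abs_of_nonneg (by linarith),
      abs_of_nonneg (Real.rpow_nonneg hk _), one_mul] at h1
    have h4 : Real.log (Real.log k) ≤ Real.log k := Real.log_le_self (by linarith)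
    have h5 : 0 ≤ Real.log (Real.log k) := Real.log_nonneg h2
    calc c * Real.log k * Real.log (Real.log k) ≤ 1 * Real.log k * Real.log k := by gcongr
      _ ≤ (k : ℝ) ^ (1 / 16 : ℝ) * (k : ℝ) ^ (1 / 16 : ℝ) := by rw [one_mul]; gcongr
      _ = (k : ℝ) ^ (1 / 8 : ℝ) := by
        rw [← Real.rpow_add_of_nonneg hk (by norm_num) (by norm_num)]
        norm_num
  filter_upwards [hup, e1, e2, hl1.eventually_ge_atTop 1,
    hl2.eventually_ge_atTop ((A + 1) / c + 1), eventually_ge_atTop 3] with k h1 h2 h3 h4 h5 h6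
  have hk1 : (3 : ℝ) ≤ k := by exact_mod_cast h6
  have hk0 : (0 : ℝ) < k := by linarith
  set ℓ := Real.log k with hℓ
  have hz := h1 (c * ℓ * Real.log ℓ) h2 le_rfl
  have hexp : Real.exp (-((1 - 1 / 2) * LD.Gx ℓ (c * ℓ * Real.log ℓ))) ≤ (k : ℝ) ^ (-(A + 1)) := by
    rw [Real.rpow_def_of_pos hk0, ← hℓ]
    apply Real.exp_le_exp.2
    unfold LD.Gx
    have h7 : (A + 1) ≤ c * Real.log ℓ := by
      have : (A + 1) / c ≤ Real.log ℓ := by linarith
      rw [div_le_iff₀ hc] at this
      linarith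
    have h8 : (1 : ℝ) ≤ A + 1 := by linarith
    have h9 : A + 1 ≤ (c * Real.log ℓ) ^ 2 := by nlinarith
    have e : Real.pi ^ 2 * (c * ℓ * Real.log ℓ) ^ 2 / (2 * ℓ) =
        Real.pi ^ 2 / 2 * (c * Real.log ℓ) ^ 2 * ℓ := by
      have : ℓ ≠ 0 := by linarith
      field_simp
    rw [e]
    have h10 : 4 ≤ Real.pi ^ 2 / 2 := by nlinarith
    have h11 : 2 * (A + 1) * ℓ ≤ Real.pi ^ 2 / 2 * (c * Real.log ℓ) ^ 2 * ℓ := by
      apply mul_le_mul_of_nonneg_right _ (by linarith)
      nlinarith
    nlinarith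
  have hfac : (k : ℝ) ^ (-(A + 1)) < (k : ℝ) ^ (-A) :=
    Real.rpow_lt_rpow_of_exponent_lt (by linarith) (by linarith)
  filter_upwards [hz, LD.add_const hfac (NZ 1 + 1)] with N h7 h8
  refine le_trans ?_ h8
  have hcnt := LD.cnt_le_add (Q := fun n => (k : ℝ) ^ (1 / 8 : ℝ) ≤ |Sk zn k n - k|)
    (Q' := fun n => (k : ℝ) + c * ℓ * Real.log ℓ ≤ ∑ i ∈ Finset.range k, dlt (n + i) ∨
      ∑ i ∈ Finset.range k, dlt (n + i) ≤ k - c * ℓ * Real.log ℓ) (n0 := NZ 1 + 1) (by
    intro n hn hq
    rw [Sk_big k (by omega)] at hq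
    have h9 := h3.trans hq
    rcases le_abs'.1 h9 with h10 | h10
    · right; linarith
    · left; linarith) N
  refine hcnt.trans ?_
  push_cast
  have h9 : LD.cnt (fun n => (k : ℝ) + c * ℓ * Real.log ℓ ≤ ∑ i ∈ Finset.range k, dlt (n + i) ∨
      ∑ i ∈ Finset.range k, dlt (n + i) ≤ k - c * ℓ * Real.log ℓ) N ≤ (k : ℝ) ^ (-(A + 1)) * N :=
    h7.trans (by gcongr)
  linarith

/-- the elementary properties -/
theorem zr_zn (RH : RiemannHypothesis) : Zr zn zc := by
  have hpi := Real.pi_pos
  refine ⟨?_, ?_, ?_, ?_, ?_⟩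
  · intro m n hm hmn
    exact max_le_max (SG.ord_mono hm hmn) le_rfl
  · exact le_max_right _ _
  · intro n hn t
    unfold zn zc
    by_cases ht : 1 ≤ t
    · rw [if_pos ht, max_le_iff, SG.ord_le_iff hn]
      exact ⟨fun h => h.1, fun h => ⟨h, ht⟩⟩
    · rw [if_neg ht, max_le_iff]
      constructor
      · intro h; exact absurd h.2 ht
      · intro h; omega
  · refine NZ_lim.congr' ?_
    filter_upwards [eventually_ge_atTop 1] with T hT
    rw [zc_eq hT]
  · -- bounded gaps
    obtain ⟨c, y0, hc, hy0, h⟩ := LG.gap_uniform (CW.rhs_of RH)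
    set A : ℝ := y0 + 4 with hA
    have hb : ∀ n : ℕ, 1 ≤ n → dlt n ≤ A + Real.log n / c := by
      intro n hn
      have hn1 : (1 : ℝ) ≤ n := by exact_mod_cast hn
      have hlog : 0 ≤ Real.log n := Real.log_nonneg hn1
      have hy : 0 ≤ Real.log n / c := by positivity
      by_contra hcon
      rw [not_le] at hcon
      have h1 := h n hn (A + Real.log n / c) (by linarith)
      have h2 : (1 : ℝ) ≤ ({k : ℕ | 1 ≤ k ∧ k ≤ n ∧ A + Real.log n / c ≤ dlt k}.ncard : ℝ) := by
        have hfin : {k : ℕ | 1 ≤ k ∧ k ≤ n ∧ A + Real.log n / c ≤ dlt k}.Finite :=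
          (Set.finite_le_nat n).subset fun k hk => hk.2.1
        have : 1 ≤ {k : ℕ | 1 ≤ k ∧ k ≤ n ∧ A + Real.log n / c ≤ dlt k}.ncard := by
          rw [Nat.one_le_iff_ne_zero, Ne, Set.ncard_eq_zero hfin]
          intro h3
          have : n ∈ {k : ℕ | 1 ≤ k ∧ k ≤ n ∧ A + Real.log n / c ≤ dlt k} := ⟨hn, le_rfl, hcon.le⟩
          rw [h3] at this
          exact this
        exact_mod_cast this
      set y := A + Real.log n / c with hyd
      have hy4 : 4 ≤ y := by linarith
      have h3 : 1 ≤ Real.log y := by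
        rw [Real.le_log_iff_exp_le (by linarith)]
        have := Real.exp_one_lt_d9
        linarith
      have h4 : Real.log n < c * y * Real.log y := by
        have h5 : c * y = c * A + Real.log n := by
          rw [hyd]
          field_simp
        have h6 : 0 < c * A := by
          have : 0 < A := by linarith
          positivity
        have h7 : c * y * 1 ≤ c * y * Real.log y :=
          mul_le_mul_of_nonneg_left h3 (by rw [h5]; linarith)
        linarith
      have h8 : (n : ℝ) * Real.exp (-c * y * Real.log y) < 1 := by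
        have h9 : Real.exp (-c * y * Real.log y) < Real.exp (-Real.log n) := by
          apply Real.exp_lt_exp.2
          linarith
        rw [Real.exp_neg, Real.exp_log (by linarith)] at h9
        calc (n : ℝ) * Real.exp (-c * y * Real.log y) < n * (n : ℝ)⁻¹ :=
              mul_lt_mul_of_pos_left h9 (by linarith)
          _ = 1 := mul_inv_cancel₀ (by linarith)
      exact absurd (h2.trans h1) (not_le.2 h8)
    -- eventually the gap is at most a constant
    have hev : ∃ C : ℝ, ∀ᶠ n : ℕ in atTop, ord (n + 1) - ord n ≤ C := by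
      refine ⟨2 * Real.pi * (A + 2 / c), ?_⟩
      have q1 : ∀ᶠ T : ℝ in atTop, (NZ T : ℝ) ≤ T ^ 2 := by
        filter_upwards [NZ_lim.eventually (gt_mem_nhds (by norm_num : (1 : ℝ) < 2)),
          eventually_ge_atTop 3] with T h1 h2
        have hL : 0 < Real.log T := Real.log_pos (by linarith)
        have h3 : Real.log T ≤ T := (Real.log_le_sub_one_of_pos (by linarith)).trans (by linarith)
        rw [div_lt_iff₀ (by positivity)] at h1
        have hpi3 := Real.pi_gt_three
        have h4 : 2 * (T * Real.log T / (2 * Real.pi)) = T * Real.log T / Real.pi := by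
          field_simp
        have h5 : T * Real.log T / Real.pi ≤ T * Real.log T := by
          apply div_le_self (by positivity) (by linarith)
        nlinarith
      filter_upwards [SG.ord_tendsto.eventually q1, SG.ord_tendsto.eventually_ge_atTop 3,
        eventually_ge_atTop 1] with n h1 h2 h3
      have hL : 1 ≤ Real.log (ord n) := by
        rw [Real.le_log_iff_exp_le (by linarith)]
        have := Real.exp_one_lt_d9
        linarith
      have h4 : (n : ℝ) ≤ ord n ^ 2 := by
        have : (n : ℝ) ≤ NZ (ord n) := by exact_mod_cast (SG.ord_le_iff h3 _).1 le_rfl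
        linarith
      have h5 : Real.log n ≤ 2 * Real.log (ord n) := by
        have hn0 : (0 : ℝ) < n := by exact_mod_cast h3
        calc Real.log n ≤ Real.log (ord n ^ 2) := Real.log_le_log hn0 h4
          _ = _ := by rw [Real.log_pow]; push_cast; ring
      have h6 := hb n h3
      have h7 := CW.xlogx_low (a := ord n) (b := ord (n + 1)) (by linarith)
        (SG.ord_mono h3 (by omega))
      have h8 : (ord (n + 1) - ord n) * Real.log (ord n) ≤ 2 * Real.pi * dlt n := by
        unfold TH800.MS.dlt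
        rw [mul_div_cancel₀ _ (by positivity)]
        have h12 : 0 ≤ ord (n + 1) - ord n := sub_nonneg.2 (SG.ord_mono h3 (by omega))
        nlinarith
      have h9 : 2 * Real.pi * dlt n ≤ 2 * Real.pi * (A + 2 / c) * Real.log (ord n) := by
        have : A + Real.log n / c ≤ (A + 2 / c) * Real.log (ord n) := by
          have hA0 : 0 ≤ A := by linarith
          have h10 : Real.log n / c ≤ 2 / c * Real.log (ord n) := by
            rw [div_le_iff₀ hc]
            calc Real.log n ≤ 2 * Real.log (ord n) := h5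
              _ = _ := by field_simp
          nlinarith
        have h11 : dlt n ≤ (A + 2 / c) * Real.log (ord n) := h6.trans this
        nlinarith
      have h10 := h8.trans h9
      exact le_of_mul_le_mul_right h10 (by linarith)
    obtain ⟨C, hC⟩ := hev
    obtain ⟨n1, hn1⟩ := eventually_atTop.1 hC
    set B : ℝ := ∑ n ∈ Finset.range (n1 + NZ 1 + 1), |zn (n + 1) - zn n| with hB
    have hB0 : 0 ≤ B := Finset.sum_nonneg fun _ _ => abs_nonneg _
    refine ⟨max C 0 + B, by positivity, fun n hn => ?_⟩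
    by_cases h1 : n < n1 + NZ 1 + 1
    · have h4 : |zn (n + 1) - zn n| ≤ B := Finset.single_le_sum (f := fun n => |zn (n + 1) - zn n|)
        (fun _ _ => abs_nonneg _) (Finset.mem_range.2 h1)
      have := le_abs_self (zn (n + 1) - zn n)
      have := le_max_right C 0
      linarith
    · rw [zn_big (by omega : NZ 1 < n + 1), zn_big (by omega : NZ 1 < n)]
      have := hn1 n (by omega)
      have := le_max_left C 0
      linarith

end Pool.Agent.H478.ON
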