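import Pool.Agent.H478.ON.Zeta1
import Pool.Agent.H478.ON.DIAG
import Pool.Agent.H203.ME.ALL3

/-! The pair correlation of the ordinates at fixed scales, over the indices. -/

open Finset MeasureTheory Filter Topology

namespace Pool.Agent.H478.ON

open SG (ord NZ zmult)
open TH800.MS (dlt)

/-- sums over zeros as sums over indices -/
lemma full_sum (RH : RiemannHypothesis) (V : ℝ) (F : ℝ → ℝ) :
    ∑ᶠ s ∈ SG.ZS V, (zmult s : ℝ) * F s.im = ∑ n ∈ Finset.Icc 1 (NZ V), F (ord n) := by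
  classical
  have hfin := SG.ZS_finite V
  rw [finsum_mem_eq_finite_toFinset_sum _ hfin]
  have hIx : ∀ n, n ∈ Finset.Icc 1 (NZ V) ↔ n ∈ W200.HW.Ix V := fun n => Iff.rfl
  have hmaps : ∀ n ∈ Finset.Icc 1 (NZ V), CW.zo (ord n) ∈ hfin.toFinset := by
    intro n hn
    rw [Set.Finite.mem_toFinset]
    exact W200.HW.zero_at RH ((hIx n).1 hn)
  have h1 : ∑ n ∈ Finset.Icc 1 (NZ V), F (ord n) =
      ∑ n ∈ Finset.Icc 1 (NZ V), F (CW.zo (ord n)).im := by
    refine Finset.sum_congr rfl fun n _ => ?_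
    rw [CW.zo_im]
  rw [h1, ← Finset.sum_fiberwise_of_maps_to hmaps (fun n => F (CW.zo (ord n)).im)]
  refine Finset.sum_congr rfl fun s hs => ?_
  rw [Set.Finite.mem_toFinset] at hs
  have hcard := W200.HW.ord_fib RH hs
  obtain ⟨h0, g1, g2, hpos, g4⟩ := hs
  have hset : (Finset.Icc 1 (NZ V)).filter (fun n => CW.zo (ord n) = s) =
      (W200.HW.Ix V).filter (fun n => ord n = s.im) := by
    ext n
    rw [Finset.mem_filter, Finset.mem_filter, hIx]
    constructor
    · rintro ⟨k1, k4⟩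
      refine ⟨k1, ?_⟩
      rw [← k4, CW.zo_im]
    · rintro ⟨k1, k3⟩
      refine ⟨k1, ?_⟩
      rw [k3]
      exact CW.zo_eq RH h0 hpos
  have hc : ∑ n ∈ (Finset.Icc 1 (NZ V)).filter (fun n => CW.zo (ord n) = s), F (CW.zo (ord n)).im =
      ∑ n ∈ (Finset.Icc 1 (NZ V)).filter (fun n => CW.zo (ord n) = s), F s.im := by
    refine Finset.sum_congr rfl fun n hn => ?_
    rw [Finset.mem_filter] at hn
    rw [hn.2]
  rw [hc, Finset.sum_const, hset, hcard, nsmul_eq_mul]

/-- the inner sum -/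
lemma inner_sum (RH : RiemannHypothesis) {V : ℝ} {F : ℝ → ℝ} (hF : ∀ y, y ≤ 0 ∨ V < y → F y = 0) :
    ∑ᶠ w ∈ Pool.Agent.H203.ME.ZS, (Pool.Agent.H203.ME.mz w : ℝ) * F w.im =
      ∑ n ∈ Finset.Icc 1 (NZ V), F (ord n) := by
  rw [← full_sum RH V F]
  apply finsum_mem_inter_support_eq
  ext s
  simp only [Set.mem_inter_iff, Function.mem_support]
  constructor
  · rintro ⟨⟨h1, h2, h3⟩, h4⟩
    have h5 : F s.im ≠ 0 := right_ne_zero_of_mul h4
    have h6 : ¬ (s.im ≤ 0 ∨ V < s.im) := fun h => h5 (hF _ h)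
    push Not at h6
    exact ⟨⟨h1, h2, h3, h6.1, h6.2⟩, h4⟩
  · rintro ⟨⟨h1, h2, h3, h5, h6⟩, h4⟩
    exact ⟨⟨h1, h2, h3⟩, h4⟩

/-- the outer sum -/
lemma outer_sum (RH : RiemannHypothesis) {T : ℝ} (hT : 1 ≤ T) (Φ : ℝ → ℝ) :
    ∑ z ∈ H370.Zf riemannZeta T (2 * T), (Pool.Agent.H203.ME.mz z : ℝ) * Φ z.im =
      ∑ n ∈ Finset.Ioc (NZ T) (NZ (2 * T)), Φ (ord n) := by
  classical
  rw [← H370.finsum_Zf H370.good_zeta hT]
  have h1 : ∑ᶠ z ∈ H370.zset riemannZeta T (2 * T), (Pool.Agent.H203.ME.mz z : ℝ) * Φ z.im =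
      ∑ᶠ z ∈ SG.ZS (2 * T), (zmult z : ℝ) * (fun y => if T < y then Φ y else 0) z.im := by
    have e : ∀ z ∈ H370.zset riemannZeta T (2 * T), (Pool.Agent.H203.ME.mz z : ℝ) * Φ z.im =
        (zmult z : ℝ) * (fun y => if T < y then Φ y else 0) z.im := by
      intro z hz
      obtain ⟨a1, a2, a3, a4, a5⟩ := hz
      simp only [if_pos a3]
      rfl
    rw [finsum_mem_congr rfl e]
    apply finsum_mem_inter_support_eq
    ext s
    simp only [Set.mem_inter_iff, Function.mem_support]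
    constructor
    · rintro ⟨⟨a1, a2, a3, a4, a5⟩, h4⟩
      exact ⟨⟨a5, a1, a2, by linarith, a4⟩, h4⟩
    · rintro ⟨⟨a1, a2, a3, a4, a5⟩, h4⟩
      have h5 : (if T < s.im then Φ s.im else 0) ≠ 0 := right_ne_zero_of_mul h4
      have h6 : T < s.im := by
        by_contra hc
        rw [if_neg hc] at h5
        exact h5 rfl
      exact ⟨⟨a2, a3, h6, a5, a1⟩, h4⟩
  rw [h1, full_sum RH (2 * T) (fun y => if T < y then Φ y else 0)]
  have hle : NZ T ≤ NZ (2 * T) := SG.NZ_mono (by linarith)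
  rw [show Finset.Icc 1 (NZ (2 * T)) = Finset.Ioc 0 (NZ (2 * T)) from rfl,
    ← Finset.sum_Ioc_consecutive _ (Nat.zero_le _) hle]
  have h2 : ∑ n ∈ Finset.Ioc 0 (NZ T), (if T < ord n then Φ (ord n) else 0) = 0 := by
    apply Finset.sum_eq_zero
    intro n hn
    rw [Finset.mem_Ioc] at hn
    rw [if_neg (not_lt.2 ((SG.ord_le_iff (by omega) T).2 hn.2))]
  rw [h2, zero_add]
  refine Finset.sum_congr rfl fun n hn => ?_
  rw [Finset.mem_Ioc] at hn
  rw [if_pos]
  by_contra hc
  have := (SG.ord_le_iff (by omega : 1 ≤ n) T).1 (not_lt.1 hc)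
  omega

lemma sum_Ioc_cast (a b : ℕ) (G : ℤ → ℝ) :
    ∑ n ∈ Finset.Ioc (a : ℤ) (b : ℤ), G n = ∑ n ∈ Finset.Ioc a b, G (n : ℤ) := by
  symm
  apply Finset.sum_bij (fun (n : ℕ) _ => (n : ℤ))
  · intro n hn
    rw [Finset.mem_Ioc] at hn ⊢
    exact ⟨by exact_mod_cast hn.1, by exact_mod_cast hn.2⟩
  · intro x _ y _ h
    exact_mod_cast h
  · intro m hm
    rw [Finset.mem_Ioc] at hm
    refine ⟨m.toNat, ?_, by omega⟩
    rw [Finset.mem_Ioc]
    omega
  · intro n _
    rfl

lemma sum_Icc_cast (a b : ℕ) (G : ℤ → ℝ) :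
    ∑ n ∈ Finset.Icc (a : ℤ) (b : ℤ), G n = ∑ n ∈ Finset.Icc a b, G (n : ℤ) := by
  symm
  apply Finset.sum_bij (fun (n : ℕ) _ => (n : ℤ))
  · intro n hn
    rw [Finset.mem_Icc] at hn ⊢
    exact ⟨by exact_mod_cast hn.1, by exact_mod_cast hn.2⟩
  · intro x _ y _ h
    exact_mod_cast h
  · intro m hm
    rw [Finset.mem_Icc] at hm
    refine ⟨m.toNat, ?_, by omega⟩
    rw [Finset.mem_Icc]
    omega
  · intro n _
    rfl

/-- shifted sums restricted to the support -/
lemma shift_sum (G : ℤ → ℝ) (n K0 : ℤ) (W : ℕ) (h0 : ∀ m, m ≤ 0 → G m = 0)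
    (h1 : ∀ m, (W : ℤ) < m → G m = 0) (hn : 0 ≤ n) (hn1 : n ≤ W) (hK : (W : ℤ) ≤ K0) :
    ∑ k ∈ Finset.Icc (-K0) K0, G (n + k) = ∑ m ∈ Finset.Icc 1 W, G (m : ℤ) := by
  have e1 : ∑ k ∈ Finset.Icc (-K0) K0, G (n + k) = ∑ m ∈ Finset.Icc (n + -K0) (n + K0), G m := by
    rw [← Finset.map_add_left_Icc, Finset.sum_map]
    rfl
  rw [e1]
  have e2 := sum_Icc_cast 1 W G
  push_cast at e2
  rw [← e2]
  symm
  apply Finset.sum_subset
  · intro m hm
    rw [Finset.mem_Icc] at hm ⊢
    omega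
  · intro m _ hm
    rw [Finset.mem_Icc] at hm
    push Not at hm
    by_cases h : m ≤ 0
    · exact h0 m h
    · exact h1 m (hm (by omega))

lemma FF_re {f : ℝ → ℝ} (hf : Continuous f) (hfs : HasCompactSupport f) (ξ : ℝ) :
    (Pool.Agent.H203.ME.FF f ξ).re = ct f ξ := by
  unfold Pool.Agent.H203.ME.FF ct
  have hc : Continuous fun s : ℝ => (f s : ℂ) * Complex.exp (-(((ξ * s : ℝ) : ℂ) * Complex.I)) := by
    fun_prop
  have hs : HasCompactSupport fun s : ℝ => (f s : ℂ) * Complex.exp (-(((ξ * s : ℝ) : ℂ) * Complex.I)) := by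
    apply HasCompactSupport.mul_right
    exact hfs.comp_left (g := fun x : ℝ => (x : ℂ)) (by simp)
  have hi := hc.integrable_of_hasCompactSupport (μ := volume) hs
  have h1 := Complex.reCLM.integral_comp_comm hi
  simp only [Complex.reCLM_apply] at h1
  rw [← h1]
  refine integral_congr_ae (Eventually.of_forall fun s => ?_)
  show ((f s : ℂ) * Complex.exp (-(((ξ * s : ℝ) : ℂ) * Complex.I))).re = f s * Real.cos (ξ * s)
  rw [Complex.re_ofReal_mul]
  congr 1
  rw [Complex.exp_re]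
  simp

/-- **pair correlation at fixed scales** -/
theorem pc_zn (RH : RiemannHypothesis) (hE : S_ELM) : PC zn zc := by
  intro f hf hfs hfe ε hε
  obtain ⟨hE1, hE2, -⟩ := hE zn zc (zr_zn RH)
  obtain ⟨A, hA1, hA⟩ : ∃ A : ℝ, 1 ≤ A ∧ ∀ y, A ≤ |y| → f y = 0 := by
    obtain ⟨R, hR⟩ := hfs.isCompact.isBounded.subset_closedBall (0 : ℝ)
    refine ⟨max (R + 1) 1, le_max_right _ _, fun y hy => ?_⟩
    by_contra hc
    have h1 : y ∈ tsupport f := subset_tsupport f (Function.mem_support.2 hc)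
    have h2 := hR h1
    rw [Metric.mem_closedBall, Real.dist_eq, sub_zero] at h2
    have := (le_max_left (R + 1) 1).trans hy
    linarith
  set I := ∫ x, f x with hI
  set P : ℝ → ℝ → ℝ := fun r T => r * (Pool.Agent.H203.ME.PS f (r / lb zc T) T / Mb zc T - r * I) with hP
  have hpi := Real.pi_pos
  have hlb : Tendsto (fun T => lb zc T) atTop atTop := by
    have h1 : Tendsto (fun T => Real.log T / (2 * Real.pi)) atTop atTop :=
      Real.tendsto_log_atTop.atTop_div_const (by positivity)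
    have h2 := Tendsto.pos_mul_atTop one_pos hE2 h1
    refine h2.congr' ?_
    filter_upwards [h1.eventually_gt_atTop 0] with T hT
    rw [div_mul_cancel₀ _ hT.ne']
  have hrat : Tendsto (fun T => Real.log T / lb zc T) atTop (𝓝 (2 * Real.pi)) := by
    have h1 := (hE2.inv₀ one_ne_zero).mul_const (2 * Real.pi)
    rw [inv_one, one_mul] at h1
    refine h1.congr' ?_
    filter_upwards [hlb.eventually_gt_atTop 0, Real.tendsto_log_atTop.eventually_gt_atTop 0] with T h1 h2
    field_simp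
  have hdiag := DIAG.t_DIAG P (kap f) (by
    intro g hg1 hg2
    have hh0 : Tendsto (fun T => g T / lb zc T) atTop (𝓝 0) := by
      have h1 := hg2.mul hrat
      rw [zero_mul] at h1
      refine h1.congr' ?_
      filter_upwards [Real.tendsto_log_atTop.eventually_gt_atTop 0] with T h2
      field_simp
    have hh1 : Tendsto (fun T => g T / lb zc T * Real.log T) atTop atTop := by
      have h1 := Tendsto.atTop_mul_pos (by positivity : (0 : ℝ) < 2 * Real.pi) hg1 hrat
      refine h1.congr fun T => ?_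
      ring
    have h1 := Pool.Agent.H203.ME.finD Pool.Agent.H203.ME.p_PCC hf hfs hh0 hh1
    have e : 1 / (2 * Real.pi ^ 2) * ∫ ξ in Set.Ioi (0 : ℝ), ξ * (Pool.Agent.H203.ME.FF f ξ).re = kap f := by
      unfold kap
      congr 1
      refine integral_congr_ae (Eventually.of_forall fun ξ => ?_)
      show ξ * (Pool.Agent.H203.ME.FF f ξ).re = ξ * ct f ξ
      rw [FF_re hf.continuous hfs]
    rw [e] at h1
    refine h1.congr' ?_
    filter_upwards [hE1, eventually_ge_atTop (1 : ℝ)] with T ⟨m1, m2, m3, m4⟩ hT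
    have hNN : (H370.NN riemannZeta T (2 * T) : ℝ) = Mb zc T := by
      rw [NN_NZ hT]
      unfold Mb
      rw [zc_eq hT, zc_eq (by linarith : 1 ≤ 2 * T)]
    rw [hNN]
    have hM : (0 : ℝ) < Mb zc T := by linarith
    have hT0 : (0 : ℝ) < T := by linarith
    have hl : lb zc T = Mb zc T / T := rfl
    simp only [hP]
    generalize Pool.Agent.H203.ME.PS f (g T / lb zc T) T = Q
    rw [hl, hI]
    field_simp
    ) ε hε
  filter_upwards [hdiag, eventually_ge_atTop (1 : ℝ)] with r hr hr1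
  filter_upwards [hr, hE1, eventually_ge_atTop (2 : ℝ), hlb.eventually_ge_atTop (A * r)] with T h1
    ⟨m1, m2, m3, m4⟩ hT hl
  have hT1 : (1 : ℝ) ≤ T := by linarith
  have hr0 : 0 < r := by linarith
  set lam := lb zc T with hlam
  set V : ℝ := 2 * T + 2 with hV
  filter_upwards [eventually_ge_atTop ((NZ V : ℕ) : ℤ)] with K0 hK0
  have key : ∑ n ∈ Bk zc T, ∑ k ∈ Finset.Icc (-K0) K0, f (lam * (xt zn (n + k) - xt zn n) / r) =
      Pool.Agent.H203.ME.PS f (r / lam) T := by
    have hh : 0 < r / lam := by positivity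
    have hhA : A * (r / lam) ≤ 1 := by
      rw [← mul_div_assoc, div_le_one m2]; exact hl
    -- the values far away vanish
    have hfar : ∀ y c : ℝ, 1 ≤ |y - c| → f ((y - c) / (r / lam)) = 0 := by
      intro y c hyc
      apply hA
      rw [abs_div, abs_of_pos hh, le_div_iff₀ hh]
      linarith
    unfold Pool.Agent.H203.ME.PS
    have ho := outer_sum RH hT1 (fun c => ∑ᶠ w ∈ Pool.Agent.H203.ME.ZS,
      (Pool.Agent.H203.ME.mz w : ℝ) * f ((w.im - c) / (r / lam)))
    rw [ho]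
    unfold Bk
    rw [zc_eq hT1, zc_eq (by linarith : 1 ≤ 2 * T), sum_Ioc_cast]
    refine Finset.sum_congr rfl fun n hn => ?_
    rw [Finset.mem_Ioc] at hn
    have hn1 : 1 ≤ n := by omega
    have hoT : T < ord n := by
      by_contra hc
      have := (SG.ord_le_iff hn1 T).1 (not_lt.1 hc)
      omega
    have ho2 : ord n ≤ 2 * T := (SG.ord_le_iff hn1 _).2 hn.2
    have hin := inner_sum RH (V := V) (F := fun y => f ((y - ord n) / (r / lam))) (by
      intro y hy
      apply hfar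
      rcases hy with hy | hy
      · rw [abs_sub_comm, abs_of_nonneg (by linarith)]; linarith
      · rw [abs_of_nonneg (by linarith)]; linarith)
    rw [hin]
    have hxn : xt zn (n : ℤ) = ord n := by
      unfold xt
      rw [if_pos (by exact_mod_cast hn1), Int.toNat_natCast]
      unfold zn
      exact max_eq_left (by linarith)
    have hWn : (n : ℤ) ≤ (NZ V : ℕ) := by
      have : NZ (2 * T) ≤ NZ V := SG.NZ_mono (by linarith)
      exact_mod_cast hn.2.trans this
    have hs := shift_sum (fun m => f ((xt zn m - ord n) / (r / lam))) n K0 (NZ V) (by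
        intro m hm
        apply hfar
        unfold xt
        rw [if_neg (by omega)]
        have : (m : ℝ) ≤ 0 := by exact_mod_cast hm
        rw [abs_sub_comm, abs_of_nonneg (by linarith)]
        linarith) (by
        intro m hm
        apply hfar
        have hm1 : (1 : ℤ) ≤ m := by omega
        unfold xt
        rw [if_pos hm1]
        have hmn : NZ V < m.toNat := by omega
        have h5 : V < ord m.toNat := by
          by_contra hc
          have := (SG.ord_le_iff (by omega : 1 ≤ m.toNat) V).1 (not_lt.1 hc)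
          omega
        have h6 : ord m.toNat ≤ zn m.toNat := le_max_left _ _
        rw [abs_of_nonneg (by linarith)]
        linarith) (by omega) hWn hK0
    have hL : ∑ k ∈ Finset.Icc (-K0) K0, f (lam * (xt zn ((n : ℤ) + k) - xt zn (n : ℤ)) / r) =
        ∑ k ∈ Finset.Icc (-K0) K0, (fun m => f ((xt zn m - ord n) / (r / lam))) ((n : ℤ) + k) := by
      refine Finset.sum_congr rfl fun k _ => ?_
      show _ = f ((xt zn ((n : ℤ) + k) - ord n) / (r / lam))
      rw [hxn]
      congr 1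
      field_simp
    rw [hL, hs]
    refine Finset.sum_congr rfl fun m hm => ?_
    rw [Finset.mem_Icc] at hm
    show f ((xt zn (m : ℤ) - ord n) / (r / lam)) = f ((ord m - ord n) / (r / lam))
    have hxm : xt zn (m : ℤ) = zn m := by
      unfold xt
      rw [if_pos (by exact_mod_cast hm.1), Int.toNat_natCast]
    rw [hxm]
    by_cases h7 : 1 ≤ ord m
    · unfold zn
      rw [max_eq_left h7]
    · rw [hfar, hfar]
      · rw [abs_sub_comm, abs_of_nonneg (by linarith)]; linarith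
      · have h8 : zn m = 1 := max_eq_right (by linarith)
        rw [h8, abs_sub_comm, abs_of_nonneg (by linarith)]; linarith
  rw [key]
  exact h1

end Pool.Agent.H478.ON
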