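import Pool.Agent.H478.ON.Zeta2
import Pool.Agent.H478.CW20

/-! The second moment of the number of neighbours of a zero. -/

open Finset MeasureTheory Filter Topology

namespace Pool.Agent.H478.ON

open Pool.Agent.R321.FA
open SP (ZZ mu RHs)
open SG (ord NZ zmult)
open Pool.Agent.TH800.LD (ZZf)
open CW (Ib mem_Ib JI zo cK)

/-- the number of neighbours within `W` -/
noncomputable def nu (T W : ℝ) (n : ℕ) : ℝ := ∑ m ∈ Ib T, if |ord m - ord n| ≤ W then 1 else 0

lemma nu_nonneg (T W : ℝ) (n : ℕ) : 0 ≤ nu T W n :=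
  Finset.sum_nonneg fun _ _ => by split_ifs <;> norm_num

/-- neighbours against the majorant -/
lemma nu_Mp (RH : RiemannHypothesis) {T x t : ℝ} {n : ℕ} (hT : 10 ≤ T) (hx : 0 ≤ x)
    (hxL : 2 * Real.pi * (2 * x) ≤ Real.log T) (h1 : t ≤ ord n)
    (h2 : ord n ≤ t + 2 * Real.pi * x / Real.log T) :
    nu T (2 * Real.pi * x / Real.log T) n ≤ cK (2 * x) * Mp T t := by
  have hT1 : 1 ≤ T := by linarith
  have hL0 : 0 < Real.log T := Real.log_pos (by linarith)
  unfold nu
  have h := CW.block_sum RH hT1 (fun s => if |s.im - ord n| ≤ 2 * Real.pi * x / Real.log T then 1 else 0)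
  simp only [CW.zo_im] at h
  rw [← h, Mp_eq hT1, Finset.mul_sum]
  refine Finset.sum_le_sum fun s _ => ?_
  have hm : (0 : ℝ) ≤ mu s := Nat.cast_nonneg _
  have hdp := (dp_pos (Real.log T * (s.im - t))).le
  have hck := (CW.cK_pos (by linarith : 0 ≤ 2 * x)).le
  split_ifs with h3
  · have h4 : |s.im - t| ≤ 2 * Real.pi * (2 * x) / Real.log T := by
      have e : 2 * Real.pi * (2 * x) / Real.log T = 2 * Real.pi * x / Real.log T +
        2 * Real.pi * x / Real.log T := by ring
      rw [e]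
      have e2 : s.im - t = (s.im - ord n) + (ord n - t) := by ring
      rw [e2]
      refine (abs_add_le _ _).trans (add_le_add h3 ?_)
      rw [abs_of_nonneg (by linarith)]
      linarith
    have h5 := CW.near_one hT (by linarith : 0 ≤ 2 * x) hxL (t := t) (γ := s.im) h4
    calc (mu s : ℝ) * 1 ≤ (mu s : ℝ) * (cK (2 * x) *
        (Real.exp (-(s.im - t) ^ 2 / 2) * dp (Real.log T * (s.im - t)))) := by gcongr
      _ = _ := by ring
  · rw [mul_zero]; positivity

/-- the zeros in the middle of the block -/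
lemma nu_mid (RH : RiemannHypothesis) : ∃ C : ℝ, 0 < C ∧ ∀ x : ℝ, 0 < x → ∀ᶠ T : ℝ in atTop,
    ∑ n ∈ (Ib T).filter (fun n => T + 6 * Real.log T + 1 < ord n ∧ ord n ≤ 2 * T - 6 * Real.log T),
      nu T (2 * Real.pi * x / Real.log T) n ^ 2 ≤
      C * cK (2 * x) ^ 3 * (T * Real.log T / (2 * Real.pi * x)) := by
  classical
  obtain ⟨C, T0, hC, hT0, hM⟩ := Mp_mom (CW.rhs_of RH) 3
  refine ⟨C, hC, fun x hx => ?_⟩
  have hpi := Real.pi_pos
  filter_upwards [eventually_ge_atTop T0, CW.V_ev, eventually_ge_atTop 10,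
    Real.tendsto_log_atTop.eventually_ge_atTop (2 * Real.pi * (2 * x))] with T h0 hV hT hxL
  have hT1 : 1 ≤ T := by linarith
  have hL1 := CW.log_one_le hT
  set L := Real.log T with hL
  have hL0 : 0 < L := by linarith
  set W := 2 * Real.pi * x / L with hW
  have hW0 : 0 < W := by positivity
  have hW1 : W ≤ 1 := by
    rw [hW, div_le_one hL0]; nlinarith
  set V1 := T + 6 * L with hV1
  set V2 := 2 * T - 6 * L with hV2
  have hV12 : V1 ≤ V2 := by linarith
  have hck := CW.cK_pos (by linarith : 0 ≤ 2 * x)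
  have hck1 := CW.cK_one (by linarith : 0 ≤ 2 * x)
  set S := (Ib T).filter (fun n => T + 6 * L + 1 < ord n ∧ ord n ≤ 2 * T - 6 * L) with hS
  have hcont : Continuous fun t => cK (2 * x) ^ 2 * (1 + Mp T t) ^ 2 :=
    continuous_const.mul ((continuous_const.add (Mp_cont hT1)).pow 2)
  have hMp0 : ∀ t, 0 ≤ Mp T t := fun t => Mp_nonneg hT1 t
  have hint : ∀ γ : ℝ, IntervalIntegrable (fun t => JI t W γ * (cK (2 * x) ^ 2 * (1 + Mp T t) ^ 2))
      volume V1 V2 := fun γ => (CW.JI_intble' W γ V1 V2).mul_continuousOn hcont.continuousOn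
  have hone : ∀ n ∈ S, W * nu T W n ^ 2 ≤
      ∫ t in V1..V2, JI t W (ord n) * (cK (2 * x) ^ 2 * (1 + Mp T t) ^ 2) := by
    intro n hn
    rw [hS, Finset.mem_filter] at hn
    obtain ⟨hn1, hn2, hn3⟩ := hn
    have e : W * nu T W n ^ 2 = ∫ t in V1..V2, JI t W (ord n) * nu T W n ^ 2 := by
      rw [intervalIntegral.integral_mul_const, CW.JI_int_eq hW0.le (by linarith) hn3]
    rw [e]
    apply intervalIntegral.integral_mono_on hV12
    · exact (CW.JI_intble' W (ord n) V1 V2).mul_const _
    · exact hint _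
    · intro t _
      unfold CW.JI
      split_ifs with h
      · rw [one_mul, one_mul]
        have h1 := nu_Mp RH hT hx.le hxL h.1.le h.2
        have h2 := nu_nonneg T W n
        calc nu T W n ^ 2 ≤ (cK (2 * x) * Mp T t) ^ 2 := pow_le_pow_left₀ h2 h1 2
          _ = cK (2 * x) ^ 2 * Mp T t ^ 2 := by ring
          _ ≤ _ := by
            have := hMp0 t
            have h3 : Mp T t ^ 2 ≤ (1 + Mp T t) ^ 2 := pow_le_pow_left₀ this (by linarith) 2
            exact mul_le_mul_of_nonneg_left h3 (by positivity)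
      · rw [zero_mul, zero_mul]
  have hsum : W * ∑ n ∈ S, nu T W n ^ 2 ≤ ∫ t in V1..V2, cK (2 * x) ^ 3 * (1 + Mp T t) ^ 3 := by
    rw [Finset.mul_sum]
    refine (Finset.sum_le_sum hone).trans ?_
    rw [← intervalIntegral.integral_finsetSum fun n _ => hint (ord n)]
    apply intervalIntegral.integral_mono_on hV12
    · have h2 : IntervalIntegrable (∑ n ∈ S, fun t => JI t W (ord n) *
          (cK (2 * x) ^ 2 * (1 + Mp T t) ^ 2)) volume V1 V2 :=
        IntervalIntegrable.sum S fun n _ => hint (ord n)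
      refine IntervalIntegrable.congr (fun t _ => ?_) h2
      simp only [Finset.sum_apply]
    · exact (continuous_const.mul ((continuous_const.add (Mp_cont hT1)).pow 3)).intervalIntegrable _ _
    · intro t _
      rw [← Finset.sum_mul]
      have h1 : ∑ n ∈ S, JI t W (ord n) ≤ cK (2 * x) * Mp T t := by
        calc ∑ n ∈ S, JI t W (ord n) ≤ ∑ n ∈ Ib T, JI t W (ord n) :=
              Finset.sum_le_sum_of_subset_of_nonneg (Finset.filter_subset _ _)
                (fun _ _ _ => CW.JI_nonneg _ _ _)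
          _ = CW.nc T t x := by
            rw [CW.nc_JI hT1]
            have h := CW.block_sum RH hT1 (fun s => JI t W s.im)
            simp only [CW.zo_im] at h
            rw [← h]
          _ ≤ cK x * Mp T t := CW.nc_le hT hx.le (by nlinarith) t
          _ ≤ cK (2 * x) * Mp T t := by
            apply mul_le_mul_of_nonneg_right _ (hMp0 t)
            unfold CW.cK
            gcongr
            linarith
      have h2 := hMp0 t
      calc (∑ n ∈ S, JI t W (ord n)) * (cK (2 * x) ^ 2 * (1 + Mp T t) ^ 2) ≤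
          (cK (2 * x) * (1 + Mp T t)) * (cK (2 * x) ^ 2 * (1 + Mp T t) ^ 2) := by
            apply mul_le_mul_of_nonneg_right _ (by positivity)
            refine h1.trans ?_
            gcongr
            linarith
        _ = _ := by ring
  have h3 := hM T h0 V1 V2 hV12 (by rw [hV1]; linarith) (by rw [hV2]; linarith)
  rw [intervalIntegral.integral_const_mul] at hsum
  have h4 : W * ∑ n ∈ S, nu T W n ^ 2 ≤ cK (2 * x) ^ 3 * (C * T) := hsum.trans (by gcongr)
  have h5 : C * cK (2 * x) ^ 3 * (T * L / (2 * Real.pi * x)) = cK (2 * x) ^ 3 * (C * T) / W := by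
    rw [hW]; field_simp
  rw [h5, le_div_iff₀ hW0]
  linarith

/-- the block and its neighbours -/
noncomputable def Mst (T : ℝ) : Finset ℕ := Ib (T / 2) ∪ (Ib T ∪ Ib (2 * T))

lemma sum_union_le' {f : ℕ → ℝ} (hf : ∀ n, 0 ≤ f n) (A B : Finset ℕ) :
    ∑ n ∈ A ∪ B, f n ≤ ∑ n ∈ A, f n + ∑ n ∈ B, f n := by
  have h := Finset.sum_union_inter (s₁ := A) (s₂ := B) (f := f)
  have h2 : 0 ≤ ∑ n ∈ A ∩ B, f n := Finset.sum_nonneg fun n _ => hf n
  linarith

lemma unit_nu (RH : RiemannHypothesis) : ∃ C : ℝ, 0 < C ∧ ∀ T : ℝ, 20 ≤ T → ∀ c : ℝ,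
    ∑ m ∈ Mst T, (if |ord m - c| ≤ 1 then (1 : ℝ) else 0) ≤ C * Real.log T := by
  obtain ⟨C, hC, h⟩ := CW.range_count RH
  refine ⟨12 * C, by positivity, fun T hT c => ?_⟩
  have hL0 : 0 ≤ Real.log T := Real.log_nonneg (by linarith)
  have hone : ∀ U : ℝ, 10 ≤ U → ∑ m ∈ Ib U, (if |ord m - c| ≤ 1 then (1 : ℝ) else 0) ≤
      3 * (C * Real.log U) := by
    intro U hU
    have h1 := h U hU 3 (c - 2)
    refine le_trans (Finset.sum_le_sum fun m _ => ?_) (by exact_mod_cast h1)
    split_ifs with h2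
    · rw [abs_le] at h2
      unfold CW.JI
      rw [if_pos]
      push_cast
      constructor <;> linarith
    · exact CW.JI_nonneg _ _ _
  have hnn : ∀ m : ℕ, 0 ≤ (if |ord m - c| ≤ 1 then (1 : ℝ) else 0) := fun m => by
    split_ifs <;> norm_num
  have e2 : Real.log (2 * T) ≤ 2 * Real.log T := by
    rw [Real.log_mul (by norm_num) (by linarith)]
    have : Real.log 2 ≤ Real.log T := Real.log_le_log (by norm_num) (by linarith)
    linarith
  have e1 : Real.log (T / 2) ≤ Real.log T := Real.log_le_log (by linarith) (by linarith)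
  have a1 := hone (T / 2) (by linarith)
  have a2 := hone T (by linarith)
  have a3 := hone (2 * T) (by linarith)
  unfold Mst
  have b1 := sum_union_le' hnn (Ib (T / 2)) (Ib T ∪ Ib (2 * T))
  have b2 := sum_union_le' hnn (Ib T) (Ib (2 * T))
  have c1 : C * Real.log (T / 2) ≤ C * Real.log T := by gcongr
  have c2 : C * Real.log (2 * T) ≤ C * (2 * Real.log T) := by gcongr
  linarith

/-- few zeros near the ends of the block -/
lemma edge_count (RH : RiemannHypothesis) : ∃ C : ℝ, 0 < C ∧ ∀ T : ℝ, 20 ≤ T →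
    (((Ib T).filter (fun n => ¬ (T + 6 * Real.log T + 1 < ord n ∧
      ord n ≤ 2 * T - 6 * Real.log T))).card : ℝ) ≤ C * Real.log T ^ 2 := by
  classical
  obtain ⟨C, hC, h⟩ := CW.range_count RH
  refine ⟨18 * C, by positivity, fun T hT => ?_⟩
  have hL1 : 1 ≤ Real.log T := CW.log_one_le (by linarith)
  set L := Real.log T with hL
  set k : ℕ := ⌈6 * L + 1⌉₊ with hk
  have hk1 : 6 * L + 1 ≤ k := Nat.le_ceil _
  have hk2 : (k : ℝ) ≤ 9 * L := by
    have := (Nat.ceil_lt_add_one (by linarith : 0 ≤ 6 * L + 1)).le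
    linarith
  have h1 := h T (by linarith) k T
  have h2 := h T (by linarith) k (2 * T - 6 * L)
  have hcard : (((Ib T).filter (fun n => ¬ (T + 6 * L + 1 < ord n ∧
      ord n ≤ 2 * T - 6 * L))).card : ℝ) ≤ ∑ n ∈ Ib T, (JI T k (ord n) + JI (2 * T - 6 * L) k (ord n)) := by
    rw [Finset.card_filter]
    push_cast
    refine Finset.sum_le_sum fun n hn => ?_
    obtain ⟨g1, g2, g3⟩ := mem_Ib.1 hn
    have j1 := CW.JI_nonneg (2 * T - 6 * L) k (ord n)
    have j2 := CW.JI_nonneg T k (ord n)
    by_cases h3 : T + 6 * L + 1 < ord n ∧ ord n ≤ 2 * T - 6 * L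
    · rw [if_neg (not_not.2 h3)]
      linarith
    · rw [if_pos h3]
      rcases not_and_or.1 h3 with h4 | h4
      · have : JI T k (ord n) = 1 := by
          unfold CW.JI; rw [if_pos ⟨g2, by linarith [not_lt.1 h4]⟩]
        linarith
      · have : JI (2 * T - 6 * L) k (ord n) = 1 := by
          unfold CW.JI; rw [if_pos ⟨not_le.1 h4, by linarith⟩]
        linarith
  rw [Finset.sum_add_distrib] at hcard
  have h3 : (k : ℝ) * (C * L) ≤ 9 * L * (C * L) := by gcongr
  calc _ ≤ _ := hcard
    _ ≤ 9 * L * (C * L) + 9 * L * (C * L) := by linarith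
    _ = _ := by ring

/-- **second moments of the number of neighbours** -/
theorem clu_zn (RH : RiemannHypothesis) (hE : S_ELM) : Clu zn zc := by
  classical
  obtain ⟨hE1, hE2, -⟩ := hE zn zc (zr_zn RH)
  obtain ⟨C1, hC1, hmid⟩ := nu_mid RH
  obtain ⟨C2, hC2, hunit⟩ := unit_nu RH
  obtain ⟨C3, hC3, hedge⟩ := edge_count RH
  have hpi := Real.pi_pos
  have hpi3 := Real.pi_gt_three
  have hpi4 := Real.pi_lt_d2
  refine ⟨C1 * (5 * 27 ^ 6) + 1, by positivity, fun X hX => ?_⟩
  have hX0 : 0 < X := by linarith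
  -- the logarithmic terms are small
  have hlog : ∀ᶠ T : ℝ in atTop, C3 * Real.log T ^ 2 * (C2 * Real.log T) ^ 2 ≤ T := by
    have h1 := (Real.isLittleO_pow_log_id_atTop (n := 4)).def
      (by positivity : 0 < 1 / (C3 * C2 ^ 2))
    filter_upwards [h1, eventually_ge_atTop 1] with T h2 h3
    have hl := Real.log_nonneg h3
    rw [Real.norm_eq_abs, Real.norm_eq_abs, id, abs_of_nonneg (by positivity),
      abs_of_nonneg (by linarith)] at h2
    calc C3 * Real.log T ^ 2 * (C2 * Real.log T) ^ 2 = (C3 * C2 ^ 2) * Real.log T ^ 4 := by ring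
      _ ≤ (C3 * C2 ^ 2) * (1 / (C3 * C2 ^ 2) * T) := by gcongr
      _ = T := by field_simp
  filter_upwards [hmid (2 * X) (by positivity), hE1, hlog,
    hE2.eventually (lt_mem_nhds (by norm_num : (1 / 2 : ℝ) < 1)), eventually_ge_atTop 20,
    Real.tendsto_log_atTop.eventually_ge_atTop (2 * Real.pi * (2 * (2 * X)) + 10)] with T hm
    ⟨m1, m2, m3, m4⟩ hlg hrat hT hLX
  intro K0
  have hT1 : 1 ≤ T := by linarith
  have hT0 : 0 < T := by linarith
  set L := Real.log T with hL
  have hL0 : 0 < L := by nlinarith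
  set W := 2 * Real.pi * (2 * X) / L with hW
  have hW0 : 0 < W := by positivity
  have hW1 : W ≤ 1 := by
    rw [hW, div_le_one hL0]; nlinarith
  set lam := lb zc T with hlam
  have hlL : L / (4 * Real.pi) < lam := by
    rw [lt_div_iff₀ (by positivity)] at hrat
    calc L / (4 * Real.pi) = 1 / 2 * (L / (2 * Real.pi)) := by field_simp; ring
      _ < lam := hrat
  have hMb : T * L ≤ 4 * Real.pi * Mb zc T := by
    have : lam = Mb zc T / T := rfl
    rw [this, div_lt_div_iff₀ (by positivity) hT0] at hlL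
    linarith
  have hXW : X / lam ≤ W := by
    rw [div_le_iff₀ m2, hW]
    calc X = 2 * Real.pi * (2 * X) / L * (L / (4 * Real.pi)) := by field_simp; ring
      _ ≤ _ := by gcongr
  have hlam1 : X < lam := by
    have : X * (4 * Real.pi) < L := by nlinarith
    calc X = X * (4 * Real.pi) / (4 * Real.pi) := by field_simp
      _ < L / (4 * Real.pi) := by gcongr
      _ < lam := hlL
  unfold Bk
  rw [zc_eq hT1, zc_eq (by linarith : 1 ≤ 2 * T), sum_Ioc_cast]
  change ∑ n ∈ Ib T, (∑ k ∈ Finset.Icc (-K0) K0,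
    (if |lam * (xt zn ((n : ℤ) + k) - xt zn (n : ℤ))| < X then (1 : ℝ) else 0)) ^ 2 ≤ _
  -- comparison with the number of neighbours
  have hcmp : ∀ n ∈ Ib T, ∑ k ∈ Finset.Icc (-K0) K0,
      (if |lam * (xt zn ((n : ℤ) + k) - xt zn (n : ℤ))| < X then (1 : ℝ) else 0) ≤
      ∑ m ∈ Mst T, (if |ord m - ord n| ≤ W then (1 : ℝ) else 0) := by
    intro n hn
    obtain ⟨g1, g2, g3⟩ := mem_Ib.1 hn
    have hxn : xt zn (n : ℤ) = ord n := by
      unfold xt
      rw [if_pos (by exact_mod_cast g1), Int.toNat_natCast]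
      unfold zn
      exact max_eq_left (by linarith)
    rw [← Finset.sum_filter, ← Finset.sum_filter, Finset.sum_const, Finset.sum_const, nsmul_eq_mul,
      nsmul_eq_mul, mul_one, mul_one]
    have hinj : ((Finset.Icc (-K0) K0).filter (fun k =>
        |lam * (xt zn ((n : ℤ) + k) - xt zn (n : ℤ))| < X)).card ≤
        ((Mst T).filter (fun m => |ord m - ord n| ≤ W)).card := by
      apply Finset.card_le_card_of_injOn (fun k => ((n : ℤ) + k).toNat)
      · intro k hk
        rw [Finset.mem_coe, Finset.mem_filter] at hk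
        have h1 := hk.2
        rw [hxn, abs_mul, abs_of_pos m2] at h1
        have h2 : |xt zn ((n : ℤ) + k) - ord n| < X / lam := by
          rw [lt_div_iff₀ m2]; linarith
        have h3 : X / lam < 1 := by rw [div_lt_one m2]; exact hlam1
        have hpos : 1 ≤ (n : ℤ) + k := by
          by_contra hc
          unfold xt at h2
          rw [if_neg hc, abs_sub_comm] at h2
          have h4 : (((n : ℤ) + k : ℤ) : ℝ) ≤ 0 := by exact_mod_cast (by omega)
          rw [abs_of_nonneg (by linarith)] at h2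
          linarith
        obtain ⟨m, hm⟩ : ∃ m : ℕ, (n : ℤ) + k = m := ⟨((n : ℤ) + k).toNat, by omega⟩
        rw [hm] at h2 hpos
        simp only [hm, Int.toNat_natCast]
        have hm1 : 1 ≤ m := by exact_mod_cast hpos
        have hxm : xt zn (m : ℤ) = zn m := by
          unfold xt
          rw [if_pos hpos, Int.toNat_natCast]
        rw [hxm] at h2
        have h5 : zn m = ord m := by
          unfold zn
          apply max_eq_left
          by_contra hc
          have : zn m = 1 := max_eq_right (not_le.1 hc).le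
          rw [this, abs_sub_comm, abs_of_nonneg (by linarith)] at h2
          linarith
        rw [h5] at h2
        have h6 := abs_lt.1 h2
        rw [Finset.mem_coe, Finset.mem_filter]
        refine ⟨?_, by linarith⟩
        unfold Mst
        rw [Finset.mem_union, Finset.mem_union]
        by_cases h7 : ord m ≤ T
        · left
          exact mem_Ib.2 ⟨hm1, by linarith, by linarith⟩
        · by_cases h8 : ord m ≤ 2 * T
          · right; left
            exact mem_Ib.2 ⟨hm1, not_le.1 h7, h8⟩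
          · right; right
            exact mem_Ib.2 ⟨hm1, not_le.1 h8, by linarith⟩
      · intro a ha b hb hab
        rw [Finset.mem_coe, Finset.mem_filter] at ha hb
        have hpos : ∀ k : ℤ, |lam * (xt zn ((n : ℤ) + k) - xt zn (n : ℤ))| < X → 1 ≤ (n : ℤ) + k := by
          intro k h1
          rw [hxn, abs_mul, abs_of_pos m2] at h1
          have h2 : |xt zn ((n : ℤ) + k) - ord n| < X / lam := by
            rw [lt_div_iff₀ m2]; linarith
          have h3 : X / lam < 1 := by rw [div_lt_one m2]; exact hlam1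
          by_contra hc
          unfold xt at h2
          rw [if_neg hc, abs_sub_comm] at h2
          have h4 : (((n : ℤ) + k : ℤ) : ℝ) ≤ 0 := by exact_mod_cast (by omega)
          rw [abs_of_nonneg (by linarith)] at h2
          linarith
        have h1 := hpos a ha.2
        have h2 := hpos b hb.2
        simp only at hab
        omega
    exact_mod_cast hinj
  have hnn : ∀ n : ℕ, 0 ≤ ∑ k ∈ Finset.Icc (-K0) K0,
      (if |lam * (xt zn ((n : ℤ) + k) - xt zn (n : ℤ))| < X then (1 : ℝ) else 0) := fun n =>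
    Finset.sum_nonneg fun _ _ => by split_ifs <;> norm_num
  rw [← Finset.sum_filter_add_sum_filter_not (Ib T)
    (fun n => T + 6 * L + 1 < ord n ∧ ord n ≤ 2 * T - 6 * L)]
  -- the middle
  have hA : ∑ n ∈ (Ib T).filter (fun n => T + 6 * L + 1 < ord n ∧ ord n ≤ 2 * T - 6 * L),
      (∑ k ∈ Finset.Icc (-K0) K0,
      (if |lam * (xt zn ((n : ℤ) + k) - xt zn (n : ℤ))| < X then (1 : ℝ) else 0)) ^ 2 ≤
      C1 * (5 * 27 ^ 6) * X ^ 8 * Mb zc T := by
    have h1 : ∑ n ∈ (Ib T).filter (fun n => T + 6 * L + 1 < ord n ∧ ord n ≤ 2 * T - 6 * L),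
      (∑ k ∈ Finset.Icc (-K0) K0,
      (if |lam * (xt zn ((n : ℤ) + k) - xt zn (n : ℤ))| < X then (1 : ℝ) else 0)) ^ 2 ≤
      ∑ n ∈ (Ib T).filter (fun n => T + 6 * L + 1 < ord n ∧ ord n ≤ 2 * T - 6 * L), nu T W n ^ 2 := by
      refine Finset.sum_le_sum fun n hn => ?_
      rw [Finset.mem_filter] at hn
      obtain ⟨hn1, hn2, hn3⟩ := hn
      apply pow_le_pow_left₀ (hnn n)
      refine (hcmp n hn1).trans (le_of_eq ?_)
      unfold nu
      symm
      apply Finset.sum_subset
      · unfold Mst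
        exact Finset.subset_union_left.trans Finset.subset_union_right
      · intro m hm hm2
        apply if_neg
        intro h2
        apply hm2
        rw [abs_le] at h2
        have hm1 : 1 ≤ m := by
          unfold Mst at hm
          rw [Finset.mem_union, Finset.mem_union] at hm
          rcases hm with h | h | h <;> exact (mem_Ib.1 h).1
        exact mem_Ib.2 ⟨hm1, by linarith, by linarith⟩
    refine (h1.trans hm).trans ?_
    have h2 : cK (2 * (2 * X)) ≤ Real.exp (1 / 2) * (27 * X) ^ 2 := by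
      unfold CW.cK
      apply mul_le_mul_of_nonneg_left _ (Real.exp_pos _).le
      have h3 : 1 ≤ 1 + 2 * Real.pi * (2 * (2 * X)) := by
        have : 0 ≤ 2 * Real.pi * (2 * (2 * X)) := by positivity
        linarith
      calc (1 + 2 * Real.pi * (2 * (2 * X))) ^ (5 / 4 : ℝ) ≤
          (1 + 2 * Real.pi * (2 * (2 * X))) ^ (2 : ℝ) :=
            Real.rpow_le_rpow_of_exponent_le h3 (by norm_num)
        _ = (1 + 2 * Real.pi * (2 * (2 * X))) ^ 2 := by rw [Real.rpow_two]
        _ ≤ _ := by
          apply pow_le_pow_left₀ (by linarith)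
          nlinarith
    have h4 : cK (2 * (2 * X)) ^ 3 ≤ 5 * 27 ^ 6 * X ^ 6 := by
      have h5 := (CW.cK_pos (by positivity : 0 ≤ 2 * (2 * X))).le
      have h6 : Real.exp (1 / 2) ^ 3 ≤ 5 := by
        rw [← Real.exp_nat_mul]
        have h7 : Real.exp (((3 : ℕ) : ℝ) * (1 / 2)) ≤ 5 := by
          have h8 : Real.exp (((3 : ℕ) : ℝ) * (1 / 2)) ^ 2 = Real.exp 1 ^ 3 := by
            rw [← Real.exp_nat_mul, ← Real.exp_nat_mul]; norm_num
          have h9 : Real.exp 1 ^ 3 ≤ 25 := by
            have h10 : Real.exp 1 ≤ 2.72 := by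
              have := Real.exp_one_lt_d9; linarith
            calc Real.exp 1 ^ 3 ≤ 2.72 ^ 3 := pow_le_pow_left₀ (Real.exp_pos _).le h10 3
              _ ≤ 25 := by norm_num
          nlinarith [Real.exp_pos (((3 : ℕ) : ℝ) * (1 / 2))]
        exact h7
      calc cK (2 * (2 * X)) ^ 3 ≤ (Real.exp (1 / 2) * (27 * X) ^ 2) ^ 3 := pow_le_pow_left₀ h5 h2 3
        _ = Real.exp (1 / 2) ^ 3 * (27 ^ 6 * X ^ 6) := by ring
        _ ≤ 5 * (27 ^ 6 * X ^ 6) := by gcongr
        _ = _ := by ring
    have h5 : T * L / (2 * Real.pi * (2 * X)) ≤ Mb zc T := by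
      rw [div_le_iff₀ (by positivity)]
      calc T * L ≤ 4 * Real.pi * Mb zc T := hMb
        _ ≤ Mb zc T * (2 * Real.pi * (2 * X)) := by
          have : 0 ≤ Mb zc T := by linarith
          nlinarith [mul_nonneg hpi.le this]
    have h6 : X ^ 6 ≤ X ^ 8 := pow_le_pow_right₀ hX (by norm_num)
    have h7 : 0 ≤ T * L / (2 * Real.pi * (2 * X)) := by positivity
    calc C1 * cK (2 * (2 * X)) ^ 3 * (T * L / (2 * Real.pi * (2 * X))) ≤
        C1 * (5 * 27 ^ 6 * X ^ 6) * Mb zc T := by gcongr
      _ ≤ C1 * (5 * 27 ^ 6 * X ^ 8) * Mb zc T := by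
        have : 0 ≤ Mb zc T := by linarith
        gcongr
      _ = _ := by ring
  -- the edges
  have hB : ∑ n ∈ (Ib T).filter (fun n => ¬ (T + 6 * L + 1 < ord n ∧ ord n ≤ 2 * T - 6 * L)),
      (∑ k ∈ Finset.Icc (-K0) K0,
      (if |lam * (xt zn ((n : ℤ) + k) - xt zn (n : ℤ))| < X then (1 : ℝ) else 0)) ^ 2 ≤
      X ^ 8 * Mb zc T := by
    have h1 : ∀ n ∈ (Ib T).filter (fun n => ¬ (T + 6 * L + 1 < ord n ∧ ord n ≤ 2 * T - 6 * L)),
        (∑ k ∈ Finset.Icc (-K0) K0,
        (if |lam * (xt zn ((n : ℤ) + k) - xt zn (n : ℤ))| < X then (1 : ℝ) else 0)) ^ 2 ≤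
        (C2 * L) ^ 2 := by
      intro n hn
      rw [Finset.mem_filter] at hn
      apply pow_le_pow_left₀ (hnn n)
      refine (hcmp n hn.1).trans (le_trans ?_ (hunit T hT (ord n)))
      refine Finset.sum_le_sum fun m _ => ?_
      split_ifs with h2 h3
      · exact le_rfl
      · exact absurd (h2.trans hW1) h3
      · norm_num
      · exact le_rfl
    have h2 := Finset.sum_le_card_nsmul _ _ _ h1
    rw [nsmul_eq_mul] at h2
    have h3 := hedge T hT
    have h4 : T ≤ Mb zc T := by
      have : T * (4 * Real.pi) ≤ T * L := by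
        apply mul_le_mul_of_nonneg_left _ hT0.le
        nlinarith
      nlinarith
    calc _ ≤ _ := h2
      _ ≤ C3 * L ^ 2 * (C2 * L) ^ 2 := by gcongr
      _ ≤ T := hlg
      _ ≤ Mb zc T := h4
      _ = 1 * Mb zc T := (one_mul _).symm
      _ ≤ X ^ 8 * Mb zc T := by
        have : 0 ≤ Mb zc T := by linarith
        apply mul_le_mul_of_nonneg_right (one_le_pow₀ hX) this
  calc _ ≤ C1 * (5 * 27 ^ 6) * X ^ 8 * Mb zc T + X ^ 8 * Mb zc T := add_le_add hA hB
    _ = _ := by ring

end Pool.Agent.H478.ON
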